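import Pool.Agent.Lib.MP_1ef7cf_nt_h.Mg.G006
import Pool.Agent.Lib.MP_1ef7cf_nt_g.Mg.G042
import Pool.Agent.Lib.MP_1ef7cf_nt_h.Defs

section

/-!
# The elements of `Nk` as fixed elements
-/

open Complex

namespace Pool.Agent.STh

open Pool.Agent.STg

variable (U : UD) (k : ℕ)

lemma V3c_M_pos : 0 < U.M k := by
  unfold UD.M
  exact Nat.mul_pos (pow_pos two_pos k) (Nat.pos_of_ne_zero U.n0)

lemma V3c_zq_mem : zq (U.M k) ∈ Qb := by
  have hM : ((U.M k : ℕ) : ℂ) ≠ 0 := Nat.cast_ne_zero.mpr (V3c_M_pos U k).ne'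
  have h1 : zq (U.M k) ^ (U.M k) = 1 := by
    unfold zq
    rw [← Complex.exp_nat_mul]
    have h2 : ((U.M k : ℕ) : ℂ) * (2 * Real.pi * I / (U.M k : ℕ)) = 2 * Real.pi * I := by
      field_simp
    rw [h2, Complex.exp_two_pi_mul_I]
  unfold Qb
  rw [mem_algebraicClosure_iff']
  refine IsIntegral.of_pow (n := U.M k) (V3c_M_pos U k) ?_
  rw [h1]
  exact isIntegral_one

lemma V3c_rat_mem (q : ℚ) : (q : ℂ) ∈ Qb := by
  have h1 := Qb.algebraMap_mem q
  simpa using h1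

lemma V3c_int_mem (n : ℤ) : (n : ℂ) ∈ Qb := by
  have h1 := V3c_rat_mem (n : ℚ)
  rwa [Rat.cast_intCast] at h1

lemma V3c_e_mem : (U.e : ℂ) ∈ Qb := by
  have h1 : (U.e : ℂ) ^ 2 + 0 * (U.e : ℂ) + ((-(U.d : ℤ) : ℤ) : ℂ) = 0 := by
    have h2 : ((U.e ^ 2 : ℝ) : ℂ) = ((U.d : ℝ) : ℂ) := by rw [U.e_sq]
    push_cast at h2 ⊢
    linear_combination h2
  exact mem_Qb_of_quad (zero_mem _) (V3c_int_mem _) h1

lemma V3c_r_mem : (U.r : ℂ) ∈ Qb := by
  have h1 : (U.r : ℂ) ^ 2 + 0 * (U.r : ℂ) + (-(U.e : ℂ)) = 0 := by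
    have h2 : ((U.r ^ 2 : ℝ) : ℂ) = (U.e : ℂ) := by rw [U.r_sq]
    push_cast at h2
    linear_combination h2
  exact mem_Qb_of_quad (zero_mem _) (neg_mem (V3c_e_mem U)) h1

lemma V3c_cq_mem : (cq (U.M k) : ℂ) ∈ Qb := by
  have h1 : (cq (U.M k) : ℂ) = (zq (U.M k) + (zq (U.M k))⁻¹) / ((2 : ℤ) : ℂ) := by
    rw [← conj_zq, zq_eq, map_add, map_mul, Complex.conj_ofReal, Complex.conj_ofReal,
      Complex.conj_I]
    unfold cq
    push_cast
    ring
  rw [h1]
  exact div_mem (add_mem (V3c_zq_mem U k) (inv_mem (V3c_zq_mem U k))) (V3c_int_mem 2)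

/-- elements of `Rk` are algebraic -/
lemma Rk_mem_Qb {x : ℝ} (hx : x ∈ Rk U k) : (x : ℂ) ∈ Qb := by
  unfold Rk at hx
  induction hx using IntermediateField.adjoin_induction with
  | mem x hx =>
    rcases hx with rfl | rfl
    · exact V3c_r_mem U
    · exact V3c_cq_mem U k
  | algebraMap q =>
    have h1 := V3c_rat_mem q
    simpa using h1
  | add x y _ _ hx hy =>
    rw [Complex.ofReal_add]
    exact add_mem hx hy
  | inv x _ hx =>
    rw [Complex.ofReal_inv]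
    exact inv_mem hx
  | mul x y _ _ hx hy =>
    rw [Complex.ofReal_mul]
    exact mul_mem hx hy

/-- **Fixed elements.** An algebraic number which is fixed by all embeddings fixing `i`, `r`, `ζ` is
in `Nk = ℚ(i, r, ζ)`. -/
theorem mem_Nk_of_fixed {x : ℂ} (hx : x ∈ Qb)
    (h : ∀ h : Qb →+* ℂ, ap h I = I → ap h (U.r : ℂ) = (U.r : ℂ) →
      ap h (zq (U.M k)) = zq (U.M k) → ap h x = x) : x ∈ Nk U k := by
  have hI : I ∈ Nk U k := IntermediateField.subset_adjoin ℚ _ (by simp)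
  have hr : (U.r : ℂ) ∈ Nk U k := IntermediateField.subset_adjoin ℚ _ (by simp)
  have hz : zq (U.M k) ∈ Nk U k := IntermediateField.subset_adjoin ℚ _ (by simp)
  have hIQ : I ∈ Qb := by
    refine mem_Qb_of_quad (zero_mem _) (one_mem _) (t := I) ?_
    simp
  set F : IntermediateField ℚ ℂ := Nk U k with hF
  let K : IntermediateField F ℂ := algebraicClosure F ℂ
  have hQK : ∀ y ∈ Qb, y ∈ K := by
    intro y hy
    have h1 : IsAlgebraic ℚ y := mem_algebraicClosure_iff.mp hy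
    exact mem_algebraicClosure_iff.mpr (h1.extendScalars (algebraMap ℚ F).injective)
  have hfix : ∀ σ : K ≃ₐ[F] K, σ ⟨x, hQK x hx⟩ = ⟨x, hQK x hx⟩ := by
    intro σ
    let i : Qb →+* K :=
      { toFun := fun y => ⟨(y : ℂ), hQK y y.2⟩
        map_one' := rfl
        map_mul' := fun _ _ => rfl
        map_zero' := rfl
        map_add' := fun _ _ => rfl }
    let g : Qb →+* ℂ := (algebraMap K ℂ).comp ((σ : K →+* K).comp i)
    have hg : ∀ (y : ℂ) (hy : y ∈ Qb), ap g y = ((σ ⟨y, hQK y hy⟩ : K) : ℂ) := by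
      intro y hy
      rw [ap_of_mem g hy]
      rfl
    have hgF : ∀ y : ℂ, y ∈ Qb → y ∈ F → ap g y = y := by
      intro y hy hyF
      rw [hg y hy]
      have h2 : (⟨y, hQK y hy⟩ : K) = algebraMap F K ⟨y, hyF⟩ := rfl
      rw [h2, σ.commutes]
      rfl
    have h3 := h g (hgF I hIQ hI) (hgF _ (V3c_r_mem U) hr) (hgF _ (V3c_zq_mem U k) hz)
    rw [hg x hx] at h3
    exact Subtype.ext h3
  have : IsGalois F K := inferInstance
  have hbot := (InfiniteGalois.mem_bot_iff_fixed (k := F) (K := K) (⟨x, hQK x hx⟩ : K)).mpr hfix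
  rw [IntermediateField.mem_bot] at hbot
  obtain ⟨y, hy⟩ := hbot
  have h4 : (y : ℂ) = x := congrArg (fun z : K => (z : ℂ)) hy
  rw [← h4]
  exact y.2

end Pool.Agent.STh
end

section

/-!
# Sums over primary Gaussian integers in a residue class
-/

open NumberField IsDedekindDomain Pool.Agent.ST

namespace Pool.Agent.STh

open Pool.Agent.STg

/-! Adapt `MP_1ef7cf_nt_g/S7a.lean` (`δ` there is `n` here). -/

/-- the primary Gaussian integers prime to `n` -/
abbrev PD (U : UD) : Type := {β : GaussianInt // Prim β ∧ IsCoprime β ((U.n : ℕ) : GaussianInt)}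

/-- absolute convergence for `Re w > 1` -/
lemma summable_gN (U : UD) {w : ℂ} (hw : 1 < w.re) :
    Summable (fun β : PD U => (gN β.1 : ℂ) ^ (-w)) := by
  have hw' : 2 < 2 * w.re := by linarith
  have hs := EisensteinSeries.summable_one_div_norm_rpow hw'
  have hinj : Function.Injective (fun β : PD U => (![β.1.re, β.1.im] : Fin 2 → ℤ)) := by
    intro a b h
    have h0 := congrFun h 0
    have h1 := congrFun h 1
    simp at h0 h1
    exact Subtype.ext (Zsqrtd.ext h0 h1)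
  have hs' := hs.comp_injective hinj
  rw [← summable_norm_iff]
  refine Summable.of_nonneg_of_le (fun β => norm_nonneg _) (fun β => ?_) hs'
  have hβ0 : β.1 ≠ 0 := by
    intro h
    have h1 := β.2.1.odd
    rw [h] at h1
    simp [gOdd, gN] at h1
  have hN := gN_pos hβ0
  rw [Complex.norm_natCast_cpow_of_pos hN, Complex.neg_re]
  show ((gN β.1 : ℕ) : ℝ) ^ (-w.re) ≤ ‖(![β.1.re, β.1.im] : Fin 2 → ℤ)‖ ^ (-(2 * w.re))
  have hle : ‖(![β.1.re, β.1.im] : Fin 2 → ℤ)‖ ^ 2 ≤ (gN β.1 : ℝ) := by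
    have h2 : ((gN β.1 : ℕ) : ℝ) = (β.1.re : ℝ) * β.1.re + (β.1.im : ℝ) * β.1.im := by
      exact_mod_cast Q_gN β.1
    rw [h2]
    have h3 : ‖(![β.1.re, β.1.im] : Fin 2 → ℤ)‖ ≤
        Real.sqrt ((β.1.re : ℝ) * β.1.re + (β.1.im : ℝ) * β.1.im) := by
      rw [pi_norm_le_iff_of_nonneg (Real.sqrt_nonneg _)]
      intro i
      fin_cases i
      · refine Real.le_sqrt_of_sq_le ?_
        show ‖β.1.re‖ ^ 2 ≤ _
        rw [Int.norm_eq_abs, sq_abs]
        nlinarith [mul_self_nonneg (β.1.im : ℝ)]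
      · refine Real.le_sqrt_of_sq_le ?_
        show ‖β.1.im‖ ^ 2 ≤ _
        rw [Int.norm_eq_abs, sq_abs]
        nlinarith [mul_self_nonneg (β.1.re : ℝ)]
    calc ‖(![β.1.re, β.1.im] : Fin 2 → ℤ)‖ ^ 2 ≤
        Real.sqrt ((β.1.re : ℝ) * β.1.re + (β.1.im : ℝ) * β.1.im) ^ 2 :=
          pow_le_pow_left₀ (norm_nonneg _) h3 2
      _ = _ := Real.sq_sqrt (add_nonneg (mul_self_nonneg _) (mul_self_nonneg _))
  have hpos : 0 < ‖(![β.1.re, β.1.im] : Fin 2 → ℤ)‖ := by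
    rw [norm_pos_iff]
    intro h
    have h0 := congrFun h 0
    have h1 := congrFun h 1
    simp at h0 h1
    exact hβ0 (Zsqrtd.ext h0 h1)
  have h4 : ‖(![β.1.re, β.1.im] : Fin 2 → ℤ)‖ ^ (-(2 * w.re)) =
      (‖(![β.1.re, β.1.im] : Fin 2 → ℤ)‖ ^ 2) ^ (-w.re) := by
    rw [← Real.rpow_natCast, ← Real.rpow_mul hpos.le]
    congr 1
    push_cast
    ring
  rw [h4]
  exact Real.rpow_le_rpow_of_nonpos (by positivity) hle (by linarith)

/-- One class, as `STg.exists_G` (with the additional assertion `G 0 = 0`, which holds since `E 0 = 0`; copy the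
proof, it is not possible to deduce it from the statement). -/
lemma exists_G (D : LemData) {f a : GaussianInt} (hf : ¬ IsUnit f) (hf0 : f ≠ 0)
    (ha : IsCoprime a f) : ∃ G : ℂ → ℂ, DifferentiableOn ℂ G {1}ᶜ ∧ G 0 = 0 ∧
      (∀ w : ℂ, 1 < w.re → HasSum (fun c : GaussianInt => (gN (a + f * c) : ℂ) ^ (-w)) (G w)) ∧
      deriv G 0 = ((D.c₀ - 2 * D.ell ((a : ℂ) / (f : ℂ)) : ℝ) : ℂ) := by
  have hz : (a : ℂ) / (f : ℂ) ∉ Lam := div_notMem hf hf0 ha
  obtain ⟨E, hE, hsum, h0, hd⟩ := D.kron _ hz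
  have hf' : (f : ℂ) ≠ 0 := fun h => hf0 (GaussianInt.toComplex_eq_zero.1 h)
  have hfpos : 0 < ‖(f : ℂ)‖ := norm_pos_iff.2 hf'
  have hfc : ((‖(f : ℂ)‖ : ℝ) : ℂ) ≠ 0 := by exact_mod_cast hfpos.ne'
  have hdp : Differentiable ℂ (fun w : ℂ => ((‖(f : ℂ)‖ : ℝ) : ℂ) ^ (-2 * w)) := by
    intro w
    exact (((differentiableAt_const (-2 : ℂ)).mul differentiableAt_id).const_cpow (Or.inl hfc))
  refine ⟨fun w => ((‖(f : ℂ)‖ : ℝ) : ℂ) ^ (-2 * w) * E w, hdp.differentiableOn.mul hE,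
    by simp only [h0, mul_zero], ?_, ?_⟩
  · intro w hw
    have h1 : (fun c : GaussianInt => (gN (a + f * c) : ℂ) ^ (-w)) = fun c : GaussianInt =>
        ((‖(f : ℂ)‖ : ℝ) : ℂ) ^ (-2 * w) *
          ((‖(a : ℂ) / (f : ℂ) + (c : ℂ)‖ : ℝ) : ℂ) ^ (-2 * w) := by
      funext c
      have hc0 : a + f * c ≠ 0 := by
        intro h
        have h2 : (a : ℂ) + (f : ℂ) * (c : ℂ) = 0 := by
          have h3 := congrArg GaussianInt.toComplex h
          simpa using h3
        apply hz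
        refine ⟨-c, ?_⟩
        show ((-c : GaussianInt) : ℂ) = (a : ℂ) / (f : ℂ)
        rw [GaussianInt.toComplex_neg, eq_div_iff hf']
        linear_combination -h2
      rw [← norm_cpow _ hc0 w, ← Complex.mul_cpow_ofReal_nonneg (norm_nonneg _) (norm_nonneg _),
        ← Complex.ofReal_mul, ← norm_mul]
      congr 3
      rw [GaussianInt.toComplex_add, GaussianInt.toComplex_mul]
      field_simp
    rw [h1]
    exact (hsum w hw).mul_left _
  · have hE0 : DifferentiableAt ℂ E 0 :=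
      (hE 0 (by simp)).differentiableAt (isOpen_compl_singleton.mem_nhds (by simp))
    have h1 := ((hdp 0).hasDerivAt.mul hE0.hasDerivAt).deriv
    simp only [h0, mul_zero, zero_add, Complex.cpow_zero, one_mul, hd] at h1
    exact h1

end Pool.Agent.STh
end
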