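import Pool.Agent.Lib.MP_1ef7cf_nt_h.Mg.G006
import Pool.Agent.Lib.MP_1ef7cf_nt_h.F08

section

/-!
# Two successive levels: the fields
-/

open Complex

namespace Pool.Agent.STh

open Pool.Agent.STg

/-! Adapt `MP_1ef7cf_nt_g/U2b.lean`. Here `M (k + 1) = 2 M k`, `64 ∣ M k`. -/

variable (U : UD)

private lemma U2b_Mpos (k : ℕ) : (0 : ℝ) < (U.M k : ℝ) := by
  exact_mod_cast Nat.pos_of_ne_zero (UD.M_ne_zero U k)

private lemma U2b_Msucc (k : ℕ) : ((U.M (k + 1) : ℕ) : ℝ) = 2 * (U.M k : ℝ) := by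
  rw [UD.M_succ]
  push_cast
  ring

private lemma U2b_ck (k : ℕ) :
    cq (U.M k) = cq (U.M (k + 1)) * cq (U.M (k + 1)) + cq (U.M (k + 1)) * cq (U.M (k + 1)) - 1 := by
  have h0 := U2b_Mpos U k
  have h1 : 2 * Real.pi / (U.M k : ℝ) = 2 * (2 * Real.pi / ((U.M (k + 1) : ℕ) : ℝ)) := by
    rw [U2b_Msucc]
    field_simp
  unfold cq
  rw [h1, Real.cos_two_mul]
  ring

/-- `Rk` increases with `k` (double angle formula) -/
lemma Rk_le (k : ℕ) : Rk U k ≤ Rk U (k + 1) := by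
  have h1 : U.r ∈ Rk U (k + 1) := UD.r_mem U (k + 1)
  have h2 : cq (U.M (k + 1)) ∈ Rk U (k + 1) := cq_mem U (k + 1)
  unfold Rk
  rw [IntermediateField.adjoin_le_iff]
  rintro x (rfl | rfl)
  · exact h1
  · rw [U2b_ck U k]
    exact (Rk U (k + 1)).sub_mem ((Rk U (k + 1)).add_mem ((Rk U (k + 1)).mul_mem h2 h2)
      ((Rk U (k + 1)).mul_mem h2 h2)) (Rk U (k + 1)).one_mem

private lemma U2b_int_cq (Q : ℕ) : IsIntegral ℚ (cq Q) := by
  have h := isIntegral_two_mul_cos_rat_mul_pi (2 / (Q : ℚ))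
  have h0 : IsIntegral ℤ (2 * Real.cos ((((2 / (Q : ℚ) : ℚ)) : ℝ) * Real.pi)) := by
    rw [← isIntegral_algebraMap_iff (B := ℂ) (algebraMap ℝ ℂ).injective]
    have he : algebraMap ℝ ℂ (2 * Real.cos ((((2 / (Q : ℚ) : ℚ)) : ℝ) * Real.pi))
        = 2 * Complex.cos ((((2 / (Q : ℚ) : ℚ)) : ℂ) * Real.pi) := by
      show ((2 * Real.cos ((((2 / (Q : ℚ) : ℚ)) : ℝ) * Real.pi) : ℝ) : ℂ) = _
      push_cast
      rfl
    rw [he]
    exact h
  have h1 : IsIntegral ℚ (2 * Real.cos ((((2 / (Q : ℚ) : ℚ)) : ℝ) * Real.pi)) := h0.tower_top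
  have h2 : cq Q = (1 / 2 : ℚ) • (2 * Real.cos ((((2 / (Q : ℚ) : ℚ)) : ℝ) * Real.pi)) := by
    rw [Algebra.smul_def]
    simp only [eq_ratCast]
    push_cast
    unfold cq
    have : 2 * Real.pi / (Q : ℝ) = 2 / (Q : ℝ) * Real.pi := by ring
    rw [this]
    ring
  rw [h2]
  exact h1.smul _

private lemma U2b_int_r : IsIntegral ℚ U.r := by
  refine IsIntegral.of_pow (n := 2) (by norm_num) ?_
  rw [UD.r_sq]
  refine IsIntegral.of_pow (n := 2) (by norm_num) ?_
  rw [UD.e_sq]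
  have : (U.d : ℝ) = algebraMap ℚ ℝ (U.d : ℚ) := by simp
  rw [this]
  exact isIntegral_algebraMap

private lemma U2b_alg (k : ℕ) : Algebra.IsAlgebraic ℚ (Rk U k) := by
  unfold Rk
  refine IntermediateField.isAlgebraic_adjoin ?_
  rintro x (rfl | rfl)
  · exact U2b_int_r U
  · exact U2b_int_cq _

private lemma U2b_range {F L : Type*} [Field F] [Field L] [Algebra F L] [Algebra F ℂ]
    [Algebra.IsAlgebraic F L] [CharZero F] (x : L) (z : ℂ) (h : ∀ ψ : L →ₐ[F] ℂ, ψ x = z) :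
    x ∈ (algebraMap F L).range := by
  have hint : IsIntegral F x := (Algebra.IsAlgebraic.isAlgebraic x).isIntegral
  have hsep : (minpoly F x).Separable := (minpoly.irreducible hint).separable
  have hspl : ((minpoly F x).map (algebraMap F ℂ)).Splits := IsAlgClosed.splits _
  have h1 := Algebra.IsAlgebraic.range_eval_eq_rootSet_minpoly_of_splits (F := F) (K := L) ℂ
    (fun x => IsAlgClosed.splits _) x
  have h2 := Polynomial.card_rootSet_eq_natDegree hsep hspl
  have h3 : (minpoly F x).rootSet ℂ ⊆ {z} := by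
    rw [← h1]
    rintro _ ⟨ψ, rfl⟩
    exact h ψ
  have h4 : Fintype.card ((minpoly F x).rootSet ℂ) ≤ 1 := by
    rw [Fintype.card_le_one_iff_subsingleton]
    constructor
    rintro ⟨a, ha⟩ ⟨b, hb⟩
    apply Subtype.ext
    show a = b
    rw [h3 ha, h3 hb]
  rw [h2] at h4
  have h5 := minpoly.natDegree_pos hint
  have h6 : (minpoly F x).natDegree = 1 := le_antisymm h4 h5
  refine minpoly.mem_range_of_degree_eq_one F x ?_
  rw [Polynomial.degree_eq_natDegree (minpoly.ne_zero hint), h6]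
  rfl

private lemma U2b_ext {F F' : IntermediateField ℚ ℝ} (hF : F ≤ F')
    (halg : Algebra.IsAlgebraic ℚ F') (φ : F →+* ℂ) : ∃ φ' : F' →+* ℂ,
    ∀ x ∈ F, ap φ' x = ap φ x := by
  let a1 : Algebra F ℂ := φ.toAlgebra
  let a2 : Algebra F F' := (IntermediateField.inclusion hF).toRingHom.toAlgebra
  have t : IsScalarTower ℚ F F' := by
    refine IsScalarTower.of_algebraMap_eq ?_
    intro q
    exact ((IntermediateField.inclusion hF).commutes q).symm
  have h4 : Algebra.IsAlgebraic F F' := Algebra.IsAlgebraic.tower_top (K := ℚ) _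
  let ψ : F' →ₐ[F] ℂ := IsAlgClosed.lift
  refine ⟨ψ.toRingHom, ?_⟩
  intro x hx
  rw [ap_of_mem _ (hF hx), ap_of_mem _ hx]
  exact ψ.commutes ⟨x, hx⟩

private lemma U2b_fixed {F F' : IntermediateField ℚ ℝ} (hF : F ≤ F')
    (halg : Algebra.IsAlgebraic ℚ F') {x : ℝ} (hx : x ∈ F')
    (h : ∀ φ' : F' →+* ℂ, (∀ z ∈ F, ap φ' z = z) → ap φ' x = x) : x ∈ F := by
  let φ : F →+* ℂ := (Complex.ofRealHom).comp F.val.toRingHom
  let a1 : Algebra F ℂ := φ.toAlgebra
  let a2 : Algebra F F' := (IntermediateField.inclusion hF).toRingHom.toAlgebra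
  have t : IsScalarTower ℚ F F' := by
    refine IsScalarTower.of_algebraMap_eq ?_
    intro q
    exact ((IntermediateField.inclusion hF).commutes q).symm
  have h4 : Algebra.IsAlgebraic F F' := Algebra.IsAlgebraic.tower_top (K := ℚ) _
  have h5 : (⟨x, hx⟩ : F') ∈ (algebraMap F F').range := by
    refine U2b_range _ (x : ℂ) ?_
    intro ψ
    have h6 := h ψ.toRingHom ?_
    · rw [ap_of_mem _ hx] at h6
      exact h6
    · intro z hz
      rw [ap_of_mem _ (hF hz)]
      exact ψ.commutes ⟨z, hz⟩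
  obtain ⟨y, hy⟩ := h5
  have h7 : (y : ℝ) = x := congrArg Subtype.val hy
  rw [← h7]
  exact y.2

/-- every embedding of `Rk U k` extends to `Rk U (k + 1)` -/
lemma exists_ext_succ {k : ℕ} (φ : Rk U k →+* ℂ) : ∃ φ' : Rk U (k + 1) →+* ℂ,
    ∀ x ∈ Rk U k, ap φ' x = ap φ x :=
  U2b_ext (Rk_le U k) (U2b_alg U (k + 1)) φ

/-- an element of `Rk U (k + 1)` which is fixed by all embeddings in `ℂ` which are the identity on
`Rk U k`, is in `Rk U k`. -/
lemma mem_Rk_of_fixed {k : ℕ} {x : ℝ} (hx : x ∈ Rk U (k + 1))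
    (h : ∀ φ' : Rk U (k + 1) →+* ℂ, (∀ z ∈ Rk U k, ap φ' z = z) → ap φ' x = x) : x ∈ Rk U k :=
  U2b_fixed (Rk_le U k) (U2b_alg U (k + 1)) hx h

/-- if `cos (2 π m / Q) = cos (2 π m' / Q)`, `m, m'` both `1` modulo `4`, `4 ∣ Q`, then
`m = m'` modulo `Q` (`m = m'` or `m = -m'` modulo `Q`) -/
lemma nu_eq_of_cos {k m m' : ℕ} (hm : m % 4 = 1) (hm' : m' % 4 = 1) (hmn : m.Coprime (U.M k))
    (hmn' : m'.Coprime (U.M k))
    (h : Real.cos (2 * Real.pi * m / U.M k) = Real.cos (2 * Real.pi * m' / U.M k)) :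
    nu (U.M k) m = nu (U.M k) m' := by
  have hpi := Real.pi_pos
  have hQ := U2b_Mpos U k
  rw [nu_eq_iff hmn hmn']
  rw [Real.cos_eq_cos_iff] at h
  obtain ⟨j, hj | hj⟩ := h
  · have h1 : (m' : ℝ) = j * U.M k + m := by
      field_simp at hj
      linarith
    have h2 : (m' : ℤ) - m = U.M k * j := by
      have : ((m' : ℤ) : ℝ) = ((j * U.M k + m : ℤ) : ℝ) := by
        push_cast
        exact h1
      have h3 := Int.cast_injective this
      rw [h3]
      ring
    rw [Nat.modEq_iff_dvd]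
    exact ⟨j, h2⟩
  · have h1 : (m' : ℝ) = j * U.M k - m := by
      field_simp at hj
      linarith
    have h2 : (m' : ℤ) + m = U.M k * j := by
      have : ((m' : ℤ) : ℝ) = ((j * U.M k - m : ℤ) : ℝ) := by
        push_cast
        exact h1
      have h3 := Int.cast_injective this
      rw [h3]
      ring
    exfalso
    obtain ⟨c, hc⟩ := UD.dvd64 U k
    rw [hc] at h2
    push_cast at h2
    have h3 : (64 : ℤ) * c * j = 4 * (16 * c * j) := by ring
    rw [h3] at h2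
    generalize (16 : ℤ) * c * j = q at h2
    omega

/-- double angle: if `φ' (cq (M (k + 1))) = cos (2 π m / M (k + 1))` then
`φ' (cq (M k)) = cos (2 π m / M k)` -/
lemma ap_cq_succ {k m : ℕ} (φ' : Rk U (k + 1) →+* ℂ)
    (h : ap φ' (cq (U.M (k + 1))) = (Real.cos (2 * Real.pi * m / U.M (k + 1)) : ℂ)) :
    ap φ' (cq (U.M k)) = (Real.cos (2 * Real.pi * m / U.M k) : ℂ) := by
  have h0 := U2b_Mpos U k
  have h2 : cq (U.M (k + 1)) ∈ Rk U (k + 1) := cq_mem U (k + 1)
  have h3 : cq (U.M (k + 1)) * cq (U.M (k + 1)) ∈ Rk U (k + 1) := (Rk U (k + 1)).mul_mem h2 h2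
  have h4 : 2 * Real.pi * m / (U.M k : ℝ) = 2 * (2 * Real.pi * m / ((U.M (k + 1) : ℕ) : ℝ)) := by
    rw [U2b_Msucc]
    field_simp
  rw [h4, Real.cos_two_mul, U2b_ck U k, ap_sub φ' ((Rk U (k + 1)).add_mem h3 h3)
    (Rk U (k + 1)).one_mem, ap_add φ' h3 h3, ap_mul φ' h2 h2, ap_one, h]
  push_cast
  ring

end Pool.Agent.STh
end

section

/-!
# The two descriptions of the field
-/

open NumberField IsDedekindDomain Pool.Agent.ST IntermediateField

namespace Pool.Agent.STh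

open Pool.Agent.STg Pool.Agent.STh.F

/-! Adapt `MP_1ef7cf_nt_g/Z1a.lean`. -/

variable {K : Type*} [Field K] [NumberField K] [Algebra K ℝ] {σ₂ : K →+* ℝ} {a : 𝓞 K}

lemma a_eq (U : UD) (D : FD σ₂ U.d a) : algebraMap K ℝ (a : K) = U.e := D.alg

lemma se_eq (U : UD) (D : FD σ₂ U.d a) : se a = U.r := by
  unfold se UD.r
  rw [a_eq U D]

/-- `K = ℚ(a)`: `FD.adjoin` -/
lemma mem_adjoin_e (U : UD) (D : FD σ₂ U.d a) (x : K) :
    algebraMap K ℝ x ∈ IntermediateField.adjoin ℚ {U.e} := by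
  have h1 : x ∈ IntermediateField.adjoin ℚ {(a : K)} := by
    rw [D.adjoin]
    exact IntermediateField.mem_top
  have h2 : (IsScalarTower.toAlgHom ℚ K ℝ) x ∈
      (IntermediateField.adjoin ℚ {(a : K)}).map (IsScalarTower.toAlgHom ℚ K ℝ) :=
    ⟨x, h1, rfl⟩
  rw [IntermediateField.adjoin_map, Set.image_singleton] at h2
  rw [← a_eq U D]
  exact h2

/-- The two descriptions of the field. -/
theorem mem_Lf_iff (U : UD) (D : FD σ₂ U.d a) (k : ℕ) (x : ℝ) :
    x ∈ Lf a (U.M k) ↔ x ∈ Rk U k := by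
  have hr : U.r ∈ Rk U k := UD.r_mem U k
  have hc : cq (U.M k) ∈ Rk U k := cq_mem U k
  have he : U.e ∈ Rk U k := by
    rw [← UD.r_sq U]
    exact pow_mem hr 2
  have hle : IntermediateField.adjoin ℚ {U.e} ≤ Rk U k :=
    IntermediateField.adjoin_le_iff.2 (Set.singleton_subset_iff.2 he)
  have hK : ∀ x : K, algebraMap K ℝ x ∈ (Rk U k).toSubfield :=
    fun x => hle (mem_adjoin_e U D x)
  constructor
  · intro hx
    have h1 : Lf a (U.M k) ≤ (Rk U k).toSubfield.toIntermediateField hK := by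
      refine sup_le ?_ ?_
      · refine IntermediateField.adjoin_le_iff.2 (Set.singleton_subset_iff.2 ?_)
        change se a ∈ Rk U k
        rw [se_eq U D]
        exact hr
      · refine IntermediateField.adjoin_le_iff.2 (Set.singleton_subset_iff.2 ?_)
        exact hc
    exact h1 hx
  · intro hx
    have h1 : Rk U k ≤ (Lf a (U.M k)).restrictScalars ℚ := by
      refine IntermediateField.adjoin_le_iff.2 ?_
      rintro y (rfl | rfl)
      · change U.r ∈ Lf a (U.M k)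
        rw [← se_eq U D]
        exact F.se_mem a (U.M k)
      · exact F.cos_mem a (U.M k)
    exact h1 hx

end Pool.Agent.STh
end
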