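import Pool.Agent.Lib.MP_1ef7cf_nt_g.Mg.G023
import Pool.Agent.Lib.MP_1ef7cf_nt_g.Mg.G021
import Pool.Agent.Lib.MP_1ef7cf_nt_g.Mg.G019
import Pool.Agent.Lib.MP_1ef7cf_nt_g.Mg.G025
import Pool.Agent.Lib.MP_1ef7cf_nt_h.F05
import Pool.Agent.Lib.MP_1ef7cf_nt_g.Mg.G040

section

/-!
# The residue symbol
-/

open NumberField IsDedekindDomain nonZeroDivisors IntermediateField

namespace Pool.Agent.STh.F

open Pool.Agent.ST

variable {K : Type*} [Field K] [NumberField K] [Algebra K ℝ]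

/-! Adapt `MP_1ef7cf_nt_g/F02.lean`, `F03.lean`, `F04.lean` (there `a` is a unit `e`; here `a ∉ v` replaces this).
`STg.F.odd_absNorm`, `STg.F.F03_pow`, `STg.F.ideal_induction` there can be used directly. -/

theorem chiP_sq (a : 𝓞 K) (v : Ideal (𝓞 K)) : chiP a v = 1 ∨ chiP a v = -1 := by
  unfold chiP
  split_ifs
  · exact Or.inl rfl
  · exact Or.inr rfl

theorem chiP_spec (a : 𝓞 K) (v : HeightOneSpectrum (𝓞 K)) (h2 : (2 : 𝓞 K) ∉ v.asIdeal)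
    (ha : a ∉ v.asIdeal) :
    a ^ ((Ideal.absNorm v.asIdeal - 1) / 2) - ((chiP a v.asIdeal : ℤ) : 𝓞 K) ∈ v.asIdeal := by
  haveI : Finite (𝓞 K ⧸ v.asIdeal) := Ideal.finiteQuotientOfFreeOfNeBot v.asIdeal v.ne_bot
  haveI : v.asIdeal.IsMaximal := v.isMaximal
  letI : Field (𝓞 K ⧸ v.asIdeal) := Ideal.Quotient.field v.asIdeal
  haveI : Fintype (𝓞 K ⧸ v.asIdeal) := Fintype.ofFinite _
  have h1 : Ideal.absNorm v.asIdeal = Fintype.card (𝓞 K ⧸ v.asIdeal) := by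
    rw [Ideal.absNorm_apply, Submodule.cardQuot_apply, Nat.card_eq_fintype_card]
  have hc : ringChar (𝓞 K ⧸ v.asIdeal) ≠ 2 := by
    intro hc
    apply h2
    have : ((2 : ℕ) : 𝓞 K ⧸ v.asIdeal) = 0 := (ringChar.spec _ 2).2 (by rw [hc])
    rw [← Ideal.Quotient.eq_zero_iff_mem]
    rw [map_ofNat]
    exact_mod_cast this
  have hodd := STg.F.odd_absNorm v h2
  have h3 : (Ideal.absNorm v.asIdeal - 1) / 2 = Fintype.card (𝓞 K ⧸ v.asIdeal) / 2 := by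
    rw [← h1]
    obtain ⟨k, hk⟩ := hodd
    omega
  have hu : (Ideal.Quotient.mk v.asIdeal a) ≠ 0 := by
    rw [Ne, Ideal.Quotient.eq_zero_iff_mem]
    exact ha
  rw [← Ideal.Quotient.eq_zero_iff_mem, map_sub, map_pow, map_intCast, h3, sub_eq_zero]
  have hd := FiniteField.pow_dichotomy hc hu
  have hs := FiniteField.isSquare_iff hc hu
  unfold chiP
  split_ifs with hsq
  · rw [hs.1 hsq]
    simp
  · rcases hd with hd | hd
    · exact absurd (hs.2 hd) hsq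
    · rw [hd]
      simp

theorem chiP_eq_of (a : 𝓞 K) (v : HeightOneSpectrum (𝓞 K)) (h2 : (2 : 𝓞 K) ∉ v.asIdeal)
    (ha : a ∉ v.asIdeal) {s : ℤ} (hs : s = 1 ∨ s = -1)
    (h : a ^ ((Ideal.absNorm v.asIdeal - 1) / 2) - ((s : ℤ) : 𝓞 K) ∈ v.asIdeal) :
    chiP a v.asIdeal = s := by
  have h1 := chiP_spec a v h2 ha
  have h3 := v.asIdeal.sub_mem h1 h
  have h4 : ((s - chiP a v.asIdeal : ℤ) : 𝓞 K) ∈ v.asIdeal := by
    have : ((s - chiP a v.asIdeal : ℤ) : 𝓞 K) = (a ^ ((Ideal.absNorm v.asIdeal - 1) / 2) -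
      ((chiP a v.asIdeal : ℤ) : 𝓞 K)) - (a ^ ((Ideal.absNorm v.asIdeal - 1) / 2) - ((s : ℤ) : 𝓞 K)) := by
      push_cast
      ring
    rw [this]
    exact h3
  rcases chiP_sq a v.asIdeal with hc | hc <;> rcases hs with hs | hs
  · rw [hc, hs]
  · exfalso
    rw [hc, hs] at h4
    norm_num at h4
    exact h2 h4
  · exfalso
    rw [hc, hs] at h4
    norm_num at h4
    exact h2 h4
  · rw [hc, hs]

/-- the residue symbol of an element congruent to an integer -/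
theorem chiP_int (a : 𝓞 K) (v : HeightOneSpectrum (𝓞 K)) (h2 : (2 : 𝓞 K) ∉ v.asIdeal)
    (ha : a ∉ v.asIdeal) (x : ℤ) (h : a - (x : 𝓞 K) ∈ v.asIdeal) :
    chiP a v.asIdeal = jacobiSym x (Ideal.absNorm v.asIdeal) := by
  haveI : Finite (𝓞 K ⧸ v.asIdeal) := Ideal.finiteQuotientOfFreeOfNeBot v.asIdeal v.ne_bot
  haveI : v.asIdeal.IsMaximal := v.isMaximal
  letI : Field (𝓞 K ⧸ v.asIdeal) := Ideal.Quotient.field v.asIdeal
  haveI : Fintype (𝓞 K ⧸ v.asIdeal) := Fintype.ofFinite _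
  have h1 : Ideal.absNorm v.asIdeal = Fintype.card (𝓞 K ⧸ v.asIdeal) := by
    rw [Ideal.absNorm_apply, Submodule.cardQuot_apply, Nat.card_eq_fintype_card]
  obtain ⟨p, hp⟩ := CharP.exists (𝓞 K ⧸ v.asIdeal)
  obtain ⟨f, hpp, hf⟩ := FiniteField.card (𝓞 K ⧸ v.asIdeal) p
  haveI : Fact p.Prime := ⟨hpp⟩
  have hpv : ((p : ℤ) : 𝓞 K) ∈ v.asIdeal := by
    rw [← Ideal.Quotient.eq_zero_iff_mem, map_intCast]
    exact_mod_cast CharP.cast_eq_zero (𝓞 K ⧸ v.asIdeal) p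
  have hp2 : p ≠ 2 := by
    rintro rfl
    apply h2
    exact_mod_cast hpv
  have he0 : ((x : ZMod p)) ≠ 0 := by
    intro h0
    have h3 : (p : ℤ) ∣ x := (ZMod.intCast_zmod_eq_zero_iff_dvd x p).1 h0
    have h4 : (x : 𝓞 K) ∈ v.asIdeal := by
      obtain ⟨c, rfl⟩ := h3
      push_cast
      exact v.asIdeal.mul_mem_right _ (by exact_mod_cast hpv)
    have h5 : a ∈ v.asIdeal := by
      have := v.asIdeal.add_mem h h4
      rwa [sub_add_cancel] at this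
    exact ha h5
  have hN : Ideal.absNorm v.asIdeal = p ^ (f : ℕ) := by rw [h1, hf]
  have hJ : jacobiSym x (Ideal.absNorm v.asIdeal) = (legendreSym p x) ^ (f : ℕ) := by
    rw [hN, jacobiSym.pow_right, jacobiSym.legendreSym.to_jacobiSym]
  have hleg : legendreSym p x = 1 ∨ legendreSym p x = -1 := legendreSym.eq_one_or_neg_one p he0
  rw [hJ]
  apply chiP_eq_of a v h2 ha
  · rcases hleg with hl | hl
    · rw [hl]; simp
    · rw [hl]; exact neg_one_pow_eq_or ℤ f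
  · have h6 : a ^ ((Ideal.absNorm v.asIdeal - 1) / 2) - ((x : 𝓞 K)) ^ ((Ideal.absNorm v.asIdeal - 1) / 2) ∈
        v.asIdeal := by
      have := sub_dvd_pow_sub_pow a (x : 𝓞 K) ((Ideal.absNorm v.asIdeal - 1) / 2)
      exact Ideal.mem_of_dvd _ this h
    have h7 : ((x : 𝓞 K)) ^ ((Ideal.absNorm v.asIdeal - 1) / 2) - (((legendreSym p x) ^ (f : ℕ) : ℤ) : 𝓞 K) ∈
        v.asIdeal := by
      have h8 : ((x ^ ((Ideal.absNorm v.asIdeal - 1) / 2) - (legendreSym p x) ^ (f : ℕ) : ℤ) : ZMod p) = 0 := by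
        push_cast
        rw [hN, STg.F.F03_pow p hp2 x f, sub_self]
      have h9 := (ZMod.intCast_zmod_eq_zero_iff_dvd _ p).1 h8
      obtain ⟨c, hc⟩ := h9
      have h10 : ((x : 𝓞 K)) ^ ((Ideal.absNorm v.asIdeal - 1) / 2) - (((legendreSym p x) ^ (f : ℕ) : ℤ) : 𝓞 K)
          = ((p : ℤ) : 𝓞 K) * (c : 𝓞 K) := by
        have := congrArg (fun z : ℤ => (z : 𝓞 K)) hc
        push_cast at this ⊢
        exact this
      rw [h10]
      exact v.asIdeal.mul_mem_right _ hpv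
    have := v.asIdeal.add_mem h6 h7
    rwa [sub_add_sub_cancel] at this

end Pool.Agent.STh.F
end

section

/-!
# Frobenius automorphisms on the generators
-/

open NumberField IsDedekindDomain nonZeroDivisors IntermediateField

namespace Pool.Agent.STh.F

open Pool.Agent.ST

variable {K : Type*} [Field K] [NumberField K] [Algebra K ℝ] {σ₂ : K →+* ℝ} {d : ℕ} {a : 𝓞 K}

private lemma F06_aux (H : IntermediateField K ℝ) (a : 𝓞 K) (s : 𝓞 H)
    (hs2 : s ^ 2 = algebraMap (𝓞 K) (𝓞 H) a)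
    (v : HeightOneSpectrum (𝓞 K)) (h2 : (2 : 𝓞 K) ∉ v.asIdeal) (ha : a ∉ v.asIdeal)
    (P : Ideal (𝓞 H)) [P.IsPrime]
    (hP : P.under (𝓞 K) = v.asIdeal) (x : 𝓞 H)
    (hφ : x - s ^ Ideal.absNorm v.asIdeal ∈ P)
    (hx : x = -((chiP a v.asIdeal : ℤ) : 𝓞 H) * s) : False := by
  have hmem : ∀ y : 𝓞 K, y ∈ v.asIdeal → algebraMap (𝓞 K) (𝓞 H) y ∈ P := by
    intro y hy
    rw [← hP] at hy
    exact hy
  have hodd := STg.F.odd_absNorm v h2
  obtain ⟨j, hj⟩ := hodd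
  have hspec := chiP_spec a v h2 ha
  have hj2 : (Ideal.absNorm v.asIdeal - 1) / 2 = j := by omega
  rw [hj2] at hspec
  have h3 := hmem _ hspec
  rw [map_sub, map_pow, map_intCast, ← hs2] at h3
  have h4 : s ^ Ideal.absNorm v.asIdeal - ((chiP a v.asIdeal : ℤ) : 𝓞 H) * s ∈ P := by
    have h5 := P.mul_mem_left s h3
    have h6 : s * ((s ^ 2) ^ j - ((chiP a v.asIdeal : ℤ) : 𝓞 H)) =
        s ^ Ideal.absNorm v.asIdeal - ((chiP a v.asIdeal : ℤ) : 𝓞 H) * s := by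
      rw [hj]; ring
    rwa [h6] at h5
  have h7 := P.add_mem hφ h4
  have h8 : (2 : 𝓞 H) * s ∈ P := by
    have h9 : x - s ^ Ideal.absNorm v.asIdeal + (s ^ Ideal.absNorm v.asIdeal -
        ((chiP a v.asIdeal : ℤ) : 𝓞 H) * s) = -((chiP a v.asIdeal : ℤ) : 𝓞 H) * (2 * s) := by
      rw [hx]; ring
    rw [h9] at h7
    rcases chiP_sq a v.asIdeal with hc | hc
    · rw [hc] at h7
      push_cast at h7
      rw [neg_one_mul] at h7
      exact P.neg_mem_iff.1 h7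
    · rw [hc] at h7
      push_cast at h7
      rwa [neg_neg, one_mul] at h7
  rcases (inferInstance : P.IsPrime).mem_or_mem h8 with h | h
  · apply h2
    rw [← hP]
    change algebraMap (𝓞 K) (𝓞 H) 2 ∈ P
    rwa [map_ofNat]
  · have h10 : s ^ 2 ∈ P := P.pow_mem_of_mem h 2 (by norm_num)
    rw [hs2] at h10
    apply ha
    rw [← hP]
    exact h10

private lemma F06_inj (H : IntermediateField K ℝ) {a b : 𝓞 H} (h : ((a : H) : ℝ) = ((b : H) : ℝ)) :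
    a = b := RingOfIntegers.ext (Subtype.ext h)

private lemma F06_dickson (H : IntermediateField K ℝ) (n : ℕ) (y z : 𝓞 H) (θ : ℝ)
    (hy : ((y : H) : ℝ) = 2 * Real.cos θ) (hz : ((z : H) : ℝ) = 2 * Real.cos (n * θ)) :
    z = (Polynomial.dickson 1 (1 : 𝓞 H) n).eval y := by
  apply F06_inj
  obtain ⟨f, hf⟩ : ∃ f : 𝓞 H →+* ℝ, ∀ x, f x = ((x : H) : ℝ) :=
    ⟨(algebraMap H ℝ).comp (algebraMap (𝓞 H) H), fun x => rfl⟩
  rw [hz, ← STg.F.dickson_cos, ← hy, ← hf, ← hf, ← Polynomial.eval_map_apply,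
    Polynomial.map_dickson, map_one]

/-- Adapt `MP_1ef7cf_nt_g/F17.lean` (`frob_sqrt`). -/
theorem frob_sqrt (D : FD σ₂ d a) (H : IntermediateField K ℝ) (hH : se a ∈ H)
    (v : HeightOneSpectrum (𝓞 K)) (h2 : (2 : 𝓞 K) ∉ v.asIdeal) (ha : a ∉ v.asIdeal)
    (P : Ideal (𝓞 H)) [P.IsPrime] (hP : P.under (𝓞 K) = v.asIdeal) (φ : H ≃ₐ[K] H)
    (hφ : ∀ x : 𝓞 H, φ • x - x ^ Ideal.absNorm v.asIdeal ∈ P) :
    act φ (se a) = (chiP a v.asIdeal : ℝ) * se a := by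
  have hr2 : se a ^ 2 = algebraMap K ℝ (a : K) := D.se_sq
  have hsq : (⟨se a, hH⟩ : H) ^ 2 = algebraMap K H (a : K) := Subtype.ext hr2
  have hint : IsIntegral ℤ (⟨se a, hH⟩ : H) := by
    apply IsIntegral.of_pow (n := 2) (by norm_num)
    rw [hsq]
    exact (RingOfIntegers.isIntegral_coe a).algebraMap
  obtain ⟨s, hs⟩ : ∃ s : 𝓞 H, (s : H) = ⟨se a, hH⟩ := ⟨⟨⟨se a, hH⟩, hint⟩, rfl⟩
  have hs2 : s ^ 2 = algebraMap (𝓞 K) (𝓞 H) a := by
    apply RingOfIntegers.coe_injective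
    rw [map_pow]
    exact (congrArg (· ^ 2) hs).trans hsq
  rw [act_of_mem φ hH]
  have hφ2 : (φ ⟨se a, hH⟩) ^ 2 = (⟨se a, hH⟩ : H) ^ 2 := by
    rw [← map_pow, hsq, φ.commutes]
  have hcoe : (((φ • s : 𝓞 H)) : H) = φ ⟨se a, hH⟩ := by
    rw [← hs]; rfl
  have hcm : ∀ c : ℤ, (((-((c : ℤ) : 𝓞 H) * s : 𝓞 H)) : H) = -(c : H) * ⟨se a, hH⟩ := by
    intro c
    rw [← hs]
    simp
  have key := F06_aux H a s hs2 v h2 ha P hP (φ • s) (hφ s)
  rcases sq_eq_sq_iff_eq_or_eq_neg.1 hφ2 with h | h <;> rcases chiP_sq a v.asIdeal with hc | hc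
  · rw [h, hc]; simp
  · exfalso
    apply key
    apply RingOfIntegers.ext
    refine Eq.trans ?_ (hcm _).symm
    rw [hc]
    refine hcoe.trans ?_
    rw [h]
    simp
  · exfalso
    apply key
    apply RingOfIntegers.ext
    refine Eq.trans ?_ (hcm _).symm
    rw [hc]
    refine hcoe.trans ?_
    rw [h]
    simp
  · rw [h, hc]; simp

/-- Let `y = 2 cos (2 π / Q)`, `φ y = 2 cos (2 π n / Q)` (`exists_act_cos`), `z = 2 cos (2 π N(v) / Q)`; `N(v) = p ^ f`, `p ∈ v`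
(`STg.F.absNorm_pow`), `z = y ^ (p ^ f)` modulo `p` (`STg.F.dickson_pow`, `STg.F.dickson_cos`), so `φ y - z ∈ P`. If `φ y ≠ z` then
`Q ^ 2 ∈ P` by `sub_dvd`, so `Q ∈ v`, a contradiction. -/
theorem frob_cos (H : IntermediateField K ℝ) {Q : ℕ} (hQ : Q ≠ 0)
    (hk : Real.cos (2 * Real.pi / Q) ∈ H) (v : HeightOneSpectrum (𝓞 K))
    (hv : (Q : 𝓞 K) ∉ v.asIdeal) (P : Ideal (𝓞 H)) [P.IsPrime]
    (hP : P.under (𝓞 K) = v.asIdeal) (φ : H ≃ₐ[K] H)
    (hφ : ∀ x : 𝓞 H, φ • x - x ^ Ideal.absNorm v.asIdeal ∈ P) :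
    act φ (Real.cos (2 * Real.pi / Q)) =
      Real.cos (2 * Real.pi * (Ideal.absNorm v.asIdeal : ℕ) / Q) := by
  obtain ⟨N, hNdef⟩ : ∃ N, N = Ideal.absNorm v.asIdeal := ⟨_, rfl⟩
  rw [← hNdef]
  obtain ⟨n, hn, hact⟩ := exists_act_cos hQ hk φ
  obtain ⟨y, hy⟩ := exists_y H hQ hk 1
  rw [Nat.cast_one, mul_one] at hy
  obtain ⟨y', hy'⟩ := exists_y H hQ hk n
  obtain ⟨z, hz⟩ := exists_y H hQ hk N
  have h2m : (2 : ℝ) ∈ H := by exact_mod_cast H.natCast_mem 2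
  have h9 : act φ (2 : ℝ) = 2 := by
    have h3 := act_algebraMap φ (2 : K)
    rwa [map_ofNat] at h3
  have hφy : φ • y = y' := by
    apply F06_inj
    have h5 : (((φ • y : 𝓞 H) : H) : ℝ) = act φ ((y : H) : ℝ) := by
      rw [act_coe]; rfl
    rw [h5, hy, hy', act_mul φ h2m hk, h9, hact]
  obtain ⟨p, f, hp, hf, hN, hpv⟩ := STg.F.absNorm_pow v
  have hz2 := F06_dickson H N y z (2 * Real.pi / Q) hy (by
    rw [hz]
    congr 2
    ring)
  have hdk := STg.F.dickson_pow hp f y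
  rw [← hN, ← hNdef, ← hz2] at hdk
  have hpP : (p : 𝓞 H) ∈ P := by
    have h3 : algebraMap (𝓞 K) (𝓞 H) (p : 𝓞 K) ∈ P := by
      rw [← hP] at hpv
      exact hpv
    rwa [map_natCast] at h3
  have h4 : z - y ^ N ∈ P := P.mem_of_dvd hdk hpP
  have h6 : y' - z ∈ P := by
    have h7 := P.sub_mem (hφ y) h4
    have h8 : φ • y - y ^ Ideal.absNorm v.asIdeal - (z - y ^ N) = y' - z := by
      rw [hφy, ← hNdef]
      ring
    rwa [h8] at h7
  by_cases hyz : y' = z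
  · rw [hact]
    rw [hyz] at hy'
    rw [hy'] at hz
    exact mul_left_cancel₀ two_ne_zero hz
  · exfalso
    have h10 := sub_dvd H hQ hy' hz hyz
    have h11 : ((Q : ℕ) : 𝓞 H) ^ 2 ∈ P := P.mem_of_dvd h10 h6
    have h12 : ((Q : ℕ) : 𝓞 H) ∈ P := (inferInstance : P.IsPrime).mem_of_pow_mem 2 h11
    apply hv
    rw [← hP]
    change algebraMap (𝓞 K) (𝓞 H) (Q : 𝓞 K) ∈ P
    rwa [map_natCast]

/-- `2 d ∣ Q`, so `2 ∉ v` and `a ∉ v` (`a ^ 2 = d`) -/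
theorem frob_co (D : FD σ₂ d a) (H : IntermediateField K ℝ) (hH : se a ∈ H) {Q : ℕ} (hQ : Q ≠ 0)
    (hdQ : 2 * d ∣ Q) (hk : Real.cos (2 * Real.pi / Q) ∈ H) (v : HeightOneSpectrum (𝓞 K))
    (hv : (Q : 𝓞 K) ∉ v.asIdeal) (P : Ideal (𝓞 H)) [P.IsPrime]
    (hP : P.under (𝓞 K) = v.asIdeal) (φ : H ≃ₐ[K] H)
    (hφ : ∀ x : 𝓞 H, φ • x - x ^ Ideal.absNorm v.asIdeal ∈ P) :
    Co a Q φ (chiP a v.asIdeal) (Ideal.absNorm v.asIdeal) := by
  obtain ⟨c, hc⟩ := hdQ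
  have h2 : (2 : 𝓞 K) ∉ v.asIdeal := by
    intro h
    apply hv
    rw [hc]
    push_cast
    exact v.asIdeal.mul_mem_right _ (v.asIdeal.mul_mem_right _ h)
  have ha : a ∉ v.asIdeal := by
    intro h
    apply hv
    rw [hc]
    push_cast
    refine v.asIdeal.mul_mem_right _ (v.asIdeal.mul_mem_left _ ?_)
    rw [← D.sq, sq]
    exact v.asIdeal.mul_mem_left _ h
  exact ⟨frob_sqrt D H hH v h2 ha P hP φ hφ, frob_cos H hQ hk v hv P hP φ hφ⟩

end Pool.Agent.STh.F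
end

section

/-!
# The primes of `K` over a prime number
-/

open NumberField IsDedekindDomain nonZeroDivisors IntermediateField

namespace Pool.Agent.STh.F

open Pool.Agent.ST

variable {K : Type*} [Field K] [NumberField K] [Algebra K ℝ] {σ₂ : K →+* ℝ} {d : ℕ} {a : 𝓞 K}

/-- an element `a - x` divisible by `p`: the trace gives `p ∣ 2 x` -/
lemma F03_dvd (D : FD σ₂ d a) {p : ℕ} {x : ℤ}
    (h : a - (x : 𝓞 K) ∈ Ideal.span {(p : 𝓞 K)}) : (p : ℤ) ∣ 2 * x := by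
  obtain ⟨z, hz⟩ := Ideal.mem_span_singleton'.1 h
  have hz' : (z : K) * (p : K) = (a : K) - (x : K) := by
    have := congrArg (fun y : 𝓞 K => (y : K)) hz
    push_cast at this
    exact this
  have h1 := congrArg (algebraMap K ℝ) hz'
  have h2 := congrArg σ₂ hz'
  simp only [map_mul, map_sub, map_natCast, map_intCast] at h1 h2
  rw [D.alg] at h1
  rw [D.sig] at h2
  have n1 := norm_real D z
  have n2 := norm_real D (1 + ((1 : ℤ) : 𝓞 K) * z)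
  rw [norm_one_add D 1 z] at n2
  push_cast at n2
  simp only [map_add, map_one, one_mul] at n2
  have h3 : ((Algebra.trace ℤ (𝓞 K) z : ℤ) : ℝ) = algebraMap K ℝ (z : K) + σ₂ (z : K) := by
    linear_combination n2 - n1
  refine ⟨-Algebra.trace ℤ (𝓞 K) z, ?_⟩
  have h4 : ((2 * x : ℤ) : ℝ) = (((p : ℤ) * -Algebra.trace ℤ (𝓞 K) z : ℤ) : ℝ) := by
    push_cast
    rw [h3]
    linear_combination h1 + h2
  exact_mod_cast h4

lemma F03_not_dvd {p : ℕ} (hp : p.Prime) (hpd : ¬ p ∣ 2 * d) {x : ℤ}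
    (hx : (p : ℤ) ∣ x ^ 2 - d) : ¬ (p : ℤ) ∣ 2 * x := by
  intro h
  have hpp : Prime (p : ℤ) := Nat.prime_iff_prime_int.1 hp
  rcases hpp.dvd_or_dvd h with h4 | h4
  · have h5 : p ∣ 2 := by exact_mod_cast h4
    exact hpd (h5.mul_right d)
  · have h5 : (p : ℤ) ∣ x ^ 2 := dvd_pow h4 two_ne_zero
    have h6 : (p : ℤ) ∣ (d : ℤ) := by
      have := dvd_sub h5 hx
      rwa [sub_sub_cancel] at this
    have h7 : p ∣ d := by exact_mod_cast h6
    exact hpd (h7.mul_left 2)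

omit [NumberField K] [Algebra K ℝ] in
lemma F03_two {P : HeightOneSpectrum (𝓞 K)} {p : ℕ} (hp : p.Prime) (hpd : ¬ p ∣ 2 * d)
    (hpP : (p : 𝓞 K) ∈ P.asIdeal) : (2 : 𝓞 K) ∉ P.asIdeal := by
  intro h
  have h1 : (p : ℤ) ∣ 2 := by
    apply STg.F.dvd_of_mem P hp hpP
    exact_mod_cast h
  have h3 : p ∣ 2 := by exact_mod_cast h1
  exact hpd (h3.mul_right d)

lemma F03_a (D : FD σ₂ d a) {P : HeightOneSpectrum (𝓞 K)} {p : ℕ} (hp : p.Prime)
    (hpd : ¬ p ∣ 2 * d) (hpP : (p : 𝓞 K) ∈ P.asIdeal) : a ∉ P.asIdeal := by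
  intro h
  have h1 : (p : ℤ) ∣ (d : ℤ) := by
    apply STg.F.dvd_of_mem P hp hpP
    have h2 : ((d : ℤ) : 𝓞 K) = a * a := by
      rw [← pow_two, D.sq]
      push_cast
      rfl
    rw [h2]
    exact Ideal.mul_mem_left _ _ h
  have h3 : p ∣ d := by exact_mod_cast h1
  exact hpd (h3.mul_left 2)

omit [Algebra K ℝ] in
lemma F03_eq_of_le {P R : HeightOneSpectrum (𝓞 K)} (h : P.asIdeal ≤ R.asIdeal) : R = P := by
  apply HeightOneSpectrum.ext
  exact (P.isMaximal.eq_of_le R.isPrime.ne_top h).symm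

/-- `p ∣ x ^ 2 - d`: `(a - x) (a + x) ∈ (p)` -/
lemma F03_prod (D : FD σ₂ d a) {p : ℕ} {x : ℤ} (hx : (p : ℤ) ∣ x ^ 2 - d) :
    (a - (x : 𝓞 K)) * (a - ((-x : ℤ) : 𝓞 K)) ∈ Ideal.span {(p : 𝓞 K)} := by
  obtain ⟨t, ht⟩ := hx
  refine Ideal.mem_span_singleton'.2 ⟨-(t : 𝓞 K), ?_⟩
  have h1 : ((x ^ 2 - (d : ℤ) : ℤ) : 𝓞 K) = ((p : ℤ) * t : ℤ) := by rw [ht]
  have h2 := D.sq
  push_cast at h1 ⊢
  linear_combination h1 - h2

/-- the split case, with the sign of `x` fixed by `P` -/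
lemma F03_split (D : FD σ₂ d a) {p : ℕ} (hp : p.Prime) (hpd : ¬ p ∣ 2 * d)
    {P Q : HeightOneSpectrum (𝓞 K)} (hPQ : Ideal.span {(p : 𝓞 K)} = P.asIdeal * Q.asIdeal)
    {x : ℤ} (hx : (p : ℤ) ∣ x ^ 2 - d) (hP : a - (x : 𝓞 K) ∈ P.asIdeal) :
    P ≠ Q ∧ a - ((-x : ℤ) : 𝓞 K) ∈ Q.asIdeal := by
  have hpP : (p : 𝓞 K) ∈ P.asIdeal := by
    have h2 : (p : 𝓞 K) ∈ Ideal.span {(p : 𝓞 K)} := Ideal.mem_span_singleton_self _
    rw [hPQ] at h2
    exact Ideal.mul_le_left h2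
  have hnP : a - ((-x : ℤ) : 𝓞 K) ∉ P.asIdeal := by
    intro h
    apply F03_not_dvd hp hpd hx
    apply STg.F.dvd_of_mem P hp hpP
    have h5 := P.asIdeal.sub_mem h hP
    have h6 : a - ((-x : ℤ) : 𝓞 K) - (a - (x : 𝓞 K)) = ((2 * x : ℤ) : 𝓞 K) := by
      push_cast
      ring
    rwa [h6] at h5
  have hprod := F03_prod D hx
  have hne : P ≠ Q := by
    rintro rfl
    have h1 : (a - ((-x : ℤ) : 𝓞 K)) * (a - (x : 𝓞 K)) ∈ P.asIdeal ^ 2 := by
      rw [pow_two, ← hPQ, mul_comm]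
      exact hprod
    have := P.isPrime
    rcases Ideal.IsPrime.mul_mem_pow P.asIdeal h1 with h2 | h2
    · exact hnP h2
    · rw [pow_two, ← hPQ] at h2
      exact F03_not_dvd hp hpd hx (F03_dvd D h2)
  refine ⟨hne, ?_⟩
  have h1 : (a - (x : 𝓞 K)) * (a - ((-x : ℤ) : 𝓞 K)) ∈ Q.asIdeal := by
    rw [hPQ] at hprod
    exact Ideal.mul_le_right hprod
  rcases Q.isPrime.mem_or_mem h1 with h2 | h2
  · exfalso
    have hcop : IsCoprime P.asIdeal Q.asIdeal := by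
      rw [Ideal.isCoprime_iff_sup_eq]
      refine P.isMaximal.coprime_of_ne Q.isMaximal (fun h => hne (HeightOneSpectrum.ext h))
    have h3 : a - (x : 𝓞 K) ∈ P.asIdeal * Q.asIdeal := by
      rw [Ideal.mul_eq_inf_of_isCoprime hcop]
      exact ⟨hP, h2⟩
    rw [← hPQ] at h3
    exact F03_not_dvd hp hpd hx (F03_dvd D h3)
  · exact h2

lemma F03_ndvd_int {p : ℕ} (hpd : ¬ p ∣ 2 * d) [Fact p.Prime] : (((d : ℕ) : ℤ) : ZMod p) ≠ 0 := by
  intro h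
  have h1 : (p : ℤ) ∣ (d : ℤ) := (ZMod.intCast_zmod_eq_zero_iff_dvd _ _).1 h
  have h3 : p ∣ d := by exact_mod_cast h1
  exact hpd (h3.mul_left 2)

/-- **Split primes.** Use `STg.F.decomp`, `STg.F.exists_int`, `STg.F.dvd_of_mem` (`MP_1ef7cf_nt_g/F08.lean`), see also
`typeK_split` in `MP_1ef7cf_nt_g/S3.lean`. There is an integer `x` with `p ∣ x ^ 2 - d`, `(a - x) (a + x) ∈ (p)`. Let
`P ∋ p` be a prime. `a - x ∈ P` or `a + x ∈ P`, not both (`2 x ∉ P`, as `p ∤ 2 d`). If `(p)` were prime, then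
`a - x = p z` or `a + x = p z`, and the trace (`trace a = 0`) gives `p ∣ 2 x`, a contradiction. So `(p) = P Q` with norms
`p`. `P = Q` would give that `a - x` or `a + x` is in `P ^ 2 = (p)` (the other factor is not in `P`),
the same contradiction. So `P ≠ Q`, `a ∓ x ∈ P`, and `a ± x ∈ Q` (otherwise `a ∓ x ∈ P ∩ Q = (p)`, the same
contradiction). `chiP_int` (with `x` or `-x` for `P`). -/
theorem typeK_split (D : FD σ₂ d a) {p : ℕ} (hp : p.Prime) (hpd : ¬ p ∣ 2 * d)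
    (h : jacobiSym d p = 1) : ∃ (P Q : HeightOneSpectrum (𝓞 K)) (x : ℤ), P ≠ Q ∧
      Ideal.absNorm P.asIdeal = p ∧ Ideal.absNorm Q.asIdeal = p ∧ (p : ℤ) ∣ x ^ 2 - d ∧
      chiP a P.asIdeal = jacobiSym x p ∧ chiP a Q.asIdeal = jacobiSym (-x) p ∧
      ∀ R : HeightOneSpectrum (𝓞 K), (p : 𝓞 K) ∈ R.asIdeal → R = P ∨ R = Q := by
  have hfact : Fact p.Prime := ⟨hp⟩
  rw [← jacobiSym.legendreSym.to_jacobiSym] at h
  obtain ⟨c, hc⟩ : ∃ c : ℤ, (p : ℤ) ∣ c ^ 2 - d := by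
    obtain ⟨r, hr⟩ := (legendreSym.eq_one_iff p (F03_ndvd_int hpd)).1 h
    obtain ⟨c, rfl⟩ := ZMod.intCast_surjective r
    refine ⟨c, (ZMod.intCast_zmod_eq_zero_iff_dvd _ _).1 ?_⟩
    push_cast at hr ⊢
    rw [hr]
    ring
  have hc' : (p : ℤ) ∣ (-c) ^ 2 - d := by rwa [neg_sq]
  rcases STg.F.decomp D.deg hp with ⟨v, hv, -⟩ | ⟨P, Q, hPQ, hP, hQ⟩
  · exfalso
    have hprod := F03_prod D hc
    rw [hv] at hprod
    rcases v.isPrime.mem_or_mem hprod with h1 | h1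
    · rw [← hv] at h1
      exact F03_not_dvd hp hpd hc (F03_dvd D h1)
    · rw [← hv] at h1
      exact F03_not_dvd hp hpd hc' (F03_dvd D h1)
  · have hpp : (p : 𝓞 K) ∈ P.asIdeal * Q.asIdeal := by
      rw [← hPQ]
      exact Ideal.mem_span_singleton_self _
    have hpP : (p : 𝓞 K) ∈ P.asIdeal := Ideal.mul_le_left hpp
    have hpQ : (p : 𝓞 K) ∈ Q.asIdeal := Ideal.mul_le_right hpp
    obtain ⟨x, hx, hxP⟩ : ∃ x : ℤ, (p : ℤ) ∣ x ^ 2 - d ∧ a - (x : 𝓞 K) ∈ P.asIdeal := by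
      have hprod := F03_prod D hc
      rw [hPQ] at hprod
      rcases P.isPrime.mem_or_mem (Ideal.mul_le_left hprod) with h1 | h1
      · exact ⟨c, hc, h1⟩
      · exact ⟨-c, hc', h1⟩
    obtain ⟨hne, hxQ⟩ := F03_split D hp hpd hPQ hx hxP
    refine ⟨P, Q, x, hne, hP, hQ, hx, ?_, ?_, fun R hR => ?_⟩
    · rw [chiP_int a P (F03_two hp hpd hpP) (F03_a D hp hpd hpP) x hxP, hP]
    · rw [chiP_int a Q (F03_two hp hpd hpQ) (F03_a D hp hpd hpQ) (-x) hxQ, hQ]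
    · have h1 : P.asIdeal * Q.asIdeal ≤ R.asIdeal := by
        rw [← hPQ, Ideal.span_singleton_le_iff_mem]
        exact hR
      rcases R.isPrime.mul_le.1 h1 with h2 | h2
      · exact Or.inl (F03_eq_of_le h2)
      · exact Or.inr (F03_eq_of_le h2)

/-- **Inert primes.** If there were a prime of norm `p` over `p`, `a` would be congruent to an integer `x`
modulo it (`STg.F.exists_int`), `p ∣ x ^ 2 - d`, contradiction to `(d / p) = -1`. So `(p) = P` is prime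
of norm `p ^ 2` (`STg.F.decomp`). `a ^ ((p ^ 2 - 1) / 2) = (a ^ (p - 1)) ^ ((p + 1) / 2)`,
`a ^ (p - 1) = d ^ ((p - 1) / 2) = -1` modulo `p`, so it is `(-1) ^ ((p + 1) / 2) = -χ₄(p)`; `chiP_eq_of`. -/
theorem typeK_inert (D : FD σ₂ d a) {p : ℕ} (hp : p.Prime) (hpd : ¬ p ∣ 2 * d)
    (h : jacobiSym d p = -1) : ∃ P : HeightOneSpectrum (𝓞 K),
      Ideal.absNorm P.asIdeal = p ^ 2 ∧ chiP a P.asIdeal = -ZMod.χ₄ (p : ZMod 4) ∧
      ∀ R : HeightOneSpectrum (𝓞 K), (p : 𝓞 K) ∈ R.asIdeal → R = P := by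
  have hfact : Fact p.Prime := ⟨hp⟩
  rw [← jacobiSym.legendreSym.to_jacobiSym] at h
  have hp2 : p ≠ 2 := by
    rintro rfl
    exact hpd (dvd_mul_right 2 d)
  have hodd : p % 2 = 1 := hp.eq_two_or_odd.resolve_left hp2
  rcases STg.F.decomp D.deg hp with ⟨P, hv, hN⟩ | ⟨P, Q, hPQ, hP, hQ⟩
  · have hpP : (p : 𝓞 K) ∈ P.asIdeal := by
      rw [← hv]
      exact Ideal.mem_span_singleton_self _
    refine ⟨P, hN, ?_, fun R hR => ?_⟩
    · have hχ : (ZMod.χ₄ (p : ZMod 4) : ℤ) = 1 ∧ p % 4 = 1 ∨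
          (ZMod.χ₄ (p : ZMod 4) : ℤ) = -1 ∧ p % 4 = 3 := by
        rcases (by omega : p % 4 = 1 ∨ p % 4 = 3) with h1 | h1
        · exact Or.inl ⟨ZMod.χ₄_nat_one_mod_four h1, h1⟩
        · exact Or.inr ⟨ZMod.χ₄_nat_three_mod_four h1, h1⟩
      have hpow : (-1 : ℤ) ^ ((p + 1) / 2) = -ZMod.χ₄ (p : ZMod 4) := by
        rcases hχ with ⟨h1, h2⟩ | ⟨h1, h2⟩
        · rw [h1, Odd.neg_one_pow]
          exact ⟨p / 4, by omega⟩
        · rw [h1, Even.neg_one_pow]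
          · ring
          · exact ⟨(p + 1) / 4, by omega⟩
      refine chiP_eq_of a P (F03_two hp hpd hpP) (F03_a D hp hpd hpP) ?_ ?_
      · rcases hχ with ⟨h1, h2⟩ | ⟨h1, h2⟩
        · right
          rw [h1]
        · left
          rw [h1]
          ring
      · rw [hN, ← hpow]
        obtain ⟨k, hk⟩ : ∃ k, p = 2 * k + 1 := ⟨p / 2, by omega⟩
        have e1 : (p ^ 2 - 1) / 2 = (2 * k) * ((p + 1) / 2) := by
          have e2 : (p + 1) / 2 = k + 1 := by omega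
          have e3 : p ^ 2 - 1 = 2 * ((2 * k) * (k + 1)) := by
            rw [hk]
            have : (2 * k + 1) ^ 2 = 2 * ((2 * k) * (k + 1)) + 1 := by ring
            rw [this, Nat.add_sub_cancel]
          rw [e2, e3, Nat.mul_div_cancel_left _ (by norm_num)]
        have e4 : a ^ (2 * k) - ((-1 : ℤ) : 𝓞 K) ∈ P.asIdeal := by
          have h1 := legendreSym.eq_pow p (d : ℤ)
          rw [h] at h1
          have h2 : ((-1 - (d : ℤ) ^ (p / 2) : ℤ) : ZMod p) = 0 := by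
            push_cast at h1 ⊢
            rw [h1]
            ring
          obtain ⟨t, ht⟩ := (ZMod.intCast_zmod_eq_zero_iff_dvd _ _).1 h2
          have e5 : p / 2 = k := by omega
          rw [e5] at ht
          have h3 : ((-1 - (d : ℤ) ^ k : ℤ) : 𝓞 K) = ((p : ℤ) * t : ℤ) := by rw [ht]
          have h4 : a ^ (2 * k) - ((-1 : ℤ) : 𝓞 K) = (-(t : 𝓞 K)) * (p : 𝓞 K) := by
            rw [pow_mul, D.sq]
            push_cast at h3 ⊢
            linear_combination -h3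
          rw [h4]
          exact Ideal.mul_mem_left _ _ hpP
        rw [e1, pow_mul]
        have e6 := sub_dvd_pow_sub_pow (a ^ (2 * k)) (((-1 : ℤ) : 𝓞 K)) ((p + 1) / 2)
        have e7 : (((-1 : ℤ) ^ ((p + 1) / 2) : ℤ) : 𝓞 K) = (((-1 : ℤ) : 𝓞 K)) ^ ((p + 1) / 2) := by
          push_cast
          rfl
        rw [e7]
        exact P.asIdeal.mem_of_dvd e6 e4
    · apply F03_eq_of_le
      rw [← hv, Ideal.span_singleton_le_iff_mem]
      exact hR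
  · exfalso
    have hpp : (p : 𝓞 K) ∈ P.asIdeal * Q.asIdeal := by
      rw [← hPQ]
      exact Ideal.mem_span_singleton_self _
    have hpP : (p : 𝓞 K) ∈ P.asIdeal := Ideal.mul_le_left hpp
    obtain ⟨x, hx⟩ := STg.F.exists_int P hp hP a
    have h1 : (p : ℤ) ∣ x ^ 2 - d := by
      apply STg.F.dvd_of_mem P hp hpP
      have h2 : ((x ^ 2 - (d : ℤ) : ℤ) : 𝓞 K) = -(a + x) * (a - x) := by
        have h3 := D.sq
        push_cast
        linear_combination h3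
      rw [h2]
      exact Ideal.mul_mem_left _ _ hx
    have h4 : legendreSym p (d : ℤ) = 1 := by
      rw [legendreSym.eq_one_iff p (F03_ndvd_int hpd)]
      refine ⟨(x : ZMod p), ?_⟩
      have h5 := (ZMod.intCast_zmod_eq_zero_iff_dvd _ _).2 h1
      push_cast at h5 ⊢
      linear_combination -h5
    rw [h4] at h
    norm_num at h

end Pool.Agent.STh.F
end
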