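import Pool.Agent.Lib.MP_1ef7cf_nt_h.Mg.G001
import Pool.Agent.Lib.MP_1ef7cf_nt_g.Mg.G024
import Pool.Agent.Lib.MP_1ef7cf_nt_g.Mg.G027

section

/-!
# The multiplicative extension of the residue symbol
-/

open NumberField IsDedekindDomain nonZeroDivisors IntermediateField

namespace Pool.Agent.STh.F

open Pool.Agent.ST

variable {K : Type*} [Field K] [NumberField K] [Algebra K ℝ]

/-! Adapt `MP_1ef7cf_nt_g/F04.lean` and `MP_1ef7cf_nt_g/S3a.lean`. -/

theorem chiI_mul (a : 𝓞 K) {I J : Ideal (𝓞 K)} (hI : I ≠ ⊥) (hJ : J ≠ ⊥) :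
    chiI a (I * J) = chiI a I * chiI a J := by
  unfold chiI
  rw [UniqueFactorizationMonoid.normalizedFactors_mul hI hJ, Multiset.map_add, Multiset.prod_add]

theorem chiI_prime (a : 𝓞 K) (v : HeightOneSpectrum (𝓞 K)) :
    chiI a v.asIdeal = chiP a v.asIdeal := by
  unfold chiI
  rw [UniqueFactorizationMonoid.normalizedFactors_irreducible v.irreducible, normalize_eq,
    Multiset.map_singleton, Multiset.prod_singleton]

theorem chiI_top (a : 𝓞 K) : chiI a ⊤ = 1 := by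
  unfold chiI
  rw [← Ideal.one_eq_top, UniqueFactorizationMonoid.normalizedFactors_one, Multiset.map_zero,
    Multiset.prod_zero]

theorem chiI_sq (a : 𝓞 K) (I : Ideal (𝓞 K)) : chiI a I = 1 ∨ chiI a I = -1 := by
  unfold chiI
  apply Multiset.prod_induction (fun x : ℤ => x = 1 ∨ x = -1)
  · rintro x y (rfl | rfl) (rfl | rfl) <;> simp
  · exact Or.inl rfl
  · intro x hx
    rw [Multiset.mem_map] at hx
    obtain ⟨v, _, rfl⟩ := hx
    exact chiP_sq a v

lemma chiK_of {a : 𝓞 K} {m I : Ideal (𝓞 K)} (hI : I ≠ ⊥) (h : IsCoprime I m) :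
    chiK a m I = chiI a I := by
  unfold chiK
  rw [if_pos ⟨hI, h⟩]

lemma chiK_of_not {a : 𝓞 K} {m I : Ideal (𝓞 K)} (h : ¬ (I ≠ ⊥ ∧ IsCoprime I m)) :
    chiK a m I = 0 := by
  unfold chiK
  rw [if_neg h]

/-- `chiK` is completely multiplicative -/
lemma cm_chiK (a : 𝓞 K) (m : Ideal (𝓞 K)) : CM (fun I => ((chiK a m I : ℤ) : ℂ)) := by
  classical
  refine ⟨?_, fun I J hI hJ => ?_⟩
  · have h1 : IsCoprime (⊤ : Ideal (𝓞 K)) m := by
      rw [← Ideal.one_eq_top]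
      exact isCoprime_one_left
    rw [chiK_of top_ne_bot h1, chiI_top]
    simp
  · by_cases h1 : IsCoprime I m
    · by_cases h2 : IsCoprime J m
      · rw [chiK_of (mul_ne_zero hI hJ) (h1.mul_left h2), chiK_of hI h1, chiK_of hJ h2,
          chiI_mul a hI hJ]
        push_cast
        ring
      · rw [chiK_of_not fun h3 => h2 (IsCoprime.mul_left_iff.mp h3.2).2,
          chiK_of_not (I := J) fun h3 => h2 h3.2]
        simp
    · rw [chiK_of_not fun h3 => h1 (IsCoprime.mul_left_iff.mp h3.2).1,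
        chiK_of_not (I := I) fun h3 => h1 h3.2]
      simp

/-- the ideals prime to `m` only depend on the prime divisors of `m` -/
lemma chiK_congr (a : 𝓞 K) {m m' : Ideal (𝓞 K)} (hm : m ≠ ⊥) (hm' : m' ≠ ⊥)
    (h : ∀ v : HeightOneSpectrum (𝓞 K), v.asIdeal ∣ m ↔ v.asIdeal ∣ m') (I : Ideal (𝓞 K)) :
    chiK a m I = chiK a m' I := by
  have key : ∀ {m m' : Ideal (𝓞 K)}, m' ≠ ⊥ →
      (∀ v : HeightOneSpectrum (𝓞 K), v.asIdeal ∣ m' → v.asIdeal ∣ m) →
      IsCoprime I m → IsCoprime I m' := by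
    intro m m' hm' h hI
    by_contra hcon
    rw [Ideal.isCoprime_iff_sup_eq] at hcon
    obtain ⟨M, hM, hle⟩ := Ideal.exists_le_maximal _ hcon
    have hM1 : I ≤ M := le_sup_left.trans hle
    have hM2 : m' ≤ M := le_sup_right.trans hle
    have hMne : M ≠ ⊥ := by
      rintro rfl
      exact hm' (le_bot_iff.mp hM2)
    let v : HeightOneSpectrum (𝓞 K) := ⟨M, hM.isPrime, hMne⟩
    have h1 : v.asIdeal ∣ m := h v (Ideal.dvd_iff_le.mpr hM2)
    have h2 : v.asIdeal ∣ I := Ideal.dvd_iff_le.mpr hM1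
    exact v.irreducible.not_isUnit (hI.isUnit_of_dvd' h2 h1)
  by_cases hI : I ≠ ⊥ ∧ IsCoprime I m
  · rw [chiK_of hI.1 hI.2, chiK_of hI.1 (key hm' (fun v hv => (h v).mpr hv) hI.2)]
  · rw [chiK_of_not hI, chiK_of_not fun h3 => hI ⟨h3.1, key hm (fun v hv => (h v).mp hv) h3.2⟩]

/-- `v ∤ m`: the ideals prime to `m v` are the ideals prime to `m` and not divisible by `v` -/
lemma chiK_mul_prime (a : 𝓞 K) {m : Ideal (𝓞 K)} (v : HeightOneSpectrum (𝓞 K)) (I : Ideal (𝓞 K))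
    (hI : ¬ v.asIdeal ∣ I) : chiK a (m * v.asIdeal) I = chiK a m I := by
  by_cases h : I ≠ ⊥ ∧ IsCoprime I m
  · have h1 : IsCoprime I v.asIdeal := (coprime_prime_iff.2 hI).symm
    rw [chiK_of h.1 h.2, chiK_of h.1 (h.2.mul_right h1)]
  · rw [chiK_of_not h, chiK_of_not fun h3 => h ⟨h3.1, (IsCoprime.mul_right_iff.mp h3.2).1⟩]

lemma chiK_mul_prime' (a : 𝓞 K) {m : Ideal (𝓞 K)} (v : HeightOneSpectrum (𝓞 K)) (I : Ideal (𝓞 K))
    (hI : v.asIdeal ∣ I) : chiK a (m * v.asIdeal) I = 0 := by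
  refine chiK_of_not fun h3 => ?_
  have h1 := (IsCoprime.mul_right_iff.mp h3.2).2
  exact v.irreducible.not_isUnit (h1.isUnit_of_dvd' hI dvd_rfl)

end Pool.Agent.STh.F
end

section

set_option autoImplicit false

open NumberField IsDedekindDomain nonZeroDivisors IntermediateField

namespace Pool.Agent.STg.F

open Pool.Agent.ST

variable {K : Type*} [Field K] [NumberField K] [Algebra K ℝ] {σ₂ : K →+* ℝ} {e : (𝓞 K)ˣ}

lemma F22_half (x : ℝ) (k : ℕ) : Real.cos (x / 2 ^ (k + 1)) ^ 2 =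
    (1 + Real.cos (x / 2 ^ k)) / 2 := by
  rw [Real.cos_sq]
  have : 2 * (x / 2 ^ (k + 1)) = x / 2 ^ k := by
    rw [pow_succ]; field_simp
  rw [this]; ring

lemma F22_act (k : ℕ) : ∀ (H : IntermediateField K ℝ) (_ : Real.cos (2 * Real.pi / 2 ^ k) ∈ H)
    (σ : H ≃ₐ[K] H), ∃ n : ℕ, act σ (Real.cos (2 * Real.pi / 2 ^ k)) =
      Real.cos (2 * Real.pi * n / 2 ^ k) := by
  induction k with
  | zero =>
    intro H _ σ
    refine ⟨1, ?_⟩
    simp [act_one_right]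
  | succ k ih =>
    intro H hk σ
    have hk' := cos_mem_of_le H (Nat.le_succ k) hk
    obtain ⟨n, hn⟩ := ih H hk' σ
    have h1 : (act σ (Real.cos (2 * Real.pi / 2 ^ (k + 1)))) ^ 2 =
        Real.cos (2 * Real.pi * n / 2 ^ (k + 1)) ^ 2 := by
      rw [← act_pow σ hk, F22_half, F22_half, ← hn]
      have h2 : (1 + Real.cos (2 * Real.pi / 2 ^ k)) / 2 =
          algebraMap K ℝ (1 / 2) + algebraMap K ℝ (1 / 2) * Real.cos (2 * Real.pi / 2 ^ k) := by
        simp only [map_div₀, map_one, map_ofNat]; ring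
      rw [h2, act_add σ (H.algebraMap_mem _) (mul_mem (H.algebraMap_mem _) hk'),
        act_mul σ (H.algebraMap_mem _) hk', act_algebraMap]
      simp only [map_div₀, map_one, map_ofNat]; ring
    rcases sq_eq_sq_iff_eq_or_eq_neg.1 h1 with h | h
    · exact ⟨n, h⟩
    · refine ⟨n + 2 ^ k, ?_⟩
      rw [h, ← Real.cos_add_pi]
      congr 1
      push_cast
      rw [pow_succ]
      field_simp

lemma F22_eq {H : IntermediateField K ℝ} {x : ℝ} (hx : H = K⟮x⟯) {γ δ : H ≃ₐ[K] H}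
    (h : act γ x = act δ x) : γ = δ := by
  subst hx
  have h2 : K⟮x⟯ ≤ eqField γ δ := by
    rw [adjoin_simple_le_iff]
    exact ⟨mem_adjoin_simple_self K x, h⟩
  apply act_ext
  intro y hy
  exact (h2 hy).2

lemma F22_cos_comm (k : ℕ) (γ δ : K⟮Real.cos (2 * Real.pi / 2 ^ k)⟯ ≃ₐ[K]
    K⟮Real.cos (2 * Real.pi / 2 ^ k)⟯) : γ * δ = δ * γ := by
  have hm := mem_adjoin_simple_self K (Real.cos (2 * Real.pi / 2 ^ k))
  apply F22_eq (x := Real.cos (2 * Real.pi / 2 ^ k)) rfl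
  obtain ⟨n, hn⟩ := F22_act k _ hm γ
  obtain ⟨m, hm'⟩ := F22_act k _ hm δ
  rw [act_comp _ _ hm, act_comp _ _ hm, hn, hm', act_cos_mul hm γ hn, act_cos_mul hm δ hm',
    mul_comm n m]

lemma F22_bot_normal : Normal K (⊥ : IntermediateField K ℝ) := inferInstance

lemma F22_step (k : ℕ) : K⟮Real.cos (2 * Real.pi / 2 ^ (k + 1))⟯ =
    sqrtExt K⟮Real.cos (2 * Real.pi / 2 ^ k)⟯ (Real.cos (2 * Real.pi / 2 ^ (k + 1)) ^ 2) := by
  have hm := mem_adjoin_simple_self K (Real.cos (2 * Real.pi / 2 ^ (k + 1)))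
  apply le_antisymm
  · rw [adjoin_simple_le_iff]
    have h1 := sqrt_mem_sqrtExt K⟮Real.cos (2 * Real.pi / 2 ^ k)⟯
      (Real.cos (2 * Real.pi / 2 ^ (k + 1)) ^ 2)
    rw [Real.sqrt_sq_eq_abs] at h1
    rcases abs_choice (Real.cos (2 * Real.pi / 2 ^ (k + 1))) with h | h
    · rwa [h] at h1
    · rw [h] at h1
      have := neg_mem h1
      rwa [neg_neg] at this
  · apply sqrtExt_le
    · rw [adjoin_simple_le_iff]
      exact cos_mem_of_le _ (Nat.le_succ k) hm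
    · rw [Real.sqrt_sq_eq_abs]
      rcases abs_choice (Real.cos (2 * Real.pi / 2 ^ (k + 1))) with h | h
      · rwa [h]
      · rw [h]
        exact neg_mem hm

lemma F22_cos_normal (k : ℕ) : FiniteDimensional K K⟮Real.cos (2 * Real.pi / 2 ^ k)⟯ ∧
    Normal K K⟮Real.cos (2 * Real.pi / 2 ^ k)⟯ := by
  induction k with
  | zero =>
    have h : K⟮Real.cos (2 * Real.pi / 2 ^ 0)⟯ = ⊥ := by
      rw [adjoin_simple_eq_bot_iff]
      simp [IntermediateField.one_mem]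
    rw [h]
    exact ⟨inferInstance, inferInstance⟩
  | succ k ih =>
    obtain ⟨h1, h2⟩ := ih
    have hm := mem_adjoin_simple_self K (Real.cos (2 * Real.pi / 2 ^ k))
    have hm' := mem_adjoin_simple_self K (Real.cos (2 * Real.pi / 2 ^ (k + 1)))
    have hu : Real.cos (2 * Real.pi / 2 ^ (k + 1)) ^ 2 ∈ K⟮Real.cos (2 * Real.pi / 2 ^ k)⟯ := by
      rw [F22_half]
      exact div_mem (add_mem (one_mem _) hm) (ofNat_mem _ 2)
    have hact : ∀ σ : K⟮Real.cos (2 * Real.pi / 2 ^ k)⟯ ≃ₐ[K] K⟮Real.cos (2 * Real.pi / 2 ^ k)⟯,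
        ∃ n : ℕ, act σ (Real.cos (2 * Real.pi / 2 ^ (k + 1)) ^ 2) =
          Real.cos (2 * Real.pi * n / 2 ^ (k + 1)) ^ 2 := by
      intro σ
      obtain ⟨n, hn⟩ := F22_act k _ hm σ
      refine ⟨n, ?_⟩
      rw [F22_half, F22_half, ← hn]
      have h2 : (1 + Real.cos (2 * Real.pi / 2 ^ k)) / 2 =
          algebraMap K ℝ (1 / 2) + algebraMap K ℝ (1 / 2) * Real.cos (2 * Real.pi / 2 ^ k) := by
        simp only [map_div₀, map_one, map_ofNat]; ring
      rw [h2, act_add σ (IntermediateField.algebraMap_mem _ _)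
        (mul_mem (IntermediateField.algebraMap_mem _ _) hm),
        act_mul σ (IntermediateField.algebraMap_mem _ _) hm, act_algebraMap]
      simp only [map_div₀, map_one, map_ofNat]; ring
    rw [F22_step]
    refine ⟨finiteDimensional_sqrtExt hu (sq_nonneg _), normal_sqrtExt hu ?_ ?_⟩
    · intro σ
      obtain ⟨n, hn⟩ := hact σ
      rw [hn]
      exact sq_nonneg _
    · intro σ
      obtain ⟨n, hn⟩ := hact σ
      rw [hn, Real.sqrt_sq_eq_abs, ← F22_step]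
      have h3 := cos_mul_mem _ hm' n
      rcases abs_choice (Real.cos (2 * Real.pi * n / 2 ^ (k + 1))) with h | h
      · rwa [h]
      · rw [h]
        exact neg_mem h3

lemma F22_se_eq (e : (𝓞 K)ˣ) : K⟮se e⟯ = sqrtExt ⊥ (algebraMap K ℝ ((e : 𝓞 K) : K)) := by
  unfold sqrtExt se
  rw [bot_sup_eq]

lemma F22_se (D : FD σ₂ e) : FiniteDimensional K K⟮se e⟯ ∧ IsAbelianGalois K K⟮se e⟯ := by
  have hu : algebraMap K ℝ ((e : 𝓞 K) : K) ∈ (⊥ : IntermediateField K ℝ) :=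
    IntermediateField.algebraMap_mem _ _
  have h1 : FiniteDimensional K K⟮se e⟯ := by
    rw [F22_se_eq]
    exact finiteDimensional_sqrtExt hu D.pos.le
  have h2 : Normal K K⟮se e⟯ := by
    rw [F22_se_eq]
    refine normal_sqrtExt hu ?_ ?_
    · intro σ
      rw [act_algebraMap]
      exact D.pos.le
    · intro σ
      rw [act_algebraMap]
      exact sqrt_mem_sqrtExt _ _
  refine ⟨h1, isAbelianGalois_of_comm ?_⟩
  intro γ δ
  have hm := mem_adjoin_simple_self K (se e)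
  have h3 : ∀ γ : K⟮se e⟯ ≃ₐ[K] K⟮se e⟯, act γ (se e) = se e ∨ act γ (se e) = -se e := by
    intro γ
    apply sq_eq_sq_iff_eq_or_eq_neg.1
    rw [← act_pow γ hm]
    have h4 : se e ^ 2 = algebraMap K ℝ ((e : 𝓞 K) : K) := Real.sq_sqrt D.pos.le
    rw [h4, act_algebraMap]
  apply F22_eq (x := se e) rfl
  rw [act_comp _ _ hm, act_comp _ _ hm]
  rcases h3 γ with h | h <;> rcases h3 δ with h' | h' <;>
    simp only [h, h', act_neg _ hm]

/-- TASK F22 (the field `K(√e, cos (2 π / 2 ^ k))` is finite, Galois and abelian over `K`).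
PROOF. `Lf e k = K⟮se e⟯ ⊔ K⟮cos (2 π / 2 ^ k)⟯`. Finite: both elements are integral over `K` (`isIntegral_sqrt`; `2 cos` is integral over `ℤ`, see F16) (`adjoin.finiteDimensional`, instance for `⊔`).
`K⟮se e⟯ / K`: `se e ^ 2 ∈ K`, so it is normal (splitting field of `X ^ 2 - e`) and abelian (an automorphism maps `se e` to `± se e` and is determined by that). `K⟮y⟯ / K`, `y = cos (2 π / 2 ^ k)`: normal because the minimal polynomial of `2 y` over `K` divides the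
polynomial `∏_{n < 2 ^ k} (X - 2 cos (2 π n / 2 ^ k))`?? Simplest: `y = cos θ`, `(dickson 1 1 (2 ^ k)).eval (2 y) = 2` and the monic polynomial
`Q = dickson 1 1 (2 ^ k) - 2 ∈ ℤ[X]` of degree `2 ^ k` splits in `ℝ` with roots `2 cos (2 π n / 2 ^ k)`, `n < 2 ^ k` (all of them in `K⟮y⟯` by `cos_mul_mem`): if `x` is a root of the minimal polynomial of `2 y` in `ℂ` or in any extension: write `x = w + w⁻¹`
(`w ≠ 0` in an algebraic closure), `Q(x) = w ^ (2 ^ k) + w ^ (-2 ^ k) - 2 = 0`, so `w ^ (2 ^ k) = 1` and `w` is a root of unity (`Polynomial.dickson_one_one_eval_add_inv`). Alternatively use that `ℚ(ζ) / ℚ` is cyclotomic: `IsCyclotomicExtension` is abelian: in `ℂ` the field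
`K(i-th roots of unity)` is abelian over `K` (`IsCyclotomicExtension.isAbelianGalois` or `isMulCommutative`), and every intermediate field of an abelian extension is Galois and abelian (`ST.isAbelianGalois_of_le`, `IsAbelianGalois.of_algHom`);
`K⟮y⟯` embeds in it because `2 y = ζ + ζ⁻¹`. Here `K` acts on `ℂ` by `algebraMap ℝ ℂ ∘ algebraMap K ℝ` (a local instance `Algebra K ℂ`); `IntermediateField.adjoin K {exp (2 π i / 2 ^ k)}` is an `IsCyclotomicExtension {2 ^ k} K _`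
(`IsPrimitiveRoot.intermediateField_adjoin_isCyclotomicExtension`). Any correct proof is fine.
The compositum of two abelian extensions in `ℝ` is abelian: `ST.isAbelianGalois_sup` (MP_1ef7cf_nt/Abelian.lean).
`se_mem`, `cos_mem`: `mem_adjoin_simple_self` and `le_sup_left`, `le_sup_right`.
`ext_coords`: `eq_of_eq_on_sup` (SqrtAb.lean) or `eqField` (the subfield of `M` where the two automorphisms agree contains both generators; see `eq_of_eq_on_sqrtExt` in Abelian.lean). -/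
theorem fd_Lf (D : FD σ₂ e) (k : ℕ) : FiniteDimensional K (Lf e k) := by
  haveI := (F22_se D).1
  haveI := (F22_cos_normal (K := K) k).1
  unfold Lf StarkRQ.layer
  infer_instance

theorem abelian_Lf (D : FD σ₂ e) (k : ℕ) : IsAbelianGalois K (Lf e k) := by
  haveI := (F22_se D).2
  haveI := (F22_cos_normal (K := K) k).2
  haveI := isAbelianGalois_of_comm (F22_cos_comm (K := K) k)
  exact isAbelianGalois_sup

theorem se_mem (e : (𝓞 K)ˣ) (k : ℕ) : se e ∈ Lf e k :=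
  (le_sup_left : K⟮se e⟯ ≤ Lf e k) (mem_adjoin_simple_self K _)

theorem cos_mem (e : (𝓞 K)ˣ) (k : ℕ) : Real.cos (2 * Real.pi / 2 ^ k) ∈ Lf e k :=
  (le_sup_right : K⟮Real.cos (2 * Real.pi / 2 ^ k)⟯ ≤ Lf e k) (mem_adjoin_simple_self K _)

theorem ext_coords {k : ℕ} {σ τ : Lf e k ≃ₐ[K] Lf e k} (h1 : act σ (se e) = act τ (se e))
    (h2 : act σ (Real.cos (2 * Real.pi / 2 ^ k)) = act τ (Real.cos (2 * Real.pi / 2 ^ k))) :
    σ = τ := by
  have h3 : K⟮se e⟯ ≤ eqField σ τ := by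
    rw [adjoin_simple_le_iff]
    exact ⟨se_mem e k, h1⟩
  have h4 : K⟮Real.cos (2 * Real.pi / 2 ^ k)⟯ ≤ eqField σ τ := by
    rw [adjoin_simple_le_iff]
    exact ⟨cos_mem e k, h2⟩
  apply eq_of_eq_on_sup (L₁ := K⟮se e⟯) (L₂ := K⟮Real.cos (2 * Real.pi / 2 ^ k)⟯) le_rfl
    (le_sup_left : K⟮se e⟯ ≤ Lf e k)
    (le_sup_right : K⟮Real.cos (2 * Real.pi / 2 ^ k)⟯ ≤ Lf e k)
  · intro x hx; exact (h3 hx).2
  · intro x hx; exact (h4 hx).2

end Pool.Agent.STg.F
end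

section

/-!
# Adding a prime to the modulus
-/

open NumberField IsDedekindDomain Pool.Agent.ST

namespace Pool.Agent.STh

open Pool.Agent.STg Pool.Agent.STh.F

variable {K : Type*} [Field K] [NumberField K] [Algebra K ℝ] {a : 𝓞 K}

/-- `chiK_congr` -/
lemma GK_congr {m m' : Ideal (𝓞 K)} (hm : m ≠ ⊥) (hm' : m' ≠ ⊥)
    (h : ∀ v : HeightOneSpectrum (𝓞 K), v.asIdeal ∣ m ↔ v.asIdeal ∣ m') {Q : ℕ} {s : ℤ} {b : ℕ}
    {t : ℝ} (hG : GK a m Q s b t) : GK a m' Q s b t := by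
  have hk : ∀ l, cK a m l = cK a m' l := by
    intro l
    unfold cK
    simp only [chiK_congr a hm hm' h]
  obtain ⟨G, h1, h2, h3, h4⟩ := hG
  refine ⟨G, h1, h2, ?_, h4⟩
  simpa only [hk] using h3

lemma S9_cond {Q : ℕ} {b b' : ℤ} (h : (Q : ℤ) ∣ b - b' ∨ (Q : ℤ) ∣ b + b') (l : ℤ) :
    ((Q : ℤ) ∣ l - b ∨ (Q : ℤ) ∣ l + b) ↔ ((Q : ℤ) ∣ l - b' ∨ (Q : ℤ) ∣ l + b') := by
  rcases h with h | h
  · have e1 : (Q : ℤ) ∣ l - b ↔ (Q : ℤ) ∣ l - b' := by
      have : l - b' = (l - b) + (b - b') := by ring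
      rw [this, dvd_add_left h]
    have e2 : (Q : ℤ) ∣ l + b ↔ (Q : ℤ) ∣ l + b' := by
      have : l + b = (l + b') + (b - b') := by ring
      rw [this, dvd_add_left h]
    rw [e1, e2]
  · have e1 : (Q : ℤ) ∣ l - b ↔ (Q : ℤ) ∣ l + b' := by
      have : l + b' = (l - b) + (b + b') := by ring
      rw [this, dvd_add_left h]
    have e2 : (Q : ℤ) ∣ l + b ↔ (Q : ℤ) ∣ l - b' := by
      have : l + b = (l - b') + (b + b') := by ring
      rw [this, dvd_add_left h]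
    rw [e1, e2, or_comm]

/-- only the class of `± b` modulo `Q` matters -/
lemma GK_congr_b {m : Ideal (𝓞 K)} {Q : ℕ} {s : ℤ} {b b' : ℕ}
    (h : (Q : ℤ) ∣ (b : ℤ) - b' ∨ (Q : ℤ) ∣ (b : ℤ) + b') {t : ℝ} (hG : GK a m Q s b t) :
    GK a m Q s b' t := by
  obtain ⟨G, h1, h2, h3, h4⟩ := hG
  refine ⟨G, h1, h2, ?_, h4⟩
  simpa only [S9_cond h] using h3

lemma S9_finite (l : ℕ) (_hl : l ≠ 0) : {I : Ideal (𝓞 K) | Ideal.absNorm I = l}.Finite :=
  Ideal.finite_setOfPred_absNorm_eq l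

lemma S9_coprime {m : Ideal (𝓞 K)} {v : HeightOneSpectrum (𝓞 K)} (hv : ¬ v.asIdeal ∣ m) :
    IsCoprime v.asIdeal m := by
  rw [Ideal.isCoprime_iff_sup_eq]
  refine (v.isMaximal).1.2 _ (lt_of_le_of_ne le_sup_left fun h1 => hv ?_)
  rw [Ideal.dvd_iff_le, h1]
  exact le_sup_right

/-- the value at `v I` -/
lemma S9_chiK {m : Ideal (𝓞 K)} {v : HeightOneSpectrum (𝓞 K)} (hv : ¬ v.asIdeal ∣ m)
    {I : Ideal (𝓞 K)} (hI : I ≠ ⊥) : chiK a m (v.asIdeal * I) = chiP a v.asIdeal * chiK a m I := by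
  have hc := S9_coprime hv
  have h1 := (cm_chiK a m).2 v.asIdeal I v.ne_bot hI
  have h2 : chiK a m v.asIdeal = chiP a v.asIdeal := by
    rw [chiK_of v.ne_bot hc, chiI_prime]
  rw [h2] at h1
  exact_mod_cast h1

/-- **The coefficients.** For `v ∤ m`, `l ≠ 0`: the ideals `I` of norm `l` with `v ∣ I` are the ideals `v I'`, `N(I') = l / N(v)`;
`chiK m (v I') = chiP v chiK m I'` (`v` is prime to `m`). `chiK_mul_prime`, `chiK_mul_prime'`. -/
lemma cK_mul {m : Ideal (𝓞 K)} {v : HeightOneSpectrum (𝓞 K)} (hv : ¬ v.asIdeal ∣ m) {l : ℕ}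
    (hl : l ≠ 0) : cK a (m * v.asIdeal) l = cK a m l -
      if Ideal.absNorm v.asIdeal ∣ l then
        chiP a v.asIdeal * cK a m (l / Ideal.absNorm v.asIdeal) else 0 := by
  classical
  have hfin := S9_finite (K := K) l hl
  have hN0 : Ideal.absNorm v.asIdeal ≠ 0 := by
    rw [Ne, Ideal.absNorm_eq_zero_iff]
    exact v.ne_bot
  have e1 : cK a (m * v.asIdeal) l = ∑ I ∈ hfin.toFinset, chiK a (m * v.asIdeal) I := by
    unfold cK
    rw [finsum_mem_eq_finite_toFinset_sum _ hfin]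
  have e2 : cK a m l = ∑ I ∈ hfin.toFinset, chiK a m I := by
    unfold cK
    rw [finsum_mem_eq_finite_toFinset_sum _ hfin]
  have e3 : ∀ I, chiK a (m * v.asIdeal) I =
      chiK a m I - if v.asIdeal ∣ I then chiK a m I else 0 := by
    intro I
    by_cases h : v.asIdeal ∣ I
    · rw [if_pos h, chiK_mul_prime' a v I h, sub_self]
    · rw [if_neg h, chiK_mul_prime a v I h, sub_zero]
  rw [e1, e2, Finset.sum_congr rfl fun I _ => e3 I, Finset.sum_sub_distrib]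
  congr 1
  by_cases hd : Ideal.absNorm v.asIdeal ∣ l
  · rw [if_pos hd]
    obtain ⟨l', hl'⟩ := hd
    have hl'0 : l' ≠ 0 := by
      rintro rfl
      exact hl (by rw [hl', mul_zero])
    have hfin' := S9_finite (K := K) l' hl'0
    have e4 : l / Ideal.absNorm v.asIdeal = l' := by
      rw [hl', Nat.mul_div_cancel_left _ (Nat.pos_of_ne_zero hN0)]
    have e5 : cK a m l' = ∑ I ∈ hfin'.toFinset, chiK a m I := by
      unfold cK
      rw [finsum_mem_eq_finite_toFinset_sum _ hfin']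
    rw [e4, e5, Finset.mul_sum, ← Finset.sum_filter]
    symm
    refine Finset.sum_bij (fun I _ => v.asIdeal * I) ?_ ?_ ?_ ?_
    · intro I hI
      rw [Set.Finite.mem_toFinset, Set.mem_ofPred_eq] at hI
      rw [Finset.mem_filter, Set.Finite.mem_toFinset, Set.mem_ofPred_eq, map_mul, hI, hl']
      exact ⟨rfl, dvd_mul_right _ _⟩
    · intro I _ J _ hIJ
      exact mul_left_cancel₀ v.ne_bot hIJ
    · intro I hI
      rw [Finset.mem_filter, Set.Finite.mem_toFinset, Set.mem_ofPred_eq] at hI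
      obtain ⟨hI1, J, hJ⟩ := hI
      refine ⟨J, ?_, hJ.symm⟩
      rw [Set.Finite.mem_toFinset, Set.mem_ofPred_eq]
      rw [hJ, map_mul, hl'] at hI1
      exact Nat.eq_of_mul_eq_mul_left (Nat.pos_of_ne_zero hN0) hI1
    · intro I hI
      rw [Set.Finite.mem_toFinset, Set.mem_ofPred_eq] at hI
      rw [S9_chiK hv]
      rintro rfl
      rw [Ideal.absNorm_bot] at hI
      exact hl'0 hI.symm
  · rw [if_neg hd]
    refine Finset.sum_eq_zero fun I hI => ?_
    rw [if_neg]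
    intro hvI
    rw [Set.Finite.mem_toFinset, Set.mem_ofPred_eq] at hI
    apply hd
    rw [← hI]
    exact map_dvd Ideal.absNorm hvI

/-- the terms of the second series -/
lemma S9_term {m : Ideal (𝓞 K)} {v : HeightOneSpectrum (𝓞 K)} {Q : ℕ}
    (hvQ : (Ideal.absNorm v.asIdeal).Coprime Q) {s s' : ℤ} {b b' : ℕ}
    (hs : s' = s * chiP a v.asIdeal)
    (hb : (Q : ℤ) ∣ (Ideal.absNorm v.asIdeal : ℤ) * b' - b ∨
      (Q : ℤ) ∣ (Ideal.absNorm v.asIdeal : ℤ) * b' + b) (w : ℂ) (l : ℕ) :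
    (((if Ideal.absNorm v.asIdeal * l ≠ 0 ∧ ((Q : ℤ) ∣ ((Ideal.absNorm v.asIdeal * l : ℕ) : ℤ) - b ∨
        (Q : ℤ) ∣ ((Ideal.absNorm v.asIdeal * l : ℕ) : ℤ) + b) then
        s * (if Ideal.absNorm v.asIdeal ∣ Ideal.absNorm v.asIdeal * l then chiP a v.asIdeal *
          cK a m (Ideal.absNorm v.asIdeal * l / Ideal.absNorm v.asIdeal) else 0) else 0 : ℤ)) : ℂ) *
        ((Ideal.absNorm v.asIdeal * l : ℕ) : ℂ) ^ (-w) =
      ((Ideal.absNorm v.asIdeal : ℕ) : ℂ) ^ (-w) *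
        ((((if l ≠ 0 ∧ ((Q : ℤ) ∣ (l : ℤ) - b' ∨ (Q : ℤ) ∣ (l : ℤ) + b') then s' * cK a m l
          else 0 : ℤ)) : ℂ) * (l : ℂ) ^ (-w)) := by
  have hN0 : Ideal.absNorm v.asIdeal ≠ 0 := by
    rw [Ne, Ideal.absNorm_eq_zero_iff]
    exact v.ne_bot
  set N := Ideal.absNorm v.asIdeal with hN
  have hcop : IsCoprime (Q : ℤ) (N : ℤ) := Nat.isCoprime_iff_coprime.2 hvQ.symm
  have hcond : ((Q : ℤ) ∣ ((N * l : ℕ) : ℤ) - b ∨ (Q : ℤ) ∣ ((N * l : ℕ) : ℤ) + b) ↔
      ((Q : ℤ) ∣ (l : ℤ) - b' ∨ (Q : ℤ) ∣ (l : ℤ) + b') := by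
    have h1 : (Q : ℤ) ∣ (b : ℤ) - (N : ℤ) * b' ∨ (Q : ℤ) ∣ (b : ℤ) + (N : ℤ) * b' := by
      rcases hb with h | h
      · left
        rw [← dvd_neg]
        have : -((b : ℤ) - (N : ℤ) * b') = (N : ℤ) * b' - b := by ring
        rw [this]
        exact h
      · right
        rw [add_comm]
        exact h
    rw [S9_cond h1]
    have e1 : (((N * l : ℕ) : ℤ) - (N : ℤ) * b') = (N : ℤ) * ((l : ℤ) - b') := by
      push_cast
      ring
    have e2 : (((N * l : ℕ) : ℤ) + (N : ℤ) * b') = (N : ℤ) * ((l : ℤ) + b') := by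
      push_cast
      ring
    rw [e1, e2]
    constructor
    · rintro (h | h)
      · exact Or.inl (hcop.dvd_of_dvd_mul_left h)
      · exact Or.inr (hcop.dvd_of_dvd_mul_left h)
    · rintro (h | h)
      · exact Or.inl (Dvd.dvd.mul_left h _)
      · exact Or.inr (Dvd.dvd.mul_left h _)
  have hl0 : N * l ≠ 0 ↔ l ≠ 0 := by
    constructor
    · rintro h rfl
      exact h (mul_zero N)
    · intro h
      exact Nat.mul_ne_zero hN0 h
  rw [if_pos (dvd_mul_right N l), Nat.mul_div_cancel_left _ (Nat.pos_of_ne_zero hN0)]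
  simp only [hcond, hl0]
  rw [Nat.cast_mul, Complex.natCast_mul_natCast_cpow]
  by_cases h : l ≠ 0 ∧ ((Q : ℤ) ∣ (l : ℤ) - b' ∨ (Q : ℤ) ∣ (l : ℤ) + b')
  · rw [if_pos h, if_pos h, hs]
    push_cast
    ring
  · rw [if_neg h, if_neg h]
    simp

/-- **Adding a prime.** `G'' = G - N(v) ^ (-w) G'` where `G`, `G'` belong to `(s, b)`, `(s', b')`: the terms of `G''` are
`s cK(m v)(l) l ^ (-w)`, insert `cK_mul`; in the second sum `l = N(v) l'`, and `Q ∣ N(v) l' ∓ b` iff `Q ∣ l' ∓ b'` or `l' ± b'`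
(`N(v)` is prime to `Q`, `N(v) b' = ± b`). Sum over `l` divisible by `N(v)`: `Function.Injective.hasSum_iff`.
`G 0 = G' 0 = 0`, so the derivative at `0` is `-t + t'`. -/
theorem GK_mul {m : Ideal (𝓞 K)} {v : HeightOneSpectrum (𝓞 K)} (hv : ¬ v.asIdeal ∣ m) {Q : ℕ}
    (hvQ : (Ideal.absNorm v.asIdeal).Coprime Q) {s s' : ℤ} {b b' : ℕ}
    (hs : s' = s * chiP a v.asIdeal)
    (hb : (Q : ℤ) ∣ (Ideal.absNorm v.asIdeal : ℤ) * b' - b ∨
      (Q : ℤ) ∣ (Ideal.absNorm v.asIdeal : ℤ) * b' + b) {t t' : ℝ}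
    (h : GK a m Q s b t) (h' : GK a m Q s' b' t') : GK a (m * v.asIdeal) Q s b (t - t') := by
  obtain ⟨G, hG1, hG2, hG3, hG4⟩ := h
  obtain ⟨G', hG1', hG2', hG3', hG4'⟩ := h'
  have hN0 : Ideal.absNorm v.asIdeal ≠ 0 := by
    rw [Ne, Ideal.absNorm_eq_zero_iff]
    exact v.ne_bot
  have hNC : ((Ideal.absNorm v.asIdeal : ℕ) : ℂ) ≠ 0 := Nat.cast_ne_zero.2 hN0
  have hpow : Differentiable ℂ (fun w : ℂ => ((Ideal.absNorm v.asIdeal : ℕ) : ℂ) ^ (-w)) := by
    intro w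
    exact (differentiableAt_id.neg).const_cpow (Or.inl hNC)
  refine ⟨fun w => G w - ((Ideal.absNorm v.asIdeal : ℕ) : ℂ) ^ (-w) * G' w, ?_, ?_, ?_, ?_⟩
  · exact hG1.sub ((hpow.differentiableOn).mul hG1')
  · simp [hG2, hG2']
  · intro w hw
    have h1 := hG3 w hw
    have h2 := (hG3' w hw).mul_left (((Ideal.absNorm v.asIdeal : ℕ) : ℂ) ^ (-w))
    set N := Ideal.absNorm v.asIdeal with hN
    let F : ℕ → ℂ := fun l => (((if l ≠ 0 ∧ ((Q : ℤ) ∣ (l : ℤ) - b ∨ (Q : ℤ) ∣ (l : ℤ) + b) then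
      s * (if N ∣ l then chiP a v.asIdeal * cK a m (l / N) else 0) else 0 : ℤ)) : ℂ) *
        (l : ℂ) ^ (-w)
    have hinj : Function.Injective (fun l : ℕ => N * l) := fun x y hxy =>
      Nat.eq_of_mul_eq_mul_left (Nat.pos_of_ne_zero hN0) hxy
    have h3 : HasSum (F ∘ fun l : ℕ => N * l) ((N : ℂ) ^ (-w) * G' w) := by
      refine h2.congr_fun ?_
      intro l
      exact S9_term hvQ hs hb w l
    have h4 : HasSum F ((N : ℂ) ^ (-w) * G' w) := by
      refine (hinj.hasSum_iff ?_).1 h3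
      intro l hl
      have hnd : ¬ N ∣ l := by
        rintro ⟨x, hx⟩
        exact hl ⟨x, hx.symm⟩
      simp only [F, if_neg hnd]
      simp
    have h5 := h1.sub h4
    refine h5.congr_fun ?_
    intro l
    simp only [F]
    by_cases hc : l ≠ 0 ∧ ((Q : ℤ) ∣ (l : ℤ) - b ∨ (Q : ℤ) ∣ (l : ℤ) + b)
    · rw [if_pos hc, if_pos hc, if_pos hc, cK_mul hv hc.1, ← sub_mul]
      congr 1
      push_cast
      ring
    · rw [if_neg hc, if_neg hc, if_neg hc]
      simp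
  · have hnhds : ({1}ᶜ : Set ℂ) ∈ nhds (0 : ℂ) := isOpen_compl_singleton.mem_nhds (by simp)
    have d1 : DifferentiableAt ℂ G 0 := hG1.differentiableAt hnhds
    have d2 : DifferentiableAt ℂ G' 0 := hG1'.differentiableAt hnhds
    have d3 := hpow 0
    have e1 : deriv (fun w => G w - ((Ideal.absNorm v.asIdeal : ℕ) : ℂ) ^ (-w) * G' w) 0 =
        deriv G 0 - deriv (fun w => ((Ideal.absNorm v.asIdeal : ℕ) : ℂ) ^ (-w) * G' w) 0 :=
      deriv_fun_sub d1 (d3.mul d2)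
    rw [e1, deriv_fun_mul d3 d2, hG4, hG4', hG2']
    simp
    ring

end Pool.Agent.STh
end
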