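import Pool.Agent.Lib.MP_1ef7cf_nt_h.Q1
import Pool.Agent.Lib.MP_1ef7cf_nt_g.Mg.G030
import Pool.Agent.Lib.MP_1ef7cf_nt_g.Mg.G035

section

/-!
# The field `Rk`: generators
-/

open Complex

namespace Pool.Agent.STh

open Pool.Agent.STg

/-! Adapt `MP_1ef7cf_nt_g/V3a.lean`, `V3b.lean`, `V3c.lean`. -/

variable (U : UD) (k : ℕ)

lemma UD.r_mem : U.r ∈ Rk U k :=
  IntermediateField.subset_adjoin _ _ (Or.inl rfl)

lemma cq_mem : cq (U.M k) ∈ Rk U k :=
  IntermediateField.subset_adjoin _ _ (Or.inr rfl)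

lemma UD.e_pos (U : UD) : 0 < U.e := by
  have h : 0 < U.d := Nat.pos_of_ne_zero U.d_ne_zero
  exact Real.sqrt_pos.mpr (by exact_mod_cast h)

lemma UD.e_sq (U : UD) : U.e ^ 2 = (U.d : ℝ) := by
  exact Real.sq_sqrt (Nat.cast_nonneg _)

lemma UD.r_pos (U : UD) : 0 < U.r := by
  exact Real.sqrt_pos.mpr U.e_pos

lemma UD.r_sq (U : UD) : U.r ^ 2 = U.e := by
  exact Real.sq_sqrt U.e_pos.le

lemma UD.e_mem : U.e ∈ Rk U k := by
  rw [← U.r_sq]
  exact pow_mem (U.r_mem k) 2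

lemma zq_eq (Q : ℕ) : zq Q = (Real.cos (2 * Real.pi / Q) : ℂ) +
    (Real.sin (2 * Real.pi / Q) : ℂ) * I := by
  unfold zq
  have h1 : (2 * Real.pi * I / Q : ℂ) = ((2 * Real.pi / Q : ℝ) : ℂ) * I := by
    push_cast
    ring
  rw [h1, Complex.exp_mul_I, Complex.ofReal_cos, Complex.ofReal_sin]

lemma zq_norm (Q : ℕ) : ‖zq Q‖ = 1 := by
  unfold zq
  have h1 : (2 * Real.pi * I / Q : ℂ) = ((2 * Real.pi / Q : ℝ) : ℂ) * I := by
    push_cast
    ring
  rw [h1, Complex.norm_exp_ofReal_mul_I]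

lemma conj_zq (Q : ℕ) : starRingEnd ℂ (zq Q) = (zq Q)⁻¹ := by
  rw [Complex.inv_def, Complex.normSq_eq_norm_sq, zq_norm]
  simp

/-- `i = ζ ^ (Q / 4)` -/
lemma I_eq_zq {Q : ℕ} (hQ : Q ≠ 0) (h4 : 4 ∣ Q) : I = zq Q ^ (Q / 4) := by
  obtain ⟨m, rfl⟩ := h4
  have hm : (m : ℂ) ≠ 0 := by
    intro h
    apply hQ
    have h' : m = 0 := by exact_mod_cast h
    rw [h', mul_zero]
  unfold zq
  rw [← Complex.exp_nat_mul, Nat.mul_div_cancel_left m (by norm_num)]
  have h1 : ((m : ℕ) : ℂ) * (2 * Real.pi * I / ((4 * m : ℕ) : ℂ)) = (Real.pi / 2) * I := by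
    push_cast
    field_simp
    norm_num
  rw [h1, Complex.exp_pi_div_two_mul_I]

end Pool.Agent.STh
end

section

/-!
# The primes of `ℚ(i)` over an odd prime number
-/

open NumberField IsDedekindDomain Pool.Agent.ST

namespace Pool.Agent.STg

variable (U : UD)

/-- the prime ideal generated by a Gaussian prime -/
lemma S4_exists_spec {π : GaussianInt} (h : Prime π) :
    ∃ P : HeightOneSpectrum (𝓞 QI), P.asIdeal = Ideal.span {gi π} := by
  have h1 : Prime (gi π) := (MulEquiv.prime_iff gi).2 h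
  refine ⟨⟨Ideal.span {gi π}, (Ideal.span_singleton_prime h1.ne_zero).2 h1, ?_⟩, rfl⟩
  intro h2
  exact h1.ne_zero (Ideal.span_singleton_eq_bot.1 h2)

lemma S4_eq_of_mem {P R : HeightOneSpectrum (𝓞 QI)} {π : GaussianInt}
    (h : P.asIdeal = Ideal.span {gi π}) (hR : gi π ∈ R.asIdeal) : R = P := by
  have h1 : P.asIdeal ≤ R.asIdeal := by
    rw [h, Ideal.span_singleton_le_iff_mem]
    exact hR
  apply HeightOneSpectrum.ext
  exact (P.isMaximal.eq_of_le R.isPrime.ne_top h1).symm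

lemma S4_gi_nat (n : ℕ) : gi (n : GaussianInt) = (n : 𝓞 QI) := map_natCast gi n

lemma S4_gN_nat (n : ℕ) : gN (n : GaussianInt) = n ^ 2 := by
  unfold gN
  rw [Zsqrtd.norm_natCast, pow_two, ← Nat.cast_mul, Int.natAbs_natCast]

lemma S4_gN_int (n : ℤ) : gN (n : GaussianInt) = n.natAbs ^ 2 := by
  unfold gN
  rw [Zsqrtd.norm_intCast, pow_two, Int.natAbs_mul]

lemma S4_gN_neg (a : GaussianInt) : gN (-a) = gN a := by
  unfold gN
  rw [Zsqrtd.norm_neg]

/-- Frobenius for the primes `3` modulo `4` -/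
lemma S4_frob {p : ℕ} (hp : p.Prime) (h4 : p % 4 = 3) (δ : GaussianInt) :
    ((p : ℕ) : GaussianInt) ∣ δ ^ p - star δ := by
  have hfact : Fact p.Prime := ⟨hp⟩
  set J : GaussianInt := ⟨0, 1⟩ with hJ
  have hJ2 : J ^ 2 = -1 := by
    rw [hJ, pow_two]
    ext <;> simp
  have hJp : J ^ p = -J := by
    have h1 : p = 4 * (p / 4) + 3 := by omega
    rw [h1, pow_add, pow_mul]
    have h2 : J ^ 4 = 1 := by
      have : J ^ 4 = (J ^ 2) ^ 2 := by ring
      rw [this, hJ2]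
      ring
    have h3 : J ^ 3 = -J := by
      have : J ^ 3 = J ^ 2 * J := by ring
      rw [this, hJ2]
      ring
    rw [h2, one_pow, one_mul, h3]
  have hδ : δ = (δ.re : GaussianInt) + (δ.im : GaussianInt) * J := by
    ext <;> simp [hJ]
  have hstar : star δ = (δ.re : GaussianInt) - (δ.im : GaussianInt) * J := by
    ext <;> simp [hJ]
  have hflt : ∀ n : ℤ, ((p : ℕ) : GaussianInt) ∣ (n : GaussianInt) ^ p - (n : GaussianInt) := by
    intro n
    have h1 : (p : ℤ) ∣ n ^ p - n := by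
      rw [← ZMod.intCast_eq_intCast_iff_dvd_sub]
      push_cast
      rw [ZMod.pow_card]
    obtain ⟨c, hc⟩ := h1
    refine ⟨(c : GaussianInt), ?_⟩
    have h2 := congrArg (fun z : ℤ => (z : GaussianInt)) hc
    push_cast at h2
    exact h2
  obtain ⟨r, hr⟩ := exists_add_pow_prime_eq hp (δ.re : GaussianInt) ((δ.im : GaussianInt) * J)
  obtain ⟨a, ha⟩ := hflt δ.re
  obtain ⟨b, hb⟩ := hflt δ.im
  have h1 : δ ^ p = (δ.re : GaussianInt) ^ p + (δ.im : GaussianInt) ^ p * (-J) +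
      p * (δ.re : GaussianInt) * ((δ.im : GaussianInt) * J) * r := by
    conv_lhs => rw [hδ]
    rw [hr, mul_pow, hJp]
  rw [h1, hstar]
  refine ⟨a - b * J + (δ.re : GaussianInt) * ((δ.im : GaussianInt) * J) * r, ?_⟩
  linear_combination ha - J * hb

/-- two numbers in `{1, -1}` congruent modulo an odd prime are equal -/
lemma S4_eq_of_dvd {π : GaussianInt} {m : ℕ} (hm : gN π = m) (h3 : 3 ≤ m) (h4 : ¬ m ∣ 4)
    {a b : ℤ} (ha : a = 1 ∨ a = -1) (hb : b = 1 ∨ b = -1)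
    (h : π ∣ (a : GaussianInt) - (b : GaussianInt)) : a = b := by
  by_contra hne
  have h1 := R5b_gN_dvd h
  rw [hm, ← Int.cast_sub, S4_gN_int] at h1
  apply h4
  rcases ha with rfl | rfl <;> rcases hb with rfl | rfl
  · exact absurd rfl hne
  · exact h1
  · exact h1
  · exact absurd rfl hne

lemma S4_units (u : ℤˣ) : ((u : ℤˣ) : ℤ) = 1 ∨ ((u : ℤˣ) : ℤ) = -1 := by
  rcases Int.units_eq_one_or u with h | h <;> rw [h]
  · exact Or.inl rfl
  · exact Or.inr rfl

/-- **Inert primes** `p = 3` modulo `4`: `(p)` is the only prime over `p`, its primary generator is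
`p` or `-p`; `p ∤ N(δ)` (squarefree), and `Ψ = δ ^ ((p ^ 2 - 1) / 2) = N(δ) ^ ((p - 1) / 2)` modulo
`p` (`δ ^ p` is congruent to the conjugate of `δ`). -/
theorem typeM_inert {p : ℕ} (hp : p.Prime) (h4 : p % 4 = 3) :
    LT2 (chiM U) p (jacobiSym (gN U.δ) p) := by
  have hfact : Fact p.Prime := ⟨hp⟩
  have hpr : Prime ((p : ℕ) : GaussianInt) :=
    (GaussianInt.prime_iff_mod_four_eq_three_of_nat_prime p).2 h4
  obtain ⟨β, hβ⟩ : ∃ β : GaussianInt, β = -((p : ℕ) : GaussianInt) := ⟨_, rfl⟩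
  have hβpr : Prime β := by rw [hβ]; exact hpr.neg
  have hβprim : Prim β := by
    rw [prim_iff, hβ]
    simp only [Zsqrtd.im_neg, Zsqrtd.im_natCast, Zsqrtd.re_neg, Zsqrtd.re_natCast]
    refine ⟨by simp, ?_⟩
    omega
  have hgN : gN β = p ^ 2 := by rw [hβ, S4_gN_neg, S4_gN_nat]
  -- `p` does not divide `δ`, nor its norm
  have hpδ : ¬ ((p : ℕ) : GaussianInt) ∣ U.δ := by
    intro h
    have h1 := R5b_gN_dvd h
    rw [S4_gN_nat, pow_two] at h1
    exact hp.one_lt.ne' (Nat.isUnit_iff.1 (U.sqf p h1))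
  have hpN : ¬ p ∣ gN U.δ := by
    intro h
    have h1 : ((p : ℕ) : GaussianInt) ∣ U.δ * star U.δ := by
      rw [mul_star_eq]
      obtain ⟨c, hc⟩ := h
      rw [hc]
      push_cast
      exact Dvd.intro _ rfl
    rcases hpr.dvd_or_dvd h1 with h2 | h2
    · exact hpδ h2
    · have h3 := R5b_star_dvd h2
      rw [star_star, star_natCast] at h3
      exact hpδ h3
  have hβδ : ¬ β ∣ U.δ := by
    rw [hβ, neg_dvd]
    exact hpδ
  have hcop : IsCoprime β U.δ := (hβpr.irreducible.coprime_iff_not_dvd).2 hβδ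
  obtain ⟨P, hP⟩ := S4_exists_spec hβpr
  refine ⟨P, ?_, ?_, ?_⟩
  · rw [hP, absNorm_gi hβpr.ne_zero, hgN]
  · rw [hP, chiM_span U hβprim hcop]
    have hleg := U.psi.leg β hβpr hβprim hβδ
    rw [hgN] at hleg
    have hβp : ((p : ℕ) : GaussianInt) ∣ U.δ ^ ((p ^ 2 - 1) / 2) -
        (((U.Ψ β : ℤˣ) : ℤ) : GaussianInt) := by
      have : ((p : ℕ) : GaussianInt) ∣ β := by rw [hβ, dvd_neg]
      exact this.trans hleg
    -- the exponent
    have hodd : p % 2 = 1 := by omega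
    have hexp : (p ^ 2 - 1) / 2 = (p + 1) * ((p - 1) / 2) := by
      obtain ⟨k, hk⟩ : ∃ k, p = 2 * k + 1 := ⟨p / 2, by omega⟩
      rw [hk]
      have h1 : (2 * k + 1) ^ 2 - 1 = 2 * (2 * k ^ 2 + 2 * k) := by
        have : (2 * k + 1) ^ 2 = 2 * (2 * k ^ 2 + 2 * k) + 1 := by ring
        omega
      have h2 : (2 * k + 1 - 1) / 2 = k := by omega
      rw [h1, h2, Nat.mul_div_cancel_left _ (by norm_num)]
      ring
    have h1 : ((p : ℕ) : GaussianInt) ∣ U.δ ^ (p + 1) - ((gN U.δ : ℕ) : GaussianInt) := by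
      obtain ⟨c, hc⟩ := S4_frob hp h4 U.δ
      refine ⟨U.δ * c, ?_⟩
      rw [← mul_star_eq, pow_succ]
      linear_combination U.δ * hc
    have h2 : ((p : ℕ) : GaussianInt) ∣ U.δ ^ ((p ^ 2 - 1) / 2) -
        ((gN U.δ : ℕ) : GaussianInt) ^ ((p - 1) / 2) := by
      rw [hexp, pow_mul]
      exact h1.trans (sub_dvd_pow_sub_pow _ _ _)
    have hjac : (p : ℤ) ∣ ((gN U.δ : ℕ) : ℤ) ^ ((p - 1) / 2) - jacobiSym (gN U.δ) p := by
      have h8 := legendreSym.eq_pow p ((gN U.δ : ℕ) : ℤ)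
      have h9 : (p - 1) / 2 = p / 2 := by omega
      rw [h9, ← jacobiSym.legendreSym.to_jacobiSym, ← ZMod.intCast_eq_intCast_iff_dvd_sub]
      rw [h8]
      push_cast
      rfl
    have h3 : ((p : ℕ) : GaussianInt) ∣ ((gN U.δ : ℕ) : GaussianInt) ^ ((p - 1) / 2) -
        ((jacobiSym (gN U.δ) p : ℤ) : GaussianInt) := by
      obtain ⟨c, hc⟩ := hjac
      refine ⟨(c : GaussianInt), ?_⟩
      have h5 := congrArg (fun z : ℤ => (z : GaussianInt)) hc
      push_cast at h5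
      exact h5
    have h5 : ((p : ℕ) : GaussianInt) ∣ (((U.Ψ β : ℤˣ) : ℤ) : GaussianInt) -
        ((jacobiSym (gN U.δ) p : ℤ) : GaussianInt) := by
      have h6 := dvd_add (dvd_sub h2 hβp) h3
      have e : U.δ ^ ((p ^ 2 - 1) / 2) - ((gN U.δ : ℕ) : GaussianInt) ^ ((p - 1) / 2) -
          (U.δ ^ ((p ^ 2 - 1) / 2) - (((U.Ψ β : ℤˣ) : ℤ) : GaussianInt)) +
          (((gN U.δ : ℕ) : GaussianInt) ^ ((p - 1) / 2) -
            ((jacobiSym (gN U.δ) p : ℤ) : GaussianInt)) =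
          (((U.Ψ β : ℤˣ) : ℤ) : GaussianInt) - ((jacobiSym (gN U.δ) p : ℤ) : GaussianInt) := by
        ring
      rwa [e] at h6
    have hp3 : 3 ≤ p := by
      have := hp.two_le
      omega
    apply S4_eq_of_dvd (m := p ^ 2) (S4_gN_nat p) (by nlinarith) ?_ (S4_units _) ?_ h5
    · intro h6
      have h7 := Nat.le_of_dvd (by norm_num) h6
      nlinarith
    · rw [← jacobiSym.legendreSym.to_jacobiSym]
      apply legendreSym.eq_one_or_neg_one
      intro h6
      apply hpN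
      have h7 := (ZMod.intCast_zmod_eq_zero_iff_dvd _ _).1 h6
      exact_mod_cast h7
  · intro R hR
    apply S4_eq_of_mem hP
    rw [hβ, map_neg, S4_gi_nat]
    exact neg_mem hR

/-- **Split primes** `p = 1` modulo `4`: `p = π π'` up to a unit, `π` primary, `π' = star π`. -/
theorem exists_pi {p : ℕ} (hp : p.Prime) (h4 : p % 4 = 1) : ∃ π : GaussianInt, Prime π ∧ Prim π ∧
    Prime (star π) ∧ Prim (star π) ∧ ¬ Associated π (star π) ∧ gN π = p ∧ gN (star π) = p ∧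
    ∀ ρ : GaussianInt, Prime ρ → ρ ∣ (p : GaussianInt) → Associated ρ π ∨ Associated ρ (star π) := by
  have hfact : Fact p.Prime := ⟨hp⟩
  obtain ⟨x, y, hxy⟩ := Nat.Prime.sq_add_sq (p := p) (by omega)
  have hN0 : gN (⟨x, y⟩ : GaussianInt) = p := by
    unfold gN
    rw [Zsqrtd.norm_def, ← hxy]
    have : ((⟨x, y⟩ : GaussianInt).re * (⟨x, y⟩ : GaussianInt).re -
        -1 * (⟨x, y⟩ : GaussianInt).im * (⟨x, y⟩ : GaussianInt).im) = ((x ^ 2 + y ^ 2 : ℕ) : ℤ) := by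
      push_cast
      ring
    rw [this, Int.natAbs_natCast]
  obtain ⟨u, hu, hτ⟩ := exists_prim_assoc (a := (⟨x, y⟩ : GaussianInt)) (by
    unfold gOdd
    rw [hN0, Nat.odd_iff]; omega)
  obtain ⟨τ, hτe⟩ : ∃ τ : GaussianInt, τ = u * ⟨x, y⟩ := ⟨_, rfl⟩
  rw [← hτe] at hτ
  have hN : gN τ = p := by
    rw [hτe, gN_mul, hN0]
    have : gN u = 1 := Zsqrtd.norm_eq_one_iff.2 hu
    rw [this, one_mul]
  have hN' : gN (star τ) = p := by rw [R5b_gN_star, hN]
  have hPr : Prime τ := R5b_prime (by rw [hN]; exact hp)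
  have hPr' : Prime (star τ) := R5b_prime (by rw [hN']; exact hp)
  refine ⟨τ, hPr, hτ, hPr', R5b_prim_star hτ, ?_, hN, hN', ?_⟩
  · intro hass
    have h1 : τ ∣ star τ := hass.dvd
    have hp5 : 5 ≤ p := by
      have := hp.two_le
      omega
    have key : ∀ z : ℤ, p ∣ gN (((2 * z : ℤ)) : GaussianInt) → (p : ℤ) ∣ z := by
      intro z hz
      rw [S4_gN_int] at hz
      have h2 := hp.dvd_of_dvd_pow hz
      have h3 : (p : ℤ) ∣ 2 * z := Int.natCast_dvd.2 h2
      rcases (Nat.prime_iff_prime_int.1 hp).dvd_or_dvd h3 with h5 | h5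
      · exfalso
        have h6 : p ∣ 2 := by exact_mod_cast h5
        have := Nat.le_of_dvd (by norm_num) h6
        omega
      · exact h5
    have hre : (p : ℤ) ∣ τ.re := by
      apply key
      rw [← hN]
      apply R5b_gN_dvd
      have h2 := dvd_add (dvd_refl τ) h1
      have e : τ + star τ = ((2 * τ.re : ℤ) : GaussianInt) := by
        ext <;> simp
        ring
      rwa [e] at h2
    have him : (p : ℤ) ∣ τ.im := by
      apply key
      rw [← hN]
      have h2 := dvd_sub (dvd_refl τ) h1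
      have e : τ - star τ = ((2 * τ.im : ℤ) : GaussianInt) * ⟨0, 1⟩ := by
        ext <;> simp
        ring
      rw [e] at h2
      have h3 := R5b_gN_dvd h2
      rw [gN_mul] at h3
      have h5 : gN (⟨0, 1⟩ : GaussianInt) = 1 := by
        unfold gN
        rw [Zsqrtd.norm_def]
        simp
      rwa [h5, mul_one] at h3
    obtain ⟨a, ha⟩ := hre
    obtain ⟨b, hb⟩ := him
    have h2 := Q_gN τ
    rw [hN, ha, hb] at h2
    have h3 : (1 : ℤ) = p * (a * a + b * b) := by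
      have hp0 : (p : ℤ) ≠ 0 := by exact_mod_cast hp.ne_zero
      apply mul_left_cancel₀ hp0
      linear_combination h2
    have h5 : (p : ℤ) ∣ 1 := ⟨_, h3⟩
    have h6 : p ∣ 1 := by exact_mod_cast h5
    exact hp.one_lt.ne' (Nat.dvd_one.1 h6)
  · intro ρ hρ hd
    rw [← hN, ← mul_star_eq] at hd
    rcases hρ.dvd_or_dvd hd with h1 | h1
    · exact Or.inl (hρ.associated_of_dvd hPr h1)
    · exact Or.inr (hρ.associated_of_dvd hPr' h1)

/-- for `π` as above: the two primes of `𝓞 QI` over `p` are `(gi π)`, `(gi π')` -/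
theorem typeM_split {p : ℕ} (hp : p.Prime) {π : GaussianInt} (h1 : Prime π)
    (h2 : Prime (star π)) (h3 : ¬ Associated π (star π)) (h4 : gN π = p) (h5 : gN (star π) = p)
    (h6 : ∀ ρ : GaussianInt, Prime ρ → ρ ∣ (p : GaussianInt) →
      Associated ρ π ∨ Associated ρ (star π)) :
    LT1 (chiM U) p (chiM U (Ideal.span {gi π})) (chiM U (Ideal.span {gi (star π)})) := by
  obtain ⟨P, hP⟩ := S4_exists_spec h1
  obtain ⟨Q, hQ⟩ := S4_exists_spec h2
  refine ⟨P, Q, ?_, ?_, ?_, ?_, ?_, ?_⟩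
  · intro h
    apply h3
    rw [h, hQ] at hP
    have h7 := (Ideal.span_singleton_eq_span_singleton.1 hP).symm
    have h8 := h7.map (gi.symm : 𝓞 QI ≃+* GaussianInt).toRingHom.toMonoidHom
    have e1 : ∀ a : GaussianInt, (gi.symm : 𝓞 QI ≃+* GaussianInt).toRingHom.toMonoidHom (gi a) = a :=
      fun a => gi.symm_apply_apply a
    rwa [e1, e1] at h8
  · rw [hP, absNorm_gi h1.ne_zero, h4]
  · rw [hQ, absNorm_gi h2.ne_zero, h5]
  · rw [hP]
  · rw [hQ]
  · intro R hR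
    have h7 : gi π * gi (star π) ∈ R.asIdeal := by
      rw [← map_mul, mul_star_eq, h4, S4_gi_nat]
      exact hR
    rcases R.isPrime.mem_or_mem h7 with h8 | h8
    · exact Or.inl (S4_eq_of_mem hP h8)
    · exact Or.inr (S4_eq_of_mem hQ h8)

/-- `Ψ(π) Ψ(π') = (N(δ) / p)` if `p ∤ N(δ)` (proof as in `exists_tau`). -/
theorem psi_mul_star {p : ℕ} (hp : p.Prime) {π : GaussianInt} (h1 : Prime π) (h1' : Prim π)
    (h2 : Prime (star π)) (h2' : Prim (star π)) (h4 : gN π = p) (hpδ : ¬ p ∣ gN U.δ) :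
    ((U.Ψ π : ℤˣ) : ℤ) * ((U.Ψ (star π) : ℤˣ) : ℤ) = jacobiSym (gN U.δ) p := by
  have hfact : Fact p.Prime := ⟨hp⟩
  have hN' : gN (star π) = p := by rw [R5b_gN_star, h4]
  have hp4 : p % 4 = 1 := by rw [← h4]; exact h1'.gN_mod
  have hnd : ¬ π ∣ U.δ := fun h => hpδ (by rw [← h4]; exact R5b_gN_dvd h)
  have hnd' : ¬ star π ∣ U.δ := fun h => hpδ (by rw [← hN']; exact R5b_gN_dvd h)
  have g1 := U.psi.leg π h1 h1' hnd
  have g2 := U.psi.leg (star π) h2 h2' hnd'
  rw [h4] at g1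
  rw [hN'] at g2
  have g3 : π ∣ (star U.δ) ^ ((p - 1) / 2) - (((U.Ψ (star π) : ℤˣ) : ℤ) : GaussianInt) := by
    have g4 := R5b_star_dvd g2
    rw [star_star, star_sub, star_pow] at g4
    have g5 : star (((U.Ψ (star π) : ℤˣ) : ℤ) : GaussianInt) =
        (((U.Ψ (star π) : ℤˣ) : ℤ) : GaussianInt) := by
      rw [star_intCast]
    rwa [g5] at g4
  have g6 : π ∣ (U.δ * star U.δ) ^ ((p - 1) / 2) -
      (((U.Ψ π : ℤˣ) : ℤ) : GaussianInt) * (((U.Ψ (star π) : ℤˣ) : ℤ) : GaussianInt) := by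
    have e : (U.δ * star U.δ) ^ ((p - 1) / 2) -
        (((U.Ψ π : ℤˣ) : ℤ) : GaussianInt) * (((U.Ψ (star π) : ℤˣ) : ℤ) : GaussianInt) =
        (U.δ ^ ((p - 1) / 2) - (((U.Ψ π : ℤˣ) : ℤ) : GaussianInt)) * (star U.δ) ^ ((p - 1) / 2) +
        (((U.Ψ π : ℤˣ) : ℤ) : GaussianInt) *
          ((star U.δ) ^ ((p - 1) / 2) - (((U.Ψ (star π) : ℤˣ) : ℤ) : GaussianInt)) := by
      rw [mul_pow]; ring
    rw [e]
    exact dvd_add (g1.mul_right _) (g3.mul_left _)
  rw [mul_star_eq] at g6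
  have hjac : (p : ℤ) ∣ ((gN U.δ : ℕ) : ℤ) ^ ((p - 1) / 2) - jacobiSym (gN U.δ) p := by
    have h8 := legendreSym.eq_pow p ((gN U.δ : ℕ) : ℤ)
    have h9 : (p - 1) / 2 = p / 2 := by omega
    rw [h9, ← jacobiSym.legendreSym.to_jacobiSym, ← ZMod.intCast_eq_intCast_iff_dvd_sub]
    rw [h8]
    push_cast
    rfl
  have hπp : π ∣ ((p : ℤ) : GaussianInt) := by
    have h8 := mul_star_eq π
    rw [h4] at h8
    rw [Int.cast_natCast, ← h8]
    exact Dvd.intro _ rfl
  have g7 : π ∣ ((gN U.δ : ℕ) : GaussianInt) ^ ((p - 1) / 2) -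
      ((jacobiSym (gN U.δ) p : ℤ) : GaussianInt) := by
    obtain ⟨c, hc⟩ := hjac
    have h5 := congrArg (fun z : ℤ => (z : GaussianInt)) hc
    push_cast at h5
    rw [h5]
    rw [Int.cast_natCast] at hπp
    exact hπp.mul_right _
  have g8 : π ∣ ((((U.Ψ π : ℤˣ) : ℤ) * ((U.Ψ (star π) : ℤˣ) : ℤ) : ℤ) : GaussianInt) -
      ((jacobiSym (gN U.δ) p : ℤ) : GaussianInt) := by
    have h12 := dvd_sub g7 g6
    have e : ((gN U.δ : ℕ) : GaussianInt) ^ ((p - 1) / 2) -
        ((jacobiSym (gN U.δ) p : ℤ) : GaussianInt) -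
        (((gN U.δ : ℕ) : GaussianInt) ^ ((p - 1) / 2) -
          (((U.Ψ π : ℤˣ) : ℤ) : GaussianInt) * (((U.Ψ (star π) : ℤˣ) : ℤ) : GaussianInt)) =
        ((((U.Ψ π : ℤˣ) : ℤ) * ((U.Ψ (star π) : ℤˣ) : ℤ) : ℤ) : GaussianInt) -
          ((jacobiSym (gN U.δ) p : ℤ) : GaussianInt) := by
      push_cast
      ring
    rwa [e] at h12
  have hp5 : 5 ≤ p := by
    have := hp.two_le
    omega
  refine S4_eq_of_dvd h4 (by omega) ?_ ?_ ?_ g8
  · intro h6
    have h7 := Nat.le_of_dvd (by norm_num) h6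
    omega
  · rcases S4_units (U.Ψ π) with h8 | h8 <;> rcases S4_units (U.Ψ (star π)) with h9 | h9 <;>
      rw [h8, h9] <;> norm_num
  · rw [← jacobiSym.legendreSym.to_jacobiSym]
    apply legendreSym.eq_one_or_neg_one
    intro h6
    apply hpδ
    have h7 := (ZMod.intCast_zmod_eq_zero_iff_dvd _ _).1 h6
    exact_mod_cast h7

end Pool.Agent.STg
end

section

/-!
# Real and imaginary parts of the elements of `Nk`
-/

open Complex

namespace Pool.Agent.STh

open Pool.Agent.STg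

variable (U : UD) (k : ℕ)

/-- `cos (a θ)` is a polynomial in `cos θ` (Chebyshev) -/
lemma cos_mul_mem_Rk (a : ℕ) : Real.cos (a * (2 * Real.pi / U.M k)) ∈ Rk U k := by
  induction a using Nat.strong_induction_on with
  | _ n ih =>
    match n, ih with
    | 0, _ =>
      simp only [Nat.cast_zero, zero_mul, Real.cos_zero]
      exact one_mem _
    | 1, _ =>
      simp only [Nat.cast_one, one_mul]
      exact cq_mem U k
    | n + 2, ih =>
      have h1 := ih n (by omega)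
      have h2 := ih (n + 1) (by omega)
      have h3 := cq_mem U k
      unfold cq at h3
      set θ : ℝ := 2 * Real.pi / U.M k with hθ
      have h4 : Real.cos (((n + 2 : ℕ) : ℝ) * θ) =
          (1 + 1) * Real.cos (((n + 1 : ℕ) : ℝ) * θ) * Real.cos θ - Real.cos ((n : ℝ) * θ) := by
        have h5 : ((n + 2 : ℕ) : ℝ) * θ = ((n + 1 : ℕ) : ℝ) * θ + θ := by
          push_cast
          ring
        have h6 : (n : ℝ) * θ = ((n + 1 : ℕ) : ℝ) * θ - θ := by
          push_cast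
          ring
        rw [h5, h6, Real.cos_add, Real.cos_sub]
        ring
      rw [h4]
      exact sub_mem (mul_mem (mul_mem (add_mem (one_mem _) (one_mem _)) h2) h3) h1

/-- `sin (2 π / Q) = cos (2 π (Q / 4 - 1) / Q)` for `Q = M k`, `4 ∣ Q` -/
lemma sin_mem : Real.sin (2 * Real.pi / U.M k) ∈ Rk U k := by
  have h4 : 4 ∣ U.M k := dvd_trans (by norm_num) (U.dvd64 k)
  obtain ⟨m, hm⟩ := h4
  have hM := U.M_ne_zero k
  have hm0 : 1 ≤ m := by
    rcases Nat.eq_zero_or_pos m with h | h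
    · rw [h, mul_zero] at hm
      exact absurd hm hM
    · exact h
  have h1 := cos_mul_mem_Rk U k (m - 1)
  have h2 : ((m - 1 : ℕ) : ℝ) * (2 * Real.pi / U.M k) = Real.pi / 2 - 2 * Real.pi / U.M k := by
    rw [Nat.cast_sub hm0, hm]
    push_cast
    have h3 : (m : ℝ) ≠ 0 := by
      have : 0 < m := hm0
      positivity
    field_simp
    ring
  rw [h2, Real.cos_pi_div_two_sub] at h1
  exact h1

/-- **Real and imaginary parts.** The numbers `a + b i` with `a, b ∈ Rk` form a field which contains the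
generators of `Nk`. -/
theorem re_im_mem {x : ℂ} (hx : x ∈ Nk U k) : x.re ∈ Rk U k ∧ x.im ∈ Rk U k := by
  unfold Nk at hx
  induction hx using IntermediateField.adjoin_induction with
  | mem x hx =>
    rcases hx with rfl | rfl | rfl
    · rw [Complex.I_re, Complex.I_im]
      exact ⟨zero_mem _, one_mem _⟩
    · rw [Complex.ofReal_re, Complex.ofReal_im]
      exact ⟨UD.r_mem U k, zero_mem _⟩
    · have h1 : (zq (U.M k)).re = Real.cos (2 * Real.pi / U.M k) := by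
        rw [zq_eq, Complex.add_re, Complex.ofReal_re, Complex.re_ofReal_mul, Complex.I_re,
          mul_zero, add_zero]
      have h2 : (zq (U.M k)).im = Real.sin (2 * Real.pi / U.M k) := by
        rw [zq_eq, Complex.add_im, Complex.ofReal_im, Complex.im_ofReal_mul, Complex.I_im,
          mul_one, zero_add]
      rw [h1, h2]
      exact ⟨cq_mem U k, sin_mem U k⟩
  | algebraMap q =>
    have h1 : (algebraMap ℚ ℂ q) = ((q : ℝ) : ℂ) := by simp
    rw [h1, Complex.ofReal_re, Complex.ofReal_im]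
    refine ⟨?_, zero_mem _⟩
    have h2 := (Rk U k).algebraMap_mem q
    simp
  | add x y _ _ hx hy =>
    rw [Complex.add_re, Complex.add_im]
    exact ⟨add_mem hx.1 hy.1, add_mem hx.2 hy.2⟩
  | inv x _ hx =>
    rw [Complex.inv_re, Complex.inv_im]
    have h1 : Complex.normSq x ∈ Rk U k := by
      rw [Complex.normSq_apply]
      exact add_mem (mul_mem hx.1 hx.1) (mul_mem hx.2 hx.2)
    exact ⟨div_mem hx.1 h1, div_mem (neg_mem hx.2) h1⟩
  | mul x y _ _ hx hy =>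
    rw [Complex.mul_re, Complex.mul_im]
    exact ⟨sub_mem (mul_mem hx.1 hy.1) (mul_mem hx.2 hy.2),
      add_mem (mul_mem hx.1 hy.2) (mul_mem hx.2 hy.1)⟩

end Pool.Agent.STh
end
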