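import Pool.Agent.Lib.MP_1ef7cf_nt_h.B5
import Pool.Agent.Lib.MP_1ef7cf_nt_h.Mg.G006
import Pool.Agent.Lib.MP_1ef7cf_nt_g.Mg.G041
import Pool.Agent.Lib.MP_1ef7cf_nt_g.Mg.G032

section

/-!
# Properties of the quartic residue symbol
-/

open NumberField IsDedekindDomain Pool.Agent.ST Complex Pool.Agent.STg

namespace Pool.Agent.STh

lemma not_dvd_two {π : GaussianInt} (hπ : Prime π) (ho : gOdd π) : ¬ π ∣ 2 := by
  rintro ⟨c, hc⟩
  have h1 := congrArg gN hc
  rw [gN_mul] at h1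
  have h2 : gN (2 : GaussianInt) = 4 := by decide
  rw [h2] at h1
  have h3 : gN π ∣ 2 ^ 2 := ⟨gN c, by omega⟩
  have h4 : Nat.Coprime (gN π) (2 ^ 2) := by
    apply Nat.Coprime.pow_right
    exact (Nat.coprime_two_right).2 ho
  have h5 : gN π = 1 := Nat.eq_one_of_dvd_coprimes h4 dvd_rfl h3
  apply hπ.not_isUnit
  exact Zsqrtd.norm_eq_one_iff.mp h5

/-- fourth roots of unity which are congruent modulo an odd prime are equal -/
lemma unit_dvd {π u v : GaussianInt} (hπ : Prime π) (ho : gOdd π) (hu : u ^ 4 = 1) (hv : v ^ 4 = 1)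
    (h : π ∣ u - v) : u = v := by
  set w := u * v ^ 3 with hw
  have hw4 : w ^ 4 = 1 := by
    calc w ^ 4 = u ^ 4 * (v ^ 4) ^ 3 := by rw [hw]; ring
      _ = 1 := by rw [hu, hv]; norm_num
  have h1 : π ∣ w - 1 := by
    have e : w - 1 = v ^ 3 * (u - v) := by
      rw [hw]
      linear_combination hv
    rw [e]
    exact Dvd.dvd.mul_left h _
  have h2 : (w - 1) * (1 + w + w ^ 2 + w ^ 3) = 0 := by linear_combination hw4
  rcases mul_eq_zero.1 h2 with h3 | h3
  · have h4 : w = 1 := sub_eq_zero.1 h3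
    calc u = u * v ^ 4 := by rw [hv, mul_one]
      _ = w * v := by rw [hw]; ring
      _ = v := by rw [h4, one_mul]
  · exfalso
    have h4 : π ∣ 2 * 2 := by
      have e : (2 * 2 : GaussianInt) = (1 + w + w ^ 2 + w ^ 3) - (w - 1) * (3 + 2 * w + w ^ 2) := by
        ring
      rw [e, h3, zero_sub, dvd_neg]
      exact Dvd.dvd.mul_right h1 _
    rcases hπ.dvd_or_dvd h4 with h5 | h5
    · exact not_dvd_two hπ ho h5
    · exact not_dvd_two hπ ho h5

lemma prim_star {a : GaussianInt} (h : Prim a) : Prim (star a) := by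
  rw [prim_iff, Int.even_iff] at h ⊢
  rw [Zsqrtd.re_star, Zsqrtd.im_star]
  omega

lemma gN_star (a : GaussianInt) : gN (star a) = gN a := by
  unfold gN
  rw [Zsqrtd.norm_conj]

lemma star_dvd_star {a b : GaussianInt} (h : a ∣ b) : star a ∣ star b := by
  obtain ⟨c, rfl⟩ := h
  exact ⟨star c, by rw [star_mul, mul_comm]⟩

lemma star_natCast' (n : ℕ) : star (n : GaussianInt) = (n : GaussianInt) := star_natCast n

lemma coprime_star {a : GaussianInt} {n : ℕ} (h : IsCoprime a (n : GaussianInt)) :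
    IsCoprime (star a) (n : GaussianInt) := by
  obtain ⟨c, e, hce⟩ := h
  refine ⟨star c, star e, ?_⟩
  have h1 := congrArg star hce
  rw [star_add, star_mul, star_mul, star_one, star_natCast'] at h1
  rw [← h1]
  ring

lemma prime_star {π : GaussianInt} (h : Prime π) : Prime (star π) := by
  have h1 : Prime ((starRingAut : GaussianInt ≃+* GaussianInt) π) :=
    (MulEquiv.prime_iff (starRingAut : GaussianInt ≃+* GaussianInt)).2 h
  exact h1

variable {d n : ℕ} {κ κ' : GaussianInt → GaussianInt}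

lemma IsKap.one (h : IsKap d n κ) : κ 1 = 1 := by
  have h1 := h.mul 1 1 prim_one prim_one isCoprime_one_left isCoprime_one_left
  rw [one_mul] at h1
  have h2 : κ 1 ≠ 0 := by
    intro h3
    have h4 := h.unit 1
    rw [h3] at h4
    norm_num at h4
  have h3 : κ 1 * 1 = κ 1 * κ 1 := by rw [mul_one]; exact h1
  exact (mul_left_cancel₀ h2 h3).symm

lemma IsKap.ne_zero (h : IsKap d n κ) (a : GaussianInt) : κ a ≠ 0 := by
  intro h3
  have h4 := h.unit a
  rw [h3] at h4
  norm_num at h4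

/-- the symbol is determined by its values at the primes -/
lemma IsKap.unique (h : IsKap d n κ) (h' : IsKap d n κ') {a : GaussianInt} (ha : Prim a)
    (han : IsCoprime a (n : GaussianInt)) : κ a = κ' a := by
  have key := prim_induction (p := fun a => IsCoprime a (n : GaussianInt) → κ a = κ' a)
    (fun _ => by rw [h.one, h'.one]) (by
      intro π β hπ hP hβ ih hco
      have hβn := IsCoprime.of_mul_left_right hco
      have hπn := IsCoprime.of_mul_left_left hco
      rw [h.mul π β hP hβ hπn hβn, h'.mul π β hP hβ hπn hβn, ih hβn]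
      congr 1
      have hπn' : ¬ π ∣ (n : GaussianInt) :=
        (Irreducible.coprime_iff_not_dvd hπ.irreducible).1 hπn
      apply unit_dvd hπ hP.odd (h.unit π) (h'.unit π)
      have e : κ π - κ' π = ((d : GaussianInt) ^ ((gN π - 1) / 4) - κ' π) -
        ((d : GaussianInt) ^ ((gN π - 1) / 4) - κ π) := by ring
      rw [e]
      exact dvd_sub (h'.leg π hπ hP hπn') (h.leg π hπ hP hπn'))
  exact key a ha han

/-- **complex conjugation** -/
lemma IsKap.star_eq (h : IsKap d n κ) {a : GaussianInt} (ha : Prim a)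
    (han : IsCoprime a (n : GaussianInt)) : κ (star a) = star (κ a) := by
  have key := prim_induction (p := fun a => IsCoprime a (n : GaussianInt) →
      κ (star a) = star (κ a))
    (fun _ => by rw [star_one, h.one, star_one]) (by
      intro π β hπ hP hβ ih hco
      have hβn := IsCoprime.of_mul_left_right hco
      have hπn := IsCoprime.of_mul_left_left hco
      rw [h.mul π β hP hβ hπn hβn, star_mul, star_mul, mul_comm (star β),
        h.mul (star π) (star β) (prim_star hP) (prim_star hβ) (coprime_star hπn) (coprime_star hβn),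
        ih hβn, mul_comm (star (κ β))]
      congr 1
      have hπn' : ¬ π ∣ (n : GaussianInt) :=
        (Irreducible.coprime_iff_not_dvd hπ.irreducible).1 hπn
      have hπs : Prime (star π) := prime_star hπ
      have hπsn : ¬ star π ∣ (n : GaussianInt) :=
        (Irreducible.coprime_iff_not_dvd hπs.irreducible).1 (coprime_star hπn)
      apply unit_dvd hπs (prim_star hP).odd (h.unit _)
      · rw [← star_pow, h.unit, star_one]
      · have h1 := h.leg (star π) hπs (prim_star hP) hπsn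
        have h2 := star_dvd_star (h.leg π hπ hP hπn')
        rw [star_sub, star_pow, star_natCast'] at h2
        rw [gN_star] at h1
        have e : κ (star π) - star (κ π) = ((d : GaussianInt) ^ ((gN π - 1) / 4) - star (κ π)) -
          ((d : GaussianInt) ^ ((gN π - 1) / 4) - κ (star π)) := by ring
        rw [e]
        exact dvd_sub h2 h1)
  exact key a ha han

/-- the square of the symbol at the primes of prime norm is the Legendre symbol -/
lemma IsKap.sq_eq (h : IsKap d n κ) {π : GaussianInt} (hπ : Prime π) (hP : Prim π)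
    (hπn : ¬ π ∣ (n : GaussianInt)) {p : ℕ} [Fact p.Prime] (hp : gN π = p) :
    κ π ^ 2 = ((legendreSym p d : ℤ) : GaussianInt) := by
  have h1 := h.leg π hπ hP hπn
  have h4 := hP.gN_mod
  have h2 : π ∣ (d : GaussianInt) ^ ((p - 1) / 2) - κ π ^ 2 := by
    have e : (d : GaussianInt) ^ ((p - 1) / 2) - κ π ^ 2 =
        ((d : GaussianInt) ^ ((gN π - 1) / 4) - κ π) *
          ((d : GaussianInt) ^ ((gN π - 1) / 4) + κ π) := by
      have e1 : (p - 1) / 2 = (gN π - 1) / 4 * 2 := by omega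
      rw [e1, pow_mul]
      ring
    rw [e]
    exact Dvd.dvd.mul_right h1 _
  have hpp : π ∣ (p : GaussianInt) := by
    rw [← hp, ← mul_star_eq]
    exact dvd_mul_right _ _
  have h3 : π ∣ ((legendreSym p d : ℤ) : GaussianInt) - (d : GaussianInt) ^ ((p - 1) / 2) := by
    refine hpp.trans ?_
    have h5 : (p : ℤ) ∣ legendreSym p d - (d : ℤ) ^ ((p - 1) / 2) := by
      rw [← ZMod.intCast_zmod_eq_zero_iff_dvd]
      push_cast
      rw [legendreSym.eq_pow]
      have e1 : p / 2 = (p - 1) / 2 := by omega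
      rw [e1]
      push_cast
      ring
    obtain ⟨c, hc⟩ := h5
    refine ⟨(c : GaussianInt), ?_⟩
    have h6 := congrArg (fun z : ℤ => (z : GaussianInt)) hc
    push_cast at h6
    exact h6
  have h5 : π ∣ κ π ^ 2 - ((legendreSym p d : ℤ) : GaussianInt) := by
    have e : κ π ^ 2 - ((legendreSym p d : ℤ) : GaussianInt) =
        -((((legendreSym p d : ℤ) : GaussianInt) - (d : GaussianInt) ^ ((p - 1) / 2)) +
          ((d : GaussianInt) ^ ((p - 1) / 2) - κ π ^ 2)) := by ring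
    rw [e, dvd_neg]
    exact dvd_add h3 h2
  have hκ2 : (κ π ^ 2) ^ 4 = 1 := by
    rw [← pow_mul, mul_comm, pow_mul, h.unit, one_pow]
  have hd0 : ((d : ℤ) : ZMod p) ≠ 0 := by
    intro h0
    have h7 : legendreSym p d = 0 := (legendreSym.eq_zero_iff p d).2 h0
    rw [h7, Int.cast_zero, sub_zero] at h5
    have h8 : π ∣ κ π ^ 4 := by
      have : κ π ^ 4 = κ π ^ 2 * κ π ^ 2 := by ring
      rw [this]
      exact Dvd.dvd.mul_right h5 _
    rw [h.unit] at h8
    exact hπ.not_isUnit (isUnit_of_dvd_one h8)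
  apply unit_dvd hπ hP.odd hκ2 _ h5
  rcases legendreSym.eq_one_or_neg_one p hd0 with h6 | h6
  · rw [h6]
    norm_num
  · rw [h6]
    norm_num

/-- the symbol at the primes `3` modulo `4` -/
lemma IsKap.inert (h : IsKap d n κ) {q : ℕ} (hq : q.Prime) (h3 : q % 4 = 3)
    (hqn : ¬ q ∣ n) (hqd : ¬ q ∣ d) : κ (-(q : GaussianInt)) = 1 := by
  have hP : Prim (-(q : GaussianInt)) := by
    rw [prim_iff, Int.even_iff]
    simp only [Zsqrtd.im_neg, Zsqrtd.im_natCast, Zsqrtd.re_neg, Zsqrtd.re_natCast]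
    omega
  have := Fact.mk hq
  have hprime : Prime (-(q : GaussianInt)) := by
    have h4 : Prime (q : GaussianInt) := (GaussianInt.prime_iff_mod_four_eq_three_of_nat_prime q).2 h3
    have h5 : Associated (q : GaussianInt) (-(q : GaussianInt)) := ⟨-1, by simp⟩
    exact h5.prime_iff.1 h4
  have hdvd : ∀ m : ℕ, (-(q : GaussianInt)) ∣ (m : GaussianInt) ↔ q ∣ m := by
    intro m
    rw [neg_dvd]
    constructor
    · rintro ⟨c, hc⟩
      have h1 := congrArg Zsqrtd.re hc
      simp only [Zsqrtd.re_natCast, Zsqrtd.re_mul, Zsqrtd.im_natCast] at h1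
      have h2 : (q : ℤ) ∣ (m : ℤ) := ⟨c.re, by linarith⟩
      exact_mod_cast h2
    · rintro ⟨c, rfl⟩
      exact ⟨c, by push_cast; ring⟩
  have h1 := h.leg _ hprime hP (by rw [hdvd]; exact hqn)
  have hN : gN (-(q : GaussianInt)) = q ^ 2 := by
    unfold gN
    rw [Zsqrtd.norm_neg, Zsqrtd.norm_natCast, pow_two, ← Nat.cast_mul, Int.natAbs_natCast]
  rw [hN] at h1
  have hfer : (-(q : GaussianInt)) ∣ (d : GaussianInt) ^ ((q ^ 2 - 1) / 4) - 1 := by
    have hexp : (q ^ 2 - 1) / 4 = (q - 1) * ((q + 1) / 4) := by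
      obtain ⟨k, hk⟩ : ∃ k, q = 4 * k + 3 := ⟨q / 4, by omega⟩
      rw [hk]
      have e1 : (4 * k + 3) ^ 2 - 1 = 4 * ((4 * k + 2) * (k + 1)) := by
        have : (4 * k + 3) ^ 2 = 4 * ((4 * k + 2) * (k + 1)) + 1 := by ring
        omega
      have e2 : (4 * k + 3 + 1) / 4 = k + 1 := by omega
      have e3 : 4 * k + 3 - 1 = 4 * k + 2 := by omega
      rw [e1, e2, e3, Nat.mul_div_cancel_left _ (by norm_num)]
    have h5 : (q : ℤ) ∣ (d : ℤ) ^ ((q ^ 2 - 1) / 4) - 1 := by
      rw [← ZMod.intCast_zmod_eq_zero_iff_dvd]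
      push_cast
      rw [hexp, pow_mul, ZMod.pow_card_sub_one_eq_one, one_pow, sub_self]
      rw [Ne, ZMod.natCast_eq_zero_iff]
      exact hqd
    obtain ⟨c, hc⟩ := h5
    rw [neg_dvd]
    refine ⟨(c : GaussianInt), ?_⟩
    have h6 := congrArg (fun z : ℤ => (z : GaussianInt)) hc
    push_cast at h6
    exact h6
  apply unit_dvd hprime hP.odd (h.unit _) (one_pow 4)
  have e : κ (-(q : GaussianInt)) - 1 = ((d : GaussianInt) ^ ((q ^ 2 - 1) / 4) - 1) -
    ((d : GaussianInt) ^ ((q ^ 2 - 1) / 4) - κ (-(q : GaussianInt))) := by ring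
  rw [e]
  exact dvd_sub hfer h1

end Pool.Agent.STh
end

section

/-!
# Local types of the quartic symbol
-/

open NumberField IsDedekindDomain Pool.Agent.ST

namespace Pool.Agent.STh

open Pool.Agent.STg

/-! Adapt `MP_1ef7cf_nt_g/S4.lean`; `S4_exists_spec`, `S4_eq_of_mem`, `S4_gN_nat`, `S4_gN_int`, `exists_pi` there are general. -/

variable (U : UD)

lemma S4_units_four (u : GaussianIntˣ) : (u : GaussianInt) ^ 4 = 1 := by
  rw [← Units.val_pow_eq_pow_val, unit_pow_four, Units.val_one]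

/-- `p` divides `(p : ℤ)`-multiples in `ℤ[i]` -/
lemma S4_int_dvd {a b : ℤ} (h : a ∣ b) : (a : GaussianInt) ∣ (b : GaussianInt) := by
  obtain ⟨c, hc⟩ := h
  exact ⟨(c : GaussianInt), by rw [hc, Int.cast_mul]⟩

lemma S4_jac {p : ℕ} (hp : p.Prime) (hp2 : p % 2 = 1) (x : ℤ) :
    ((p : ℕ) : GaussianInt) ∣ (x : GaussianInt) ^ ((p - 1) / 2) -
      ((jacobiSym x p : ℤ) : GaussianInt) := by
  have hfact : Fact p.Prime := ⟨hp⟩
  have hjac : (p : ℤ) ∣ x ^ ((p - 1) / 2) - jacobiSym x p := by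
    have h8 := legendreSym.eq_pow p x
    have h9 : (p - 1) / 2 = p / 2 := by omega
    rw [h9, ← jacobiSym.legendreSym.to_jacobiSym, ← ZMod.intCast_eq_intCast_iff_dvd_sub]
    rw [h8]
    push_cast
    rfl
  have h := S4_int_dvd hjac
  push_cast at h
  exact h

lemma S4_jac_four {p : ℕ} (hp : p.Prime) {x : ℤ} (h : ¬ (p : ℤ) ∣ x) :
    ((jacobiSym x p : ℤ) : GaussianInt) ^ 4 = 1 := by
  have hfact : Fact p.Prime := ⟨hp⟩
  have h1 : jacobiSym x p = 1 ∨ jacobiSym x p = -1 := by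
    rw [← jacobiSym.legendreSym.to_jacobiSym]
    apply legendreSym.eq_one_or_neg_one
    intro h6
    exact h ((ZMod.intCast_zmod_eq_zero_iff_dvd _ _).1 h6)
  rcases h1 with h2 | h2 <;> rw [h2] <;> norm_num

lemma S4_dvd_n : U.d ∣ U.n := (Dvd.intro_left 64 rfl).trans U.dvd

/-- **Inert primes** `p = 3` modulo `4`: `(p)` is the only prime over `p`, `-p` is primary,
`κ(-p)` is congruent to `d ^ ((p ^ 2 - 1) / 4) = (d ^ (p - 1)) ^ ((p + 1) / 4)`, so to `1`, modulo `p`
(`U.leg`, Fermat); two units of `ℤ[i]` congruent modulo `p` are equal. -/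
theorem typeM_inert {p : ℕ} (hp : p.Prime) (h4 : p % 4 = 3) (hpn : ¬ p ∣ U.n) :
    LT2 (chiM U) p 1 := by
  have hfact : Fact p.Prime := ⟨hp⟩
  have hpr : Prime ((p : ℕ) : GaussianInt) :=
    (GaussianInt.prime_iff_mod_four_eq_three_of_nat_prime p).2 h4
  obtain ⟨β, hβ⟩ : ∃ β : GaussianInt, β = -((p : ℕ) : GaussianInt) := ⟨_, rfl⟩
  have hβpr : Prime β := by rw [hβ]; exact hpr.neg
  have hβprim : Prim β := by
    rw [prim_iff, hβ]
    simp only [Zsqrtd.im_neg, Zsqrtd.im_natCast, Zsqrtd.re_neg, Zsqrtd.re_natCast]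
    refine ⟨by simp, ?_⟩
    omega
  have hgN : gN β = p ^ 2 := by rw [hβ, S4_gN_neg, S4_gN_nat]
  have hkey : ∀ m : ℕ, ¬ p ∣ m → ¬ β ∣ ((m : ℕ) : GaussianInt) := by
    intro m hm h
    have h1 := R5b_gN_dvd h
    rw [hgN, S4_gN_nat] at h1
    exact hm ((Nat.pow_dvd_pow_iff (by norm_num)).1 h1)
  have hβn : ¬ β ∣ ((U.n : ℕ) : GaussianInt) := hkey U.n hpn
  have hpd : ¬ p ∣ U.d := fun h => hpn (h.trans (S4_dvd_n U))
  have hβd : ¬ β ∣ ((U.d : ℕ) : GaussianInt) := hkey U.d hpd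
  have hcop : IsCoprime β ((U.n : ℕ) : GaussianInt) :=
    (hβpr.irreducible.coprime_iff_not_dvd).2 hβn
  obtain ⟨P, hP⟩ := S4_exists_spec hβpr
  refine ⟨P, ?_, ?_, ?_⟩
  · rw [hP, absNorm_gi hβpr.ne_zero, hgN]
  · rw [hP, chiM_span U hβprim hcop]
    have hleg := U.leg β hβpr hβprim.odd hβd
    rw [hgN] at hleg
    have hexp : (p ^ 2 - 1) / 4 = (p - 1) * ((p + 1) / 4) := by
      obtain ⟨k, hk⟩ : ∃ k, p = 4 * k + 3 := ⟨p / 4, by omega⟩
      rw [hk]
      have h1 : (4 * k + 3) ^ 2 - 1 = 4 * ((4 * k + 2) * (k + 1)) := by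
        have : (4 * k + 3) ^ 2 = 4 * ((4 * k + 2) * (k + 1)) + 1 := by ring
        omega
      have h2 : 4 * k + 3 - 1 = 4 * k + 2 := by omega
      have h3 : (4 * k + 3 + 1) / 4 = k + 1 := by omega
      rw [h1, h2, h3, Nat.mul_div_cancel_left _ (by norm_num)]
    have hfer : ((p : ℕ) : GaussianInt) ∣ (U.d : GaussianInt) ^ (p - 1) - 1 := by
      have h1 : (p : ℤ) ∣ (U.d : ℤ) ^ (p - 1) - 1 := by
        have h2 := ZMod.pow_card_sub_one_eq_one (p := p) (a := ((U.d : ℕ) : ZMod p)) (by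
          intro h3
          exact hpd ((ZMod.natCast_eq_zero_iff _ _).1 h3))
        rw [← ZMod.intCast_eq_intCast_iff_dvd_sub]
        push_cast
        exact h2.symm
      have h2 := S4_int_dvd h1
      push_cast at h2
      exact h2
    have h1 : β ∣ (U.d : GaussianInt) ^ ((p ^ 2 - 1) / 4) - 1 := by
      rw [hβ, neg_dvd, hexp, pow_mul]
      have h2 := sub_dvd_pow_sub_pow ((U.d : GaussianInt) ^ (p - 1)) 1 ((p + 1) / 4)
      rw [one_pow] at h2
      exact hfer.trans h2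
    have h2 : β ∣ ((U.κ β : GaussianIntˣ) : GaussianInt) - 1 := by
      have h3 := dvd_sub h1 hleg
      have e : (U.d : GaussianInt) ^ ((p ^ 2 - 1) / 4) - 1 -
          ((U.d : GaussianInt) ^ ((p ^ 2 - 1) / 4) - ((U.κ β : GaussianIntˣ) : GaussianInt)) =
          ((U.κ β : GaussianIntˣ) : GaussianInt) - 1 := by ring
      rwa [e] at h3
    have h3 := unit_dvd hβpr hβprim.odd (S4_units_four (U.κ β)) (one_pow 4) h2
    rw [h3]
    simp
  · intro R hR
    apply S4_eq_of_mem hP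
    rw [hβ, map_neg, S4_gi_nat]
    exact neg_mem hR

/-- **Split primes** `p = 1` modulo `4`: `p = π π'`, `π` primary, `π' = star π` (`exists_pi`); `u = κ(π)`,
`κ(π') = star u` (`U.st`). If `p ∣ x ^ 2 - d` then `d ^ ((p - 1) / 4) = x ^ ((p - 1) / 2) = (x / p)` modulo `p`, so
`u = (x / p)`. In general `u ^ 2 = d ^ ((p - 1) / 2) = (d / p)` modulo `π`, so `u ^ 2 = (d / p)`. -/
theorem typeM_split {p : ℕ} (hp : p.Prime) (h4 : p % 4 = 1) (hpn : ¬ p ∣ U.n) :
    ∃ u : GaussianIntˣ, LT1 (chiM U) p ((u : GaussianInt) : ℂ)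
        ((star (u : GaussianInt) : GaussianInt) : ℂ) ∧
      (∀ x : ℤ, (p : ℤ) ∣ x ^ 2 - U.d → (u : GaussianInt) = ((jacobiSym x p : ℤ) : GaussianInt)) ∧
      (jacobiSym U.d p = -1 → (u : GaussianInt) ^ 2 = -1) := by
  obtain ⟨π, h1, h1', h2, h2', h3, h5, h6, h7⟩ := exists_pi hp h4
  have hp2 : p % 2 = 1 := by omega
  have hpd : ¬ p ∣ U.d := fun h => hpn (h.trans (S4_dvd_n U))
  have hkey : ∀ ρ : GaussianInt, gN ρ = p → ∀ m : ℕ, ¬ p ∣ m → ¬ ρ ∣ ((m : ℕ) : GaussianInt) := by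
    intro ρ hρ m hm h
    have h8 := R5b_gN_dvd h
    rw [hρ, S4_gN_nat] at h8
    exact hm (hp.dvd_of_dvd_pow h8)
  have hcop : IsCoprime π ((U.n : ℕ) : GaussianInt) :=
    (h1.irreducible.coprime_iff_not_dvd).2 (hkey π h5 U.n hpn)
  have hcop' : IsCoprime (star π) ((U.n : ℕ) : GaussianInt) :=
    (h2.irreducible.coprime_iff_not_dvd).2 (hkey (star π) h6 U.n hpn)
  have hleg := U.leg π h1 h1'.odd (hkey π h5 U.d hpd)
  rw [h5] at hleg
  have hπp : π ∣ ((p : ℕ) : GaussianInt) := by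
    have h8 := mul_star_eq π
    rw [h5] at h8
    rw [← h8]
    exact Dvd.intro _ rfl
  obtain ⟨P, hP⟩ := S4_exists_spec h1
  obtain ⟨Q, hQ⟩ := S4_exists_spec h2
  refine ⟨U.κ π, ⟨P, Q, ?_, ?_, ?_, ?_, ?_, ?_⟩, ?_, ?_⟩
  · intro h
    apply h3
    rw [h, hQ] at hP
    exact (S4a_assoc hP).symm
  · rw [hP, absNorm_gi h1.ne_zero, h5]
  · rw [hQ, absNorm_gi h2.ne_zero, h6]
  · rw [hP, chiM_span U h1' hcop]
  · rw [hQ, chiM_span U h2' hcop', U.st]
  · intro R hR
    have h8 : gi π * gi (star π) ∈ R.asIdeal := by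
      rw [← map_mul, mul_star_eq, h5, S4_gi_nat]
      exact hR
    rcases R.isPrime.mem_or_mem h8 with h9 | h9
    · exact Or.inl (S4_eq_of_mem hP h9)
    · exact Or.inr (S4_eq_of_mem hQ h9)
  · intro x hx
    have hpx : ¬ (p : ℤ) ∣ x := by
      intro h
      apply hpd
      have h8 : (p : ℤ) ∣ x ^ 2 := Dvd.dvd.pow h (by norm_num)
      have h9 := dvd_sub h8 hx
      have e : x ^ 2 - (x ^ 2 - (U.d : ℤ)) = (U.d : ℤ) := by ring
      rw [e] at h9
      exact_mod_cast h9
    have h8 := hπp.trans (S4_jac hp hp2 x)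
    have h9 : π ∣ (x : GaussianInt) ^ ((p - 1) / 2) - (U.d : GaussianInt) ^ ((p - 1) / 4) := by
      have e : (p - 1) / 2 = 2 * ((p - 1) / 4) := by omega
      rw [e, pow_mul]
      have h10 := S4_int_dvd hx
      push_cast at h10
      exact (hπp.trans h10).trans (sub_dvd_pow_sub_pow _ _ _)
    apply unit_dvd h1 h1'.odd (S4_units_four _) (S4_jac_four hp hpx)
    have h11 := dvd_sub h8 (dvd_add h9 hleg)
    have e : (x : GaussianInt) ^ ((p - 1) / 2) - ((jacobiSym x p : ℤ) : GaussianInt) -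
        ((x : GaussianInt) ^ ((p - 1) / 2) - (U.d : GaussianInt) ^ ((p - 1) / 4) +
          ((U.d : GaussianInt) ^ ((p - 1) / 4) - ((U.κ π : GaussianIntˣ) : GaussianInt))) =
        ((U.κ π : GaussianIntˣ) : GaussianInt) - ((jacobiSym x p : ℤ) : GaussianInt) := by ring
    rwa [e] at h11
  · intro hd
    have h8 := hπp.trans (S4_jac hp hp2 (U.d : ℤ))
    rw [hd] at h8
    have h9 : π ∣ (U.d : GaussianInt) ^ ((p - 1) / 2) -
        ((U.κ π : GaussianIntˣ) : GaussianInt) ^ 2 := by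
      have e : (p - 1) / 2 = (p - 1) / 4 * 2 := by omega
      rw [e, pow_mul]
      exact hleg.trans (sub_dvd_pow_sub_pow _ _ _)
    have hu4 : (((U.κ π : GaussianIntˣ) : GaussianInt) ^ 2) ^ 4 = 1 := by
      rw [← pow_mul, mul_comm, pow_mul, S4_units_four, one_pow]
    apply unit_dvd h1 h1'.odd hu4 (by norm_num)
    have h10 := dvd_sub h8 h9
    push_cast at h10
    have e : (U.d : GaussianInt) ^ ((p - 1) / 2) - -1 - ((U.d : GaussianInt) ^ ((p - 1) / 2) -
        ((U.κ π : GaussianIntˣ) : GaussianInt) ^ 2) =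
        ((U.κ π : GaussianIntˣ) : GaussianInt) ^ 2 - -1 := by ring
    rwa [e] at h10

end Pool.Agent.STh
end
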