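import Pool.Agent.Lib.MP_1ef7cf_nt_g.Mg.G015
import Pool.Agent.Lib.MP_1ef7cf_nt_g.Mg.G031
import Pool.Agent.Lib.MP_1ef7cf_nt_g.Mg.G017
import Pool.Agent.Lib.MP_1ef7cf_nt_h.Mg.G007
import Pool.Agent.Lib.MP_1ef7cf_nt_h.Mg.G009
import Pool.Agent.Lib.MP_1ef7cf_nt_h.Mg.G001
import Pool.Agent.Lib.MP_1ef7cf_nt_h.Mg.G002

section

/-!
# Elements with given coordinates
-/

open Complex

namespace Pool.Agent.STh

open Pool.Agent.STg

variable (U : UD)

lemma R2_zq_prim {Q : ℕ} (hQ : Q ≠ 0) : IsPrimitiveRoot (zq Q) Q :=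
  Complex.isPrimitiveRoot_exp Q hQ

lemma R2_r_mem : (U.r : ℂ) ∈ Qb := Rk_mem_Qb U 0 (U.r_mem 0)

lemma R2_e_mem : (U.e : ℂ) ∈ Qb := Rk_mem_Qb U 0 (U.e_mem 0)

/-- an algebraic number not in `F` is moved by an embedding fixing `F` -/
lemma R2_move (F : IntermediateField ℚ ℂ) {x : ℂ} (hx : x ∈ Qb) (hxF : x ∉ F) :
    ∃ h : Qb →+* ℂ, (∀ y ∈ Qb, y ∈ F → ap h y = y) ∧ ap h x ≠ x := by
  by_contra hcon
  push Not at hcon
  apply hxF
  let K : IntermediateField F ℂ := algebraicClosure F ℂ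
  have hQK : ∀ y ∈ Qb, y ∈ K := by
    intro y hy
    have h1 : IsAlgebraic ℚ y := mem_algebraicClosure_iff.mp hy
    exact mem_algebraicClosure_iff.mpr (h1.extendScalars (algebraMap ℚ F).injective)
  have hfix : ∀ σ : K ≃ₐ[F] K, σ ⟨x, hQK x hx⟩ = ⟨x, hQK x hx⟩ := by
    intro σ
    let i : Qb →+* K :=
      { toFun := fun y => ⟨(y : ℂ), hQK y y.2⟩
        map_one' := rfl
        map_mul' := fun _ _ => rfl
        map_zero' := rfl
        map_add' := fun _ _ => rfl }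
    let g : Qb →+* ℂ := (algebraMap K ℂ).comp ((σ : K →+* K).comp i)
    have hg : ∀ (y : ℂ) (hy : y ∈ Qb), ap g y = ((σ ⟨y, hQK y hy⟩ : K) : ℂ) := by
      intro y hy
      rw [ap_of_mem g hy]
      rfl
    have hgF : ∀ y : ℂ, y ∈ Qb → y ∈ F → ap g y = y := by
      intro y hy hyF
      rw [hg y hy]
      have h2 : (⟨y, hQK y hy⟩ : K) = algebraMap F K ⟨y, hyF⟩ := rfl
      rw [h2, σ.commutes]
      rfl
    have h3 := hcon g hgF
    rw [hg x hx] at h3
    exact Subtype.ext h3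
  have : IsGalois F K := inferInstance
  have hbot := (InfiniteGalois.mem_bot_iff_fixed (k := F) (K := K) (⟨x, hQK x hx⟩ : K)).mpr hfix
  rw [IntermediateField.mem_bot] at hbot
  obtain ⟨y, hy⟩ := hbot
  have h4 : (y : ℂ) = x := congrArg (fun z : K => (z : ℂ)) hy
  rw [← h4]
  exact y.2

/-- `√d` is irrational -/
lemma R2_e_notMem : (U.e : ℂ) ∉ (⊥ : IntermediateField ℚ ℂ) := by
  intro h
  rw [IntermediateField.mem_bot] at h
  obtain ⟨q, hq⟩ := h
  have h1 : (U.e : ℂ) = (q : ℂ) := by rw [← hq]; simp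
  have h2 : (q : ℂ) ^ 2 = (U.d : ℂ) := by
    rw [← h1]
    have := congrArg (fun x : ℝ => (x : ℂ)) U.e_sq
    simpa using this
  have h3 : q ^ 2 = (U.d : ℚ) := by exact_mod_cast h2
  apply U.nsq
  rw [← Rat.isSquare_natCast_iff]
  exact ⟨q, by rw [← h3]; ring⟩

/-- an embedding with `√d ↦ -√d` -/
lemma R2_exists_neg : ∃ h : Qb →+* ℂ, ap h (U.e : ℂ) = -(U.e : ℂ) := by
  obtain ⟨h, -, hh⟩ := R2_move ⊥ (R2_e_mem U) (R2_e_notMem U)
  refine ⟨h, ?_⟩
  have h1 : ap h ((U.e : ℂ) ^ 2) = (U.e : ℂ) ^ 2 := by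
    have h2 : (U.e : ℂ) ^ 2 = ((U.d : ℚ) : ℂ) := by
      have := congrArg (fun x : ℝ => (x : ℂ)) U.e_sq
      simpa using this
    rw [h2]
    have h3 := ap_ratCast (F := Qb) h (U.d : ℚ)
    simpa using h3
  rw [ap_pow h (R2_e_mem U)] at h1
  have h2 : (ap h (U.e : ℂ) - U.e) * (ap h (U.e : ℂ) + U.e) = 0 := by
    linear_combination h1
  rcases mul_eq_zero.1 h2 with h3 | h3
  · exact absurd (sub_eq_zero.1 h3) hh
  · exact eq_neg_of_add_eq_zero_left h3

/-- every embedding commutes with the conjugation on `F` -/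
lemma R2_comm (Q : ℕ) (hQ : Q ≠ 0) (h : Qb →+* ℂ) (he : ap h (U.e : ℂ) = -(U.e : ℂ)) {x : ℂ}
    (hx : x ∈ IntermediateField.adjoin ℚ {I, zq Q, (U.e : ℂ)}) :
    x ∈ Qb ∧ ap h (starRingEnd ℂ x) = starRingEnd ℂ (ap h x) := by
  have hI2 : ap h I * ap h I = -1 := by
    rw [← ap_mul h D3a_I_mem D3a_I_mem, Complex.I_mul_I]
    have h3 := ap_ratCast (F := Qb) h (-1)
    simpa using h3
  induction hx using IntermediateField.adjoin_induction with
  | mem x hx =>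
    rcases hx with rfl | rfl | rfl
    · refine ⟨D3a_I_mem, ?_⟩
      have h1 : (ap h I - I) * (ap h I + I) = 0 := by
        linear_combination hI2 - Complex.I_mul_I
      rw [Complex.conj_I]
      have h2 : ap h (-I) = -ap h I := by
        rw [← zero_sub, ap_sub h (zero_mem _) D3a_I_mem, ap_zero, zero_sub]
      rw [h2]
      rcases mul_eq_zero.1 h1 with h3 | h3
      · rw [sub_eq_zero.1 h3, Complex.conj_I]
      · rw [eq_neg_of_add_eq_zero_left h3, map_neg, Complex.conj_I]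
    · have hz := zq_mem_Qb hQ
      refine ⟨hz, ?_⟩
      rw [conj_zq, ap_inv h hz]
      have h1 : ap h (zq Q) ^ Q = 1 := by
        rw [← ap_pow h hz, zq_pow hQ, ap_one]
      have h2 : ‖ap h (zq Q)‖ = 1 := Complex.norm_eq_one_of_pow_eq_one h1 hQ
      rw [Complex.inv_def, Complex.normSq_eq_norm_sq, h2]
      simp
    · refine ⟨R2_e_mem U, ?_⟩
      rw [Complex.conj_ofReal, he, map_neg, Complex.conj_ofReal]
  | algebraMap q =>
    refine ⟨Qb.algebraMap_mem q, ?_⟩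
    have h1 : starRingEnd ℂ (algebraMap ℚ ℂ q) = algebraMap ℚ ℂ q := by simp
    rw [h1, ap_ratCast]
    simp
  | add x y _ _ hx hy =>
    refine ⟨add_mem hx.1 hy.1, ?_⟩
    rw [map_add, ap_add h (V4_conj_mem hx.1) (V4_conj_mem hy.1), ap_add h hx.1 hy.1, map_add,
      hx.2, hy.2]
  | inv x _ hx =>
    refine ⟨inv_mem hx.1, ?_⟩
    rw [map_inv₀, ap_inv h (V4_conj_mem hx.1), ap_inv h hx.1, map_inv₀, hx.2]
  | mul x y _ _ hx hy =>
    refine ⟨mul_mem hx.1 hy.1, ?_⟩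
    rw [map_mul, ap_mul h (V4_conj_mem hx.1) (V4_conj_mem hy.1), ap_mul h hx.1 hy.1, map_mul,
      hx.2, hy.2]

/-- `r` is not in `F = ℚ(i, ζ_Q, √d)`. Every embedding `h` of `F` in `ℂ` commutes with complex conjugation:
the elements `x ∈ F` with `conj x ∈ F` and `h (conj x) = conj (h x)` form a field containing `i`, `ζ_Q`
(`h ζ` is a root of unity) and `√d` (`h √d = ± √d` is real). If `r ∈ F` then `h r` is real for all `h`. But there is an embedding
`h` of `Qb` with `h √d = -√d` (`√d` is irrational: `d` is not a square), and then `(h r) ^ 2 = -√d < 0`. -/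
lemma r_notMem (Q : ℕ) (hQ : Q ≠ 0) :
    (U.r : ℂ) ∉ IntermediateField.adjoin ℚ {I, zq Q, (U.e : ℂ)} := by
  intro hF
  obtain ⟨h, he⟩ := R2_exists_neg U
  obtain ⟨-, h1⟩ := R2_comm U Q hQ h he hF
  rw [Complex.conj_ofReal] at h1
  have h2 : ap h (U.r : ℂ) = ((ap h (U.r : ℂ)).re : ℂ) := (Complex.conj_eq_iff_re.1 h1.symm).symm
  have h3 : ap h (U.r : ℂ) ^ 2 = -(U.e : ℂ) := by
    rw [← ap_pow h (R2_r_mem U), ← he]
    congr 1
    have := congrArg (fun x : ℝ => (x : ℂ)) U.r_sq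
    simpa using this
  rw [h2] at h3
  have h4 : (ap h (U.r : ℂ)).re ^ 2 = -U.e := by exact_mod_cast h3
  have h5 := U.e_pos
  have h6 := sq_nonneg (ap h (U.r : ℂ)).re
  linarith

/-- `r ^ 2 = √d ∈ F` and `r ∉ F`, so there is an embedding of `Qb` over `F` with `r ↦ -r`. -/
lemma exists_h_neg (Q : ℕ) (hQ : Q ≠ 0) : ∃ h : Qb →+* ℂ, ap h I = I ∧ ap h (zq Q) = zq Q ∧
    ap h (U.r : ℂ) = -(U.r : ℂ) := by
  obtain ⟨h, h1, h2⟩ := R2_move _ (R2_r_mem U) (r_notMem U Q hQ)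
  have hI : I ∈ IntermediateField.adjoin ℚ {I, zq Q, (U.e : ℂ)} :=
    IntermediateField.subset_adjoin ℚ _ (by simp)
  have hz : zq Q ∈ IntermediateField.adjoin ℚ {I, zq Q, (U.e : ℂ)} :=
    IntermediateField.subset_adjoin ℚ _ (by simp)
  have he : (U.e : ℂ) ∈ IntermediateField.adjoin ℚ {I, zq Q, (U.e : ℂ)} :=
    IntermediateField.subset_adjoin ℚ _ (by simp)
  refine ⟨h, h1 _ D3a_I_mem hI, h1 _ (zq_mem_Qb hQ) hz, ?_⟩
  have h3 := h1 _ (R2_e_mem U) he
  have h4 : (U.e : ℂ) = (U.r : ℂ) ^ 2 := by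
    have := congrArg (fun x : ℝ => (x : ℂ)) U.r_sq
    simpa using this.symm
  rw [h4, ap_pow h (R2_r_mem U)] at h3
  have h5 : (ap h (U.r : ℂ) - U.r) * (ap h (U.r : ℂ) + U.r) = 0 := by
    linear_combination h3
  rcases mul_eq_zero.1 h5 with h6 | h6
  · exact absurd (sub_eq_zero.1 h6) h2
  · exact eq_neg_of_add_eq_zero_left h6

/-- `D_main` with `Q = M k` for the `h` of the previous lemma: `κ(β) r = -r`,
`ζ ^ N(β) = ζ`. -/
lemma exists_zc_weak (k : ℕ) : ∃ β : GaussianInt, Prim β ∧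
    IsCoprime β ((U.n : ℕ) : GaussianInt) ∧ sM U k β = zc _ := by
  have hQ := U.M_ne_zero k
  obtain ⟨h, hI, hz, hr⟩ := exists_h_neg U (U.M k) hQ
  obtain ⟨β, hP, hc, hA⟩ := D_main U hQ (U.n_dvd_M k) h hI
  have hβn : IsCoprime β ((U.n : ℕ) : GaussianInt) := U.coprime_n (J := k) hc
  refine ⟨β, hP, hβn, ?_⟩
  have h1 : U.κ β = -1 := by
    have h2 := hA.r
    rw [hr] at h2
    have hr0 : (U.r : ℂ) ≠ 0 := by exact_mod_cast U.r_pos.ne'
    have h3 : (((U.κ β : GaussianIntˣ) : GaussianInt) : ℂ) = ((-1 : GaussianInt) : ℂ) := by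
      apply mul_right_cancel₀ hr0
      rw [← h2, map_neg, map_one, neg_one_mul]
    apply Units.ext
    rw [Units.val_neg, Units.val_one]
    exact GaussianInt.toComplex_injective h3
  have h2 : nu (U.M k) (gN β) = 1 := by
    rw [← nu_one, nu_eq_iff (U.gN_coprime k hβn) (Nat.coprime_one_left _)]
    have h3 := hA.z
    rw [hz] at h3
    have hprim := R2_zq_prim hQ
    have h4 : zq (U.M k) ^ gN β = zq (U.M k) ^ 1 := by rw [pow_one]; exact h3.symm
    have h5 := (hprim.isOfFinOrder hQ).pow_eq_pow_iff_modEq.mp h4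
    rwa [← hprim.eq_orderOf] at h5
  unfold sM zc
  rw [h1, h2]

/-- Chinese remainder theorem: `q` is prime to `f k`; choose `α = β` modulo `f k`, `α = c` modulo
`q`; `sM_per`. -/
theorem exists_zc (k : ℕ) {q : GaussianInt} (hq : IsCoprime q ((U.n : ℕ) : GaussianInt))
    (c : GaussianInt) : ∃ α : GaussianInt, Prim α ∧ IsCoprime α ((U.n : ℕ) : GaussianInt) ∧
      sM U k α = zc _ ∧ q ∣ α - c := by
  obtain ⟨β, hP, hβn, hs⟩ := exists_zc_weak U k
  obtain ⟨u, v, huv⟩ := U.coprime_f k hq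
  have hd : U.f k ∣ β - (β * u * q + c * v * U.f k) :=
    ⟨v * (β - c), by linear_combination (-β) * huv⟩
  have hP' : Prim (β * u * q + c * v * U.f k) := Prim.of_dvd (U.cube_dvd k) hP hd
  refine ⟨β * u * q + c * v * U.f k, hP', ?_, ?_, ?_⟩
  · obtain ⟨w, hw⟩ := hd
    apply U.coprime_n (J := k)
    have e : β * u * q + c * v * U.f k = β + U.f k * (-w) := by linear_combination -hw
    rw [e]
    exact (U.coprime_f k hβn).add_mul_left_left _
  · rw [← hs]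
    exact (sM_per U (le_refl k) hP hβn hd).symm
  · exact ⟨u * (β - c), by linear_combination c * huv⟩

/-- `α = 1 + M k / 2` for `k ≥ 1` (a natural number, `= 1` modulo `n` and modulo `4`): `κ α = κ 1 = 1`
(`UD.per`), `N(α) = α ^ 2 = 1 + M k + (M k) ^ 2 / 4 = 1 + M k` modulo `M (k + 1) = 2 M k` (as `8 ∣ M k`). -/
theorem exists_gam {k : ℕ} (hk : 1 ≤ k) : ∃ α : GaussianInt, Prim α ∧
    IsCoprime α ((U.n : ℕ) : GaussianInt) ∧ sM U (k + 1) α = (1, nu (U.M (k + 1)) (1 + U.M k)) := by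
  obtain ⟨j, rfl⟩ : ∃ j, k = j + 1 := ⟨k - 1, by omega⟩
  have hd : U.f j ∣ ((1 + U.M j : ℕ) : GaussianInt) - 1 := by
    refine ⟨1, ?_⟩
    unfold UD.f
    push_cast
    ring
  have hd' : U.f j ∣ 1 - ((1 + U.M j : ℕ) : GaussianInt) := by
    rw [← neg_sub]
    exact (dvd_neg).2 hd
  have hP : Prim ((1 + U.M j : ℕ) : GaussianInt) := Prim.of_dvd (U.cube_dvd j) prim_one hd'
  have hnd : ((U.n : ℕ) : GaussianInt) ∣ 1 - ((1 + U.M j : ℕ) : GaussianInt) := by
    refine dvd_trans ?_ hd'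
    unfold UD.f
    exact_mod_cast (Nat.cast_dvd_cast (α := GaussianInt) (U.n_dvd_M j))
  have hcn : IsCoprime ((1 + U.M j : ℕ) : GaussianInt) ((U.n : ℕ) : GaussianInt) := by
    obtain ⟨c, hc⟩ := hnd
    exact ⟨1, c, by linear_combination -hc⟩
  refine ⟨_, hP, hcn, ?_⟩
  unfold sM
  have h1 : U.κ ((1 + U.M j : ℕ) : GaussianInt) = 1 := by
    rw [← U.κ_one]
    exact (U.per prim_one isCoprime_one_left hnd).symm
  have hg : gN ((1 + U.M j : ℕ) : GaussianInt) = (1 + U.M j) ^ 2 := R5d_gN_natCast _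
  have hmod : gN ((1 + U.M j : ℕ) : GaussianInt) ≡ 1 + U.M (j + 1) [MOD U.M (j + 1 + 1)] := by
    rw [hg]
    obtain ⟨m, hm⟩ := U.dvd64 j
    have h2 : (1 + U.M j) ^ 2 = (1 + U.M (j + 1)) + U.M (j + 1 + 1) * (16 * m) := by
      rw [U.M_succ (j + 1), U.M_succ j, hm]
      ring
    rw [h2]
    exact (Nat.modEq_iff_dvd' (Nat.le_add_right _ _)).2 ⟨16 * m, by rw [Nat.add_sub_cancel_left]⟩ |>.symm
  have hcop := U.gN_coprime (j + 1 + 1) hcn
  have hcop' : (1 + U.M (j + 1)).Coprime (U.M (j + 1 + 1)) := by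
    unfold Nat.Coprime at hcop ⊢
    rw [← hmod.gcd_eq]
    exact hcop
  rw [h1, (nu_eq_iff hcop hcop').2 hmod]

/-- a Gaussian prime over a prime number `l` not dividing `n` is prime to `n` -/
theorem exists_prime_over {l : ℕ} (hl : l.Prime) (hln : ¬ l ∣ U.n) : ∃ q : GaussianInt, Prime q ∧
    q ∣ ((l : ℕ) : GaussianInt) ∧ IsCoprime q ((U.n : ℕ) : GaussianInt) := by
  have hl0 : ((l : ℕ) : GaussianInt) ≠ 0 := Nat.cast_ne_zero.2 hl.ne_zero
  have hlu : ¬ IsUnit ((l : ℕ) : GaussianInt) := by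
    intro h
    have h1 := Zsqrtd.norm_eq_one_iff.2 h
    have h2 : gN ((l : ℕ) : GaussianInt) = l ^ 2 := R5d_gN_natCast l
    unfold gN at h2
    rw [h1] at h2
    have h3 := hl.one_lt
    nlinarith
  obtain ⟨q, hq, hql⟩ := WfDvdMonoid.exists_irreducible_factor hlu hl0
  refine ⟨q, hq.prime, hql, ?_⟩
  have h1 : Nat.Coprime l U.n := (Nat.Prime.coprime_iff_not_dvd hl).2 hln
  have h2 : IsCoprime ((l : ℕ) : ℤ) ((U.n : ℕ) : ℤ) := Nat.isCoprime_iff_coprime.2 h1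
  have h3 : IsCoprime ((l : ℕ) : GaussianInt) ((U.n : ℕ) : GaussianInt) := by
    have h4 := h2.map (Int.castRingHom GaussianInt)
    simpa using h4
  exact h3.of_isCoprime_of_dvd_left hql

end Pool.Agent.STh
end

section

/-!
# Comparison of the Dirichlet series over `K` and over `ℚ(i)`
-/

open NumberField IsDedekindDomain Pool.Agent.ST

namespace Pool.Agent.STh

open Pool.Agent.STg Pool.Agent.STh.F

variable {K : Type*} [Field K] [NumberField K] [Algebra K ℝ] {σ₂ : K →+* ℝ} {a : 𝓞 K}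

lemma S5_chi {n p : ℕ} (hp : p.Prime) (hpn : ¬ p ∣ n) (P : HeightOneSpectrum (𝓞 K))
    (hP : (p : 𝓞 K) ∈ P.asIdeal) : chiK a (Ideal.span {(n : 𝓞 K)}) P.asIdeal = chiP a P.asIdeal := by
  rw [chiK_of P.ne_bot ?_, chiI_prime]
  have h1 : ¬ Ideal.span {(n : 𝓞 K)} ≤ P.asIdeal := by
    intro h
    rw [Ideal.span_singleton_le_iff_mem] at h
    have h2 : IsCoprime (p : ℤ) (n : ℤ) :=
      Nat.isCoprime_iff_coprime.2 ((Nat.Prime.coprime_iff_not_dvd hp).2 hpn)
    obtain ⟨x, y, hxy⟩ := h2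
    apply P.isPrime.ne_top
    rw [Ideal.eq_top_iff_one]
    have h3 := P.asIdeal.add_mem (P.asIdeal.mul_mem_left (x : 𝓞 K) hP)
      (P.asIdeal.mul_mem_left (y : 𝓞 K) h)
    have h4 : (x : 𝓞 K) * (p : 𝓞 K) + (y : 𝓞 K) * (n : 𝓞 K) = 1 := by
      have h5 := congrArg (fun z : ℤ => (z : 𝓞 K)) hxy
      push_cast at h5
      exact h5
    rwa [h4] at h3
  rw [Ideal.isCoprime_iff_sup_eq]
  have h2 : P.asIdeal.IsMaximal := P.isMaximal
  apply h2.out.2
  refine lt_of_le_of_ne le_sup_left ?_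
  intro h3
  apply h1
  rw [h3]
  exact le_sup_right

omit [Algebra K ℝ] in
lemma S5_mem {p : ℕ} {P : HeightOneSpectrum (𝓞 K)} (h : Ideal.absNorm P.asIdeal = p) :
    (p : 𝓞 K) ∈ P.asIdeal := by
  rw [← h]
  exact Ideal.absNorm_mem _

omit [Algebra K ℝ] in
lemma S5_mem' {p : ℕ} {P : HeightOneSpectrum (𝓞 K)} (h : Ideal.absNorm P.asIdeal = p ^ 2) :
    (p : 𝓞 K) ∈ P.asIdeal := by
  have h1 : ((p ^ 2 : ℕ) : 𝓞 K) ∈ P.asIdeal := by
    rw [← h]
    exact Ideal.absNorm_mem _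
  rw [Nat.cast_pow] at h1
  exact P.isPrime.mem_of_pow_mem 2 h1

/-- `n = U.n`, `2 ∣ n`, `d ∣ n`. A prime `P` over `p ∤ n` is prime to `n`, so `chiK P = chiP P` (`chiK_of`,
`chiI_prime`). Let `χ₄(p)` be as usual, `(d / p) = ± 1`.
`p = 3` modulo `4`: `typeM_inert`. `(d / p) = 1`: `typeK_split`, `(-x / p) = -(x / p)`, third case of `Match` with
`a = (x / p) = ± 1`. `(d / p) = -1`: `typeK_inert`, value `1`, fourth case.
`p = 1` modulo `4`: `typeM_split`. `(d / p) = 1`: `typeK_split`, `(-x / p) = (x / p)`, `u = (x / p)`, first case.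
`(d / p) = -1`: `typeK_inert` with value `-1 = u ^ 2`, and `star u = -u` (as `u star u = 1`, `u ^ 2 = -1`), second case. -/
theorem match_KM (U : UD) (D : FD σ₂ U.d a) {p : ℕ} (hp : p.Prime) (hpn : ¬ p ∣ U.n) :
    Match (fun I => ((chiK a (Ideal.span {(U.n : 𝓞 K)}) I : ℤ) : ℂ)) (chiM U) p := by
  have hfact : Fact p.Prime := ⟨hp⟩
  have hpd : ¬ p ∣ U.d := fun h => hpn (h.trans (S4_dvd_n U))
  have hpn2 : ¬ p ∣ 2 := fun h => hpn ((h.trans (by norm_num : 2 ∣ 64)).trans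
    ((Dvd.intro U.d rfl).trans U.dvd))
  have hp2 : p % 2 = 1 := by
    rcases hp.eq_two_or_odd with h | h
    · exact absurd (by rw [h]) hpn2
    · exact h
  have hp2d : ¬ p ∣ 2 * U.d := by
    intro h
    rcases (Nat.Prime.dvd_mul hp).1 h with h1 | h1
    · exact hpn2 h1
    · exact hpd h1
  have hodd : Odd p := Nat.odd_iff.2 hp2
  have hd : jacobiSym (U.d : ℤ) p = 1 ∨ jacobiSym (U.d : ℤ) p = -1 := by
    rw [← jacobiSym.legendreSym.to_jacobiSym]
    apply legendreSym.eq_one_or_neg_one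
    intro h6
    apply hpd
    have h7 := (ZMod.intCast_zmod_eq_zero_iff_dvd _ _).1 h6
    exact_mod_cast h7
  have hx : ∀ x : ℤ, (p : ℤ) ∣ x ^ 2 - U.d → jacobiSym x p = 1 ∨ jacobiSym x p = -1 := by
    intro x hx
    rw [← jacobiSym.legendreSym.to_jacobiSym]
    apply legendreSym.eq_one_or_neg_one
    intro h6
    apply hpd
    have h7 := (ZMod.intCast_zmod_eq_zero_iff_dvd _ _).1 h6
    have h8 : (p : ℤ) ∣ x ^ 2 := Dvd.dvd.pow h7 (by norm_num)
    have h9 := dvd_sub h8 hx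
    have e : x ^ 2 - (x ^ 2 - (U.d : ℤ)) = (U.d : ℤ) := by ring
    rw [e] at h9
    exact_mod_cast h9
  have hcase : p % 4 = 1 ∨ p % 4 = 3 := by omega
  rcases hcase with h4 | h4
  · obtain ⟨u, hu, hu1, hu2⟩ := typeM_split U hp h4 hpn
    rcases hd with h1 | h1
    · left
      obtain ⟨P, Q, x, hPQ, hP, hQ, hxd, hcP, hcQ, hR⟩ := typeK_split D hp hp2d h1
      have hu3 := hu1 x hxd
      have hneg : jacobiSym (-x) p = jacobiSym x p := by
        rw [jacobiSym.neg x hodd, ZMod.χ₄_nat_one_mod_four h4, one_mul]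
      refine ⟨((jacobiSym x p : ℤ) : ℂ), ((jacobiSym x p : ℤ) : ℂ), ?_, ?_⟩
      · refine ⟨P, Q, hPQ, hP, hQ, ?_, ?_, hR⟩
        · change ((chiK a (Ideal.span {(U.n : 𝓞 K)}) P.asIdeal : ℤ) : ℂ) = _
          rw [S5_chi hp hpn P (S5_mem hP), hcP]
        · change ((chiK a (Ideal.span {(U.n : 𝓞 K)}) Q.asIdeal : ℤ) : ℂ) = _
          rw [S5_chi hp hpn Q (S5_mem hQ), hcQ, hneg]
      · rw [hu3, star_intCast] at hu
        simpa using hu
    · right; left
      obtain ⟨P, hP, hcP, hR⟩ := typeK_inert D hp hp2d h1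
      have hu3 := hu2 h1
      have hstar : star (u : GaussianInt) = -(u : GaussianInt) := by
        have h5 := unit_mul_star u
        have h6 : (u : GaussianInt) * star (u : GaussianInt) =
            (u : GaussianInt) * (-(u : GaussianInt)) := by
          rw [h5]
          linear_combination hu3
        exact mul_left_cancel₀ u.ne_zero h6
      have hsq : (((u : GaussianInt) : ℂ)) ^ 2 = -1 := by
        rw [← map_pow, hu3]
        simp
      refine ⟨((u : GaussianInt) : ℂ), ?_, ?_⟩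
      · refine ⟨P, hP, ?_, hR⟩
        change ((chiK a (Ideal.span {(U.n : 𝓞 K)}) P.asIdeal : ℤ) : ℂ) = _
        rw [S5_chi hp hpn P (S5_mem' hP), hcP, ZMod.χ₄_nat_one_mod_four h4, hsq]
        simp
      · rw [hstar] at hu
        simpa using hu
  · have hM := typeM_inert U hp h4 hpn
    rcases hd with h1 | h1
    · right; right; left
      obtain ⟨P, Q, x, hPQ, hP, hQ, hxd, hcP, hcQ, hR⟩ := typeK_split D hp hp2d h1
      have hneg : jacobiSym (-x) p = -jacobiSym x p := by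
        rw [jacobiSym.neg x hodd, ZMod.χ₄_nat_three_mod_four h4, neg_one_mul]
      refine ⟨((jacobiSym x p : ℤ) : ℂ), ?_, ?_⟩
      · refine ⟨P, Q, hPQ, hP, hQ, ?_, ?_, hR⟩
        · change ((chiK a (Ideal.span {(U.n : 𝓞 K)}) P.asIdeal : ℤ) : ℂ) = _
          rw [S5_chi hp hpn P (S5_mem hP), hcP]
        · change ((chiK a (Ideal.span {(U.n : 𝓞 K)}) Q.asIdeal : ℤ) : ℂ) = _
          rw [S5_chi hp hpn Q (S5_mem hQ), hcQ, hneg, Int.cast_neg]
      · have h5 : (((jacobiSym x p : ℤ) : ℂ)) ^ 2 = 1 := by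
          rcases hx x hxd with h6 | h6 <;> rw [h6] <;> norm_num
        rw [h5]
        exact hM
    · right; right; right
      obtain ⟨P, hP, hcP, hR⟩ := typeK_inert D hp hp2d h1
      refine ⟨1, ?_, hM⟩
      refine ⟨P, hP, ?_, hR⟩
      change ((chiK a (Ideal.span {(U.n : 𝓞 K)}) P.asIdeal : ℤ) : ℂ) = _
      rw [S5_chi hp hpn P (S5_mem' hP), hcP, ZMod.χ₄_nat_three_mod_four h4]
      simp

omit [Algebra K ℝ] in
lemma S5_cS {m : Ideal (𝓞 K)} {l : ℕ} (hl : l ≠ 0) :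
    cS (fun I => ((chiK a m I : ℤ) : ℂ)) l = ((cK a m l : ℤ) : ℂ) := by
  unfold cS cK
  have hfin : {I : Ideal (𝓞 K) | Ideal.absNorm I = l}.Finite := finite_norm hl
  rw [finsum_mem_eq_finite_toFinset_sum _ hfin, finsum_mem_eq_finite_toFinset_sum _ hfin,
    Int.cast_sum]

/-- `cS_eq_of_match`, `cm_chiK`, `cm_chiM`, `cS_chiM`; `cK` is the integer version of `cS` (`Int.cast_finsum_mem`;
the set of the ideals of norm `l ≠ 0` is finite: `finite_norm`). -/
theorem cK_eq_cM (U : UD) (D : FD σ₂ U.d a) {l : ℕ} (hl : l ≠ 0) :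
    cK a (Ideal.span {(U.n : 𝓞 K)}) l = cM U l := by
  have h1 : cS (fun I => ((chiK a (Ideal.span {(U.n : 𝓞 K)}) I : ℤ) : ℂ)) l = cS (chiM U) l := by
    refine cS_eq_of_match (N := U.n) (cm_chiK a _) (cm_chiM U) ?_ (fun P h => chiM_n U P h)
      (fun p hp hpn => match_KM U D hp hpn) hl
    intro P hP
    rw [chiK_of_not, Int.cast_zero]
    rintro ⟨-, h⟩
    rw [Ideal.isCoprime_iff_sup_eq] at h
    apply P.isPrime.ne_top
    rw [eq_top_iff, ← h]
    apply sup_le le_rfl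
    rw [Ideal.span_singleton_le_iff_mem]
    exact hP
  rw [S5_cS hl, cS_chiM U l hl] at h1
  exact_mod_cast h1

end Pool.Agent.STh
end
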