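import Pool.Agent.Lib.MP_1ef7cf_nt_h.Mg.G002
import Pool.Agent.Lib.MP_1ef7cf_nt_h.Mg.G001
import Pool.Agent.Lib.MP_1ef7cf_nt_h.F08
import Pool.Agent.Lib.MP_1ef7cf_nt.Fiber
import Pool.Agent.Lib.MP_1ef7cf_nt_h.Q1
import Pool.Agent.Lib.MP_1ef7cf_nt_g.Mg.G044

section

/-!
# An automorphism with the coordinates of a given ideal
-/

open NumberField IsDedekindDomain nonZeroDivisors IntermediateField

namespace Pool.Agent.STh.F

open Pool.Agent.ST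

variable {K : Type*} [Field K] [NumberField K] [Algebra K ℝ] {σ₂ : K →+* ℝ} {d : ℕ} {a : 𝓞 K}

/-- for a prime ideal: `exists_ovr`, `exists_isFrob`, `frob_co`; see `MP_1ef7cf_nt_g/F23.lean` -/
theorem exists_sig_prime (D : FD σ₂ d a) {Q : ℕ} (hQ : Q ≠ 0) (hdQ : 2 * d ∣ Q)
    (v : HeightOneSpectrum (𝓞 K)) (hv : (Q : 𝓞 K) ∉ v.asIdeal) :
    ∃ σ : Lf a Q ≃ₐ[K] Lf a Q, Co a Q σ (chiP a v.asIdeal) (Ideal.absNorm v.asIdeal) := by
  haveI := numberField_of_fd (Lf a Q)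
  obtain ⟨P, hP⟩ := exists_ovr (K := K) (L := Lf a Q) v
  obtain ⟨φ, hφ⟩ := exists_isFrob (K := K) P
  haveI := P.isPrime
  have hPv : P.asIdeal.under (𝓞 K) = v.asIdeal := by rw [← hP]; rfl
  have hφ' : ∀ x : 𝓞 (Lf a Q), φ • x - x ^ Ideal.absNorm v.asIdeal ∈ P.asIdeal := by
    intro x
    have := hφ x
    rw [hP] at this
    exact this
  exact ⟨φ, frob_co D (Lf a Q) (se_mem a Q) hQ hdQ (cos_mem a Q) v hv P.asIdeal hPv φ hφ'⟩

/-- `STg.F.ideal_induction` with `m = span {Q}`; `Co.mul`; see `MP_1ef7cf_nt_g/F23.lean` -/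
theorem exists_sig (D : FD σ₂ d a) {Q : ℕ} (hQ : Q ≠ 0) (hdQ : 2 * d ∣ Q) (I : Ideal (𝓞 K))
    (hI : I ≠ ⊥) (hIQ : IsCoprime I (Ideal.span {(Q : 𝓞 K)})) :
    ∃ σ : Lf a Q ≃ₐ[K] Lf a Q, Co a Q σ (chiI a I) (Ideal.absNorm I) := by
  have hmain := STg.F.ideal_induction (m := Ideal.span {(Q : 𝓞 K)})
    (p := fun I => ∃ σ : Lf a Q ≃ₐ[K] Lf a Q, Co a Q σ (chiI a I) (Ideal.absNorm I)) ?_ ?_ I hI hIQ
  · exact hmain
  · refine ⟨1, ?_⟩
    have h1 : Ideal.absNorm (⊤ : Ideal (𝓞 K)) = 1 := by rw [← Ideal.one_eq_top, map_one]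
    rw [chiI_top, h1]
    exact Co.one (se_mem a Q) (cos_mem a Q)
  · rintro v I hv hI hIc ⟨σ, hσ⟩
    have hvQ : (Q : 𝓞 K) ∉ v.asIdeal := by
      intro h
      exact hv (Ideal.dvd_span_singleton.2 h)
    obtain ⟨φ, hφ⟩ := exists_sig_prime D hQ hdQ v hvQ
    refine ⟨φ * σ, ?_⟩
    rw [chiI_mul a v.ne_bot hI, chiI_prime, map_mul]
    exact Co.mul (se_mem a Q) (cos_mem a Q) hφ hσ

end Pool.Agent.STh.F
end

section

/-!
# The coefficients of the partial zeta functions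
-/

open NumberField IsDedekindDomain Pool.Agent.ST

namespace Pool.Agent.STh

open Pool.Agent.STg Pool.Agent.STh.F

variable {K : Type*} [Field K] [NumberField K] [Algebra K ℝ] {σ₂ : K →+* ℝ} {d : ℕ} {a : 𝓞 K}

private theorem S10a_se_ne (D : FD σ₂ d a) : se a ≠ 0 := by
  unfold se
  exact (Real.sqrt_pos.mpr D.pos).ne'

/-- the function under the sum -/
private theorem S10a_fun (D : FD σ₂ d a) {Q : ℕ} (hQ : Q ≠ 0)
    {κ ρ τ : Lf a Q ≃ₐ[K] Lf a Q} (hκ : Co a Q κ (-1) 1) {I : Ideal (𝓞 K)}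
    (hρ : Co a Q ρ (chiI a I) (Ideal.absNorm I)) (s : ℤˣ) (b : ℕ) (hτ : Co a Q τ (s : ℤ) b)
    [Decidable (τ = ρ)] [Decidable (τ = ρ * κ)]
    [Decidable ((Q : ℤ) ∣ (Ideal.absNorm I : ℤ) - b ∨ (Q : ℤ) ∣ (Ideal.absNorm I : ℤ) + b)] :
    (if (Q : ℤ) ∣ (Ideal.absNorm I : ℤ) - b ∨ (Q : ℤ) ∣ (Ideal.absNorm I : ℤ) + b
      then (s : ℤ) * chiI a I else 0) = (if τ = ρ then 1 else 0) - (if τ = ρ * κ then (1 : ℤ) else 0) := by
  have hse := S10a_se_ne D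
  have hρκ : Co a Q (ρ * κ) (chiI a I * (-1)) (Ideal.absNorm I * 1) :=
    Co.mul (se_mem a Q) (cos_mem a Q) hρ hκ
  rw [mul_one] at hρκ
  have hcos := cos_mod_iff hQ (Ideal.absNorm I : ℤ) (b : ℤ)
  have hchi := chiI_sq a I
  -- different signs
  have hne : ∀ x y : ℤ, (x : ℝ) * se a = (y : ℝ) * se a → x = y := by
    intro x y hxy
    have := mul_right_cancel₀ hse hxy
    exact_mod_cast this
  by_cases hC : (Q : ℤ) ∣ (Ideal.absNorm I : ℤ) - b ∨ (Q : ℤ) ∣ (Ideal.absNorm I : ℤ) + b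
  · rw [if_pos hC]
    have hc := hcos.mpr hC
    have hc' : act τ (Real.cos (2 * Real.pi / Q)) = act ρ (Real.cos (2 * Real.pi / Q)) := by
      rw [hτ.hc, hρ.hc]
      exact_mod_cast hc.symm
    have hc'' : act τ (Real.cos (2 * Real.pi / Q)) = act (ρ * κ) (Real.cos (2 * Real.pi / Q)) := by
      rw [hc', hρ.hc, hρκ.hc]
    have key : (s : ℤ) = chiI a I ∨ (s : ℤ) = -chiI a I := by
      rcases Int.units_eq_one_or s with h1 | h1 <;> rcases hchi with h2 | h2 <;>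
        simp [h1, h2]
    rcases key with h1 | h1
    · have e1 : τ = ρ := by
        apply ext_coords _ hc'
        rw [hτ.hs, hρ.hs, h1]
      have e2 : ¬ τ = ρ * κ := by
        intro h2
        have h3 : act τ (se a) = act (ρ * κ) (se a) := by rw [h2]
        rw [hτ.hs, hρκ.hs] at h3
        have h4 := hne _ _ h3
        rcases hchi with h5 | h5 <;> rw [h1, h5] at h4 <;> omega
      rw [if_pos e1, if_neg e2, h1]
      rcases hchi with h5 | h5 <;> rw [h5] <;> norm_num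
    · have e2 : τ = ρ * κ := by
        apply ext_coords _ hc''
        rw [hτ.hs, hρκ.hs, h1]
        push_cast
        ring
      have e1 : ¬ τ = ρ := by
        intro h2
        have h3 : act τ (se a) = act ρ (se a) := by rw [h2]
        rw [hτ.hs, hρ.hs] at h3
        have h4 := hne _ _ h3
        rcases hchi with h5 | h5 <;> rw [h1, h5] at h4 <;> omega
      rw [if_neg e1, if_pos e2, h1]
      rcases hchi with h5 | h5 <;> rw [h5] <;> norm_num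
  · rw [if_neg hC]
    have hc : act τ (Real.cos (2 * Real.pi / Q)) ≠ act ρ (Real.cos (2 * Real.pi / Q)) := by
      intro h
      rw [hτ.hc, hρ.hc] at h
      exact hC (hcos.mp (by exact_mod_cast h.symm))
    have e1 : ¬ τ = ρ := fun h2 => hc (by rw [h2])
    have e2 : ¬ τ = ρ * κ := fun h2 => hc (by rw [h2, hρκ.hc, hρ.hc])
    rw [if_neg e1, if_neg e2, sub_zero]

open Classical in
/-- **Identity for the coefficients.** Let `ρ` have the coordinates of `I`, `κ` the coordinates `-1`, `1`. If `τ` has the coordinates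
`s`, `b`, then `N(I) = ± b` modulo `Q` iff `τ` and `ρ` agree on the cosine (`cos_mod_iff`), iff `τ = ρ` or `τ = ρ κ` (`ext_coords`), and then
`s chiI(I)` is `1` or `-1`; `ρ ≠ ρ κ`. So the right side is the sum of `[τ = ρ] - [τ = ρ κ]` over the `τ` with restriction `γ`; `κ κ = 1`. -/
theorem coef_eq (D : FD σ₂ d a) {Q : ℕ} (hQ : Q ≠ 0) {L : IntermediateField K ℝ} [Normal K L]
    (hLF : L ≤ Lf a Q) {κ ρ : Lf a Q ≃ₐ[K] Lf a Q} (hκ : Co a Q κ (-1) 1) {I : Ideal (𝓞 K)}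
    (hρ : Co a Q ρ (chiI a I) (Ideal.absNorm I)) (s : (Lf a Q ≃ₐ[K] Lf a Q) → ℤˣ)
    (b : (Lf a Q ≃ₐ[K] Lf a Q) → ℕ) (hsb : ∀ τ, Co a Q τ (s τ : ℤ) (b τ)) (γ : L ≃ₐ[K] L) :
    ((if res hLF ρ = γ then 1 else 0) - (if res hLF ρ = γ * res hLF κ then 1 else 0) : ℤ) =
      ∑ τ ∈ fib hLF γ, if (Q : ℤ) ∣ (Ideal.absNorm I : ℤ) - b τ ∨
        (Q : ℤ) ∣ (Ideal.absNorm I : ℤ) + b τ then (s τ : ℤ) * chiI a I else 0 := by
  have h1 : ∀ τ ∈ fib hLF γ, (if (Q : ℤ) ∣ (Ideal.absNorm I : ℤ) - b τ ∨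
        (Q : ℤ) ∣ (Ideal.absNorm I : ℤ) + b τ then (s τ : ℤ) * chiI a I else 0) =
      (if τ = ρ then 1 else 0) - (if τ = ρ * κ then (1 : ℤ) else 0) :=
    fun τ _ => S10a_fun D hQ hκ hρ (s τ) (b τ) (hsb τ)
  rw [Finset.sum_congr rfl h1, Finset.sum_sub_distrib, Finset.sum_ite_eq', Finset.sum_ite_eq']
  have hκκ : κ * κ = 1 := by
    have h2 : Co a Q (κ * κ) ((-1) * (-1)) (1 * 1) :=
      Co.mul (se_mem a Q) (cos_mem a Q) hκ hκ
    have h3 : Co a Q (κ * κ) 1 1 := by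
      have e1 : ((-1 : ℤ) * (-1)) = 1 := by norm_num
      rw [e1, mul_one] at h2
      exact h2
    exact Co.ext h3 (Co.one (se_mem a Q) (cos_mem a Q))
  have hr : res hLF κ * res hLF κ = 1 := by
    rw [← map_mul, hκκ, map_one]
  have h4 : (ρ ∈ fib hLF γ) ↔ res hLF ρ = γ := mem_fib hLF
  have h5 : (ρ * κ ∈ fib hLF γ) ↔ res hLF ρ = γ * res hLF κ := by
    rw [mem_fib, map_mul]
    constructor
    · intro h
      rw [← h, mul_assoc, hr, mul_one]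
    · intro h
      rw [h, mul_assoc, hr, mul_one]
  congr 1
  · by_cases h6 : res hLF ρ = γ
    · rw [if_pos h6, if_pos (h4.mpr h6)]
    · rw [if_neg h6, if_neg (fun h => h6 (h4.mp h))]
  · by_cases h6 : res hLF ρ = γ * res hLF κ
    · rw [if_pos h6, if_pos (h5.mpr h6)]
    · rw [if_neg h6, if_neg (fun h => h6 (h5.mp h))]

end Pool.Agent.STh
end

section

/-!
# Valuations above `2`
-/

open Complex

namespace Pool.Agent.STh

open Pool.Agent.STg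

/-! Adapt `MP_1ef7cf_nt_g/E3.lean` and `UD.exists_odd_part` in `E3a.lean`; `E3_seq`, `eq_of_rec`, `exists_z` are
general. -/

variable (V : ValuationSubring ℂ)

/-- `f = 2 ^ J n = (1 + i) ^ m δ₁` with `δ₁` odd, `m ≥ 4` (`64 ∣ n`) -/
lemma UD.exists_odd_part (U : UD) (J : ℕ) : ∃ (m : ℕ) (δ₁ : GaussianInt), 4 ≤ m ∧ gOdd δ₁ ∧
    U.f J = ⟨1, 1⟩ ^ m * δ₁ := by
  obtain ⟨b, β, h1, h2⟩ := E3a_exists (U.f_ne_zero J)
  refine ⟨b, β, ?_, h1, h2⟩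
  have h3 : (⟨1, 1⟩ : GaussianInt) ^ 4 ∣ U.f J := by
    obtain ⟨c, hc⟩ := U.dvd64 J
    refine ⟨⟨-16, 0⟩ * (c : GaussianInt), ?_⟩
    have h4 : (⟨1, 1⟩ : GaussianInt) ^ 4 * ⟨-16, 0⟩ = 64 := by
      ext <;> rfl
    unfold UD.f
    rw [hc, ← mul_assoc, h4]
    push_cast
    ring
  rw [h2] at h3
  have h5 : (⟨1, 1⟩ : GaussianInt) ^ 4 ∣ ⟨1, 1⟩ ^ b :=
    ((E3_odd_coprime h1).symm.pow_left).dvd_of_dvd_mul_right h3
  exact (pow_dvd_pow_iff (by decide) E3_not_unit).1 h5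

/-- **Independence of `a` and `t`.** As `LemData.val_indep` in `MP_1ef7cf_nt_g/E3.lean`. -/
theorem val_indep (h2 : V.valuation (2 : ℂ) < 1) (U : UD) (J : ℕ)
    {α : GaussianInt} (hα : Prim α) (hαn : IsCoprime α ((U.n : ℕ) : GaussianInt)) {a a' t t' : ℂ}
    (ha : ∃ b : GaussianInt, IsCoprime b (U.f J) ∧ a = (b : ℂ) / (U.f J : ℂ))
    (ha' : ∃ b : GaussianInt, IsCoprime b (U.f J) ∧ a' = (b : ℂ) / (U.f J : ℂ))
    (ht : t ∈ TFin U.D.X α) (ht' : t' ∈ TFin U.D.X α) :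
    V.valuation (U.D.X a - t) = V.valuation (U.D.X a' - t') := by
  obtain ⟨m, δ₁, hm, hδ₁, hf⟩ := U.exists_odd_part J
  obtain ⟨b, hb, rfl⟩ := ha
  obtain ⟨b', hb', rfl⟩ := ha'
  have hα0 : α ≠ 0 := hα.odd.ne_zero
  obtain ⟨u, hu, hαu, rfl⟩ := (U.D.mem_TFin hα0 t).1 ht
  obtain ⟨u', hu', hαu', rfl⟩ := (U.D.mem_TFin hα0 t').1 ht'
  have hαf := U.coprime_f J hαn
  obtain ⟨s1, s2, s3⟩ := E3_seq U.D V h2 (by omega) (U.f_ne_zero J) hδ₁ hf hα.odd hαf hb hu hαu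
  obtain ⟨r1, r2, r3⟩ := E3_seq U.D V h2 (by omega) (U.f_ne_zero J) hδ₁ hf hα.odd hαf hb' hu' hαu'
  have h3 := eq_of_rec (V.valuation (2 : ℂ))
    (fun j => V.valuation (U.D.X ((1 + I) ^ j * ((b : ℂ) / (U.f J : ℂ))) -
      U.D.X ((1 + I) ^ j * u)))
    (fun j => V.valuation (U.D.X ((1 + I) ^ j * ((b' : ℂ) / (U.f J : ℂ))) -
      U.D.X ((1 + I) ^ j * u')))
    (m - 1) s1 r1 (by
      by_cases hun : IsUnit δ₁
      · exact (s2 hun).trans (r2 hun).symm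
      · exact (s3 hun).trans (r3 hun).symm)
  change V.valuation (U.D.X ((1 + I) ^ 0 * ((b : ℂ) / (U.f J : ℂ))) - U.D.X ((1 + I) ^ 0 * u)) =
    V.valuation (U.D.X ((1 + I) ^ 0 * ((b' : ℂ) / (U.f J : ℂ))) - U.D.X ((1 + I) ^ 0 * u')) at h3
  rw [pow_zero, one_mul, one_mul, one_mul, one_mul] at h3
  exact h3

end Pool.Agent.STh
end
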