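import Pool.Agent.Lib.MP_1ef7cf_nt_g.Mg.G017
import Pool.Agent.Lib.MP_1ef7cf_nt_h.Mg.G007
import Pool.Agent.Lib.MP_1ef7cf_nt_g.Mg.G032

section

/-!
# Sums over primary Gaussian integers with given coordinates
-/

open NumberField IsDedekindDomain Pool.Agent.ST

namespace Pool.Agent.STh

open Pool.Agent.STg

/-! Adapt `MP_1ef7cf_nt_g/S7b.lean`: `Ψ` there (values `± 1`) is replaced by the real part of `κ`; `s Re κ(β)` is `1` if
`κ(β) = sg s`, `-1` if `κ(β) = sg (-s)` and `0` otherwise. -/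

/-- the sign of a class with the coordinates `x` -/
def sgnE (Q : ℕ) (s : ℤˣ) (b : ℕ) (x : Gam Q) : ℤ :=
  open Classical in if x.2 = nu Q b then (s : ℤ) * ((x.1 : GaussianIntˣ) : GaussianInt).re else 0

open Classical in
lemma sgnE_eq (Q : ℕ) (s : ℤˣ) (b : ℕ) (x : Gam Q) : sgnE Q s b x =
    (if x = (sg s, nu Q b) then 1 else 0) - (if x = zc Q * (sg s, nu Q b) then 1 else 0) := by
  obtain ⟨u, v⟩ := x
  unfold sgnE zc
  rw [Prod.mk_mul_mk, one_mul]
  by_cases hv : v = nu Q b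
  · subst hv
    simp only [if_true, Prod.mk.injEq, and_true]
    have h1 : u = sg s ↔ ((u : GaussianInt).re = (s : ℤ) ∧ (u : GaussianInt).im = 0) := by
      constructor
      · intro h
        rw [h, sg_coe]
        simp
      · rintro ⟨h, h'⟩
        apply Units.ext
        rw [sg_coe]
        exact Zsqrtd.ext (by rw [h]; simp) (by rw [h']; simp)
    have h2 : u = -1 * sg s ↔ ((u : GaussianInt).re = -(s : ℤ) ∧ (u : GaussianInt).im = 0) := by
      constructor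
      · intro h
        rw [h, Units.val_mul, sg_coe]
        simp
      · rintro ⟨h, h'⟩
        apply Units.ext
        rw [Units.val_mul, sg_coe]
        exact Zsqrtd.ext (by rw [h]; simp) (by rw [h']; simp)
    simp only [h1, h2]
    rcases Int.units_eq_one_or s with rfl | rfl <;>
    rcases Q_units u.1 u.isUnit with ⟨k1, k2⟩ | ⟨k1, k2⟩ | ⟨k1, k2⟩ | ⟨k1, k2⟩ <;>
    rw [k1, k2] <;> norm_num
  · simp [hv]

lemma sgnE_sM (U : UD) {k : ℕ} (s : ℤˣ) {b : ℕ} (hb : b.Coprime (U.M k)) (β : GaussianInt)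
    (hβ : IsCoprime β ((U.n : ℕ) : GaussianInt)) :
    (if ((U.M k : ℕ) : ℤ) ∣ (gN β : ℤ) - b then
      (s : ℤ) * ((U.κ β : GaussianIntˣ) : GaussianInt).re else 0 : ℤ) =
      sgnE (U.M k) s b (sM U k β) := by
  unfold sgnE sM
  have hN := U.gN_coprime k hβ
  have h : ((U.M k : ℕ) : ℤ) ∣ (gN β : ℤ) - b ↔ nu (U.M k) (gN β) = nu (U.M k) b := by
    rw [nu_eq_iff hN hb, Nat.ModEq.comm, Nat.modEq_iff_dvd]
  by_cases h1 : nu (U.M k) (gN β) = nu (U.M k) b
  · rw [if_pos (h.2 h1), if_pos h1]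
  · rw [if_neg (fun h2 => h1 (h.1 h2)), if_neg h1]

/-- As `exists_GM` in `MP_1ef7cf_nt_g/S7b.lean`; `G 0 = 0` because `G_a 0 = 0` for all classes `a`. -/
theorem exists_GM (U : UD) {k J : ℕ} (hJ : k ≤ J)
    (hz : ∃ β : GaussianInt, Prim β ∧ IsCoprime β ((U.n : ℕ) : GaussianInt) ∧ sM U k β = zc _)
    (s : ℤˣ) {b : ℕ} (hb : b.Coprime (U.M k)) :
    ∃ G : ℂ → ℂ, DifferentiableOn ℂ G {1}ᶜ ∧ G 0 = 0 ∧
      (∀ w : ℂ, 1 < w.re → HasSum (fun β : PD U =>
        (((if ((U.M k : ℕ) : ℤ) ∣ (gN β.1 : ℤ) - b then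
          (s : ℤ) * ((U.κ β.1 : GaussianIntˣ) : GaussianInt).re else 0 : ℤ)) : ℂ) *
          (gN β.1 : ℂ) ^ (-w)) (G w)) ∧
      deriv G 0 = ((-Real.log (xv U k J (sg s, nu (U.M k) b)) : ℝ) : ℂ) := by
  classical
  set f := U.f J with hf
  have hf0 : f ≠ 0 := U.f_ne_zero J
  have hfu : ¬ IsUnit f := U.f_not_unit J
  have hf3 : (⟨1, 1⟩ : GaussianInt) ^ 3 ∣ f := U.cube_dvd J
  have hPR := isPR_PR hf0
  have hex : ∀ a, a ∈ PR f → ∃ G : ℂ → ℂ, DifferentiableOn ℂ G {1}ᶜ ∧ G 0 = 0 ∧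
      (∀ w : ℂ, 1 < w.re → HasSum (fun c : GaussianInt => (gN (a + f * c) : ℂ) ^ (-w)) (G w)) ∧
      deriv G 0 = ((U.D.c₀ - 2 * U.D.ell ((a : ℂ) / (f : ℂ)) : ℝ) : ℂ) :=
    fun a ha => exists_G U.D hfu hf0 (hPR.1 a ha).2
  choose! G hG1 hG0 hG2 hG3 using hex
  set E : GaussianInt → ℤ := fun a => sgnE (U.M k) s b (sM U k a) with hE
  have hGd : ∀ a ∈ PR f, DifferentiableAt ℂ (G a) 0 := fun a ha =>
    (hG1 a ha 0 (by simp)).differentiableAt (isOpen_compl_singleton.mem_nhds (by simp))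
  refine ⟨fun w => ∑ a ∈ PR f, (E a : ℂ) * G a w, ?_, ?_, ?_, ?_⟩
  · exact DifferentiableOn.fun_sum fun a ha => (hG1 a ha).const_mul _
  · refine Finset.sum_eq_zero fun a ha => ?_
    rw [hG0 a ha, mul_zero]
  · intro w hw
    -- one class
    have h1 : ∀ a ∈ PR f, HasSum (fun β : PD U => if f ∣ β.1 - a then
        (E β.1 : ℂ) * (gN β.1 : ℂ) ^ (-w) else 0) ((E a : ℂ) * G a w) := by
      intro a ha
      obtain ⟨ha1, ha2⟩ := hPR.1 a ha
      have hmem : ∀ c : GaussianInt, Prim (a + f * c) ∧ IsCoprime (a + f * c) ((U.n : ℕ) : GaussianInt) := by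
        intro c
        have h2 : f ∣ a - (a + f * c) := ⟨-c, by ring⟩
        refine ⟨Prim.of_dvd hf3 ha1 h2, ?_⟩
        have h3 : IsCoprime (a + f * c) f := by
          rw [add_comm]
          exact (IsCoprime.add_mul_left_left_iff (x := a) (y := f) (z := c)).2 ha2 |> fun h => by
            rwa [add_comm] at h
        exact U.coprime_n (J := J) h3
      set i : GaussianInt → PD U := fun c => ⟨a + f * c, hmem c⟩ with hi
      have hinj : Function.Injective i := by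
        intro c c' h
        have h2 : a + f * c = a + f * c' := congrArg Subtype.val h
        exact mul_left_cancel₀ hf0 (add_left_cancel h2)
      refine (hinj.hasSum_iff ?_).1 ?_
      · intro β hβ
        refine if_neg ?_
        rintro ⟨c, hc⟩
        apply hβ
        refine ⟨c, Subtype.ext ?_⟩
        show a + f * c = β.1
        rw [← hc]
        ring
      · have h4 : ((fun β : PD U => if f ∣ β.1 - a then
            (E β.1 : ℂ) * (gN β.1 : ℂ) ^ (-w) else 0) ∘ i) =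
            fun c => (E a : ℂ) * (gN (a + f * c) : ℂ) ^ (-w) := by
          funext c
          have h5 : f ∣ (i c).1 - a := ⟨c, by show a + f * c - a = f * c; ring⟩
          have h6 : E (i c).1 = E a := by
            have h7 := sM_per U hJ (hmem c).1 (hmem c).2 h5
            show sgnE (U.M k) s b (sM U k (a + f * c)) = sgnE (U.M k) s b (sM U k a)
            rw [← h7]
          show (if f ∣ (i c).1 - a then (E (i c).1 : ℂ) * (gN (i c).1 : ℂ) ^ (-w) else 0) = _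
          rw [if_pos h5, h6]
        rw [h4]
        exact (hG2 a ha w hw).mul_left _
    have h2 := hasSum_sum h1
    have h3 : (fun β : PD U => (((if ((U.M k : ℕ) : ℤ) ∣ (gN β.1 : ℤ) - b then
        (s : ℤ) * ((U.κ β.1 : GaussianIntˣ) : GaussianInt).re else 0 : ℤ)) : ℂ) * (gN β.1 : ℂ) ^ (-w)) =
        fun β : PD U => ∑ a ∈ PR f, if f ∣ β.1 - a then
          (E β.1 : ℂ) * (gN β.1 : ℂ) ^ (-w) else 0 := by
      funext β
      rw [sgnE_sM U s hb β.1 β.2.2]
      obtain ⟨a, ⟨ha1, ha2⟩, huniq⟩ := hPR.2 β.1 β.2.1 (U.coprime_f J β.2.2)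
      rw [Finset.sum_eq_single a, if_pos ha2]
      · intro b' hb' hba
        exact if_neg fun h => hba (huniq b' ⟨hb', h⟩)
      · intro h
        exact absurd ha1 h
    rw [h3]
    exact h2
  · have hd : HasDerivAt (fun w => ∑ a ∈ PR f, (E a : ℂ) * G a w)
        (∑ a ∈ PR f, (E a : ℂ) * deriv (G a) 0) 0 :=
      HasDerivAt.fun_sum fun a ha => (hGd a ha).hasDerivAt.const_mul _
    rw [hd.deriv]
    obtain ⟨β, hβ1, hβ2, hβ3⟩ := hz
    have hcard := card_translate U hJ hβ1 hβ2 (sg s, nu (U.M k) b)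
    rw [hβ3] at hcard
    have h1 : ∑ a ∈ PR f, (E a : ℂ) * deriv (G a) 0 =
        ((∑ a ∈ PR f, (E a : ℝ) * (U.D.c₀ - 2 * U.D.ell ((a : ℂ) / (f : ℂ))) : ℝ) : ℂ) := by
      rw [Complex.ofReal_sum]
      refine Finset.sum_congr rfl fun a ha => ?_
      rw [hG3 a ha]
      push_cast
      ring
    rw [h1]
    congr 1
    have h2 : ∀ F : GaussianInt → ℝ, ∑ a ∈ PR f, (E a : ℝ) * F a =
        ∑ a ∈ PR f, (if sM U k a = (sg s, nu (U.M k) b) then F a else 0) -
          ∑ a ∈ PR f, (if sM U k a = zc (U.M k) * (sg s, nu (U.M k) b) then F a else 0) := by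
      intro F
      rw [← Finset.sum_sub_distrib]
      refine Finset.sum_congr rfl fun a _ => ?_
      show ((sgnE (U.M k) s b (sM U k a) : ℤ) : ℝ) * F a = _
      rw [sgnE_eq]
      push_cast
      split_ifs <;> ring
    have h3 : ∑ a ∈ PR f, (E a : ℝ) * (U.D.c₀ - 2 * U.D.ell ((a : ℂ) / (f : ℂ))) =
        U.D.c₀ * ∑ a ∈ PR f, (E a : ℝ) * 1 -
          2 * ∑ a ∈ PR f, (E a : ℝ) * U.D.ell ((a : ℂ) / (f : ℂ)) := by
      rw [Finset.mul_sum, Finset.mul_sum, ← Finset.sum_sub_distrib]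
      refine Finset.sum_congr rfl fun a _ => ?_
      ring
    have h4 : ∑ a ∈ PR f, (E a : ℝ) * 1 = 0 := by
      rw [h2 (fun _ => 1)]
      rw [Finset.card_filter, Finset.card_filter] at hcard
      have h5 : ((∑ a ∈ PR f, if sM U k a = zc (U.M k) * (sg s, nu (U.M k) b) then 1 else 0 : ℕ) : ℝ) =
          ((∑ a ∈ PR f, if sM U k a = (sg s, nu (U.M k) b) then 1 else 0 : ℕ) : ℝ) := by
        exact_mod_cast hcard
      push_cast at h5
      rw [h5, sub_self]
    rw [h3, h4, h2 (fun a => U.D.ell ((a : ℂ) / (f : ℂ)))]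
    unfold xv SS
    rw [Real.log_exp]
    ring

end Pool.Agent.STh
end

section

/-!
# The Dirichlet series of the numbers `cM`
-/

open NumberField IsDedekindDomain Pool.Agent.ST

namespace Pool.Agent.STh

open Pool.Agent.STg

/-- Regroup by the norm (`hasSum_regroup`). Adapt `MP_1ef7cf_nt_g/S7.lean`. -/
theorem hasSum_M (U : UD) {k J : ℕ} (hJ : k ≤ J)
    (hz : ∃ β : GaussianInt, Prim β ∧ IsCoprime β ((U.n : ℕ) : GaussianInt) ∧ sM U k β = zc _)
    (s : ℤˣ) {b : ℕ} (hb : b.Coprime (U.M k)) :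
    ∃ G : ℂ → ℂ, DifferentiableOn ℂ G {1}ᶜ ∧ G 0 = 0 ∧
      (∀ w : ℂ, 1 < w.re → HasSum (fun l : ℕ =>
        (((if l ≠ 0 ∧ ((U.M k : ℕ) : ℤ) ∣ (l : ℤ) - b then (s : ℤ) * cM U l else 0 : ℤ)) : ℂ) *
          (l : ℂ) ^ (-w)) (G w)) ∧
      deriv G 0 = ((-Real.log (xv U k J (sg s, nu (U.M k) b)) : ℝ) : ℂ) := by
  obtain ⟨G, hG, hG0, hsum, hder⟩ := exists_GM U hJ hz s hb
  refine ⟨G, hG, hG0, fun w hw => ?_, hder⟩
  have hw0 : -w ≠ 0 := by
    intro h
    have h1 : w = 0 := neg_eq_zero.mp h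
    rw [h1, Complex.zero_re] at hw
    linarith
  have hfin : ∀ l : ℕ, {β : PD U | gN β.1 = l}.Finite := fun l =>
    (finite_gN l).preimage Subtype.val_injective.injOn
  have h1 := hasSum_regroup (fun β : PD U => gN β.1) hfin
    (fun β => if ((U.M k : ℕ) : ℤ) ∣ (gN β.1 : ℤ) - b then
      (s : ℤ) * ((U.κ β.1 : GaussianIntˣ) : GaussianInt).re else 0)
    (hsum w hw)
  refine h1.congr_fun fun l => ?_
  by_cases hl : l = 0
  · subst hl
    have h0 : ((0 : ℕ) : ℂ) ^ (-w) = 0 := by rw [Nat.cast_zero, Complex.zero_cpow hw0]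
    rw [h0, mul_zero, mul_zero]
  congr 2
  have h2 : ∑ᶠ i ∈ {i : PD U | gN i.1 = l},
      (if ((U.M k : ℕ) : ℤ) ∣ (gN i.1 : ℤ) - b then
        (s : ℤ) * ((U.κ i.1 : GaussianIntˣ) : GaussianInt).re else 0) =
      ∑ᶠ i ∈ {i : PD U | gN i.1 = l},
      (if ((U.M k : ℕ) : ℤ) ∣ (l : ℤ) - b then
        (s : ℤ) * ((U.κ i.1 : GaussianIntˣ) : GaussianInt).re else 0) := by
    refine finsum_mem_congr rfl fun i hi => ?_
    have h3 : gN i.1 = l := hi
    rw [h3]
  rw [h2]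
  by_cases hd : ((U.M k : ℕ) : ℤ) ∣ (l : ℤ) - b
  · simp only [if_pos hd, if_pos (And.intro hl hd)]
    rw [← mul_finsum_mem, cM]
    congr 1
    have h4 : {β : GaussianInt | Prim β ∧ IsCoprime β ((U.n : ℕ) : GaussianInt) ∧ gN β = l} =
        Subtype.val '' {i : PD U | gN i.1 = l} := by
      ext β
      constructor
      · rintro ⟨ha, hb, hc⟩
        exact ⟨⟨β, ha, hb⟩, hc, rfl⟩
      · rintro ⟨i, hi, rfl⟩
        exact ⟨i.2.1, i.2.2, hi⟩
    rw [h4, finsum_mem_image Subtype.val_injective.injOn]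
  · rw [if_neg (fun h => hd h.2)]
    simp only [if_neg hd, finsum_zero]

end Pool.Agent.STh
end
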