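import Pool.Agent.Lib.MP_1ef7cf_nt_g.Mg.G017
import Pool.Agent.Lib.MP_1ef7cf_nt_g.Mg.G042
import Pool.Agent.Lib.MP_1ef7cf_nt_g.Mg.G048
import Pool.Agent.Lib.MP_1ef7cf_nt_h.Mg.G006
import Pool.Agent.Lib.MP_1ef7cf_nt_g.Mg.G047

section

/-!
# The elliptic units and the numbers `xv`
-/

open Complex

namespace Pool.Agent.STh

open Pool.Agent.STg

/-! Adapt `MP_1ef7cf_nt_g/V1.lean` and the end of `MP_1ef7cf_nt_g/V1a.lean`. The lemmas `div_notMem`, `th_per`,
`ell_per`, `th_ne_zero` of `V1a.lean` are general and can be used directly. -/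

variable (U : UD)

lemma pp_ne_zero {k J : ℕ} {α : GaussianInt} (hα : Prim α)
    (hαn : IsCoprime α ((U.n : ℕ) : GaussianInt)) (g : Gam (U.M k)) : pp U k J α g ≠ 0 := by
  classical
  have hf0 := U.f_ne_zero J
  have hfu := U.f_not_unit J
  have hα0 : α ≠ 0 := U.ne_zero_of hαn
  have h1 : ∀ a ∈ PR (U.f J), th U.D α (U.f J) a ≠ 0 := fun a ha =>
    th_ne_zero U.D hα0 hfu hf0 (U.coprime_f J hαn) ((isPR_PR hf0).1 a ha).2
  unfold pp
  rw [Finset.prod_ne_zero_iff]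
  intro a ha
  split_ifs
  · exact h1 a ha
  · exact one_ne_zero

lemma vv_ne_zero {k J : ℕ} {α : GaussianInt} (hα : Prim α)
    (hαn : IsCoprime α ((U.n : ℕ) : GaussianInt)) (g : Gam (U.M k)) : vv U k J α g ≠ 0 := by
  unfold vv
  exact div_ne_zero (pp_ne_zero U hα hαn _) (pp_ne_zero U hα hαn _)

lemma vv_zc {k J : ℕ} (α : GaussianInt) (g : Gam (U.M k)) :
    vv U k J α (zc _ * g) = (vv U k J α g)⁻¹ := by
  unfold vv
  rw [zc_inv_mul, inv_div]

lemma xv_pos {k J : ℕ} (g : Gam (U.M k)) : 0 < xv U k J g := Real.exp_pos _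

lemma xv_zc {k J : ℕ} (g : Gam (U.M k)) : xv U k J (zc _ * g) = (xv U k J g)⁻¹ := by
  unfold xv
  rw [zc_inv_mul, ← Real.exp_neg]
  congr 1
  ring

open Classical in
lemma V1_aux {k J : ℕ} (hJ : k ≤ J) {α : GaussianInt} (hα : Prim α)
    (hαn : IsCoprime α ((U.n : ℕ) : GaussianInt)) {C : ℝ} (hC : ∀ z : ℂ, (α : ℂ) * z ∉ Lam →
    Real.log ‖∏ t ∈ TFin U.D.X α, (U.D.X z - t)‖ = U.D.ell (α * z) - gN α * U.D.ell z + C)
    (g : Gam (U.M k)) :
    Real.log ‖pp U k J α g‖ =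
      SS U k J (sM U k α * g) - gN α * SS U k J g +
        C * ((PR (U.f J)).filter (fun a => sM U k a = g)).card := by
  have hf0 := U.f_ne_zero J
  have hfu := U.f_not_unit J
  have hα0 : α ≠ 0 := U.ne_zero_of hαn
  have hαf := U.coprime_f J hαn
  have hmem : ∀ a ∈ PR (U.f J), IsCoprime a (U.f J) := fun a ha => ((isPR_PR hf0).1 a ha).2
  unfold pp
  rw [norm_prod, Real.log_prod (fun a ha => ?_)]
  · have h1 : ∀ a ∈ PR (U.f J), Real.log ‖(if sM U k a = g then th U.D α (U.f J) a else 1 : ℂ)‖ =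
        (if sM U k a = g then U.D.ell (((α * a : GaussianInt) : ℂ) / (U.f J : ℂ)) else 0) -
        gN α * (if sM U k a = g then U.D.ell ((a : ℂ) / (U.f J : ℂ)) else 0) +
        C * (if sM U k a = g then 1 else 0) := by
      intro a ha
      split_ifs with h
      · have h2 := hC ((a : ℂ) / (U.f J : ℂ)) (by
          have h3 := div_notMem hfu hf0 (IsCoprime.mul_left hαf (hmem a ha))
          rw [GaussianInt.toComplex_mul, mul_div_assoc] at h3
          exact h3)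
        rw [GaussianInt.toComplex_mul, mul_div_assoc]
        unfold th
        rw [h2]
        ring
      · simp
    rw [Finset.sum_congr rfl h1, Finset.sum_add_distrib, Finset.sum_sub_distrib,
      ← Finset.mul_sum, ← Finset.mul_sum]
    have h4 := sum_translate U hJ hα hαn (fun a => U.D.ell ((a : ℂ) / (U.f J : ℂ)))
      (fun a b _ haf h => ell_per U.D hfu hf0 haf h) g
    unfold SS
    rw [h4]
    congr 2
    rw [Finset.card_filter]
    push_cast
    rfl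
  · rw [norm_ne_zero_iff]
    split_ifs
    · exact th_ne_zero U.D hα0 hfu hf0 hαf (hmem a ha)
    · exact one_ne_zero

/-- `log ‖th(a)‖ = ell (α a / f) - N(α) ell (a / f) + C` (`theta`), `C` independent of `a`; sum over
the classes with coordinates `g` and `zc g`; their numbers are equal (`card_translate` with `β` such
that `sM β = zc`, hypothesis `hz`), so `C` cancels; `sum_translate` for the terms
`ell (α a / f)`. So `log ‖vv g‖ = SS (sM α g) - N(α) SS g - SS (zc sM α g) + N(α) SS (zc g)`. -/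
theorem log_vv {k J : ℕ} (hJ : k ≤ J) {α : GaussianInt} (hα : Prim α)
    (hαn : IsCoprime α ((U.n : ℕ) : GaussianInt))
    (hz : ∃ β : GaussianInt, Prim β ∧ IsCoprime β ((U.n : ℕ) : GaussianInt) ∧ sM U k β = zc _)
    (g : Gam (U.M k)) :
    2 * Real.log ‖vv U k J α g‖ = Real.log (xv U k J (sM U k α * g)) -
      gN α * Real.log (xv U k J g) := by
  classical
  obtain ⟨C, hC⟩ := U.D.theta α hα.odd
  obtain ⟨β, hβ, hβn, hβz⟩ := hz
  have h1 := V1_aux U hJ hα hαn hC g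
  have h2 := V1_aux U hJ hα hαn hC (zc _ * g)
  have hcard := card_translate U hJ hβ hβn g
  rw [hβz] at hcard
  have hne := pp_ne_zero U (J := J) hα hαn g
  have hne' := pp_ne_zero U (J := J) hα hαn (zc _ * g)
  have h3 : Real.log ‖vv U k J α g‖ =
      Real.log ‖pp U k J α g‖ - Real.log ‖pp U k J α (zc _ * g)‖ := by
    unfold vv
    rw [norm_div, Real.log_div (norm_ne_zero_iff.mpr hne) (norm_ne_zero_iff.mpr hne')]
  rw [h3, h1, h2, hcard]
  have hcomm : zc _ * (sM U k α * g) = sM U k α * (zc _ * g) := mul_left_comm _ _ _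
  unfold xv
  rw [Real.log_exp, Real.log_exp, hcomm]
  ring

/-- `xv (sM α g) = xv g ^ N(α) ‖vv g‖ ^ 2` -/
theorem xv_vv {k J : ℕ} (hJ : k ≤ J) {α : GaussianInt} (hα : Prim α)
    (hαn : IsCoprime α ((U.n : ℕ) : GaussianInt))
    (hz : ∃ β : GaussianInt, Prim β ∧ IsCoprime β ((U.n : ℕ) : GaussianInt) ∧ sM U k β = zc _)
    (g : Gam (U.M k)) :
    xv U k J (sM U k α * g) = xv U k J g ^ gN α * ‖vv U k J α g‖ ^ 2 := by
  have h1 := log_vv U hJ hα hαn hz g
  have hx := xv_pos U (k := k) (J := J) g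
  have hx' := xv_pos U (k := k) (J := J) (sM U k α * g)
  have hv : 0 < ‖vv U k J α g‖ :=
    norm_pos_iff.mpr (vv_ne_zero U (k := k) (J := J) hα hαn g)
  rw [← Real.exp_log hx', ← Real.exp_log (mul_pos (pow_pos hx (gN α)) (pow_pos hv 2))]
  congr 1
  rw [Real.log_mul (pow_pos hx _).ne' (pow_pos hv 2).ne', Real.log_pow, Real.log_pow]
  push_cast
  linarith

end Pool.Agent.STh
end

section

/-!
# The action of the automorphisms on the elliptic units
-/

open Complex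

namespace Pool.Agent.STh

open Pool.Agent.STg

/-! Adapt `MP_1ef7cf_nt_g/V2.lean` (`ap_vv'`, `ap_vv`); `ap_th`, `V2_ap_inj` there are general. -/

variable (U : UD)

lemma zq_prim {Q : ℕ} (hQ : Q ≠ 0) : IsPrimitiveRoot (zq Q) Q :=
  Complex.isPrimitiveRoot_exp Q hQ

lemma V2_term_mem {k J : ℕ} {α : GaussianInt} (hα : Prim α) (g : Gam (U.M k)) :
    ∀ a ∈ PR (U.f J), (open Classical in if sM U k a = g then th U.D α (U.f J) a else 1) ∈ Qb := by
  intro a ha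
  have hf0 := U.f_ne_zero J
  have hfu := U.f_not_unit J
  have hα0 : α ≠ 0 := hα.odd.ne_zero
  split_ifs
  · exact th_mem_Qb U.D hα0 hfu hf0 ((isPR_PR hf0).1 a ha).2
  · exact one_mem _

lemma pp_mem_Qb {k J : ℕ} {α : GaussianInt} (hα : Prim α) (g : Gam (U.M k)) :
    pp U k J α g ∈ Qb := by
  classical
  unfold pp
  exact prod_mem (V2_term_mem U hα g)

/-- `h (pp g) = pp (sM β g)`: `ap_th` and `prod_translate`; the points `w` with `f α w ∈ Lam` satisfy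
`(M J) N(α) w ∈ Lam`. -/
lemma ap_pp' {k J : ℕ} (hJ : k ≤ J) {α β : GaussianInt} (hα : Prim α)
    (hαn : IsCoprime α ((U.n : ℕ) : GaussianInt)) (hP : Prim β) (h : Qb →+* ℂ)
    (hβ : IsCoprime β ((U.M J * gN α : ℕ) : GaussianInt))
    (hX : ∀ w : ℂ, w ∉ Lam → ((U.M J * gN α : ℕ) : ℂ) * w ∈ Lam →
      ap h (U.D.X w) = U.D.X (β * w)) (g : Gam (U.M k)) :
    ap h (pp U k J α g) = pp U k J α (sM U k β * g) := by
  classical
  have hf0 := U.f_ne_zero J
  have hfu := U.f_not_unit J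
  have hα0 : α ≠ 0 := hα.odd.ne_zero
  have hcast : ((U.M J * gN α : ℕ) : GaussianInt) = U.f J * α * star α := by
    rw [Nat.cast_mul, ← mul_star_eq, ← mul_assoc]
    rfl
  have hβf : IsCoprime β (U.f J * α) :=
    IsCoprime.of_isCoprime_of_dvd_right hβ ⟨star α, hcast⟩
  have hβn : IsCoprime β ((U.n : ℕ) : GaussianInt) := U.coprime_n hβf.of_mul_right_left
  have hX' : ∀ w : ℂ, w ∉ Lam → ((U.f J * α : GaussianInt) : ℂ) * w ∈ Lam →
      ap h (U.D.X w) = U.D.X (β * w) := by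
    intro w hw hfw
    refine hX w hw ?_
    have h1 := Lam_mul (star α) hfw
    have h2 : ((U.M J * gN α : ℕ) : ℂ) = ((U.f J * α * star α : GaussianInt) : ℂ) := by
      rw [← hcast, map_natCast]
    have h3 : ((U.M J * gN α : ℕ) : ℂ) * w =
        ((star α : GaussianInt) : ℂ) * (((U.f J * α : GaussianInt) : ℂ) * w) := by
      rw [h2, GaussianInt.toComplex_mul (U.f J * α)]
      ring
    rw [h3]
    exact h1
  have hmem : ∀ a ∈ PR (U.f J), IsCoprime a (U.f J) := fun a ha => ((isPR_PR hf0).1 a ha).2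
  unfold pp
  rw [ap_prod h (PR (U.f J)) (fun a => if sM U k a = g then th U.D α (U.f J) a else 1)
      (V2_term_mem U hα g),
    prod_translate U hJ hP hβn (fun a => th U.D α (U.f J) a)
      (fun a b _ _ hab => th_per U.D hf0 hab) g]
  refine Finset.prod_congr rfl (fun a ha => ?_)
  split_ifs
  · exact ap_th U.D hα0 hfu hf0 (hmem a ha) h hβf hX'
  · exact ap_one h

lemma V2_zq_pow {P c : ℕ} (hP : P ≠ 0) (hc : c ≠ 0) : zq (P * c) ^ c = zq P := by
  unfold zq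
  rw [← Complex.exp_nat_mul]
  congr 1
  have h1 : (P : ℂ) ≠ 0 := Nat.cast_ne_zero.2 hP
  have h2 : (c : ℂ) ≠ 0 := Nat.cast_ne_zero.2 hc
  push_cast
  field_simp

/-- **The Galois action on the elliptic units** in terms of the coordinates of `h`: combine `D_main`
(for `Q = M J * N(α)`) and `ap_pp'`; `h r = u r` gives `u = κ(β)`. From `h ζ_Q = ζ_Q ^ N(β)`, and
`ζ_{M k}` a power of `ζ_Q`, `h ζ = ζ ^ m` gives `N(β) = m` modulo `M k`. -/
theorem ap_pp {k J : ℕ} (hJ : k ≤ J) {α : GaussianInt} (hα : Prim α)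
    (hαn : IsCoprime α ((U.n : ℕ) : GaussianInt)) (h : Qb →+* ℂ) (hI : ap h I = I)
    {u : GaussianIntˣ} {m : ℕ} (hm : m.Coprime (U.M k))
    (hr : ap h (U.r : ℂ) = ((u : GaussianInt) : ℂ) * (U.r : ℂ))
    (hz : ap h (zq (U.M k)) = zq (U.M k) ^ m) (g : Gam (U.M k)) :
    ap h (pp U k J α g) = pp U k J α ((u, nu (U.M k) m) * g) := by
  have hα0 : α ≠ 0 := hα.odd.ne_zero
  have hgN : gN α ≠ 0 := (gN_pos hα0).ne'
  have hQ : U.M J * gN α ≠ 0 := mul_ne_zero (U.M_ne_zero J) hgN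
  obtain ⟨β, hP, hβ, hact⟩ := D_main U hQ ((U.n_dvd_M J).mul_right _) h hI
  have h1 := ap_pp' U hJ hα hαn hP h hβ hact.X g
  have hβf : IsCoprime β (U.f J) := by
    rw [Nat.cast_mul] at hβ
    exact hβ.of_mul_right_left
  have hβn : IsCoprime β ((U.n : ℕ) : GaussianInt) := U.coprime_n hβf
  have hr0 : (U.r : ℂ) ≠ 0 := by
    intro h0
    have h2 := U.r_pow
    rw [h0] at h2
    have h3 : (U.d : ℂ) = 0 := by
      rw [← h2]
      norm_num
    exact U.d_ne_zero (Nat.cast_eq_zero.1 h3)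
  have hu : u = U.κ β := by
    have h2 := hact.r
    rw [hr] at h2
    have h3 := mul_right_cancel₀ hr0 h2
    apply Units.ext
    exact GaussianInt.toComplex_inj.mp h3
  have hnu : nu (U.M k) m = nu (U.M k) (gN β) := by
    rw [nu_eq_iff hm (U.gN_coprime k hβn)]
    obtain ⟨c, hc⟩ : U.M k ∣ U.M J * gN α := (U.M_dvd hJ).mul_right _
    have hc0 : c ≠ 0 := by
      rintro rfl
      exact hQ (by rw [hc, mul_zero])
    have h2 : zq (U.M J * gN α) ^ c = zq (U.M k) := by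
      rw [hc]
      exact V2_zq_pow (U.M_ne_zero k) hc0
    have h3 : ap h (zq (U.M k)) = zq (U.M k) ^ gN β := by
      rw [← h2, ap_pow h (zq_mem_Qb hQ), hact.z, ← pow_mul, ← pow_mul, mul_comm (gN β) c]
    rw [hz] at h3
    have h4 := ((zq_prim (U.M_ne_zero k)).isOfFinOrder
      (U.M_ne_zero k)).pow_eq_pow_iff_modEq.mp h3
    rwa [← (zq_prim (U.M_ne_zero k)).eq_orderOf] at h4
  rw [h1]
  unfold sM
  rw [hu, hnu]

theorem ap_vv {k J : ℕ} (hJ : k ≤ J) {α : GaussianInt} (hα : Prim α)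
    (hαn : IsCoprime α ((U.n : ℕ) : GaussianInt)) (h : Qb →+* ℂ) (hI : ap h I = I)
    {u : GaussianIntˣ} {m : ℕ} (hm : m.Coprime (U.M k))
    (hr : ap h (U.r : ℂ) = ((u : GaussianInt) : ℂ) * (U.r : ℂ))
    (hz : ap h (zq (U.M k)) = zq (U.M k) ^ m) (g : Gam (U.M k)) :
    ap h (vv U k J α g) = vv U k J α ((u, nu (U.M k) m) * g) := by
  unfold vv
  rw [ap_div h (pp_mem_Qb U hα g) (pp_mem_Qb U hα _), ap_pp U hJ hα hαn h hI hm hr hz,
    ap_pp U hJ hα hαn h hI hm hr hz, mul_left_comm (u, nu (U.M k) m) (zc (U.M k)) g]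

end Pool.Agent.STh
end

section

/-!
# The norms of the elliptic units are Galois functions
-/

open Complex

namespace Pool.Agent.STh

open Pool.Agent.STg

/-! Adapt `MP_1ef7cf_nt_g/V5.lean`. -/

variable (U : UD)

lemma pp_mem_Nk {k J : ℕ} (hJ : k ≤ J) {α : GaussianInt} (hα : Prim α)
    (hαn : IsCoprime α ((U.n : ℕ) : GaussianInt)) (g : Gam (U.M k)) : pp U k J α g ∈ Nk U k := by
  refine mem_Nk_of_fixed U k (pp_mem_Qb U hα g) (fun h hI hr hz => ?_)
  have h1 := ap_pp U hJ hα hαn h hI (u := 1) (m := 1) (Nat.coprime_one_left _)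
    (by rw [hr]; simp) (by rw [hz, pow_one]) g
  have h2 : ((1 : GaussianIntˣ), nu (U.M k) 1) = (1 : Gam (U.M k)) := by
    rw [nu_one]
    rfl
  rw [h2, one_mul] at h1
  exact h1

lemma vv_mem_Nk {k J : ℕ} (hJ : k ≤ J) {α : GaussianInt} (hα : Prim α)
    (hαn : IsCoprime α ((U.n : ℕ) : GaussianInt)) (g : Gam (U.M k)) : vv U k J α g ∈ Nk U k := by
  unfold vv
  exact div_mem (pp_mem_Nk U hJ hα hαn g) (pp_mem_Nk U hJ hα hαn _)

lemma V5_norm_sq (v : ℂ) : ((‖v‖ ^ 2 : ℝ) : ℂ) = v * starRingEnd ℂ v := by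
  rw [Complex.mul_conj, Complex.normSq_eq_norm_sq]

lemma V5_norm_mem {k : ℕ} {v : ℂ} (hv : v ∈ Nk U k) : ‖v‖ ^ 2 ∈ Rk U k := by
  obtain ⟨h1, h2⟩ := re_im_mem U k hv
  rw [← Complex.normSq_eq_norm_sq, Complex.normSq_apply]
  exact add_mem (mul_mem h1 h1) (mul_mem h2 h2)

lemma V5_mem_Qb {k : ℕ} {v : ℂ} (hv : v ∈ Nk U k) : v ∈ Qb := by
  obtain ⟨h1, h2⟩ := re_im_mem U k hv
  have h3 : v = (v.re : ℂ) + (v.im : ℂ) * I := (Complex.re_add_im v).symm
  rw [h3]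
  exact add_mem (Rk_mem_Qb U k h1) (mul_mem (Rk_mem_Qb U k h2) V4_I_mem)

/-- The action on `‖v‖ ^ 2 = v conj v`: `h (conj v) = conj (h' v)`, `h' = conj h conj`. -/
lemma V5_ap_norm_sq {k : ℕ} {v : ℂ} (hv : v ∈ Nk U k) {φ : Rk U k →+* ℂ} {h h' : Qb →+* ℂ}
    (hh : ∀ x : ℝ, x ∈ Rk U k → ap h (x : ℂ) = ap φ x)
    (hh' : ∀ x ∈ Qb, ap h' x = starRingEnd ℂ (ap h (starRingEnd ℂ x))) :
    ap φ (‖v‖ ^ 2) = ap h v * starRingEnd ℂ (ap h' v) := by
  have hvQ := V5_mem_Qb U hv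
  rw [← hh _ (V5_norm_mem U hv), V5_norm_sq, ap_mul h hvQ (V4_conj_mem hvQ), hh' v hvQ,
    Complex.conj_conj]

lemma V5_coords {k : ℕ} {φ : Rk U k →+* ℂ} {h h' : Qb →+* ℂ} (hI : ap h I = I)
    (hh : ∀ x : ℝ, x ∈ Rk U k → ap h (x : ℂ) = ap φ x)
    (hh' : ∀ x ∈ Qb, ap h' x = starRingEnd ℂ (ap h (starRingEnd ℂ x))) {m : ℕ} (hm : m % 4 = 1)
    (hc : ap φ (cq (U.M k)) = (Real.cos (2 * Real.pi * m / U.M k) : ℂ)) :
    ap h' I = I ∧ ap h (zq (U.M k)) = zq (U.M k) ^ m ∧ ap h' (zq (U.M k)) = zq (U.M k) ^ m := by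
  have hI' : ap h' I = I := by
    have hIm : I ∈ Qb := V4_I_mem
    have h1 : ap h (-I) = -I := by
      have h2 := ap_sub h (zero_mem _) hIm
      rw [zero_sub, ap_zero, hI, zero_sub] at h2
      exact h2
    rw [hh' I hIm, Complex.conj_I, h1, map_neg, Complex.conj_I, neg_neg]
  have hc1 : ap h (cq (U.M k) : ℂ) = (Real.cos (2 * Real.pi * m / U.M k) : ℂ) := by
    rw [hh _ (cq_mem U k), hc]
  have hc2 : ap h' (cq (U.M k) : ℂ) = (Real.cos (2 * Real.pi * m / U.M k) : ℂ) := by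
    rw [hh' _ (Rk_mem_Qb U k (cq_mem U k)), Complex.conj_ofReal, hc1, Complex.conj_ofReal]
  exact ⟨hI', ap_zq U k h hI hm hc1, ap_zq U k h' hI' hm hc2⟩

lemma V5_sg (s : ℤˣ) : (((sg s : GaussianIntˣ) : GaussianInt) : ℂ) = ((s : ℤ) : ℂ) := by
  rcases Int.units_eq_one_or s with rfl | rfl
  · simp [sg]
  · simp [sg]

/-- **`‖vv‖ ^ 2` is a Galois function.** `gal`: extend `φ` to `h` (`exists_ext_Rk`), `h'` (`exists_conj`);
both have coordinates `(s, m)` (`ap_r_first`, `ap_zq`; `h' i = i`, `h' (cq) = conj (h cq) = h cq`), so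
`φ (‖vv g‖ ^ 2) = vv(g') conj (vv g') = ‖vv g'‖ ^ 2`, `g' = (s, nu m) g` (`ap_vv`). `abs`: `h`, `h'` have
the coordinates `(u, m)`, `(-u, m)` (`ap_r_second`, `exists_coord`), and `vv (zc g') = 1 / vv g'`
(`vv_zc`), so the absolute value of `vv(g') conj (1 / vv(g'))` is `1`. -/
theorem isGF_norm_sq {k J : ℕ} (hJ : k ≤ J) {α : GaussianInt} (hα : Prim α)
    (hαn : IsCoprime α ((U.n : ℕ) : GaussianInt)) :
    IsGF U k (fun g => ‖vv U k J α g‖ ^ 2) := by
  have hv := fun g => vv_mem_Nk U hJ hα hαn g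
  have hrQ : (U.r : ℂ) ∈ Qb := Rk_mem_Qb U k (U.r_mem k)
  refine ⟨fun g => ?_, fun g => V5_norm_mem U (hv g), ?_, ?_⟩
  · exact pow_pos (norm_pos_iff.mpr (vv_ne_zero U hα hαn g)) 2
  · intro φ s m hm hmc hr hc g
    obtain ⟨h, hI, hh⟩ := exists_ext_Rk U k φ
    obtain ⟨h', hh'⟩ := exists_conj h
    obtain ⟨hI', hz, hz'⟩ := V5_coords U hI hh hh' hm hc
    have hr1 : ap h (U.r : ℂ) = ((s : ℤ) : ℂ) * (U.r : ℂ) := by
      rw [hh _ (U.r_mem k), hr]
    have hr2 := ap_r_first U h hr1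
    rw [← hh' _ hrQ] at hr2
    rw [← V5_sg s] at hr1 hr2
    have h1 := ap_vv U hJ hα hαn h hI hmc hr1 hz g
    have h2 := ap_vv U hJ hα hαn h' hI' hmc hr2 hz' g
    have h3 := V5_ap_norm_sq U (hv g) hh hh'
    show ap φ (‖vv U k J α g‖ ^ 2) =
      ((‖vv U k J α ((sg s, nu (U.M k) m) * g)‖ ^ 2 : ℝ) : ℂ)
    rw [h3, h1, h2, V5_norm_sq]
  · intro φ he g
    obtain ⟨m, hm, hmc, hc⟩ := exists_coord U k φ
    obtain ⟨h, hI, hh⟩ := exists_ext_Rk U k φ
    obtain ⟨h', hh'⟩ := exists_conj h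
    obtain ⟨hI', hz, hz'⟩ := V5_coords U hI hh hh' hm hc
    have he1 : ap h (U.e : ℂ) = -(U.e : ℂ) := by
      rw [hh _ (U.e_mem k), he]
    obtain ⟨u, hr1, hr2⟩ := ap_r_second U h he1
    rw [← hh' _ hrQ] at hr2
    have h1 := ap_vv U hJ hα hαn h hI hmc hr1 hz g
    have h2 := ap_vv U hJ hα hαn h' hI' hmc hr2 hz' g
    have h3 := V5_ap_norm_sq U (hv g) hh hh'
    have h4 : ((-u, nu (U.M k) m) * g : Gam (U.M k)) = zc _ * ((u, nu (U.M k) m) * g) := by
      have h5 : ((-u, nu (U.M k) m) : Gam (U.M k)) = zc _ * (u, nu (U.M k) m) := by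
        unfold zc
        rw [Prod.mk_mul_mk, one_mul, neg_one_mul]
      rw [h5, mul_assoc]
    have hne : vv U k J α ((u, nu (U.M k) m) * g) ≠ 0 := vv_ne_zero U hα hαn _
    show ‖ap φ (‖vv U k J α g‖ ^ 2)‖ = 1
    rw [h3, h1, h2, h4, vv_zc, norm_mul, Complex.norm_conj, norm_inv]
    exact mul_inv_cancel₀ (norm_ne_zero_iff.mpr hne)

end Pool.Agent.STh
end
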