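import Pool.Agent.Lib.MP_1ef7cf_nt_h.Mg.G008
import Pool.Agent.Lib.MP_1ef7cf_nt_h.Mg.G010
import Pool.Agent.Lib.MP_1ef7cf_nt_h.Mg.G003
import Pool.Agent.Lib.MP_1ef7cf_nt_g.Mg.G045
import Pool.Agent.Lib.MP_1ef7cf_nt_h.Mg.G012
import Pool.Agent.Lib.MP_1ef7cf_nt_g.Mg.G047

section

/-!
# The Dirichlet series over `K` for the modulus `n`
-/

open NumberField IsDedekindDomain Pool.Agent.ST

namespace Pool.Agent.STh

open Pool.Agent.STg Pool.Agent.STh.F

variable {K : Type*} [Field K] [NumberField K] [Algebra K ℝ] {σ₂ : K →+* ℝ} {a : 𝓞 K}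

/-- `hasSum_M` (with `exists_zc`), `cK_eq_cM`: for `l ≠ 0`, `cK l = cM l`, and it is `0` for `l = 3` modulo `4` (`cM_three`).
`4 ∣ M k`, `b = 1` modulo `4`: if `M k ∣ l + b` then `l = 3` modulo `4` and the term is `0`. So the two series have the
same terms. (`M k = (U.M k : ℕ)` is the `Q` of `GK`.) -/
theorem GK_base (U : UD) (D : FD σ₂ U.d a) {k J : ℕ} (hJ : k ≤ J) (s : ℤˣ) {b : ℕ}
    (hb4 : b % 4 = 1) (hb : b.Coprime (U.M k)) :
    GK a (Ideal.span {(U.n : 𝓞 K)}) (U.M k) s b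
      (Real.log (xv U k J (sg s, nu (U.M k) b))) := by
  obtain ⟨β, hβ1, hβ2, hβ3⟩ := exists_zc_weak U k
  obtain ⟨G, hG1, hG2, hG3, hG4⟩ := hasSum_M U hJ ⟨β, hβ1, hβ2, hβ3⟩ s hb
  refine ⟨G, hG1, hG2, fun w hw => ?_, hG4⟩
  have h4 : (4 : ℤ) ∣ ((U.M k : ℕ) : ℤ) := by
    have h64 := UD.dvd64 U k
    have : (4 : ℕ) ∣ U.M k := Dvd.dvd.trans (by norm_num) h64
    exact_mod_cast this
  have h := hG3 w hw
  have hfun : (fun l : ℕ =>
      (((if l ≠ 0 ∧ (((U.M k : ℕ) : ℤ) ∣ (l : ℤ) - b ∨ ((U.M k : ℕ) : ℤ) ∣ (l : ℤ) + b) then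
        (s : ℤ) * cK a (Ideal.span {(U.n : 𝓞 K)}) l else 0 : ℤ)) : ℂ) * (l : ℂ) ^ (-w)) =
      fun l : ℕ => (((if l ≠ 0 ∧ ((U.M k : ℕ) : ℤ) ∣ (l : ℤ) - b then (s : ℤ) * cM U l else 0 : ℤ)) : ℂ) *
          (l : ℂ) ^ (-w) := by
    funext l
    congr 2
    by_cases hl : l = 0
    · rw [if_neg (fun h => h.1 hl), if_neg (fun h => h.1 hl)]
    · by_cases h1 : ((U.M k : ℕ) : ℤ) ∣ (l : ℤ) - b
      · rw [if_pos ⟨hl, Or.inl h1⟩, if_pos ⟨hl, h1⟩, cK_eq_cM U D hl]
      · rw [if_neg (c := l ≠ 0 ∧ ((U.M k : ℕ) : ℤ) ∣ (l : ℤ) - b) (fun h => h1 h.2)]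
        by_cases h2 : ((U.M k : ℕ) : ℤ) ∣ (l : ℤ) + b
        · rw [if_pos ⟨hl, Or.inr h2⟩, cK_eq_cM U D hl]
          have h3 := h4.trans h2
          have h5 : l % 4 = 3 := by omega
          rw [cM_three U h5, mul_zero]
        · rw [if_neg (fun h => h.2.elim h1 h2)]
  rw [hfun]
  exact h

end Pool.Agent.STh
end

section

/-!
# The numbers `xv` are units
-/

open Complex

namespace Pool.Agent.STh

open Pool.Agent.STg

/-! Adapt `MP_1ef7cf_nt_g/E5.lean`; `exists_conj_val`, `E5_star_prime`, `E5_q`, `E5_val_two`, `E5_eq_one_iff` there are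
general. -/

variable (U : UD)

/-- `val_unit_odd` if `π` is odd; `val_indep` if `π` is even (then `v 2 < 1`): all
`v (X (a / f) - t)` are equal to `e₀`, and `v (th a) = e₀ ^ (number of t)`. -/
lemma val_th (V : ValuationSubring ℂ) {π : GaussianInt} (hπ : Prime π)
    (h : V.valuation (π : ℂ) < 1) (J : ℕ) {α : GaussianInt} (hα : Prim α)
    (hαn : IsCoprime α ((U.n : ℕ) : GaussianInt)) (hπα : ¬ π ∣ α) : ∃ e, e ≠ 0 ∧
      ∀ a : GaussianInt, IsCoprime a (U.f J) → V.valuation (th U.D α (U.f J) a) = e := by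
  have h1 : th U.D α (U.f J) 1 ≠ 0 :=
    th_ne_zero U.D (U.ne_zero_of hαn) (U.f_not_unit J) (U.f_ne_zero J) (U.coprime_f J hαn)
      isCoprime_one_left
  refine ⟨V.valuation (th U.D α (U.f J) 1), (Valuation.ne_zero_iff _).2 h1, ?_⟩
  intro a ha
  unfold th
  rw [map_prod, map_prod]
  refine Finset.prod_congr rfl ?_
  intro t ht
  by_cases hodd : gOdd π
  · rw [val_unit_odd V U J hπ hodd h hα hαn hπα ha ht,
      val_unit_odd V U J hπ hodd h hα hαn hπα isCoprime_one_left ht]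
  · exact val_indep V (E5_val_two V hπ h hodd) U J hα hαn ⟨a, ha, rfl⟩
      ⟨1, isCoprime_one_left, rfl⟩ ht ht

/-- The numerator and the denominator of `vv g` have the same number of factors (`card_translate` with
`β` such that `sM β = zc`: `exists_zc`). -/
lemma val_vv (V : ValuationSubring ℂ) {π : GaussianInt} (hπ : Prime π)
    (h : V.valuation (π : ℂ) < 1) {k J : ℕ} (hJ : k ≤ J) {α : GaussianInt} (hα : Prim α)
    (hαn : IsCoprime α ((U.n : ℕ) : GaussianInt)) (hπα : ¬ π ∣ α) (g : Gam (U.M k)) :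
    V.valuation (vv U k J α g) = 1 := by
  classical
  obtain ⟨e, he, hth⟩ := val_th U V hπ h J hα hαn hπα
  obtain ⟨β, hβ, hβn, hβz, _⟩ := exists_zc U k (q := 1) isCoprime_one_left 1
  have hPR := isPR_PR (U.f_ne_zero J)
  have key : ∀ g' : Gam (U.M k), V.valuation (∏ a ∈ PR (U.f J),
      if sM U k a = g' then th U.D α (U.f J) a else 1) =
      e ^ ((PR (U.f J)).filter (fun a => sM U k a = g')).card := by
    intro g'
    rw [← Finset.prod_filter, map_prod, ← Finset.prod_const]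
    refine Finset.prod_congr rfl ?_
    intro a ha
    exact hth a (hPR.1 a (Finset.mem_filter.1 ha).1).2
  have hcard := card_translate U hJ hβ hβn g
  rw [hβz] at hcard
  have h1 := key g
  have h2 := key (zc _ * g)
  have h3 : vv U k J α g = (∏ a ∈ PR (U.f J), if sM U k a = g then th U.D α (U.f J) a else 1) /
      (∏ a ∈ PR (U.f J), if sM U k a = zc _ * g then th U.D α (U.f J) a else 1) := by
    unfold vv pp
    congr 1
  have hcard' : ((PR (U.f J)).filter (fun a => sM U k a = zc _ * g)).card =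
      ((PR (U.f J)).filter (fun a => sM U k a = g)).card := by
    refine Eq.trans ?_ (hcard.trans ?_)
    · congr 1
    · congr 1
  rw [h3, map_div₀, h1, h2, hcard', div_self (pow_ne_zero _ he)]

/-- An element `α` with `sM α = zc` and prime to `π` and its conjugate `π'`: `exists_zc` with
`c = 1` and `q` the product of those of `π`, `π'` which do not divide `n`. -/
lemma exists_zc_coprime (k : ℕ) {π : GaussianInt} (hπ : Prime π) : ∃ α : GaussianInt, Prim α ∧
    IsCoprime α ((U.n : ℕ) : GaussianInt) ∧ sM U k α = zc _ ∧ ¬ π ∣ α ∧ ¬ star π ∣ α := by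
  obtain ⟨q, hq, hq'⟩ := E5_q (m := ((U.n : ℕ) : GaussianInt)) hπ
  obtain ⟨r, hr, hr'⟩ := E5_q (m := ((U.n : ℕ) : GaussianInt)) (E5_star_prime hπ)
  obtain ⟨α, h1, h2, h3, h4⟩ := exists_zc U k (q := q * r) (hq.mul_left hr) 1
  exact ⟨α, h1, h2, h3, hq' α h2 ((dvd_mul_right _ _).trans h4),
    hr' α h2 ((dvd_mul_left _ _).trans h4)⟩

/-- **The numbers `xv` are units over all primes.** Let `α` be as in `exists_zc_coprime`. By `xv_vv` and `xv_zc`:
`xv g ^ (-1) = xv g ^ N(α) vv conj(vv)`; `v (vv) = 1` by `val_vv`, `v (conj vv) = 1` by `val_vv` for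
the conjugate valuation and `star π`. So `v (xv g) ^ (N(α) + 1) = 1`. -/
theorem val_xv (V : ValuationSubring ℂ) {π : GaussianInt} (hπ : Prime π)
    (h : V.valuation (π : ℂ) < 1) {k J : ℕ} (hJ : k ≤ J) (g : Gam (U.M k)) :
    V.valuation ((xv U k J g : ℝ) : ℂ) = 1 := by
  obtain ⟨α, hα, hαn, hz, hπα, hsα⟩ := exists_zc_coprime U k hπ
  have h1 := xv_vv U hJ hα hαn ⟨α, hα, hαn, hz⟩ g
  rw [hz, xv_zc] at h1
  have hpos := xv_pos U (k := k) (J := J) g
  have h2 : xv U k J g ^ (gN α + 1) * ‖vv U k J α g‖ ^ 2 = 1 := by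
    calc xv U k J g ^ (gN α + 1) * ‖vv U k J α g‖ ^ 2 =
        xv U k J g * (xv U k J g ^ gN α * ‖vv U k J α g‖ ^ 2) := by ring
      _ = 1 := by rw [← h1, mul_inv_cancel₀ hpos.ne']
  have h3 : ((xv U k J g : ℝ) : ℂ) ^ (gN α + 1) *
      (vv U k J α g * starRingEnd ℂ (vv U k J α g)) = 1 := by
    rw [mul_conj, normSq_eq_norm_sq, ← ofReal_pow, ← ofReal_mul, h2, ofReal_one]
  have hv1 := val_vv U V hπ h hJ hα hαn hπα g
  have hv2 : V.valuation (starRingEnd ℂ (vv U k J α g)) = 1 := by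
    obtain ⟨V', hV'⟩ := exists_conj_val V
    rw [← (hV' _).2]
    refine val_vv U V' (E5_star_prime hπ) ?_ hJ hα hαn hsα g
    rw [(hV' _).1, GaussianInt.toComplex_star, Complex.conj_conj]
    exact h
  have h4 := congrArg V.valuation h3
  rw [map_mul, map_mul, hv1, hv2, mul_one, mul_one, map_one, map_pow] at h4
  exact (pow_eq_one_iff_of_nonneg zero_le (by omega)).1 h4

end Pool.Agent.STh
end
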