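import Pool.Agent.Lib.MP_1ef7cf_nt_g.Mg.G046
import Pool.Agent.Lib.MP_1ef7cf_nt_h.Mg.G012
import Pool.Agent.Lib.MP_1ef7cf_nt_h.Mg.G008
import Pool.Agent.Lib.MP_1ef7cf_nt_g.Mg.G047
import Pool.Agent.Lib.MP_1ef7cf_nt_b.Conj
import Pool.Agent.Lib.MP_1ef7cf_nt_h.Mg.G011
import Pool.Agent.Lib.MP_1ef7cf_nt_h.Z1

section

/-!
# Powers of `xv` are Galois functions
-/

open Complex

namespace Pool.Agent.STh

open Pool.Agent.STg

/-! Adapt `MP_1ef7cf_nt_g/U1.lean`. -/

variable {U : UD} {k : ℕ}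

lemma U1_gN_natCast (n : ℕ) : gN (n : GaussianInt) = n ^ 2 := by
  have h : ((n : GaussianInt)).norm = (n : ℤ) * n := by
    simp [Zsqrtd.norm_natCast]
  rw [gN, h, Int.natAbs_mul, Int.natAbs_natCast, pow_two]

lemma U1_dvd_gN {a b : GaussianInt} (h : a ∣ b) : gN a ∣ gN b := by
  obtain ⟨c, rfl⟩ := h
  exact ⟨gN c, gN_mul a c⟩

lemma U1_unit {a : GaussianInt} (h : gN a = 1) : IsUnit a := by
  rw [← Zsqrtd.norm_eq_one_iff]; exact h

lemma U1_exists_zc (U : UD) (k : ℕ) : ∃ β : GaussianInt, Prim β ∧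
    IsCoprime β ((U.n : ℕ) : GaussianInt) ∧ sM U k β = zc _ := by
  obtain ⟨α, h1, h2, h3, -⟩ := exists_zc U k (q := 1) isCoprime_one_left 0
  exact ⟨α, h1, h2, h3⟩

/-- `isGF_norm_sq` and `xv_vv` -/
lemma isGF_quot {J : ℕ} (hJ : k ≤ J) {α : GaussianInt} (hα : Prim α)
    (hαn : IsCoprime α ((U.n : ℕ) : GaussianInt)) :
    IsGF U k (fun g => xv U k J (sM U k α * g) * (xv U k J g ^ gN α)⁻¹) := by
  have h1 := isGF_norm_sq U hJ hα hαn
  have h2 : (fun g => xv U k J (sM U k α * g) * (xv U k J g ^ gN α)⁻¹) =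
      fun g => ‖vv U k J α g‖ ^ 2 := by
    funext g
    rw [xv_vv U hJ hα hαn (U1_exists_zc U k) g]
    have h3 := (pow_pos (xv_pos U (k := k) (J := J) g) (gN α)).ne'
    field_simp
  rw [h2]
  exact h1

/-- for `sM α = zc`: `xv g ^ (1 + N(α))` is a Galois function (`isGF_quot`, `xv_zc`, inverse) -/
lemma isGF_pow_zc {J : ℕ} (hJ : k ≤ J) {α : GaussianInt} (hα : Prim α)
    (hαn : IsCoprime α ((U.n : ℕ) : GaussianInt)) (hz : sM U k α = zc _) :
    IsGF U k (fun g => xv U k J g ^ (1 + gN α)) := by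
  have h1 := (isGF_quot hJ hα hαn).inv
  have h2 : (fun g => (xv U k J (sM U k α * g) * (xv U k J g ^ gN α)⁻¹)⁻¹) =
      fun g => xv U k J g ^ (1 + gN α) := by
    funext g
    rw [hz, xv_zc, ← mul_inv, inv_inv, pow_add, pow_one]
  rw [h2] at h1
  exact h1

/-- **Squares.** The integers `j` such that `xv ^ j` is a Galois function form a subgroup `d ℤ` of `ℤ`
(`IsGF.mul`, `IsGF.inv`, `isGF_one`). It contains `1 + N(α)` for all `α` with `sM α = zc`. For one
such `α`: `1 + N(α) = 2` modulo `4` (`Prim.gN_mod`), so `4 ∤ d`. Let `l` be an odd prime number. If `l ∣ n` then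
`N(α) = 1` modulo `l` (second coordinate of `sM α = zc`), so `1 + N(α) = 2` modulo `l`, `l ∤ d`. If `l ∤ n`: let `q ∣ l` be a
Gaussian prime (`exists_prime_over`); choose `α` with `sM α = zc` and `q ∣ α`
(`exists_zc` with `c = 0`): then `l ∣ N(α)`, so `l ∤ 1 + N(α)`, `l ∤ d`. Hence `d ∣ 2`. -/
theorem isGF_sq {J : ℕ} (hJ : k ≤ J) : IsGF U k (fun g => xv U k J g ^ 2) := by
  let H : AddSubgroup ℤ :=
    { carrier := {n | IsGF U k (fun g => xv U k J g ^ n)}
      add_mem' := by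
        intro a b ha hb
        have h1 := IsGF.mul ha hb
        have h2 : (fun g => xv U k J g ^ (a + b)) =
            fun g => xv U k J g ^ a * xv U k J g ^ b := by
          funext g
          rw [zpow_add₀ (xv_pos U g).ne']
        show IsGF U k (fun g => xv U k J g ^ (a + b))
        rw [h2]
        exact h1
      zero_mem' := by
        show IsGF U k (fun g => xv U k J g ^ (0 : ℤ))
        simp only [zpow_zero]
        exact isGF_one
      neg_mem' := by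
        intro a ha
        have h1 := IsGF.inv ha
        have h2 : (fun g => xv U k J g ^ (-a)) = fun g => (xv U k J g ^ a)⁻¹ := by
          funext g
          rw [zpow_neg]
        show IsGF U k (fun g => xv U k J g ^ (-a))
        rw [h2]
        exact h1 }
  have hH : ∀ n : ℤ, n ∈ H ↔ IsGF U k (fun g => xv U k J g ^ n) := fun n => Iff.rfl
  obtain ⟨d, hd⟩ := Int.subgroup_cyclic H
  have hdH : ∀ n : ℤ, n ∈ H ↔ d ∣ n := by
    intro n
    rw [hd, ← AddSubgroup.zmultiples_eq_closure, Int.mem_zmultiples_iff]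
  have hα : ∀ α : GaussianInt, Prim α → IsCoprime α ((U.n : ℕ) : GaussianInt) →
      sM U k α = zc _ → d.natAbs ∣ 1 + gN α := by
    intro α h1 h2 h3
    have h4 : (((1 + gN α : ℕ)) : ℤ) ∈ H := by
      rw [hH]
      simp only [zpow_natCast]
      exact isGF_pow_zc hJ h1 h2 h3
    rw [hdH] at h4
    exact Int.natAbs_dvd_natAbs.mpr h4
  obtain ⟨α₀, hα₀, hα₀n, hα₀z⟩ := U1_exists_zc U k
  have hm0 : d.natAbs ≠ 0 := by
    intro h0
    have h1 := hα α₀ hα₀ hα₀n hα₀z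
    rw [h0, zero_dvd_iff] at h1
    omega
  have hodd : ∀ l : ℕ, l.Prime → l ≠ 2 → ¬ l ∣ d.natAbs := by
    intro l hl hl2 hld
    by_cases hln : l ∣ U.n
    · have h1 : nu (U.M k) (gN α₀) = nu (U.M k) 1 := by
        rw [nu_one]
        have h2 := congrArg Prod.snd hα₀z
        exact h2
      rw [nu_eq_iff (U.gN_coprime k hα₀n) (Nat.coprime_one_left _)] at h1
      have h2 : gN α₀ ≡ 1 [MOD l] := h1.of_dvd (hln.trans (U.n_dvd_M k))
      have h3 : l ∣ 1 + gN α₀ := hld.trans (hα α₀ hα₀ hα₀n hα₀z)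
      have h4 : 1 + gN α₀ ≡ 1 + 1 [MOD l] := Nat.ModEq.add_left 1 h2
      have h5 : l ∣ 1 + 1 := (h4.dvd_iff dvd_rfl).1 h3
      exact hl2 ((Nat.prime_dvd_prime_iff_eq hl Nat.prime_two).1 h5)
    · obtain ⟨q, hq, hql, hq2⟩ := exists_prime_over U hl hln
      obtain ⟨α, h1, h2, h3, h4⟩ := exists_zc U k (q := q) hq2 0
      rw [sub_zero] at h4
      have h5 : gN q ∣ gN α := U1_dvd_gN h4
      have h6 : gN q ∣ l ^ 2 := by
        rw [← U1_gN_natCast l]
        exact U1_dvd_gN hql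
      have h7 : gN q ≠ 1 := fun h => hq.not_isUnit (U1_unit h)
      have h8 : l ∣ gN q := by
        obtain ⟨j, hj, hj'⟩ := (Nat.dvd_prime_pow hl).mp h6
        have hj0 : j ≠ 0 := by
          intro h0
          rw [h0, pow_zero] at hj'
          exact h7 hj'
        rw [hj']
        exact dvd_pow_self l hj0
      have h9 : l ∣ 1 + gN α := hld.trans (hα α h1 h2 h3)
      have h10 : l ∣ 1 := (Nat.dvd_add_left (h8.trans h5)).mp h9
      exact hl.one_lt.ne' (Nat.dvd_one.mp h10)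
  have h2 : d.natAbs ∣ 2 := by
    obtain ⟨a, m, hm, hdm⟩ := Nat.exists_eq_two_pow_mul_odd hm0
    have hm1 : m = 1 := by
      by_contra hne
      obtain ⟨l, hl, hlm⟩ := Nat.exists_prime_and_dvd hne
      refine hodd l hl ?_ (hdm ▸ hlm.mul_left _)
      rintro rfl
      exact (Nat.not_even_iff_odd.mpr hm) (even_iff_two_dvd.mpr hlm)
    have ha : a < 2 := by
      by_contra hge
      have h4 : 4 ∣ d.natAbs := by
        rw [hdm]
        have h5 : (4 : ℕ) = 2 ^ 2 := rfl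
        rw [h5]
        exact (pow_dvd_pow 2 (by omega)).mul_right m
      have h6 := h4.trans (hα α₀ hα₀ hα₀n hα₀z)
      have h7 := hα₀.gN_mod
      omega
    rw [hdm, hm1, mul_one]
    have h8 : (2 : ℕ) ^ a ∣ 2 ^ 1 := pow_dvd_pow 2 (by omega)
    rwa [pow_one] at h8
  have h3 : (2 : ℤ) ∈ H := by
    rw [hdH]
    exact Int.natAbs_dvd_natAbs.mp (by simpa using h2)
  rw [hH] at h3
  have h4 : (fun g => xv U k J g ^ (2 : ℤ)) = fun g => xv U k J g ^ 2 := by
    funext g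
    exact zpow_natCast _ 2
  rw [h4] at h3
  exact h3

/-- **Quotients**: `xv (sM α g) / xv g = (xv (sM α g) / xv g ^ N(α)) (xv g ^ 2) ^ ((N(α) - 1) / 2)`. -/
theorem isGF_ratio {J : ℕ} (hJ : k ≤ J) {α : GaussianInt} (hα : Prim α)
    (hαn : IsCoprime α ((U.n : ℕ) : GaussianInt)) :
    IsGF U k (fun g => xv U k J (sM U k α * g) / xv U k J g) := by
  have h1 := (isGF_quot hJ hα hαn).mul ((isGF_sq (U := U) (k := k) hJ).pow ((gN α - 1) / 2))
  have h2 : (fun g => xv U k J (sM U k α * g) / xv U k J g) =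
      fun g => xv U k J (sM U k α * g) * (xv U k J g ^ gN α)⁻¹ *
        (xv U k J g ^ 2) ^ ((gN α - 1) / 2) := by
    funext g
    have h3 := hα.gN_mod
    obtain ⟨m, hm⟩ : ∃ m, gN α = 2 * m + 1 := ⟨(gN α - 1) / 2, by omega⟩
    have h4 : (gN α - 1) / 2 = m := by omega
    rw [h4, hm, pow_succ, pow_mul]
    have h5 := (xv_pos U (k := k) (J := J) g).ne'
    field_simp
  rw [h2]
  exact h1

end Pool.Agent.STh
end

section

/-!
# The numbers `xv` are Galois functions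
-/

open Complex

namespace Pool.Agent.STh

open Pool.Agent.STg

/-! Adapt `MP_1ef7cf_nt_g/U3.lean`, `U4.lean`. -/

variable (U : UD)

/-- `xv (pr g) = xv g xv (γ' g) = (xv g ^ 2) (xv (γ' g) / xv g)`, `γ' = gam' k = sM α`
(`exists_gam`, `isGF_sq`, `isGF_ratio`) and `isGF_down`. -/
theorem isGF_xv {k J : ℕ} (hk : 1 ≤ k) (hJ : k + 1 ≤ J) : IsGF U k (xv U k J) := by
  refine isGF_down U ?_
  obtain ⟨α, hα, hαn, hs⟩ := exists_gam U hk
  have h1 : IsGF U (k + 1) (fun g => xv U (k + 1) J g ^ 2) := isGF_sq hJ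
  have h2 := isGF_ratio (U := U) (k := k + 1) (J := J) hJ hα hαn
  have h3 := h1.mul h2
  have h4 : (fun g => xv U k J (pr U k g)) = (fun g => xv U (k + 1) J g ^ 2 *
      (xv U (k + 1) J (sM U (k + 1) α * g) / xv U (k + 1) J g)) := by
    funext g
    rw [xv_pr U J g, hs]
    have h5 : xv U (k + 1) J g ≠ 0 := (Real.exp_pos _).ne'
    unfold gam'
    field_simp
  rw [h4]
  exact h3

/-- `isGF_xv` for `k ≥ 1`; for `k = 0` one step down from `k = 1`: `xv (pr g) = xv g xv (γ' g)` (`xv_pr`),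
`IsGF.mul`, `IsGF.translate`, `isGF_down`. -/
theorem isGF_xv_all {k J : ℕ} (hJ : k + 1 ≤ J) (hJ2 : 2 ≤ J) : IsGF U k (xv U k J) := by
  rcases Nat.eq_zero_or_pos k with h0 | h0
  · subst h0
    refine isGF_down U ?_
    have h : IsGF U (0 + 1) (xv U (0 + 1) J) := isGF_xv U le_rfl hJ2
    have h1 : (fun g => xv U 0 J (pr U 0 g)) =
        fun g => xv U (0 + 1) J g * xv U (0 + 1) J (gam' U 0 * g) := by
      funext g
      exact xv_pr U J g
    rw [h1]
    exact h.mul (h.translate (gam' U 0))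
  · exact isGF_xv U h0 hJ

end Pool.Agent.STh
end

section

/-!
# The numbers `xv` are units satisfying the conditions 2 and 3
-/

open NumberField IsDedekindDomain Pool.Agent.ST IntermediateField

namespace Pool.Agent.STh

open Pool.Agent.STg Pool.Agent.STh.F

/-! Adapt `MP_1ef7cf_nt_g/Z2.lean`. -/

theorem integral_xv (U : UD) {k J : ℕ} (hJ : k + 1 ≤ J) (hJ2 : 2 ≤ J) (g : Gam (U.M k)) :
    IsIntegral ℤ (xv U k J g) := by
  have hmem := (isGF_xv_all U hJ hJ2).mem g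
  have hQ := Rk_mem_Qb U k hmem
  obtain ⟨E, hE, -, hSE⟩ := exists_gal {((xv U k J g : ℝ) : ℂ)} (Set.finite_singleton _)
    (by rintro x rfl; exact hQ)
  have := hE
  have := numberField_E E
  have hx : ((xv U k J g : ℝ) : ℂ) ∈ E := hSE rfl
  have h1 : IsIntegral ℤ (⟨_, hx⟩ : E) := by
    apply isIntegral_of_overP
    intro P V hV
    obtain ⟨π, hπ, -, hπ'⟩ := exists_prime_pn (und QI P)
    have h2 : V.valuation (π : ℂ) < 1 := (hV.gauss π).2 ((hπ' π).2 dvd_rfl)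
    exact (val_xv U V hπ h2 (by omega) g).le
  have h2 : IsIntegral ℤ ((xv U k J g : ℝ) : ℂ) :=
    h1.map (E.val.toRingHom.toIntAlgHom)
  obtain ⟨p, hp, hp'⟩ := h2
  refine ⟨p, hp, ?_⟩
  have h3 : ((Polynomial.eval₂ (algebraMap ℤ ℝ) (xv U k J g) p : ℝ) : ℂ) = 0 := by
    rw [← hp', ← Complex.ofRealHom_eq_coe, Polynomial.hom_eval₂]
    congr 1
  exact_mod_cast h3

theorem integral_xv_inv (U : UD) {k J : ℕ} (hJ : k + 1 ≤ J) (hJ2 : 2 ≤ J) (g : Gam (U.M k)) :
    IsIntegral ℤ (xv U k J g)⁻¹ := by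
  rw [← xv_zc]
  exact integral_xv U hJ hJ2 _

variable {K : Type*} [Field K] [NumberField K] [Algebra K ℝ] {σ₂ : K →+* ℝ} {a : 𝓞 K}

theorem preStark_xv (U : UD) (D : FD σ₂ U.d a) {k J : ℕ} (hJ : k + 1 ≤ J) (hJ2 : 2 ≤ J)
    (g : Gam (U.M k)) : STb.PreStark σ₂ (Lf a (U.M k)) (xv U k J g) where
  mem := (mem_Lf_iff U D k _).2 ((isGF_xv_all U hJ hJ2).mem g)
  pos := by
    intro γ
    obtain ⟨s, b, hb4, hb, hco⟩ := exists_coords U D γ
    rw [act_gf U D (isGF_xv_all U hJ hJ2) γ hb4 hb hco g]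
    exact (isGF_xv_all U hJ hJ2).pos _
  int := integral_xv U hJ hJ2 g
  int_inv := integral_xv_inv U hJ hJ2 g
  abs := fun g' hg' => abs_gf U D (isGF_xv_all U hJ hJ2) g' hg' g

end Pool.Agent.STh
end
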