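import Pool.Agent.Lib.MP_1ef7cf_nt_h.Mg.G003
import Pool.Agent.Lib.MP_1ef7cf_nt_b.Conj

section

/-!
# The Artin symbols on a common subfield of the ray class field and of `Lf a Q`
-/

open NumberField IsDedekindDomain nonZeroDivisors IntermediateField

namespace Pool.Agent.STh.F

open Pool.Agent.ST

variable {K : Type*} [Field K] [NumberField K] [Algebra K ℝ] {σ₂ : K →+* ℝ} {d : ℕ} {a : 𝓞 K}

/-- **Primes.** Let `N = H ⊔ Lf a Q`, finite and Galois over `K` (`isAbelianGalois_sup`, `IsRCF.abelian`). Let `P` be a prime of `N` above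
`v` (`exists_ovr`), `φ` a Frobenius element at `P` (`exists_isFrob`). Its restriction to `H` is a Frobenius element at the prime below
(`isFrob_res`), so it is `Art (cls J)` (`IsRCF.frobP`, `isFrob_unique`, as in the proof of `IsRCF.le`). Its restriction to
`Lf a Q` has the coordinates of `v` (`frob_co` for `N`, `Co.res`), so it is `τ` (`Co.ext`). -/
theorem comp_prime (D : FD σ₂ d a) {Q : ℕ} (hQ : Q ≠ 0) (hdQ : 2 * d ∣ Q) {m : Ideal (𝓞 K)}
    (hm : Above Q m) {H : IntermediateField K ℝ} {Art : RayClassGroup σ₂ m ≃* (H ≃ₐ[K] H)}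
    (hA : IsRayClassField σ₂ m H Art) {L : IntermediateField K ℝ} (hLH : L ≤ H)
    (hLF : L ≤ Lf a Q) (v : HeightOneSpectrum (𝓞 K)) (J : primeTo (K := K) m)
    (hJ : ((J : (FI K)ˣ) : FI K) = v.asIdeal) (τ : Lf a Q ≃ₐ[K] Lf a Q)
    (hτ : Co a Q τ (chiP a v.asIdeal) (Ideal.absNorm v.asIdeal)) {x : ℝ} (hx : x ∈ L) :
    act (Art (cls σ₂ m J)) x = act τ x := by
  have hfH := hA.finite
  have hgH := hA.galois
  have habH : IsAbelianGalois K H := hA.isRCF.abelian
  have habN : IsAbelianGalois K (H ⊔ Lf a Q : IntermediateField K ℝ) := isAbelianGalois_sup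
  have hfN : FiniteDimensional K (H ⊔ Lf a Q : IntermediateField K ℝ) := inferInstance
  have hN := numberField_of_fd (H ⊔ Lf a Q)
  have hNH := numberField_of_fd H
  have hHN : H ≤ H ⊔ Lf a Q := le_sup_left
  have hFN : Lf a Q ≤ H ⊔ Lf a Q := le_sup_right
  have hv : ¬ v.asIdeal ∣ m := coprime_prime_iff.1 (coprime_of_mem_primeTo hJ J.2)
  have hvQ : (Q : 𝓞 K) ∉ v.asIdeal := fun h => hv (hm v h)
  obtain ⟨P, hP⟩ := exists_ovr (K := K) (L := (H ⊔ Lf a Q : IntermediateField K ℝ)) v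
  obtain ⟨φ, hφ⟩ := exists_isFrob (K := K) P
  have := P.isPrime
  have hPv : P.asIdeal.under (𝓞 K) = v.asIdeal := by rw [← hP]; rfl
  have hφ' : ∀ x : 𝓞 (H ⊔ Lf a Q : IntermediateField K ℝ),
      φ • x - x ^ Ideal.absNorm v.asIdeal ∈ P.asIdeal := by
    intro x
    have := hφ x
    rw [hP] at this
    exact this
  obtain ⟨P₁, hP₁, -, hP₁'⟩ := isFrob_res hHN P
  have f1 := hA.isRCF.frobP P₁ (by simp) J (by rw [hJ, hP₁, hP])
  have := f1.1
  have g1 : res hHN φ = Art (cls σ₂ m J) := isFrob_unique (hP₁' φ hφ) f1.2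
  have g2 : Co a Q φ (chiP a v.asIdeal) (Ideal.absNorm v.asIdeal) :=
    frob_co D (H ⊔ Lf a Q) (hFN (se_mem a Q)) hQ hdQ (hFN (cos_mem a Q)) v hvQ P.asIdeal hPv φ hφ'
  have g3 : res hFN φ = τ := Co.ext (Co.res hFN g2) hτ
  rw [← g1, ← g3, act_res hHN φ (hLH hx), act_res hFN φ (hLF hx)]

omit [Algebra K ℝ] in
lemma F10_coprime {Q : ℕ} (hQ : Q ≠ 0) {m I : Ideal (𝓞 K)} (hm : Above Q m)
    (hI : IsCoprime I m) : IsCoprime I (Ideal.span {(Q : 𝓞 K)}) := by
  rw [Ideal.isCoprime_iff_sup_eq] at hI ⊢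
  by_contra hne
  obtain ⟨M, hM, hle⟩ := Ideal.exists_le_maximal _ hne
  have hQM : (Q : 𝓞 K) ∈ M := hle (Ideal.mem_sup_right (Ideal.mem_span_singleton_self _))
  have hM0 : M ≠ ⊥ := by
    rintro rfl
    rw [Ideal.mem_bot] at hQM
    exact hQ (by exact_mod_cast hQM)
  have h1 := hm ⟨M, hM.isPrime, hM0⟩ hQM
  have h2 : m ≤ M := Ideal.le_of_dvd h1
  have h3 : I ⊔ m ≤ M := sup_le (le_sup_left.trans hle) h2
  rw [hI] at h3
  exact hM.ne_top (top_le_iff.1 h3)

/-- **Ideals.** `STg.F.ideal_induction` as in `art_coords` (`MP_1ef7cf_nt_g/F20.lean`), `exists_sig` for the factors. `L` is normal over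
`K` (as a subfield of an abelian extension), so the automorphisms map `L` to `L`. -/
theorem comp (D : FD σ₂ d a) {Q : ℕ} (hQ : Q ≠ 0) (hdQ : 2 * d ∣ Q) {m : Ideal (𝓞 K)}
    (hm : Above Q m) {H : IntermediateField K ℝ} {Art : RayClassGroup σ₂ m ≃* (H ≃ₐ[K] H)}
    (hA : IsRayClassField σ₂ m H Art) {L : IntermediateField K ℝ} (hLH : L ≤ H)
    (hLF : L ≤ Lf a Q) (I : Ideal (𝓞 K)) (hI : I ≠ ⊥) (J : primeTo (K := K) m)
    (hJ : ((J : (FI K)ˣ) : FI K) = (I : FI K)) (τ : Lf a Q ≃ₐ[K] Lf a Q)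
    (hτ : Co a Q τ (chiI a I) (Ideal.absNorm I)) {x : ℝ} (hx : x ∈ L) :
    act (Art (cls σ₂ m J)) x = act τ x := by
  have habL : IsAbelianGalois K L := isAbelianGalois_of_le hLF
  have hmain := STg.F.ideal_induction (m := m)
    (p := fun I => ∀ J : primeTo (K := K) m, ((J : (FI K)ˣ) : FI K) = (I : FI K) →
      ∀ τ : Lf a Q ≃ₐ[K] Lf a Q, Co a Q τ (chiI a I) (Ideal.absNorm I) →
      ∀ x ∈ L, act (Art (cls σ₂ m J)) x = act τ x) ?_ ?_ I hI
      (coprime_of_mem_primeTo hJ J.2) J hJ τ hτ x hx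
  · exact hmain
  · intro J hJ τ hτ x hx
    have h1 : J = 1 := by
      apply Subtype.ext
      apply Units.ext
      rw [hJ]
      simp
    have h2 : τ = 1 := by
      apply Co.ext hτ
      have h3 := Co.one (a := a) (Q := Q) (H := Lf a Q) (se_mem a Q) (cos_mem a Q)
      rw [chiI_top, ← Ideal.one_eq_top, map_one]
      exact h3
    rw [h1, h2, map_one, map_one, act_one_left (hLH hx), act_one_left (hLF hx)]
  · intro v I hv hI hIc ih J hJ τ hτ x hx
    set Jv := prJ (K := K) m v hv with hJv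
    have hJ' : (((J * Jv⁻¹ : primeTo (K := K) m) : (FI K)ˣ) : FI K) = (I : FI K) := by
      rw [Subgroup.coe_mul, Subgroup.coe_inv, Units.val_mul, hJ, FractionalIdeal.coeIdeal_mul,
        mul_comm (v.asIdeal : FI K), mul_assoc]
      have : (v.asIdeal : FI K) * (((Jv : (FI K)ˣ)⁻¹ : (FI K)ˣ) : FI K) = 1 := by
        have h3 : ((Jv : (FI K)ˣ) : FI K) = v.asIdeal := coe_prJ m v hv
        rw [← h3, ← Units.val_mul, mul_inv_cancel, Units.val_one]
      rw [this, mul_one]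
    have hvQ : (Q : 𝓞 K) ∉ v.asIdeal := fun h => hv (hm v h)
    obtain ⟨σv, hσv⟩ := exists_sig_prime D hQ hdQ v hvQ
    obtain ⟨σI, hσI⟩ := exists_sig D hQ hdQ I hI (F10_coprime hQ hm hIc)
    have hτ' : τ = σv * σI := by
      apply Co.ext hτ
      have h3 := Co.mul (se_mem a Q) (cos_mem a Q) hσv hσI
      rw [chiI_mul a v.ne_bot hI, chiI_prime, map_mul]
      exact h3
    have hcls : cls σ₂ m J = cls σ₂ m Jv * cls σ₂ m (J * Jv⁻¹) := by
      rw [← map_mul]
      congr 1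
      rw [mul_comm J, ← mul_assoc, mul_inv_cancel, one_mul]
    have hxL : act σI x ∈ L := by
      rw [← act_res hLF σI hx]
      exact act_mem _ hx
    rw [hcls, map_mul, hτ', act_comp _ _ (hLH hx), act_comp _ _ (hLF hx),
      ih (J * Jv⁻¹) hJ' σI hσI x hx]
    exact comp_prime D hQ hdQ hm hA hLH hLF v Jv (coe_prJ m v hv) σv hσv hxL

end Pool.Agent.STh.F
end

section

/-!
# The complex conjugation over the second embedding, and the class `c`
-/

open NumberField IsDedekindDomain nonZeroDivisors IntermediateField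

namespace Pool.Agent.STh.F

open Pool.Agent.ST

variable {K : Type*} [Field K] [NumberField K] [Algebra K ℝ] {σ₂ : K →+* ℝ} {d : ℕ} {a : 𝓞 K}

omit [NumberField K] in
/-- the value of an embedding at `cos (2 π / Q)` is real -/
lemma F11_cos_real {L : IntermediateField K ℝ} {Q : ℕ} (hQ : Q ≠ 0)
    (hk : Real.cos (2 * Real.pi / Q) ∈ L) (g : L →+* ℂ) :
    (starRingEnd ℂ) (emb g (Real.cos (2 * Real.pi / Q))) = emb g (Real.cos (2 * Real.pi / Q)) := by
  have hQ' : (Q : ℝ) ≠ 0 := Nat.cast_ne_zero.2 hQ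
  set c : L := ⟨Real.cos (2 * Real.pi / Q), hk⟩ with hc
  have hgc : emb g (Real.cos (2 * Real.pi / Q)) = g c := emb_of_mem g hk
  have h1 : (Polynomial.dickson 1 (1 : ℝ) Q).eval (2 * Real.cos (2 * Real.pi / Q)) = 2 := by
    rw [STg.F.dickson_cos]
    have : (Q : ℝ) * (2 * Real.pi / Q) = 2 * Real.pi := by field_simp
    rw [this, Real.cos_two_pi, mul_one]
  have h2 : (Polynomial.dickson 1 (1 : L) Q).eval (2 * c) = 2 := by
    apply (algebraMap L ℝ).injective
    rw [← Polynomial.eval_map_apply, Polynomial.map_dickson, map_one, map_mul, map_ofNat]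
    exact h1
  have h3 : (Polynomial.dickson 1 (1 : ℂ) Q).eval (2 * g c) = 2 := by
    have h4 := congrArg g h2
    rw [← Polynomial.eval_map_apply, Polynomial.map_dickson, map_one, map_mul, map_ofNat] at h4
    exact h4
  obtain ⟨s, hs⟩ := IsAlgClosed.exists_pow_nat_eq ((2 * g c) ^ 2 - 4) (n := 2) (by norm_num)
  set w : ℂ := (2 * g c + s) / 2 with hw
  set w' : ℂ := (2 * g c - s) / 2 with hw'
  have hww : w * w' = 1 := by
    rw [hw, hw']
    linear_combination -(1 / 4 : ℂ) * hs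
  have hsum : 2 * g c = w + w' := by rw [hw, hw']; ring
  rw [hsum, Polynomial.dickson_one_one_eval_add_inv w w' hww] at h3
  have hwQ : w ^ Q * w' ^ Q = 1 := by rw [← mul_pow, hww, one_pow]
  have hw1 : w ^ Q = 1 := by
    have h5 : (w ^ Q - 1) ^ 2 = 0 := by linear_combination (w ^ Q) * h3 - hwQ
    have h6 := pow_eq_zero_iff (two_ne_zero) |>.1 h5
    linear_combination h6
  have hn : ‖w‖ = 1 := by
    have h6 := congrArg norm hw1
    rw [norm_pow, norm_one] at h6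
    exact (pow_eq_one_iff_of_nonneg (norm_nonneg w) hQ).1 h6
  have hw0 : w ≠ 0 := by
    intro h
    rw [h, norm_zero] at hn
    exact zero_ne_one hn
  have hconj : (starRingEnd ℂ) w = w' := by
    apply mul_left_cancel₀ hw0
    rw [hww, Complex.mul_conj, Complex.normSq_eq_norm_sq, hn]
    simp
  have hconj' : (starRingEnd ℂ) w' = w := by rw [← hconj, Complex.conj_conj]
  rw [hgc]
  have h7 : (starRingEnd ℂ) (2 * g c) = 2 * g c := by
    rw [hsum, map_add, hconj, hconj', add_comm]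
  rw [map_mul, map_ofNat] at h7
  exact mul_left_cancel₀ two_ne_zero h7

/-- **The conjugation.** `STb.exists_isConj` gives `κ` with `g (κ x) = conj (g x)` for the embeddings `g` of `Lf a Q` over `σ₂`.
`g (se a) ^ 2 = σ₂ a < 0` (`FD.sig`), so `g (se a)` is purely imaginary and `κ (se a) = -se a`. `g (cos (2 π / Q))` is real
(`2 cos (2 π / Q)` is a root of `D_Q - 2`, see `exists_act_cos`; or: `g` composed with the inclusion of `ℚ(cos (2 π / Q))`). -/
theorem exists_kap (D : FD σ₂ d a) {Q : ℕ} (hQ : Q ≠ 0) :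
    ∃ κ : Lf a Q ≃ₐ[K] Lf a Q, Co a Q κ (-1) 1 := by
  obtain ⟨κ, hκ⟩ := STb.exists_isConj (L := Lf a Q) σ₂
  obtain ⟨g, hg⟩ := exists_over (H := Lf a Q) σ₂
  have hs := se_mem a Q
  have hc := cos_mem a Q
  refine ⟨κ, ?_, ?_⟩
  · apply emb_inj g (act_mem κ hs) (mul_mem (intCast_mem _ _) hs)
    rw [hκ g hg _ hs]
    have h1 : emb g (se a) ^ 2 = ((-Real.sqrt d : ℝ) : ℂ) := by
      rw [sq, ← emb_mul g hs hs, ← sq, D.se_sq, emb_of_mem g ((Lf a Q).algebraMap_mem _)]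
      rw [← D.sig]
      exact hg (a : K)
    have hd : 0 < Real.sqrt d := Real.sqrt_pos.2 (Nat.cast_pos.2 D.d_pos)
    have h2 : (starRingEnd ℂ) (emb g (se a)) ^ 2 = emb g (se a) ^ 2 := by
      rw [← map_pow, h1, Complex.conj_ofReal]
    have h3 : emb g (((-1 : ℤ) : ℝ) * se a) = - emb g (se a) := by
      have h4 : ((-1 : ℤ) : ℝ) * se a = -1 * se a := by push_cast; ring
      have h5 : (-1 : ℝ) ∈ Lf a Q := neg_mem (one_mem _)
      rw [h4, emb_mul g h5 hs, emb_of_mem g h5]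
      have h6 : (⟨-1, h5⟩ : Lf a Q) = -1 := rfl
      rw [h6, map_neg, map_one]
      ring
    rw [h3]
    rcases sq_eq_sq_iff_eq_or_eq_neg.1 h2 with h4 | h4
    · exfalso
      obtain ⟨r, hr⟩ := Complex.conj_eq_iff_real.1 h4
      rw [hr, ← Complex.ofReal_pow] at h1
      have h5 : r ^ 2 = -Real.sqrt d := Complex.ofReal_injective h1
      nlinarith [sq_nonneg r]
    · exact h4
  · rw [Nat.cast_one, mul_one]
    apply emb_inj g (act_mem κ hc) hc
    rw [hκ g hg _ hc, F11_cos_real hQ hc g]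

lemma F11_cos {Q : ℕ} (hQ : Q ≠ 0) (N : ℕ) (M b : ℤ) (hN : N = M.natAbs) (hM : M = 1 + Q * b) :
    Real.cos (2 * Real.pi * (N : ℝ) / Q) = Real.cos (2 * Real.pi / Q) := by
  have h := (cos_mod_iff hQ (N : ℤ) 1).2 (by
    rcases Int.natAbs_eq M with h | h
    · left
      rw [hN, ← h, hM]
      exact ⟨b, by ring⟩
    · right
      have h2 : (M.natAbs : ℤ) = -M := by omega
      rw [hN, h2, hM]
      exact ⟨-b, by ring⟩)
  push_cast at h
  rwa [mul_one] at h

/-- **The class `c`.** Let `z ∈ 𝓞 K` with `z = 1` modulo `m Q` and `σ₂ z < 0` (`exists_neg` for the modulus `m * span {Q}`). Its class is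
`c`: the class of `IsC` does not depend on the choice of the element (the quotient of two of them is `1` modulo `m` and
positive at `σ₂`, `cls_eq_iff`). `N(z) = 1` modulo `Q` (`norm_one_add`), so `absNorm (z) = ± 1` modulo `Q`, and the automorphism `τ` with
the coordinates of the ideal `(z)` (`exists_sig`) has coordinates `± 1`, `1` (`chiI_sq`, `cos_mod_iff`); so it is `1` or `κ`. `comp`. -/
theorem art_c (D : FD σ₂ d a) {Q : ℕ} (hQ : Q ≠ 0) (hdQ : 2 * d ∣ Q) {m : Ideal (𝓞 K)}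
    (hm0 : m ≠ ⊥) (hm : Above Q m) {H : IntermediateField K ℝ}
    {Art : RayClassGroup σ₂ m ≃* (H ≃ₐ[K] H)} (hA : IsRayClassField σ₂ m H Art)
    {L : IntermediateField K ℝ} (hLH : L ≤ H) (hLF : L ≤ Lf a Q) {κ : Lf a Q ≃ₐ[K] Lf a Q}
    (hκ : Co a Q κ (-1) 1) {c : RayClassGroup σ₂ m} (hc : IsC σ₂ m c) :
    (∀ x ∈ L, act (Art c) x = x) ∨ (∀ x ∈ L, act (Art c) x = act κ x) := by
  obtain ⟨z, C, hz1, hz2, hC, rfl⟩ := hc
  obtain ⟨t, ht⟩ : ∃ t : 𝓞 K, t = (Q : 𝓞 K) := ⟨_, rfl⟩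
  have ht0 : t ≠ 0 := by
    rw [ht]
    exact Nat.cast_ne_zero.2 hQ
  have hn : m * Ideal.span {t} ≠ ⊥ := by
    rw [← Ideal.zero_eq_bot] at hm0 ⊢
    refine mul_ne_zero hm0 ?_
    rw [Ideal.zero_eq_bot, Ne, Ideal.span_singleton_eq_bot]
    exact ht0
  obtain ⟨z', h1, h2⟩ := exists_neg σ₂ hn 1
  have hz'm : z' - 1 ∈ m := (Ideal.mul_le_left : m * Ideal.span {t} ≤ m) h1
  have hz't : z' - 1 ∈ Ideal.span {t} :=
    (Ideal.mul_le_right : m * Ideal.span {t} ≤ Ideal.span {t}) h1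
  obtain ⟨x, hx⟩ := Ideal.mem_span_singleton.1 hz't
  have hz0 : (z : K) ≠ 0 := by
    intro h
    rw [h, map_zero] at hz2
    exact lt_irrefl _ hz2
  have hz0' : (z' : K) ≠ 0 := by
    intro h
    rw [h, map_zero] at h2
    exact lt_irrefl _ h2
  obtain ⟨C', hC'⟩ : ∃ C' : primeTo (K := K) m, (C' : (FI K)ˣ) = uP (z' : K) hz0' :=
    ⟨⟨uP (z' : K) hz0', coe_mem_primeTo (I := Ideal.span {z'})
      (by rw [coe_uP, coe_span_singleton]) (coprime_span_of_sub_one_mem hz'm)⟩, rfl⟩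
  have hC'2 : ((C' : (FI K)ˣ) : FI K) = ((Ideal.span {z'} : Ideal (𝓞 K)) : FI K) := by
    rw [hC', coe_uP, coe_span_singleton]
  have hcls : cls σ₂ m C = cls σ₂ m C' := by
    rw [cls_eq_iff]
    refine ⟨(z : K)⁻¹ * z', (oneMod_of_sub_one_mem hz1).inv.mul (oneMod_of_sub_one_mem hz'm), ?_, ?_⟩
    · rw [map_mul, map_inv₀]
      exact mul_pos_of_neg_of_neg (inv_lt_zero.2 hz2) h2
    · rw [Units.val_mul, Units.val_inv_eq_inv_val, hC, hC'2, coe_span_singleton,
        coe_span_singleton, FractionalIdeal.spanSingleton_inv,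
        FractionalIdeal.spanSingleton_mul_spanSingleton]
  rw [hcls]
  have hne : Ideal.span {z'} ≠ (⊥ : Ideal (𝓞 K)) := by
    rw [Ne, Ideal.span_singleton_eq_bot]
    rintro rfl
    exact hz0' (by simp)
  have hcop : IsCoprime (Ideal.span {z'}) (Ideal.span {(Q : 𝓞 K)}) := by
    rw [← ht]
    exact coprime_span_of_sub_one_mem hz't
  obtain ⟨τ, hτ⟩ := exists_sig D hQ hdQ (Ideal.span {z'}) hne hcop
  have hcomp : ∀ x ∈ L, act (Art (cls σ₂ m C')) x = act τ x := fun x hx =>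
    comp D hQ hdQ hm hA hLH hLF (Ideal.span {z'}) hne C' hC'2 τ hτ hx
  have hcos : Real.cos (2 * Real.pi * (Ideal.absNorm (Ideal.span {z'}) : ℕ) / Q) =
      Real.cos (2 * Real.pi / Q) := by
    have hz'eq : z' = 1 + ((Q : ℤ) : 𝓞 K) * x := by
      push_cast
      linear_combination hx + x * ht
    have hnorm := norm_one_add D (Q : ℤ) x
    rw [← hz'eq] at hnorm
    refine F11_cos hQ _ _ (Algebra.trace ℤ (𝓞 K) x + Q * Algebra.norm ℤ x) (absNorm_nat z') ?_
    rw [hnorm]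
    ring
  have hτc : act τ (Real.cos (2 * Real.pi / Q)) = Real.cos (2 * Real.pi * (1 : ℕ) / Q) := by
    rw [hτ.hc, hcos, Nat.cast_one, mul_one]
  rcases chiI_sq a (Ideal.span {z'}) with h3 | h3
  · left
    have h4 : Co a Q τ 1 1 := ⟨by rw [hτ.hs, h3], hτc⟩
    have h5 : τ = 1 := Co.ext h4 (Co.one (se_mem a Q) (cos_mem a Q))
    intro x hx
    rw [hcomp x hx, h5, act_one_left (hLF hx)]
  · right
    have h4 : Co a Q τ (-1) 1 := ⟨by rw [hτ.hs, h3], hτc⟩
    have h5 : τ = κ := Co.ext h4 hκ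
    intro x hx
    rw [hcomp x hx, h5]

end Pool.Agent.STh.F
end
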