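import Pool.Agent.Lib.MP_1ef7cf_nt_g.Mg.G028
import Pool.Agent.Lib.MP_1ef7cf_nt_h.Mg.G004
import Pool.Agent.Lib.MP_1ef7cf_nt_h.Mg.G003
import Pool.Agent.Lib.MP_1ef7cf_nt.Norm2

section

/-!
# Sums of partial zeta functions
-/

open NumberField IsDedekindDomain Pool.Agent.ST

namespace Pool.Agent.STh

open Pool.Agent.STg Pool.Agent.STh.F

variable {K : Type*} [Field K] [NumberField K] [Algebra K ℝ] {σ₂ : K →+* ℝ} {d : ℕ} {a : 𝓞 K}

omit [Algebra K ℝ] in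
lemma S10b_unique {m : Ideal (𝓞 K)} {A B : RayClassGroup σ₂ m} {I : Ideal (𝓞 K)}
    (hA : I ∈ idealsOf σ₂ m A) (hB : I ∈ idealsOf σ₂ m B) : A = B := by
  obtain ⟨J, hJ, rfl⟩ := hA
  obtain ⟨J', hJ', rfl⟩ := hB
  have h : J = J' := Subtype.ext (Units.ext (hJ.trans hJ'.symm))
  rw [h]

omit [Algebra K ℝ] in
lemma S10b_coprime {Q : ℕ} {m I : Ideal (𝓞 K)} (hI : I ≠ ⊥) (hm : Above Q m)
    (h : IsCoprime I m) : IsCoprime I (Ideal.span {(Q : 𝓞 K)}) := by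
  rw [Ideal.isCoprime_iff_sup_eq] at h ⊢
  by_contra hcon
  obtain ⟨P, hP, hle⟩ := Ideal.exists_le_maximal _ hcon
  have hI' : I ≤ P := le_sup_left.trans hle
  have hP0 : P ≠ ⊥ := by
    rintro rfl
    exact hI (le_bot_iff.1 hI')
  have hQ : (Q : 𝓞 K) ∈ P := hle (Ideal.mem_sup_right (Ideal.mem_span_singleton_self _))
  have h1 := hm ⟨P, hP.isPrime, hP0⟩ hQ
  have h2 : I ⊔ m ≤ P := sup_le hI' (Ideal.dvd_iff_le.1 h1)
  rw [h, top_le_iff] at h2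
  exact hP.ne_top h2

/-- the ideals in the classes of a fibre -/
lemma S10b_mem (D : FD σ₂ d a) {Q : ℕ} (hQ : Q ≠ 0) (hdQ : 2 * d ∣ Q) {m : Ideal (𝓞 K)}
    (hm : Above Q m) {H : IntermediateField K ℝ} [FiniteDimensional K H]
    {Art : RayClassGroup σ₂ m ≃* (H ≃ₐ[K] H)} (hA : IsRayClassField σ₂ m H Art)
    {L : IntermediateField K ℝ} [Normal K L] (hLH : L ≤ H) (hLF : L ≤ Lf a Q)
    {I : Ideal (𝓞 K)} (hI : I ≠ ⊥) (hc : IsCoprime I m) {ρ : Lf a Q ≃ₐ[K] Lf a Q}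
    (hρ : Co a Q ρ (chiI a I) (Ideal.absNorm I)) (γ : L ≃ₐ[K] L) :
    (∃ σ ∈ fib hLH γ, I ∈ idealsOf σ₂ m (Art.symm σ)) ↔ res hLF ρ = γ := by
  have key : ∀ J : primeTo (K := K) m, ((J : (FI K)ˣ) : FI K) = (I : FI K) →
      res hLF ρ = res hLH (Art (cls σ₂ m J)) := by
    intro J hJ
    apply act_ext
    intro x hx
    rw [act_res hLF ρ hx, act_res hLH _ hx]
    exact (comp D hQ hdQ hm hA hLH hLF I hI J hJ ρ hρ hx).symm
  constructor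
  · rintro ⟨σ, hσ, J, hJ, hJc⟩
    rw [mem_fib] at hσ
    rw [key J hJ, ← hσ, hJc, MulEquiv.apply_symm_apply]
  · intro h
    let J : primeTo (K := K) m := ⟨uI I hI, coe_mem_primeTo (by rw [coe_uI]) hc⟩
    have hJ : ((J : (FI K)ˣ) : FI K) = (I : FI K) := by
      show ((uI I hI : (FI K)ˣ) : FI K) = I
      rw [coe_uI]
    refine ⟨Art (cls σ₂ m J), ?_, J, hJ, ?_⟩
    · rw [mem_fib, ← key J hJ, h]
    · rw [MulEquiv.symm_apply_apply]

/-- the sum of the indicators -/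
lemma S10b_ind {m : Ideal (𝓞 K)} {H : IntermediateField K ℝ}
    (Art : RayClassGroup σ₂ m ≃* (H ≃ₐ[K] H)) (S : Finset (H ≃ₐ[K] H)) (f : Ideal (𝓞 K) → ℂ)
    (I : Ideal (𝓞 K)) [Decidable (∃ σ ∈ S, I ∈ idealsOf σ₂ m (Art.symm σ))] :
    ∑ σ ∈ S, (idealsOf σ₂ m (Art.symm σ)).indicator f I =
      if ∃ σ ∈ S, I ∈ idealsOf σ₂ m (Art.symm σ) then f I else 0 := by
  split_ifs with h
  · obtain ⟨σ, hσ, hI⟩ := h
    rw [Finset.sum_eq_single σ, Set.indicator_of_mem hI]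
    · intro τ _ hτσ
      exact Set.indicator_of_notMem
        (fun h' => hτσ (Art.symm.injective (S10b_unique h' hI))) _
    · intro h'
      exact absurd hσ h'
  · refine Finset.sum_eq_zero fun σ hσ => Set.indicator_of_notMem (fun h' => h ⟨σ, hσ, h'⟩) _

omit [Algebra K ℝ] in
lemma S10b_fin (l : ℕ) : {I : Ideal (𝓞 K) | Ideal.absNorm I = l}.Finite := by
  rcases Nat.eq_zero_or_pos l with rfl | hl
  · refine (Set.finite_singleton (⊥ : Ideal (𝓞 K))).subset fun I hI => ?_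
    exact Ideal.absNorm_eq_zero_iff.1 hI
  · exact finite_norm hl.ne'

/-- the coefficient for one automorphism, summed over the ideals of norm `l` -/
lemma S10b_coef (a : 𝓞 K) (m : Ideal (𝓞 K)) (Q b : ℕ) (s : ℤ) (l : ℕ)
    (c : Ideal (𝓞 K) → ℤ) (hc : ∀ I, Ideal.absNorm I = l → c I =
      if l ≠ 0 ∧ ((Q : ℤ) ∣ (l : ℤ) - b ∨ (Q : ℤ) ∣ (l : ℤ) + b) then s * chiK a m I else 0) :
    (∑ I ∈ (S10b_fin (K := K) l).toFinset, c I) =
      if l ≠ 0 ∧ ((Q : ℤ) ∣ (l : ℤ) - b ∨ (Q : ℤ) ∣ (l : ℤ) + b) then s * cK a m l else 0 := by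
  have h1 : ∀ I ∈ (S10b_fin (K := K) l).toFinset, c I =
      if l ≠ 0 ∧ ((Q : ℤ) ∣ (l : ℤ) - b ∨ (Q : ℤ) ∣ (l : ℤ) + b) then s * chiK a m I else 0 := by
    intro I hI
    exact hc I (by simpa using hI)
  rw [Finset.sum_congr rfl h1]
  split_ifs with h
  · rw [← Finset.mul_sum]
    unfold cK
    rw [finsum_mem_eq_finite_toFinset_sum _ (S10b_fin l)]
  · simp

/-- **The sum over two fibres.** For `Re w > 1`: the left side is the sum over all ideals `I ≠ 0` prime to `m` of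
`([res (Art I) = γ] - [res (Art I) = γ res κ]) N(I) ^ (-w)` (each such ideal is in exactly one class; see the proof of `hasSum_K` in
`MP_1ef7cf_nt_g/S6.lean`, `IsPartialZeta.hasSum`). By `comp` the restriction of `Art I` to `L` is that of the automorphism `ρ` with the
coordinates of `I` (`exists_sig`; `I` is prime to `Q`: `hm`). Insert `coef_eq`, exchange with the finite sum over `τ`, and regroup each
sum by the norm (`hasSum_regroup`; `chiK_of`, `chiK_of_not`): the sum for `τ` is that of `GK`. -/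
theorem hasSum_fib (D : FD σ₂ d a) {Q : ℕ} (hQ : Q ≠ 0) (hdQ : 2 * d ∣ Q) {m : Ideal (𝓞 K)}
    (hm0 : m ≠ ⊥) (hm : Above Q m) {H : IntermediateField K ℝ} [FiniteDimensional K H]
    {Art : RayClassGroup σ₂ m ≃* (H ≃ₐ[K] H)} (hA : IsRayClassField σ₂ m H Art)
    {L : IntermediateField K ℝ} [Normal K L] (hLH : L ≤ H) (hLF : L ≤ Lf a Q)
    {κ : Lf a Q ≃ₐ[K] Lf a Q} (hκ : Co a Q κ (-1) 1) (s : (Lf a Q ≃ₐ[K] Lf a Q) → ℤˣ)
    (b : (Lf a Q ≃ₐ[K] Lf a Q) → ℕ) (hsb : ∀ τ, Co a Q τ (s τ : ℤ) (b τ)) (γ : L ≃ₐ[K] L)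
    {Z : RayClassGroup σ₂ m → ℂ → ℂ} (hZ : ∀ A, IsPartialZeta σ₂ m A (Z A)) {w : ℂ}
    (hw : 1 < w.re) (G : (Lf a Q ≃ₐ[K] Lf a Q) → ℂ)
    (hG : ∀ τ, HasSum (fun l : ℕ => (((if l ≠ 0 ∧ ((Q : ℤ) ∣ (l : ℤ) - b τ ∨
      (Q : ℤ) ∣ (l : ℤ) + b τ) then (s τ : ℤ) * cK a m l else 0 : ℤ)) : ℂ) * (l : ℂ) ^ (-w)) (G τ)) :
    ∑ σ ∈ fib hLH γ, Z (Art.symm σ) w - ∑ σ ∈ fib hLH (γ * res hLF κ), Z (Art.symm σ) w =
      ∑ τ ∈ fib hLF γ, G τ := by
  classical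
  set f : Ideal (𝓞 K) → ℂ := fun I => ((Ideal.absNorm I : ℕ) : ℂ) ^ (-w) with hf
  have h1 : ∀ σ : H ≃ₐ[K] H, HasSum ((idealsOf σ₂ m (Art.symm σ)).indicator f)
      (Z (Art.symm σ) w) := fun σ => hasSum_subtype_iff_indicator.1 ((hZ _).hasSum hw)
  have h2 : HasSum (fun I => ∑ σ ∈ fib hLH γ, (idealsOf σ₂ m (Art.symm σ)).indicator f I -
      ∑ σ ∈ fib hLH (γ * res hLF κ), (idealsOf σ₂ m (Art.symm σ)).indicator f I)
      (∑ σ ∈ fib hLH γ, Z (Art.symm σ) w -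
        ∑ σ ∈ fib hLH (γ * res hLF κ), Z (Art.symm σ) w) :=
    (hasSum_sum fun σ _ => h1 σ).sub (hasSum_sum fun σ _ => h1 σ)
  set c : (Lf a Q ≃ₐ[K] Lf a Q) → Ideal (𝓞 K) → ℤ := fun τ I =>
    if Ideal.absNorm I ≠ 0 ∧ ((Q : ℤ) ∣ (Ideal.absNorm I : ℤ) - b τ ∨
      (Q : ℤ) ∣ (Ideal.absNorm I : ℤ) + b τ) then (s τ : ℤ) * chiK a m I else 0 with hcdef
  have h3 : ∀ I, ∑ σ ∈ fib hLH γ, (idealsOf σ₂ m (Art.symm σ)).indicator f I -
      ∑ σ ∈ fib hLH (γ * res hLF κ), (idealsOf σ₂ m (Art.symm σ)).indicator f I =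
      ((∑ τ ∈ fib hLF γ, c τ I : ℤ) : ℂ) * f I := by
    intro I
    rw [S10b_ind, S10b_ind]
    by_cases hI : I ≠ ⊥ ∧ IsCoprime I m
    · obtain ⟨hI0, hIm⟩ := hI
      have hN : Ideal.absNorm I ≠ 0 := by
        rw [Ne, Ideal.absNorm_eq_zero_iff]
        exact hI0
      obtain ⟨ρ, hρ⟩ := exists_sig D hQ hdQ I hI0 (S10b_coprime hI0 hm hIm)
      have e1 := S10b_mem D hQ hdQ hm hA hLH hLF hI0 hIm hρ γ
      have e2 := S10b_mem D hQ hdQ hm hA hLH hLF hI0 hIm hρ (γ * res hLF κ)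
      have e3 := coef_eq D hQ hLF hκ hρ s b hsb γ
      have e4 : (∑ τ ∈ fib hLF γ, c τ I : ℤ) =
          ((if res hLF ρ = γ then 1 else 0) - (if res hLF ρ = γ * res hLF κ then 1 else 0) : ℤ) := by
        rw [e3]
        refine Finset.sum_congr rfl fun τ _ => ?_
        simp only [hcdef, chiK_of hI0 hIm, ne_eq, hN, not_false_eq_true, true_and]
      rw [e4, if_congr e1 rfl rfl, if_congr e2 rfl rfl]
      split_ifs <;> simp
    · have e1 : ∀ S : Finset (H ≃ₐ[K] H), ¬ ∃ σ ∈ S, I ∈ idealsOf σ₂ m (Art.symm σ) := by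
        rintro S ⟨σ, -, J, hJ, -⟩
        apply hI
        refine ⟨?_, coprime_of_mem_primeTo hJ J.2⟩
        rintro rfl
        exact J.1.ne_zero (by rw [hJ]; simp)
      rw [if_neg (e1 _), if_neg (e1 _)]
      have e2 : (∑ τ ∈ fib hLF γ, c τ I : ℤ) = 0 := by
        refine Finset.sum_eq_zero fun τ _ => ?_
        simp only [hcdef, chiK_of_not hI, mul_zero, ite_self]
      rw [e2]
      simp
  have h4 : HasSum (fun I => ((∑ τ ∈ fib hLF γ, c τ I : ℤ) : ℂ) *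
      ((Ideal.absNorm I : ℕ) : ℂ) ^ (-w)) (∑ σ ∈ fib hLH γ, Z (Art.symm σ) w -
        ∑ σ ∈ fib hLH (γ * res hLF κ), Z (Art.symm σ) w) := by
    rw [funext h3] at h2
    exact h2
  have h5 := hasSum_regroup (fun I : Ideal (𝓞 K) => Ideal.absNorm I) S10b_fin
    (fun I => ∑ τ ∈ fib hLF γ, c τ I) h4
  have h6 : HasSum (fun l : ℕ => ∑ τ ∈ fib hLF γ, (((if l ≠ 0 ∧ ((Q : ℤ) ∣ (l : ℤ) - b τ ∨
      (Q : ℤ) ∣ (l : ℤ) + b τ) then (s τ : ℤ) * cK a m l else 0 : ℤ)) : ℂ) * (l : ℂ) ^ (-w))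
      (∑ τ ∈ fib hLF γ, G τ) := hasSum_sum fun τ _ => hG τ
  refine h5.unique (h6.congr_fun fun l => ?_)
  rw [finsum_mem_eq_finite_toFinset_sum _ (S10b_fin l), Finset.sum_comm, Int.cast_sum,
    Finset.sum_mul]
  refine Finset.sum_congr rfl fun τ _ => ?_
  rw [S10b_coef a m Q (b τ) (s τ) l (c τ)]
  intro I hI
  simp only [hcdef, hI]

end Pool.Agent.STh
end

section

/-!
# The derivatives of the partial zeta functions
-/

open NumberField IsDedekindDomain Pool.Agent.ST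

namespace Pool.Agent.STh

open Pool.Agent.STg Pool.Agent.STh.F

variable {K : Type*} [Field K] [NumberField K] [Algebra K ℝ] {σ₂ : K →+* ℝ} {d : ℕ} {a : 𝓞 K}

omit [Algebra K ℝ] in
private lemma S10_exists_two : ∃ v : HeightOneSpectrum (𝓞 K), (2 : 𝓞 K) ∈ v.asIdeal := by
  have hne : Ideal.span {(2 : 𝓞 K)} ≠ ⊤ := by
    rw [Ne, Ideal.span_singleton_eq_top]
    intro hu
    have h1 := hu.map (Algebra.norm ℤ)
    have h2 : Algebra.norm ℤ (2 : 𝓞 K) = 2 ^ Module.finrank ℤ (𝓞 K) := by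
      have : (2 : 𝓞 K) = algebraMap ℤ (𝓞 K) 2 := by simp
      rw [this, Algebra.norm_algebraMap]
    rw [h2, Int.isUnit_iff] at h1
    have h3 : 0 < Module.finrank ℤ (𝓞 K) := by
      rw [RingOfIntegers.rank]; exact Module.finrank_pos
    rcases h1 with h1 | h1
    · have h4 : (2 : ℤ) ∣ 1 := by rw [← h1]; exact dvd_pow_self 2 h3.ne'
      norm_num at h4
    · have h4 : (2 : ℤ) ∣ -1 := by rw [← h1]; exact dvd_pow_self 2 h3.ne'
      norm_num at h4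
  obtain ⟨M, hM, hM2⟩ := Ideal.exists_le_maximal _ hne
  have h2 : (2 : 𝓞 K) ∈ M := hM2 (Ideal.mem_span_singleton_self _)
  refine ⟨⟨M, hM.isPrime, ?_⟩, h2⟩
  rintro rfl
  rw [Ideal.mem_bot] at h2
  exact two_ne_zero h2

/-- sums over the fibres and the multiplication by `Art c` -/
private lemma S10_sum {m : Ideal (𝓞 K)} {H : IntermediateField K ℝ} [FiniteDimensional K H]
    (Art : RayClassGroup σ₂ m ≃* (H ≃ₐ[K] H)) {L : IntermediateField K ℝ} [Normal K L]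
    (hLH : L ≤ H) {c : RayClassGroup σ₂ m} (hzd : ∀ A, zd σ₂ m A + zd σ₂ m (A * c) = 0)
    (γ γ' : L ≃ₐ[K] L) (hγ : γ * res hLH (Art c) = γ') :
    ∑ σ ∈ fib hLH γ', zd σ₂ m (Art.symm σ) = -∑ σ ∈ fib hLH γ, zd σ₂ m (Art.symm σ) := by
  have h3 : ∑ σ ∈ fib hLH γ', zd σ₂ m (Art.symm σ) =
      ∑ σ ∈ fib hLH γ, zd σ₂ m (Art.symm (σ * Art c)) := by
    symm
    refine Finset.sum_bij (fun σ _ => σ * Art c) ?_ ?_ ?_ ?_
    · intro σ hσ
      rw [mem_fib] at hσ ⊢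
      rw [map_mul, hσ, hγ]
    · intro A _ B _ hAB
      exact mul_right_cancel hAB
    · intro B hB
      refine ⟨B * (Art c)⁻¹, ?_, by rw [inv_mul_cancel_right]⟩
      rw [mem_fib] at hB ⊢
      rw [map_mul, hB, map_inv, ← hγ, mul_inv_cancel_right]
    · intro A _
      rfl
  rw [h3, ← Finset.sum_neg_distrib]
  refine Finset.sum_congr rfl ?_
  intro σ _
  rw [map_mul, MulEquiv.symm_apply_apply]
  linarith [hzd (Art.symm σ)]

/-- **The derivatives at `0`.** By `hasSum_fib`, `eq_of_eq_right`, `deriv_eq_of_eqOn`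
(`DifferentiableOn.analyticOnNhd`): `∑_(fib γ) zd - ∑_(fib γ κ) zd = -∑_(fib hLF γ) t`. Let `c` be a class as in `IsC` (`exists_isC`). By
`art_c` the restriction of `Art c` to `L` is `1` or `res κ`, and `zd (A c) = -zd A` (`zd_mul_c`, see `sum_zd_neg` in
`MP_1ef7cf_nt_g/S8a.lean`). If it is `res κ`: the second sum is minus the first one. If it is `1`: both sums are `0` (the fibres are stable
under multiplication by `Art c`). `m ≠ ⊤`: there is a prime which contains `Q`. -/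
theorem S_main (D : FD σ₂ d a) {Q : ℕ} (hQ : Q ≠ 0) (hdQ : 2 * d ∣ Q) {m : Ideal (𝓞 K)}
    (hm0 : m ≠ ⊥) (hm : Above Q m) {H : IntermediateField K ℝ} [FiniteDimensional K H]
    {Art : RayClassGroup σ₂ m ≃* (H ≃ₐ[K] H)} (hA : IsRayClassField σ₂ m H Art)
    {L : IntermediateField K ℝ} [Normal K L] (hLH : L ≤ H) (hLF : L ≤ Lf a Q)
    (t : (Lf a Q ≃ₐ[K] Lf a Q) → ℝ)
    (ht : ∀ τ, ∃ (s : ℤˣ) (b : ℕ), Co a Q τ (s : ℤ) b ∧ GK a m Q (s : ℤ) b (t τ))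
    (γ : L ≃ₐ[K] L) :
    -2 * ∑ σ ∈ fib hLH γ, zd σ₂ m (Art.symm σ) = ∑ τ ∈ fib hLF γ, t τ := by
  classical
  have hm1 : m ≠ ⊤ := by
    rintro rfl
    obtain ⟨v, hv⟩ := S10_exists_two (K := K)
    have hQv : (Q : 𝓞 K) ∈ v.asIdeal := by
      obtain ⟨r, hr⟩ := hdQ
      have h1 : (Q : 𝓞 K) = ((d : 𝓞 K) * (r : 𝓞 K)) * 2 := by
        rw [hr]; push_cast; ring
      rw [h1]
      exact v.asIdeal.mul_mem_left _ hv
    have h1 := hm v hQv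
    exact v.isPrime.ne_top (top_le_iff.mp (Ideal.dvd_iff_le.mp h1))
  obtain ⟨κ, hκ⟩ := exists_kap D hQ
  choose s b hsb hGK using ht
  choose Z hZ _ using exists_pz (σ₂ := σ₂) D.deg D.ne hm0 hm1
  choose G hG1 hG2 hG3 hG4 using hGK
  have hopen : IsOpen ({1}ᶜ : Set ℂ) := isOpen_compl_singleton
  have h0mem : (0 : ℂ) ∈ ({1}ᶜ : Set ℂ) := by simp
  have hGan : ∀ τ, AnalyticOnNhd ℂ (G τ) {1}ᶜ := fun τ => (hG1 τ).analyticOnNhd hopen
  have hS1 : AnalyticOnNhd ℂ (fun w => ∑ σ ∈ fib hLH γ, Z (Art.symm σ) w) {1}ᶜ :=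
    Finset.analyticOnNhd_fun_sum _ fun σ _ => (hZ (Art.symm σ)).1
  have hS2 : AnalyticOnNhd ℂ
      (fun w => ∑ σ ∈ fib hLH (γ * res hLF κ), Z (Art.symm σ) w) {1}ᶜ :=
    Finset.analyticOnNhd_fun_sum _ fun σ _ => (hZ (Art.symm σ)).1
  have hS3 : AnalyticOnNhd ℂ (fun w => ∑ τ ∈ fib hLF γ, G τ w) {1}ᶜ :=
    Finset.analyticOnNhd_fun_sum _ fun τ _ => hGan τ
  have heq : ∀ w : ℂ, 1 < w.re → (∑ σ ∈ fib hLH γ, Z (Art.symm σ) w -
      ∑ σ ∈ fib hLH (γ * res hLF κ), Z (Art.symm σ) w) = ∑ τ ∈ fib hLF γ, G τ w := by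
    intro w hw
    exact hasSum_fib D hQ hdQ hm0 hm hA hLH hLF hκ s b hsb γ hZ hw (fun τ => G τ w)
      (fun τ => hG3 τ w hw)
  have h5 := deriv_eq_of_eqOn (eq_of_eq_right (hS1.sub hS2) hS3 heq)
  have hd : ∀ A, DifferentiableAt ℂ (Z A) 0 := fun A => ((hZ A).1 0 h0mem).differentiableAt
  have h6 : deriv ((fun w => ∑ σ ∈ fib hLH γ, Z (Art.symm σ) w) -
      (fun w => ∑ σ ∈ fib hLH (γ * res hLF κ), Z (Art.symm σ) w)) 0 =
      ((∑ σ ∈ fib hLH γ, zd σ₂ m (Art.symm σ) -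
        ∑ σ ∈ fib hLH (γ * res hLF κ), zd σ₂ m (Art.symm σ) : ℝ) : ℂ) := by
    rw [deriv_sub (hS1 0 h0mem).differentiableAt (hS2 0 h0mem).differentiableAt,
      deriv_fun_sum (fun σ _ => hd (Art.symm σ)), deriv_fun_sum (fun σ _ => hd (Art.symm σ))]
    push_cast
    congr 1
    · exact Finset.sum_congr rfl fun σ _ => (zd_eq (hZ (Art.symm σ))).symm
    · exact Finset.sum_congr rfl fun σ _ => (zd_eq (hZ (Art.symm σ))).symm
  have h6' : deriv (fun w => ∑ τ ∈ fib hLF γ, G τ w) 0 = ((-∑ τ ∈ fib hLF γ, t τ : ℝ) : ℂ) := by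
    rw [deriv_fun_sum (fun τ _ => (hGan τ 0 h0mem).differentiableAt)]
    rw [Finset.sum_congr rfl (fun τ _ => hG4 τ)]
    push_cast
    rw [Finset.sum_neg_distrib]
  rw [h6, h6'] at h5
  have h7 : ∑ σ ∈ fib hLH γ, zd σ₂ m (Art.symm σ) -
        ∑ σ ∈ fib hLH (γ * res hLF κ), zd σ₂ m (Art.symm σ) = -∑ τ ∈ fib hLF γ, t τ := by
    exact_mod_cast h5
  obtain ⟨c, hc⟩ := exists_isC (σ₂ := σ₂) hm0
  have hzd := zd_mul_c D.deg D.ne hm0 hm1 hc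
  rcases art_c D hQ hdQ hm0 hm hA hLH hLF hκ hc with h8 | h8
  · have h9 : res hLH (Art c) = 1 := by
      rw [res_eq_one_iff]
      exact h8
    have h10 := S10_sum Art hLH hzd γ γ (by rw [h9, mul_one])
    have h11 := S10_sum Art hLH hzd (γ * res hLF κ) (γ * res hLF κ) (by rw [h9, mul_one])
    linarith
  · have h9 : res hLH (Art c) = res hLF κ := by
      apply act_ext
      intro x hx
      rw [act_res hLH _ hx, act_res hLF _ hx, h8 x hx]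
    have h10 := S10_sum Art hLH hzd γ (γ * res hLF κ) (by rw [h9])
    linarith

end Pool.Agent.STh
end
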