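import Pool.Agent.Lib.MP_1ef7cf_nt_f.Mg.G001
import Pool.Agent.Lib.MP_1ef7cf_nt_g.Mg.G043
import Pool.Agent.Lib.MP_1ef7cf_nt_g.Mg.G028
import Pool.Agent.Lib.MP_1ef7cf_nt_h.Mg.G013

section

/-!
# Norms in the tower
-/

open NumberField IsDedekindDomain Pool.Agent.ST Pool.Agent.STb Pool.Agent.STf IntermediateField

namespace Pool.Agent.STh

open Pool.Agent.STg Pool.Agent.STh.F

variable {K : Type*} [Field K] [NumberField K] [Algebra K ℝ] {σ₂ : K →+* ℝ} {a : 𝓞 K}

/-- `U.M k ∣ U.M k'` -/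
lemma Lf_M_mono (U : UD) (a : 𝓞 K) {k k' : ℕ} (h : k ≤ k') : Lf a (U.M k) ≤ Lf a (U.M k') :=
  Lf_mono a (U.M_dvd h) (U.M_ne_zero k')

lemma Z3_zq_half (U : UD) (k : ℕ) : zq (U.M (k + 1)) ^ (U.M k) = -1 := by
  have h0 : (U.M k : ℂ) ≠ 0 := Nat.cast_ne_zero.2 (U.M_ne_zero k)
  unfold zq
  rw [← Complex.exp_nat_mul, U.M_succ]
  rw [show (U.M k : ℂ) * (2 * Real.pi * Complex.I / ((2 * U.M k : ℕ) : ℂ)) =
      Real.pi * Complex.I by
    push_cast
    field_simp]
  exact Complex.exp_pi_mul_I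

lemma Z3_cos_eq (Q : ℕ) : (Real.cos (2 * Real.pi / Q) : ℂ) = (zq Q + (zq Q)⁻¹) / 2 := by
  unfold zq
  rw [← Complex.exp_neg, Complex.ofReal_cos, Complex.cos]
  congr 2
  · congr 1
    push_cast
    ring
  · congr 1
    push_cast
    ring

lemma Z3_dbl (U : UD) (k : ℕ) : Real.cos (2 * Real.pi / U.M k) =
    2 * Real.cos (2 * Real.pi / U.M (k + 1)) ^ 2 - 1 := by
  have h0 : (U.M k : ℝ) ≠ 0 := Nat.cast_ne_zero.2 (U.M_ne_zero k)
  rw [← Real.cos_two_mul]
  congr 1
  rw [U.M_succ]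
  push_cast
  field_simp

/-- **The tower grows.** `exists_gam`: `α` with `sM (k + 1) α = (1, nu (1 + M k))`; `exists_h` (for `Q = M (k + 1)`) gives an
embedding `h` of the algebraic numbers with `h i = i`, `h r = r` (`κ(α) = 1`), `h ζ = ζ ^ N(α) = ζ ^ (1 + M k) = -ζ` for `ζ = zq (M (k + 1))`, so
`h (cos (2 π / M (k + 1))) = -cos (2 π / M (k + 1))` and `h (cos (2 π / M k)) = cos (2 π / M k)`. So `h` is the identity on `Rk U k`, but not at
`cos (2 π / M (k + 1))`. -/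
theorem step_proper (U : UD) (D : FD σ₂ U.d a) {k : ℕ} (hk : 1 ≤ k) :
    Real.cos (2 * Real.pi / U.M (k + 1)) ∉ Lf a (U.M k) := by
  intro hmem
  rw [mem_Lf_iff U D k] at hmem
  obtain ⟨α, hα, hαn, hs⟩ := exists_gam U hk
  have hQ : U.M (k + 1) ≠ 0 := U.M_ne_zero (k + 1)
  have hαQ : IsCoprime α ((U.M (k + 1) : ℕ) : GaussianInt) := U.coprime_f (k + 1) hαn
  obtain ⟨h, hA⟩ := exists_h U hQ (U.n_dvd_M (k + 1)) hα hαQ
  have hκ : U.κ α = 1 := congrArg Prod.fst hs
  have hnu : nu (U.M (k + 1)) (gN α) = nu (U.M (k + 1)) (1 + U.M k) := congrArg Prod.snd hs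
  have h64 : 64 ∣ U.M k := U.dvd64 k
  have hM0 : U.M k ≠ 0 := U.M_ne_zero k
  have hcop : (1 + U.M k).Coprime (U.M (k + 1)) := by
    rw [U.M_succ]
    refine Nat.Coprime.mul_right ?_ ?_
    · rw [Nat.coprime_comm]
      rw [Nat.Prime.coprime_iff_not_dvd Nat.prime_two]
      omega
    · simp
  have hcong : gN α ≡ 1 + U.M k [MOD U.M (k + 1)] :=
    (nu_eq_iff (U.gN_coprime (k + 1) hαn) hcop).1 hnu
  have hz1 : zq (U.M (k + 1)) ^ gN α = zq (U.M (k + 1)) ^ (1 + U.M k) := by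
    rw [pow_eq_pow_mod (gN α) (zq_pow hQ), pow_eq_pow_mod (1 + U.M k) (zq_pow hQ)]
    congr 1
  have hz : ap h (zq (U.M (k + 1))) = -zq (U.M (k + 1)) := by
    rw [hA.z, hz1, pow_add, pow_one, Z3_zq_half]
    ring
  have hzm : zq (U.M (k + 1)) ∈ Qb := zq_mem_Qb hQ
  have h2m : (2 : ℂ) ∈ Qb := by
    have := _root_.natCast_mem Qb 2
    exact_mod_cast this
  have h2 : ap h (2 : ℂ) = 2 := by
    have h3 : (2 : ℂ) = algebraMap ℚ ℂ 2 := by simp
    rw [h3, ap_ratCast]
    simp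
  have hcm : ((Real.cos (2 * Real.pi / U.M (k + 1)) : ℝ) : ℂ) ∈ Qb := by
    rw [Z3_cos_eq]
    exact div_mem (add_mem hzm (inv_mem hzm)) h2m
  have hc : ap h ((Real.cos (2 * Real.pi / U.M (k + 1)) : ℝ) : ℂ) =
      -((Real.cos (2 * Real.pi / U.M (k + 1)) : ℝ) : ℂ) := by
    rw [Z3_cos_eq, ap_div h (add_mem hzm (inv_mem hzm)) h2m, ap_add h hzm (inv_mem hzm),
      ap_inv h hzm, hz, h2]
    rw [← neg_inv]
    ring
  have hcq : ap h ((cq (U.M k) : ℝ) : ℂ) = (cq (U.M k) : ℝ) := by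
    unfold cq
    rw [Z3_dbl]
    push_cast
    have hcm' : (Complex.cos (2 * Real.pi / U.M (k + 1)) : ℂ) ∈ Qb := by
      have := hcm
      push_cast at this
      exact this
    have hc' : ap h (Complex.cos (2 * Real.pi / U.M (k + 1)) : ℂ) =
        -(Complex.cos (2 * Real.pi / U.M (k + 1)) : ℂ) := by
      have := hc
      push_cast at this
      exact this
    rw [ap_sub h (mul_mem h2m (pow_mem hcm' 2)) (one_mem _), ap_mul h h2m (pow_mem hcm' 2),
      ap_pow h hcm', hc', h2, ap_one]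
    ring
  have hr : ap h (U.r : ℂ) = (U.r : ℂ) := by
    rw [hA.r, hκ]
    simp
  have key : ∀ x ∈ Rk U k, (x : ℂ) ∈ Qb ∧ ap h (x : ℂ) = x := by
    intro x hx
    unfold Rk at hx
    induction hx using IntermediateField.adjoin_induction with
    | mem x hx =>
      rcases hx with hx | hx
      · rw [hx]
        exact ⟨U.r_mem_Qb, hr⟩
      · rw [Set.mem_singleton_iff.1 hx]
        exact ⟨Rk_mem_Qb U k (cq_mem U k), hcq⟩
    | algebraMap q =>
      have h3 : ((algebraMap ℚ ℝ q : ℝ) : ℂ) = algebraMap ℚ ℂ q := by simp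
      rw [h3]
      refine ⟨Qb.algebraMap_mem q, ?_⟩
      rw [ap_ratCast]
      rfl
    | add x y _ _ hx hy =>
      rw [Complex.ofReal_add]
      exact ⟨add_mem hx.1 hy.1, by rw [ap_add h hx.1 hy.1, hx.2, hy.2]⟩
    | inv x _ hx =>
      rw [Complex.ofReal_inv]
      exact ⟨inv_mem hx.1, by rw [ap_inv h hx.1, hx.2]⟩
    | mul x y _ _ hx hy =>
      rw [Complex.ofReal_mul]
      exact ⟨mul_mem hx.1 hy.1, by rw [ap_mul h hx.1 hy.1, hx.2, hy.2]⟩
  have h5 := (key _ hmem).2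
  rw [hc] at h5
  have h6 : Real.cos (2 * Real.pi / U.M (k + 1)) = 0 := by
    have h7 : ((Real.cos (2 * Real.pi / U.M (k + 1)) : ℝ) : ℂ) = 0 := by
      linear_combination (-1 / 2 : ℂ) * h5
    exact_mod_cast h7
  have h8 : 0 < Real.cos (2 * Real.pi / U.M (k + 1)) := by
    apply Real.cos_pos_of_mem_Ioo
    have h9 : (64 : ℝ) ≤ U.M (k + 1) := by
      have : 64 ≤ U.M (k + 1) := Nat.le_of_dvd (Nat.pos_of_ne_zero hQ) (U.dvd64 (k + 1))
      exact_mod_cast this
    have h10 : 0 < (U.M (k + 1) : ℝ) := by linarith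
    constructor
    · have : 0 < 2 * Real.pi / U.M (k + 1) := by positivity
      linarith [Real.pi_pos]
    · rw [div_lt_div_iff₀ h10 (by norm_num)]
      nlinarith [Real.pi_pos]
  exact h8.ne' h6

/-- **One step.** As `fibProd_step` in `MP_1ef7cf_nt_g/Z3.lean`: the group of the automorphisms of
`Lf a (M (k + 1))` which are trivial on `Lf a (M k)` has two elements `1`, `τ`, and `τ` has the coordinates
`gam' k`: `exists_coords`: `s = 1`, `cos (2 π b / M k) = cos (2 π / M k)` (double angle), so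
`nu (M k) b = 1` (`nu_eq_of_cos`), and `nu (M (k + 1)) b ≠ 1` since `τ ≠ 1`, so
`(1, nu (M (k + 1)) b) = gam' k` by `pr_eq_iff`. So the product over the fibre is `xv g xv (gam' g) = xv (pr g)`
(`xv_pr`). -/
theorem fibProd_step (U : UD) (D : FD σ₂ U.d a) {k J : ℕ} (hk : 1 ≤ k) (hJ : k + 2 ≤ J)
    (g : Gam (U.M (k + 1))) :
    fibProd (Lf_M_mono U a (Nat.le_succ k)) (xv U (k + 1) J g) 1 = xv U k J (pr U k g) := by
  classical
  have hab : IsAbelianGalois K (Lf a (U.M (k + 1))) := inferInstance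
  have hgal : IsGalois K (Lf a (U.M (k + 1))) := hab.toIsGalois
  set h := Lf_M_mono U a (Nat.le_succ k) with hh
  have hy : IsGF U (k + 1) (xv U (k + 1) J) := isGF_xv_all U (by omega) (by omega)
  have hmem : ∀ c, xv U (k + 1) J c ∈ Lf a (U.M (k + 1)) := fun c =>
    (mem_Lf_iff U D (k + 1) _).2 (hy.mem c)
  set θ : ℝ := 2 * Real.pi / U.M (k + 1) with hθ
  have hM0 : (U.M k : ℝ) ≠ 0 := Nat.cast_ne_zero.2 (U.M_ne_zero k)
  have hse : se a ≠ 0 := D.se_pos.ne'
  have hdbl : Real.cos (2 * Real.pi / U.M k) = 2 * Real.cos θ ^ 2 - 1 := Z3_dbl U k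
  have hcos : Real.cos θ ∈ Lf a (U.M (k + 1)) := cos_mem a (U.M (k + 1))
  have h2K : (2 : ℝ) = algebraMap K ℝ 2 := (map_ofNat (algebraMap K ℝ) 2).symm
  have h2m : (2 : ℝ) ∈ Lf a (U.M (k + 1)) := by
    rw [h2K]
    exact (Lf a (U.M (k + 1))).algebraMap_mem 2
  have h64 : 64 ∣ U.M k := U.dvd64 k
  have hMn : U.M (k + 1) ≠ 0 := U.M_ne_zero (k + 1)
  have hcop : (1 + U.M k).Coprime (U.M (k + 1)) := by
    rw [U.M_succ]
    refine Nat.Coprime.mul_right ?_ ?_
    · rw [Nat.coprime_comm]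
      rw [Nat.Prime.coprime_iff_not_dvd Nat.prime_two]
      omega
    · simp
  -- coordinates of the elements of the fibre
  have key : ∀ γ : Lf a (U.M (k + 1)) ≃ₐ[K] Lf a (U.M (k + 1)), res h γ = 1 →
      γ = 1 ∨ (act γ (Real.cos θ) =
          Real.cos (2 * Real.pi * ((1 + U.M k : ℕ) : ℤ) / U.M (k + 1)) ∧
        act γ (xv U (k + 1) J g) = xv U (k + 1) J (gam' U k * g)) := by
    intro γ hγ
    rw [res_eq_one_iff] at hγ
    obtain ⟨s, n, hn4, hnc, hCo⟩ := exists_coords U D γ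
    have hs := hCo.hs
    have hc' := hCo.hc
    have h1 := hγ _ (se_mem a (U.M k))
    have hs1 : s = 1 := by
      rw [h1] at hs
      have h2 : ((s : ℤ) : ℝ) = 1 := by
        have := mul_right_cancel₀ hse (show (1 : ℝ) * se a = ((s : ℤ) : ℝ) * se a by
          rw [one_mul]; exact hs)
        exact this.symm
      have h3 : (s : ℤ) = 1 := by exact_mod_cast h2
      exact Units.ext h3
    subst hs1
    have h2 := hγ _ (cos_mem a (U.M k))
    have h3 : act γ (Real.cos (2 * Real.pi / U.M k)) = Real.cos (2 * Real.pi * n / U.M k) := by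
      rw [hdbl, sub_eq_add_neg, act_add _ (mul_mem h2m (pow_mem hcos 2))
          (neg_mem (one_mem _)), act_neg _ (one_mem _), act_one_right,
        act_mul _ h2m (pow_mem hcos 2), act_pow _ hcos]
      have h4 : act γ (2 : ℝ) = 2 := by
        rw [h2K]
        exact act_algebraMap γ (2 : K)
      rw [h4, hc', ← sub_eq_add_neg, ← Real.cos_two_mul]
      congr 1
      rw [U.M_succ]
      push_cast
      field_simp
    have hnk : n.Coprime (U.M k) := hnc.coprime_dvd_right (U.M_dvd (Nat.le_succ k))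
    have h5 : nu (U.M k) n = nu (U.M k) 1 := by
      apply nu_eq_of_cos U hn4 (by norm_num) hnk (Nat.coprime_one_left _)
      rw [← h3, h2]
      norm_num
    have h6 : pr U k (1, nu (U.M (k + 1)) n) = pr U k 1 := by
      rw [pr_mk U hnk, h5, nu_one, map_one]
      rfl
    rcases (pr_eq_iff U _ _).1 h6 with h7 | h7
    · left
      have h8 : nu (U.M (k + 1)) n = nu (U.M (k + 1)) 1 := by
        rw [nu_one]
        exact congrArg Prod.snd h7
      have h9 : n ≡ 1 [MOD U.M (k + 1)] := (nu_eq_iff hnc (Nat.coprime_one_left _)).1 h8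
      apply ext_coords
      · rw [hs, act_one_left (se_mem a (U.M (k + 1)))]
        simp
      · rw [hc', act_one_left hcos]
        have h10 : (U.M (k + 1) : ℤ) ∣ (n : ℤ) - 1 := by
          have := (Nat.modEq_iff_dvd.1 h9.symm)
          exact_mod_cast this
        have h11 := (cos_mod_iff hMn (n : ℤ) 1).2 (Or.inl h10)
        push_cast at h11
        rw [h11]
        congr 1
        rw [mul_one]
    · right
      have h12 : act γ (xv U (k + 1) J g) = xv U (k + 1) J (gam' U k * g) := by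
        rw [act_gf U D hy γ hn4 hnc hCo g, map_one, h7, mul_one]
      refine ⟨?_, h12⟩
      have h13 : nu (U.M (k + 1)) n = nu (U.M (k + 1)) (1 + U.M k) := by
        have := congrArg Prod.snd h7
        rw [mul_one] at this
        exact this
      have h14 : n ≡ 1 + U.M k [MOD U.M (k + 1)] := (nu_eq_iff hnc hcop).1 h13
      have h15 : (U.M (k + 1) : ℤ) ∣ (n : ℤ) - ((1 + U.M k : ℕ) : ℤ) :=
        Nat.modEq_iff_dvd.1 h14.symm
      have h16 := (cos_mod_iff hMn (n : ℤ) ((1 + U.M k : ℕ) : ℤ)).2 (Or.inl h15)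
      rw [hc', ← h16]
      push_cast
      rfl
  -- a non-trivial element
  obtain ⟨τ, hτ1, hτ2⟩ : ∃ τ : Lf a (U.M (k + 1)) ≃ₐ[K] Lf a (U.M (k + 1)), res h τ = 1 ∧
      act τ (Real.cos θ) ≠ Real.cos θ := by
    by_contra hcon
    push Not at hcon
    exact step_proper U D hk (mem_of_fixed h hcos fun γ hγ =>
      hcon γ ((res_eq_one_iff h γ).2 hγ))
  have hτ3 : act τ (xv U (k + 1) J g) = xv U (k + 1) J (gam' U k * g) := by
    rcases key τ hτ1 with h1 | h1
    · exact absurd (by rw [h1, act_one_left hcos]) hτ2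
    · exact h1.2
  have hne : (1 : Lf a (U.M (k + 1)) ≃ₐ[K] Lf a (U.M (k + 1))) ≠ τ := by
    rintro rfl
    exact hτ2 (act_one_left hcos)
  have hfib : fib h (1 : Lf a (U.M k) ≃ₐ[K] Lf a (U.M k)) = {1, τ} := by
    ext γ
    rw [mem_fib, Finset.mem_insert, Finset.mem_singleton]
    constructor
    · intro hγ
      rcases key γ hγ with h1 | ⟨h1, -⟩
      · exact Or.inl h1
      · right
        rcases key τ hτ1 with h2 | ⟨h2, -⟩
        · exact absurd h2.symm hne
        · apply ext_coords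
          · rw [(res_eq_one_iff h γ).1 hγ _ (se_mem a (U.M k)),
              (res_eq_one_iff h τ).1 hτ1 _ (se_mem a (U.M k))]
          · exact h1.trans h2.symm
    · rintro (rfl | rfl)
      · exact map_one _
      · exact hτ1
  unfold fibProd
  rw [hfib, Finset.prod_pair hne, act_one_left (hmem g), hτ3, xv_pr U]

/-- Iterate (`fibProd_trans`): for all `1 ≤ k ≤ N`. -/
theorem fibProd_xv (U : UD) (D : FD σ₂ U.d a) {k N J : ℕ} (hk : 1 ≤ k) (hkN : k ≤ N)
    (hJ : N + 1 ≤ J) : fibProd (Lf_M_mono U a hkN) (xv U N J 1) 1 = xv U k J 1 := by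
  revert hJ
  induction N, hkN using Nat.le_induction with
  | base =>
    intro hJ
    have hy : IsGF U k (xv U k J) := isGF_xv_all U (by omega) (by omega)
    have hmem : xv U k J 1 ∈ Lf a (U.M k) := (mem_Lf_iff U D k _).2 (hy.mem 1)
    have hfib : fib (Lf_M_mono U a (le_refl k)) (1 : Lf a (U.M k) ≃ₐ[K] Lf a (U.M k)) = {1} := by
      ext γ
      rw [mem_fib, Finset.mem_singleton, res_eq_one_iff]
      constructor
      · intro h
        apply act_ext
        intro x hx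
        rw [h x hx, act_one_left hx]
      · rintro rfl x hx
        exact act_one_left hx
    unfold fibProd
    rw [hfib, Finset.prod_singleton, act_one_left hmem]
  | succ N hkN ih =>
    intro hJ
    have hy : IsGF U (N + 1) (xv U (N + 1) J) := isGF_xv_all U (by omega) (by omega)
    have hmem : xv U (N + 1) J 1 ∈ Lf a (U.M (N + 1)) := (mem_Lf_iff U D (N + 1) _).2 (hy.mem 1)
    have h1 := fibProd_trans (Lf_M_mono U a hkN) (Lf_M_mono U a (Nat.le_succ N)) hmem
      (1 : Lf a (U.M k) ≃ₐ[K] Lf a (U.M k))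
    have h2 := fibProd_step U D (k := N) (J := J) (hk.trans hkN) (by omega) 1
    rw [map_one] at h2
    rw [h2, ih (by omega)] at h1
    exact h1.symm

end Pool.Agent.STh
end

section

/-!
# Abelian square roots
-/

open NumberField IsDedekindDomain Pool.Agent.ST Pool.Agent.STb Pool.Agent.STf IntermediateField

namespace Pool.Agent.STh

open Pool.Agent.STg Pool.Agent.STh.F

variable {K : Type*} [Field K] [NumberField K] [Algebra K ℝ] {σ₂ : K →+* ℝ} {a : 𝓞 K}

/-- `twK L n = L(cos (2 π / 2 ^ (n + 2)))` (`twK_le_sup`, `cc_eq_cos`), `2 ^ (n + 2) ∣ M N` for `n + 2 ≤ N`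
(`cos_mem_of_dvd`) -/
lemma twK_le_Lf (U : UD) (a : 𝓞 K) {k N n : ℕ} {L : IntermediateField K ℝ}
    (hL : L ≤ Lf a (U.M k)) (hkN : k ≤ N) (hn : n + 2 ≤ N) : twK L n ≤ Lf a (U.M N) := by
  apply twK_le (hL.trans (Lf_M_mono U a hkN))
  rw [cc_eq_cos]
  have hd : 2 ^ (n + 2) ∣ U.M N := by
    unfold UD.M
    exact (pow_dvd_pow 2 hn).trans (dvd_mul_right _ _)
  have h1 := cos_mem_of_dvd (Lf a (U.M N)) hd (U.M_ne_zero N) (F.cos_mem a (U.M N))
  push_cast at h1
  exact mul_mem (two_mem' _) h1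

/-- **`2`-power degree.** `exists_level` gives `n₀`; let `n = n₀`, `N = max (n + 3) k`, `J ≥ N + 1`, `x = xv U N J 1`,
`x' = fibProd (twK_le_Lf ..) x 1`, which satisfies `PreStark` for `twK L (n + 1)` (`preStark_xv`, `PreStark.fibProd`).
`exists_level` for `L' = L` and `x'`; `fibProd_trans` (twice) and `fibProd_xv`. -/
theorem sqrt_two_power (U : UD) (D : FD σ₂ U.d a) {k : ℕ} (hk : 1 ≤ k)
    {L : IntermediateField K ℝ} [FiniteDimensional K L] [IsAbelianGalois K L]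
    (hLF : L ≤ Lf a (U.M k)) (hr : ∃ r : ℕ, Module.finrank K L = 2 ^ r) :
    ∃ J₀ : ℕ, ∀ J, J₀ ≤ J →
      IsAbelianGalois K (sqrtExt L (fibProd hLF (xv U k J 1) 1)) := by
  obtain ⟨n, hn₀⟩ := exists_level (σ₂ := σ₂) D.deg D.ne (L := L) hr
  set N : ℕ := max (n + 3) k with hN
  have hkN : k ≤ N := le_max_right _ _
  have hnN : n + 3 ≤ N := le_max_left _ _
  refine ⟨max (N + 1) 2, fun J hJ => ?_⟩
  have hJ1 : N + 1 ≤ J := (le_max_left _ _).trans hJ
  have hJ2 : 2 ≤ J := (le_max_right _ _).trans hJ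
  have hle : twK L (n + 1) ≤ Lf a (U.M N) := twK_le_Lf U a hLF hkN (by omega)
  have hfd : FiniteDimensional K (twK L (n + 1)) := fd_twK L (n + 1)
  have hab : IsAbelianGalois K (twK L (n + 1)) := ab_twK L (n + 1)
  have hx : PreStark σ₂ (Lf a (U.M N)) (xv U N J 1) := preStark_xv U D hJ1 hJ2 1
  have hx' : PreStark σ₂ (twK L (n + 1)) (fibProd hle (xv U N J 1) 1) := PreStark.fibProd hle hx
  have h1 := hn₀ n le_rfl _ hx' L (le_twK L n)
  rw [fibProd_trans _ hle hx.mem] at h1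
  have h2 := fibProd_trans hLF (Lf_M_mono U a hkN) hx.mem 1
  rw [fibProd_xv U D hk hkN hJ1] at h2
  rw [h2]
  exact h1

/-- **The general case.** `exists_L2`, `sqrt_two_power` for `L₂`, `norm_square`: `√x_L = √(x_(L₂)) y` with `y ∈ F`, so
`L(√x_L) ≤ F ⊔ L₂(√(x_(L₂)))`, which is abelian (`isAbelianGalois_sup`); `isAbelianGalois_of_le`. -/
theorem sqrt_base (U : UD) (D : FD σ₂ U.d a) {k : ℕ} (hk : 1 ≤ k)
    {L : IntermediateField K ℝ} [FiniteDimensional K L] [IsAbelianGalois K L]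
    (hLF : L ≤ Lf a (U.M k)) : ∃ J : ℕ, k + 1 ≤ J ∧ 2 ≤ J ∧
      IsAbelianGalois K (sqrtExt L (fibProd hLF (xv U k J 1) 1)) := by
  obtain ⟨L₂, hab2, h, hr2, hodd⟩ := exists_L2 L
  have hfd2 : FiniteDimensional K L₂ :=
    FiniteDimensional.of_injective (inclusion h).toLinearMap (inclusion h).toRingHom.injective
  obtain ⟨J₀, hJ₀⟩ := sqrt_two_power U D hk (h.trans hLF) hr2
  refine ⟨max J₀ (max (k + 1) 2), (le_max_left _ _).trans (le_max_right _ _),
    (le_max_right _ _).trans (le_max_right _ _), ?_⟩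
  set J : ℕ := max J₀ (max (k + 1) 2)
  have hJ0 : J₀ ≤ J := le_max_left _ _
  have hJ1 : k + 1 ≤ J := (le_max_left _ _).trans (le_max_right _ _)
  have hJ2 : 2 ≤ J := (le_max_right _ _).trans (le_max_right _ _)
  obtain ⟨y, hy, hy0, hxy⟩ := norm_square U D hJ1 hJ2 hLF h hodd
  have hab3 := hJ₀ J hJ0
  have hab4 : IsAbelianGalois K (Lf a (U.M k) ⊔
      sqrtExt L₂ (fibProd (h.trans hLF) (xv U k J 1) 1) : IntermediateField K ℝ) :=
    isAbelianGalois_sup
  apply isAbelianGalois_of_le (M := Lf a (U.M k) ⊔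
      sqrtExt L₂ (fibProd (h.trans hLF) (xv U k J 1) 1))
  apply sqrtExt_le (hLF.trans le_sup_left)
  rw [hxy, Real.sqrt_mul' _ (sq_nonneg y), Real.sqrt_sq hy0.le]
  exact mul_mem ((le_sup_right : sqrtExt L₂ (fibProd (h.trans hLF) (xv U k J 1) 1) ≤
    Lf a (U.M k) ⊔ sqrtExt L₂ (fibProd (h.trans hLF) (xv U k J 1) 1)) (sqrt_mem_sqrtExt _ _))
    ((le_sup_left : Lf a (U.M k) ≤ Lf a (U.M k) ⊔
      sqrtExt L₂ (fibProd (h.trans hLF) (xv U k J 1) 1)) hy)

end Pool.Agent.STh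
end
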