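import Pool.Agent.Lib.MP_1ef7cf_nt_g.Mg.G017
import Pool.Agent.Lib.MP_1ef7cf_nt_g.Mg.G029
import Pool.Agent.Lib.MP_1ef7cf_nt_h.Mg.G009

section

/-!
# The lemniscatic function is real
-/

open Complex

namespace Pool.Agent.STh

open Pool.Agent.STg

/-- the involution -/
def An1_tau : ℕ × ℕ → ℕ × ℕ
  | (m, 0) => (m, 0)
  | (m, n + 1) => (n, m + 1)

lemma An1_tau_tau (p : ℕ × ℕ) : An1_tau (An1_tau p) = p := by
  obtain ⟨m, n⟩ := p
  cases n with
  | zero => rfl
  | succ n => rfl

lemma An1_gp_tau (p : ℕ × ℕ) : (starRingEnd ℂ (An.gp p)) ^ 4 = An.gp (An1_tau p) ^ 4 := by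
  obtain ⟨m, n⟩ := p
  cases n with
  | zero =>
    have h : starRingEnd ℂ (An.gp (m, 0)) = An.gp (m, 0) := by
      simp [An.gp]
    rw [h]
    rfl
  | succ n =>
    have h : starRingEnd ℂ (An.gp (m, n + 1)) = -I * An.gp (n, m + 1) := by
      simp only [An.gp, map_add, map_mul, map_natCast, map_one, conj_I, Nat.cast_add, Nat.cast_one]
      linear_combination ((m : ℂ) + 1) * I_mul_I
    have h2 : An1_tau (m, n + 1) = (n, m + 1) := rfl
    rw [h, h2, mul_pow]
    have h3 : (-I) ^ 4 = (1 : ℂ) := by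
      rw [neg_pow, I_pow_four]
      norm_num
    rw [h3, one_mul]

/-- `gp (m, n) = (m + 1) + n i`. The map `(m, 0) ↦ (m, 0)`, `(m, n + 1) ↦ (n, m + 1)` is an involution `τ` of `ℕ × ℕ`
with `conj (gp p) ^ 4 = gp (τ p) ^ 4` (`conj (gp (m, n + 1)) = (m + 1) - (n + 1) i =
-i ((n + 1) + (m + 1) i)`), so `conj (sg z) = sg (conj z)`: `Equiv.tprod_eq`, continuity of `conj` and
`Multipliable.map_tprod` (the factors are multipliable: see `AnS1.lean`-`AnS3.lean`). -/
theorem sg_conj (z : ℂ) : An.sg (starRingEnd ℂ z) = starRingEnd ℂ (An.sg z) := by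
  have hm : Multipliable (fun p : ℕ × ℕ => 1 + -(z ^ 4 / An.gp p ^ 4)) := by
    apply multipliable_one_add_of_summable
    have h3 := An.summable_zgp z
    simpa [norm_neg] using h3
  have hm' : Multipliable (fun p : ℕ × ℕ => 1 - z ^ 4 / An.gp p ^ 4) := by
    simpa only [sub_eq_add_neg] using hm
  have h1 := hm'.map_tprod (starRingEnd ℂ) continuous_conj
  unfold An.sg
  rw [map_mul, h1]
  congr 1
  let e : ℕ × ℕ ≃ ℕ × ℕ := ⟨An1_tau, An1_tau, An1_tau_tau, An1_tau_tau⟩
  rw [← e.tprod_eq]
  refine tprod_congr fun p => ?_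
  rw [map_sub, map_one, map_div₀, map_pow, map_pow, An1_gp_tau]
  rfl

/-- `conj (Phi w0 z) = Phi (conj w0) (conj z)`, `conj w0 = w0 - i`, `Phi_add_left` (`AnE2.lean`) -/
theorem PP_conj {c : ℝ} (hK : An.Kron c) (z : ℂ) :
    An.PP (starRingEnd ℂ z) = starRingEnd ℂ (An.PP z) := by
  have h1 : starRingEnd ℂ (An.PP z) = An.Phi (starRingEnd ℂ An.w0) (starRingEnd ℂ z) := by
    unfold An.PP An.Phi
    rw [map_div₀, map_neg, map_mul, map_mul, map_pow, map_pow, ← sg_conj, ← sg_conj, ← sg_conj,
      ← sg_conj, map_add, map_sub]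
  have h2 : starRingEnd ℂ An.w0 = An.w0 + ((⟨0, -1⟩ : GaussianInt) : ℂ) := by
    rw [GaussianInt.toComplex_def]
    simp only [An.w0, map_div₀, map_add, map_one, conj_I, map_ofNat]
    push_cast
    ring
  rw [h1, h2, An.Phi_add_left hK]
  rfl

/-- The lemniscatic data with real `X`: as `exists_lemData` in `AnZ.lean`. -/
theorem exists_lem : ∃ D : LemData, ∀ z : ℂ, D.X (starRingEnd ℂ z) = starRingEnd ℂ (D.X z) := by
  obtain ⟨c, hK⟩ := An.exists_kron
  refine ⟨{
    X := An.XX
    ell := An.ell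
    c₀ := c
    X_add := An.XX_add hK
    X_neg := An.XX_neg
    X_I := An.XX_I hK
    X_half := An.XX_half
    X_w0 := An.XX_w0
    X_inj := fun z u hz hu h => An.XX_inj hK hz hu h
    X_add_w0 := fun z hz hz' => An.XX_add_w0 hK hz hz'
    X_add_half := fun z hz hz' => An.XX_add_half hK hz hz'
    X_oneI := fun z _ hz' => An.XX_oneI hK hz'
    X_mul := fun z u hz hu h1 h2 => An.XX_mul hK hz hu h1 h2
    finite_T := fun β hβ => An.finite_TSet hK hβ
    card_T := fun β hβ => An.card_TFin hK hβ
    X_prod := An.X_prod_field hK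
    ell_add := fun z hz a => An.ell_add hK hz a
    theta := fun α hα => An.theta_XX hK hα
    kron := An.kron_field hK }, ?_⟩
  intro z
  show An.XX (starRingEnd ℂ z) = starRingEnd ℂ (An.XX z)
  unfold An.XX
  rw [map_div₀, ← PP_conj hK, ← PP_conj hK, map_div₀, map_one, map_ofNat]

end Pool.Agent.STh
end

section

/-!
# Existence of the quartic residue symbol of a natural number
-/

namespace Pool.Agent.STh

open Pool.Agent.STg

/-- the norm of an odd element is `1` modulo `4` -/
lemma R1_gN_mod {a : GaussianInt} (ha : gOdd a) : gN a % 4 = 1 := by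
  obtain ⟨u, hu, hP⟩ := exists_prim_assoc ha
  rw [gN_eq_of_associated (associated_unit_mul_right a u hu)]
  exact hP.gN_mod

/-- Fermat and four roots of unity: let `p` be an odd Gaussian prime, `p ∤ d`. Then
`x = d ^ ((N(p) - 1) / 4)` satisfies `x ^ 4 = 1` modulo `p` (`N(p) = 1` modulo `4` for odd elements:
`exists_prim_assoc`, `Prim.gN_mod`; `D8d_fermat` in `MP_1ef7cf_nt_g/D8d.lean`), and `x ^ 4 - 1` is the product
of the `x - u`, `u` a unit. -/
lemma exists_unit_dvd (d : ℕ) {p : GaussianInt} (hp : Prime p) (ho : gOdd p)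
    (hd : ¬ p ∣ ((d : ℕ) : GaussianInt)) :
    ∃ u : GaussianIntˣ, p ∣ ((d : ℕ) : GaussianInt) ^ ((gN p - 1) / 4) - (u : GaussianInt) := by
  set x := ((d : ℕ) : GaussianInt) ^ ((gN p - 1) / 4) with hx
  have h1 : p ∣ x ^ 4 - 1 := by
    have h2 := D8d_fermat hp hd
    have h3 := R1_gN_mod ho
    have h4 : (gN p - 1) = (gN p - 1) / 4 * 4 := by omega
    rw [h4, pow_mul] at h2
    exact h2
  have h2 : (1 : GaussianInt) + ⟨0, 1⟩ ^ 2 = 0 := by decide
  have e : x ^ 4 - 1 = (x - 1) * ((x - (-1)) * ((x - ⟨0, 1⟩) * (x - (-⟨0, 1⟩)))) := by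
    linear_combination (x ^ 2 - 1) * h2
  rw [e] at h1
  have hI : (⟨0, 1⟩ : GaussianInt) * (-⟨0, 1⟩) = 1 := by decide
  rcases hp.dvd_or_dvd h1 with h3 | h3
  · exact ⟨1, h3⟩
  rcases hp.dvd_or_dvd h3 with h4 | h4
  · exact ⟨-1, h4⟩
  rcases hp.dvd_or_dvd h4 with h5 | h5
  · exact ⟨⟨⟨0, 1⟩, -⟨0, 1⟩, hI, by rw [mul_comm]; exact hI⟩, h5⟩
  · exact ⟨⟨-⟨0, 1⟩, ⟨0, 1⟩, by rw [mul_comm]; exact hI, hI⟩, h5⟩

/-- units of `ℤ[i]` are fourth roots of unity -/
lemma units_pow_four (u : GaussianIntˣ) : (u : GaussianInt) ^ 4 = 1 := by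
  have hu : IsUnit (u : GaussianInt) := u.isUnit
  rcases Q_units (u : GaussianInt) hu with h | h | h | h
  · have e : (u : GaussianInt) = ⟨1, 0⟩ := by
      ext
      · exact h.1
      · exact h.2
    rw [e]
    decide
  · have e : (u : GaussianInt) = ⟨-1, 0⟩ := by
      ext
      · exact h.1
      · exact h.2
    rw [e]
    decide
  · have e : (u : GaussianInt) = ⟨0, 1⟩ := by
      ext
      · exact h.1
      · exact h.2
    rw [e]
    decide
  · have e : (u : GaussianInt) = ⟨0, -1⟩ := by
      ext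
      · exact h.1
      · exact h.2
    rw [e]
    decide

/-- uniqueness: the differences of two units divide `2`, up to units they are `1 + i` or `2` -/
lemma unit_unique {p : GaussianInt} (hp : Prime p) (ho : gOdd p) {u v : GaussianIntˣ}
    (h : p ∣ (u : GaussianInt) - (v : GaussianInt)) : u = v := by
  apply Units.ext
  exact unit_dvd hp ho (units_pow_four u) (units_pow_four v) h

/-- uniqueness of the value at a prime -/
lemma R1_unique {x p : GaussianInt} (hp : Prime p) (ho : gOdd p) {u v : GaussianIntˣ}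
    (hu : p ∣ x - (u : GaussianInt)) (hv : p ∣ x - (v : GaussianInt)) : u = v := by
  apply unit_unique hp ho
  have e : (u : GaussianInt) - (v : GaussianInt) = (x - v) - (x - u) := by ring
  rw [e]
  exact dvd_sub hv hu

open Classical in
/-- the symbol of a prime -/
noncomputable def k0 (d : ℕ) (p : GaussianInt) : GaussianIntˣ :=
  if h : ∃ u : GaussianIntˣ, p ∣ ((d : ℕ) : GaussianInt) ^ ((gN p - 1) / 4) - (u : GaussianInt)
  then h.choose else 1

open Classical in
/-- the value of the symbol at a prime, and `1` elsewhere -/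
noncomputable def R1_kp (d : ℕ) (π : GaussianInt) : GaussianIntˣ :=
  if h : Prime π ∧ gOdd π ∧ ¬ π ∣ (d : GaussianInt) then (exists_unit_dvd d h.1 h.2.1 h.2.2).choose else 1

lemma R1_kp_spec {d : ℕ} {π : GaussianInt} (hπ : Prime π) (ho : gOdd π)
    (hd : ¬ π ∣ (d : GaussianInt)) :
    π ∣ (d : GaussianInt) ^ ((gN π - 1) / 4) - (R1_kp d π : GaussianInt) := by
  have h : Prime π ∧ gOdd π ∧ ¬ π ∣ (d : GaussianInt) := ⟨hπ, ho, hd⟩
  rw [R1_kp, dif_pos h]
  exact (exists_unit_dvd d h.1 h.2.1 h.2.2).choose_spec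

lemma R1_gOdd_of_associated {a b : GaussianInt} (h : Associated a b) (ha : gOdd a) : gOdd b := by
  unfold gOdd at *
  rw [← gN_eq_of_associated h]
  exact ha

lemma R1_kp_associated {d : ℕ} {a b : GaussianInt} (h : Associated a b) : R1_kp d a = R1_kp d b := by
  by_cases ha : Prime a ∧ gOdd a ∧ ¬ a ∣ (d : GaussianInt)
  · have hb : Prime b ∧ gOdd b ∧ ¬ b ∣ (d : GaussianInt) :=
      ⟨h.prime_iff.1 ha.1, R1_gOdd_of_associated h ha.2.1, fun h1 => ha.2.2 (h.dvd.trans h1)⟩
    apply R1_unique (x := (d : GaussianInt) ^ ((gN a - 1) / 4)) ha.1 ha.2.1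
      (R1_kp_spec ha.1 ha.2.1 ha.2.2)
    rw [gN_eq_of_associated h]
    exact h.dvd.trans (R1_kp_spec hb.1 hb.2.1 hb.2.2)
  · have hb : ¬ (Prime b ∧ gOdd b ∧ ¬ b ∣ (d : GaussianInt)) := by
      rintro ⟨h1, h2, h3⟩
      exact ha ⟨h.prime_iff.2 h1, R1_gOdd_of_associated h.symm h2, fun h4 => h3 (h.symm.dvd.trans h4)⟩
    rw [R1_kp, R1_kp, dif_neg ha, dif_neg hb]

lemma R1_kp_star {d : ℕ} (a : GaussianInt) : R1_kp d (star a) = star (R1_kp d a) := by
  by_cases ha : Prime a ∧ gOdd a ∧ ¬ a ∣ (d : GaussianInt)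
  · have ho : gOdd (star a) := by
      unfold gOdd
      rw [gN_star]
      exact ha.2.1
    have hd : ¬ star a ∣ (d : GaussianInt) := by
      intro h1
      have h2 := star_dvd_star h1
      rw [star_star, star_natCast'] at h2
      exact ha.2.2 h2
    apply R1_unique (x := (d : GaussianInt) ^ ((gN a - 1) / 4)) (prime_star ha.1) ho
    · have h1 := R1_kp_spec (prime_star ha.1) ho hd
      rw [gN_star] at h1
      exact h1
    · have h1 := star_dvd_star (R1_kp_spec ha.1 ha.2.1 ha.2.2)
      rw [star_sub, star_pow, star_natCast'] at h1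
      exact h1
  · have hb : ¬ (Prime (star a) ∧ gOdd (star a) ∧ ¬ star a ∣ (d : GaussianInt)) := by
      rintro ⟨h1, h2, h3⟩
      apply ha
      refine ⟨?_, ?_, ?_⟩
      · have := prime_star h1
        rwa [star_star] at this
      · unfold gOdd at *
        rwa [gN_star] at h2
      · intro h4
        have h5 := star_dvd_star h4
        rw [star_natCast'] at h5
        exact h3 h5
    rw [R1_kp, R1_kp, dif_neg ha, dif_neg hb, star_one]

open UniqueFactorizationMonoid in
/-- the symbol -/
noncomputable def R1_kap (d : ℕ) (a : GaussianInt) : GaussianIntˣ :=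
  ((factors a).map (R1_kp d)).prod

open UniqueFactorizationMonoid in
lemma R1_kap_eq_of_rel {d : ℕ} {s t : Multiset GaussianInt} (h : Multiset.Rel Associated s t) :
    (s.map (R1_kp d)).prod = (t.map (R1_kp d)).prod := by
  induction h with
  | zero => rfl
  | cons h1 _ ih =>
    rw [Multiset.map_cons, Multiset.map_cons, Multiset.prod_cons, Multiset.prod_cons, ih,
      R1_kp_associated h1]

open UniqueFactorizationMonoid in
lemma R1_kap_mul {d : ℕ} {a b : GaussianInt} (ha : a ≠ 0) (hb : b ≠ 0) :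
    R1_kap d (a * b) = R1_kap d a * R1_kap d b := by
  unfold R1_kap
  rw [R1_kap_eq_of_rel (factors_mul ha hb), Multiset.map_add, Multiset.prod_add]

open UniqueFactorizationMonoid in
lemma R1_kap_star {d : ℕ} (a : GaussianInt) : R1_kap d (star a) = star (R1_kap d a) := by
  unfold R1_kap
  by_cases ha : a = 0
  · rw [ha, star_zero, factors_zero, Multiset.map_zero, Multiset.prod_zero, star_one]
  · have hsa : star a ≠ 0 := star_ne_zero.2 ha
    have h1 : Multiset.Rel Associated (factors (star a)) ((factors a).map star) := by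
      refine factors_unique (fun x hx => irreducible_of_factor x hx) ?_ ?_
      · intro x hx
        rw [Multiset.mem_map] at hx
        obtain ⟨y, hy, rfl⟩ := hx
        exact (prime_star (prime_of_factor y hy)).irreducible
      · have h2 : Associated (factors (star a)).prod (star a) := factors_prod hsa
        have h3 : ((factors a).map star).prod = star (factors a).prod :=
          (map_multiset_prod (starRingAut : GaussianInt ≃+* GaussianInt) _).symm
        rw [h3]
        refine h2.trans ?_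
        obtain ⟨u, hu⟩ := (factors_prod ha).symm
        refine ⟨star u, ?_⟩
        rw [← hu, star_mul, mul_comm]
        rfl
    rw [R1_kap_eq_of_rel h1, Multiset.map_map]
    have h4 : (factors a).map (R1_kp d ∘ star) = ((factors a).map (R1_kp d)).map star := by
      rw [Multiset.map_map]
      refine Multiset.map_congr rfl fun x _ => ?_
      exact R1_kp_star x
    rw [h4]
    exact (map_multiset_prod (starMulAut : GaussianIntˣ ≃* GaussianIntˣ) _).symm

open UniqueFactorizationMonoid in
lemma R1_kap_prime {d : ℕ} {π : GaussianInt} (hπ : Prime π) : R1_kap d π = R1_kp d π := by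
  unfold R1_kap
  have h1 : Multiset.Rel Associated (factors π) {π} := by
    refine factors_unique (fun x hx => irreducible_of_factor x hx) ?_ ?_
    · intro x hx
      rw [Multiset.mem_singleton] at hx
      rw [hx]
      exact hπ.irreducible
    · rw [Multiset.prod_singleton]
      exact factors_prod hπ.ne_zero
  rw [R1_kap_eq_of_rel h1, Multiset.map_singleton, Multiset.prod_singleton]

/-- **Existence.** `κ a = ∏ k0 p`, the product over the prime factors `p` of `a` which are odd and do not divide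
`d` (`1` for the others), with multiplicity: `(UniqueFactorizationMonoid.normalizedFactors a)` as a multiset.
For `st`: the prime factors of `star a` are associated to the `star p`, `gN (star p) = gN p`, and
`k0 (star p) = star (k0 p)` by uniqueness (apply `star` to the divisibility; `d` is fixed). To avoid normalization
problems one may show `k0 d p = k0 d q` for associated odd primes `p`, `q` not dividing `d` (the norms are equal). -/
theorem exists_kap (d : ℕ) (hd : d ≠ 0) : ∃ κ : GaussianInt → GaussianIntˣ,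
    (∀ a b : GaussianInt, a ≠ 0 → b ≠ 0 → κ (a * b) = κ a * κ b) ∧
    (∀ p : GaussianInt, Prime p → gOdd p → ¬ p ∣ ((d : ℕ) : GaussianInt) →
      p ∣ ((d : ℕ) : GaussianInt) ^ ((gN p - 1) / 4) - ((κ p : GaussianIntˣ) : GaussianInt)) ∧
    ∀ a : GaussianInt, ((κ (star a) : GaussianIntˣ) : GaussianInt) =
      star ((κ a : GaussianIntˣ) : GaussianInt) := by
  have _ := hd
  refine ⟨R1_kap d, fun a b ha hb => R1_kap_mul ha hb, fun p hp ho hpd => ?_, fun a => ?_⟩
  · rw [R1_kap_prime hp]
    exact R1_kp_spec hp ho hpd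
  · rw [R1_kap_star]
    rfl

end Pool.Agent.STh
end
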