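import Pool.Agent.Lib.MP_1ef7cf_nt_h.Z4a
import Pool.Agent.Lib.MP_1ef7cf_nt_h.Mg.G005
import Pool.Agent.Lib.MP_1ef7cf_nt_h.UEx

section

/-!
# The conditions 1-3
-/

open NumberField IsDedekindDomain Pool.Agent.ST Pool.Agent.STb Pool.Agent.STf IntermediateField

namespace Pool.Agent.STh

open Pool.Agent.STg Pool.Agent.STh.F

variable {K : Type*} [Field K] [NumberField K] [Algebra K ℝ] {σ₂ : K →+* ℝ} {a : 𝓞 K}

omit [Algebra K ℝ] in
private lemma Z4_dvd_prime {v w : HeightOneSpectrum (𝓞 K)} (h : v.asIdeal ∣ w.asIdeal) : v = w := by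
  have h1 : w.asIdeal ≤ v.asIdeal := Ideal.dvd_iff_le.1 h
  have h2 : w.asIdeal = v.asIdeal := w.isMaximal.eq_of_le v.isPrime.ne_top h1
  exact HeightOneSpectrum.ext h2.symm

omit [Algebra K ℝ] in
private lemma Z4_dvd_iff (n : ℕ) (T : Finset (HeightOneSpectrum (𝓞 K)))
    (v : HeightOneSpectrum (𝓞 K)) :
    v.asIdeal ∣ Ideal.span {(n : 𝓞 K)} * ∏ w ∈ T, w.asIdeal ↔ (n : 𝓞 K) ∈ v.asIdeal ∨ v ∈ T := by
  have hv : Prime v.asIdeal := v.prime
  rw [hv.dvd_mul, Prime.dvd_finsetProd_iff hv, Ideal.dvd_span_singleton]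
  constructor
  · rintro (h | ⟨w, hw, h⟩)
    · exact Or.inl h
    · exact Or.inr (by rw [Z4_dvd_prime h]; exact hw)
  · rintro (h | h)
    · exact Or.inl h
    · exact Or.inr ⟨v, h, dvd_rfl⟩

/-- **All moduli.** Let `S` be the finite set of the primes `v ∣ m` with `n ∉ v` (`finite_dvd`). By induction on a finite subset `T` of `S`
(`good_base`, `Good.mul`) there is a good element for `span {n} * ∏ v`, `v ∈ T`; the modulus for `T = S` has the same prime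
divisors as `m` (`Good.congr`). `M k = 2 ^ k n` and `2 ∣ n`, so `n ∉ v` implies `M k ∉ v`. -/
theorem good_all (U : UD) (D : FD σ₂ U.d a) {k : ℕ} (hk : 1 ≤ k) {m : Ideal (𝓞 K)} (hm0 : m ≠ ⊥)
    (hm : Above U.n m) {L : IntermediateField K ℝ}
    [FiniteDimensional K L] [IsAbelianGalois K L] (hLF : L ≤ Lf a (U.M k)) :
    ∃ x, Good σ₂ a m (U.M k) L hLF x := by
  classical
  have hfin : {v : HeightOneSpectrum (𝓞 K) | v.asIdeal ∣ m ∧ (U.n : 𝓞 K) ∉ v.asIdeal}.Finite :=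
    (finite_dvd hm0).subset fun v hv => hv.1
  have h2n : 2 ∣ U.n := (dvd_trans (by norm_num) (Dvd.intro _ rfl : (64 : ℕ) ∣ 64 * U.d)).trans U.dvd
  have hMk : ∀ v : HeightOneSpectrum (𝓞 K), (U.n : 𝓞 K) ∉ v.asIdeal →
      ((U.M k : ℕ) : 𝓞 K) ∉ v.asIdeal := by
    intro v hv h
    apply hv
    unfold UD.M at h
    rw [Nat.cast_mul, Nat.cast_pow] at h
    rcases v.isPrime.mem_or_mem h with h1 | h1
    · have h3 := v.isPrime.mem_of_pow_mem k h1
      obtain ⟨c, hc⟩ := h2n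
      rw [hc, Nat.cast_mul]
      exact Ideal.mul_mem_right _ _ h3
    · exact h1
  have hdM : 2 * U.d ∣ U.M k := by
    have h1 : 2 * U.d ∣ 64 * U.d := Nat.mul_dvd_mul_right (by norm_num) _
    exact (h1.trans U.dvd).trans (Dvd.intro_left _ rfl)
  have hM0 : U.M k ≠ 0 := U.M_ne_zero k
  have hind : ∀ T : Finset (HeightOneSpectrum (𝓞 K)), (∀ v ∈ T, (U.n : 𝓞 K) ∉ v.asIdeal) →
      ∃ x, Good σ₂ a (Ideal.span {(U.n : 𝓞 K)} * ∏ w ∈ T, w.asIdeal) (U.M k) L hLF x := by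
    intro T
    induction T using Finset.induction_on with
    | empty =>
      intro _
      rw [Finset.prod_empty, mul_one]
      exact good_base U D hk hLF
    | insert v T hvT ih =>
      intro hT
      obtain ⟨x, hx⟩ := ih fun w hw => hT w (Finset.mem_insert_of_mem hw)
      have hvn := hT v (Finset.mem_insert_self _ _)
      have hv : ¬ v.asIdeal ∣ Ideal.span {(U.n : 𝓞 K)} * ∏ w ∈ T, w.asIdeal := by
        rw [Z4_dvd_iff]
        rintro (h | h)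
        · exact hvn h
        · exact hvT h
      obtain ⟨x', hx'⟩ := Good.mul D hM0 hdM hv (hMk v hvn) hx
      refine ⟨x', ?_⟩
      rw [Finset.prod_insert hvT, mul_comm v.asIdeal, ← mul_assoc]
      exact hx'
  obtain ⟨x, hx⟩ := hind hfin.toFinset fun v hv => ((Set.Finite.mem_toFinset hfin).1 hv).2
  refine ⟨x, Good.congr ?_ hm0 ?_ hx⟩
  · apply mul_ne_zero
    · rw [Ne, Submodule.zero_eq_bot, Ideal.span_singleton_eq_bot]
      exact_mod_cast U.n0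
    · exact Finset.prod_ne_zero_iff.2 fun w _ => w.ne_bot
  · intro v
    rw [Z4_dvd_iff, Set.Finite.mem_toFinset]
    constructor
    · rintro (h | h)
      · exact hm v h
      · exact h.1
    · intro h
      by_cases h1 : (U.n : 𝓞 K) ∈ v.asIdeal
      · exact Or.inl h1
      · exact Or.inr ⟨h, h1⟩

/-- **The conditions 1-3.** `rcf`: `hA`; `pre`: `PreStark.fibProd`; `act`: `act γ (fibProd x 1) = fibProd x γ` (`act_fibProd_one`),
`log (fibProd x γ) = ∑ log (act τ x) = -2 ∑ zd` (`S_main` with `t τ = log (act τ x)`), so it is `pf hLH (ez σ₂ m Art) γ`. Compare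
`MP_1ef7cf_nt_g/Z4.lean`. -/
theorem td_of_good {d : ℕ} (D : FD σ₂ d a) {Q : ℕ} (hQ : Q ≠ 0) (hdQ : 2 * d ∣ Q)
    {m : Ideal (𝓞 K)} (hm0 : m ≠ ⊥) (hm : Above Q m) {H : IntermediateField K ℝ}
    {Art : RayClassGroup σ₂ m ≃* (H ≃ₐ[K] H)} (hA : IsRayClassField σ₂ m H Art)
    {L : IntermediateField K ℝ} [FiniteDimensional K L] [IsAbelianGalois K L] (hLH : L ≤ H)
    {hLF : L ≤ Lf a Q} {x : ℝ} (h : Good σ₂ a m Q L hLF x) : TD σ₂ m L (fibProd hLF x 1) := by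
  classical
  have hfd : FiniteDimensional K H := hA.finite
  refine ⟨H, Art, hfd, inferInstance, hLH, ⟨hA, h.pre.fibProd hLF, fun γ => ?_⟩⟩
  rw [act_fibProd_one hLF h.pre.mem]
  have h1 := S_main D hQ hdQ hm0 hm hA hLH hLF (fun τ => Real.log (act τ x)) h.gk γ
  unfold pf ez
  rw [← Real.exp_sum, ← Finset.mul_sum, h1, Real.exp_sum]
  unfold fibProd
  exact Finset.prod_congr rfl fun τ _ => (Real.exp_log (h.pre.pos τ)).symm

end Pool.Agent.STh
end

section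

/-!
# The main theorem
-/

open NumberField IsDedekindDomain Pool.Agent.ST Pool.Agent.STb Pool.Agent.STf IntermediateField

namespace Pool.Agent.STh

open Pool.Agent.STg Pool.Agent.STh.F

variable {K : Type*} [Field K] [NumberField K] [Algebra K ℝ] {σ₂ : K →+* ℝ} {a : 𝓞 K} {d : ℕ}

omit [NumberField K] [Algebra K ℝ] in
/-- a prime which contains `2 ^ j (64 d n)` contains `2 d n` -/
lemma Z5_mem {n j : ℕ} {v : HeightOneSpectrum (𝓞 K)}
    (h : ((2 ^ j * (64 * d * n) : ℕ) : 𝓞 K) ∈ v.asIdeal) :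
    (2 * d * n : 𝓞 K) ∈ v.asIdeal := by
  have hp := v.isPrime
  have h1 : (2 : 𝓞 K) ^ (j + 6) * ((d : 𝓞 K) * (n : 𝓞 K)) ∈ v.asIdeal := by
    have h2 : ((2 ^ j * (64 * d * n) : ℕ) : 𝓞 K) = (2 : 𝓞 K) ^ (j + 6) * ((d : 𝓞 K) * (n : 𝓞 K)) := by
      push_cast
      ring
    rwa [h2] at h
  have h3 : (2 * d * n : 𝓞 K) = 2 * ((d : 𝓞 K) * (n : 𝓞 K)) := by ring
  rw [h3]
  rcases hp.mem_or_mem h1 with h4 | h4
  · exact Ideal.mul_mem_right _ _ (hp.mem_of_pow_mem _ h4)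
  · exact Ideal.mul_mem_left _ _ h4

/-- Let `n' = 64 d n`, `U` as in `exists_ud`, `Q = U.M 1`. A prime which contains `n'` or `Q` contains `2 d n`. `L ≤ Lf a Q`
(`cos_mem_of_dvd`), so `L` is finite and abelian over `K`. `good_all`, `td_of_good`, `starkTateIn_of_td`. -/
theorem stark_main (D : FD σ₂ d a) {n : ℕ} (hn : n ≠ 0) {m : Ideal (𝓞 K)} (hm0 : m ≠ ⊥)
    (hm : ∀ v : HeightOneSpectrum (𝓞 K), (2 * d * n : 𝓞 K) ∈ v.asIdeal → v.asIdeal ∣ m)
    {H : IntermediateField K ℝ} {Art : RayClassGroup σ₂ m ≃* (H ≃ₐ[K] H)}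
    (hA : IsRayClassField σ₂ m H Art) {L : IntermediateField K ℝ} (hLH : L ≤ H)
    (hL : L ≤ K⟮se a⟯ ⊔ K⟮Real.cos (2 * Real.pi / n)⟯) : StarkRQ.StarkTateIn σ₂ m L := by
  have hd0 : d ≠ 0 := by
    rintro rfl
    exact D.nsq ⟨0, rfl⟩
  have hn' : 64 * d * n ≠ 0 := by positivity
  obtain ⟨U, hUd, hUn⟩ := exists_ud D.nsq hn' ⟨n, rfl⟩
  have hM : U.M 1 = 2 ^ 1 * (64 * d * n) := by unfold UD.M; rw [hUn]
  have hQ0 : U.M 1 ≠ 0 := by rw [hM]; positivity
  have hdQ : 2 * d ∣ U.M 1 := ⟨64 * n, by rw [hM]; ring⟩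
  have hnQ : n ∣ U.M 1 := ⟨2 * 64 * d, by rw [hM]; ring⟩
  have hab1 : Above (K := K) U.n m := by
    intro v hv
    refine hm v (Z5_mem (j := 0) (n := n) (d := d) ?_)
    rw [hUn] at hv
    simpa using hv
  have hab2 : Above (K := K) (U.M 1) m := by
    intro v hv
    refine hm v (Z5_mem (j := 1) (n := n) (d := d) ?_)
    rwa [hM] at hv
  have hm1 : m ≠ ⊤ := ne_top_of_two fun v hv => hm v (by
    have h3 : (2 * d * n : 𝓞 K) = 2 * ((d : 𝓞 K) * (n : 𝓞 K)) := by ring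
    rw [h3]
    exact Ideal.mul_mem_right _ _ hv)
  have hLF : L ≤ Lf a (U.M 1) := hL.trans (sup_le le_sup_left
    (adjoin_simple_le_iff.2 (cos_mem_of_dvd _ hnQ hQ0 (cos_mem a (U.M 1)))))
  have hfd : FiniteDimensional K L := fd_of_le hLF
  have hab : IsAbelianGalois K L := isAbelianGalois_of_le hLF
  have D' : FD σ₂ U.d a := by rw [hUd]; exact D
  obtain ⟨x, hx⟩ := good_all U D' le_rfl hm0 hab1 hLF
  exact starkTateIn_of_td D.deg D.ne hm0 hm1 (td_of_good D hQ0 hdQ hm0 hab2 hA hLH hx) hx.ab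

end Pool.Agent.STh
end
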